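import Mathlib.LinearAlgebra.ExteriorAlgebra.Basis
import Mathlib.LinearAlgebra.CliffordAlgebra.Contraction
import Mathlib.Analysis.Calculus.ContDiff.Defs
import Mathlib.Analysis.Normed.Module.FiniteDimension
import Mathlib.MeasureTheory.Integral.Bochner.Set
import Mathlib.MeasureTheory.Measure.Lebesgue.Basic
import Mathlib.LinearAlgebra.CliffordAlgebra.Conjugation
import Mathlib.LinearAlgebra.Determinant
import Mathlib.Analysis.Calculus.FDeriv.Symmetric
import Mathlib.Analysis.Calculus.ContDiff.Operations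
import Mathlib.Analysis.Calculus.ContDiff.FiniteDimension

-- ======== part 0: formerly Pool.Agent.MP_c8d41b_gt.gf.Defs
section MrgPart0

/-! PROJECT GF (row MP_c8d41b_gt): definitions used by the statement. -/

open scoped ContDiff Topology
open Set

noncomputable section

namespace Pool.Agent.MP_c8d41b_gt.GF

/-! ### Differential forms on a finite-dimensional normed space -/

/-- A norm on the exterior algebra of a finite-dimensional real vector space (sup norm of the
coordinates in a basis; all norms on it are equivalent). -/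
instance extNorm (M : Type) [AddCommGroup M] [Module ℝ M] [FiniteDimensional ℝ M] :
    NormedAddCommGroup (ExteriorAlgebra ℝ M) :=
  NormedAddCommGroup.induced _ _ (Module.finBasis ℝ M).ExteriorAlgebra.equivFun.toLinearMap
    (Module.finBasis ℝ M).ExteriorAlgebra.equivFun.injective

instance extSpace (M : Type) [AddCommGroup M] [Module ℝ M] [FiniteDimensional ℝ M] :
    NormedSpace ℝ (ExteriorAlgebra ℝ M) :=
  NormedSpace.induced ℝ _ _ (Module.finBasis ℝ M).ExteriorAlgebra.equivFun.toLinearMap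

/-- the exterior algebra of the dual space: values of differential forms on `E` -/
abbrev Lam (E : Type) [NormedAddCommGroup E] [NormedSpace ℝ E] : Type :=
  ExteriorAlgebra ℝ (E →L[ℝ] ℝ)

section Forms
variable {E E' : Type} [NormedAddCommGroup E] [NormedSpace ℝ E] [NormedAddCommGroup E']
  [NormedSpace ℝ E']

/-- pull-back of forms by a linear map -/
def mp (L : E' →L[ℝ] E) : Lam E →ₐ[ℝ] Lam E' :=
  ExteriorAlgebra.map (L.precomp ℝ).toLinearMap

/-- interior product with a vector -/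
def ctr (v : E) : Lam E →ₗ[ℝ] Lam E :=
  CliffordAlgebra.contractLeft (ContinuousLinearMap.apply ℝ ℝ v).toLinearMap

/-- value of a form on a list of vectors: contract with them in turn, take the scalar part -/
def ev : List E → Lam E → ℝ
  | [], a => ExteriorAlgebra.algebraMapInv a
  | v :: l, a => ev l (ctr v a)

variable [FiniteDimensional ℝ E]

/-- exterior derivative: the sum of `dx_i ∧ ∂α/∂x_i` in a basis -/
def dd (α : E → Lam E) (x : E) : Lam E :=
  ∑ i, ExteriorAlgebra.ι ℝ (LinearMap.toContinuousLinearMap ((Module.finBasis ℝ E).coord i)) *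
    fderiv ℝ α x (Module.finBasis ℝ E i)

/-! ### The intersection form of a regular level set `C = G⁻¹(0)` -/

variable {K d : ℕ}

/-- `0` is a regular value of `G` -/
def Reg (G : E → Fin K → ℝ) : Prop := ∀ x, G x = 0 → Function.Surjective (fderiv ℝ G x)

/-- smooth `κ`-forms on the ambient space whose support meets `C` in a compact set -/
structure Fm (G : E → Fin K → ℝ) (κ : ℕ) (α : E → Lam E) : Prop where
  sm : ContDiff ℝ ∞ α
  deg : ∀ x, α x ∈ ⋀[ℝ]^κ (E →L[ℝ] ℝ)
  cpt : IsCompact (tsupport α ∩ G ⁻¹' {0})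

/-- the restriction of `α` to `C` is closed: `dα` vanishes on the tangent spaces of `C` -/
def Closed (G : E → Fin K → ℝ) (α : E → Lam E) : Prop :=
  ∀ x, G x = 0 → mp (fderiv ℝ G x).ker.subtypeL (dd α x) = 0

/-- positively oriented local parametrisation of `C` (`J` orients the ambient space) -/
structure Chart (G : E → Fin K → ℝ) (J : E ≃L[ℝ] (Fin d → ℝ) × (Fin K → ℝ))
    (φ : (Fin d → ℝ) → E) (V : Set (Fin d → ℝ)) : Prop where
  op : IsOpen V
  sm : ContDiffOn ℝ ∞ φ V
  inj : InjOn φ V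
  mem : ∀ t ∈ V, G (φ t) = 0
  pos : ∀ t ∈ V, ∃ Y : (Fin K → ℝ) →L[ℝ] E,
    (fderiv ℝ G (φ t)).comp Y = ContinuousLinearMap.id ℝ _ ∧
    0 < ((J : E →L[ℝ] _).comp ((fderiv ℝ φ t).coprod Y)).det

/-- `B α β` is the integral of `α ∧ β` over `C`: additive in `α`, and given by the usual
formula when the support of `α` on `C` lies in a positive chart -/
structure IsInt (G : E → Fin K → ℝ) (J : E ≃L[ℝ] (Fin d → ℝ) × (Fin K → ℝ)) (κ : ℕ)
    (B : (E → Lam E) → (E → Lam E) → ℝ) : Prop where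
  add : ∀ α α' β, Fm G κ α → Fm G κ α' → Fm G κ β → B (α + α') β = B α β + B α' β
  chart : ∀ φ V, Chart G J φ V → ∀ α β, Fm G κ α → Fm G κ β →
    tsupport α ∩ G ⁻¹' {0} ⊆ φ '' V →
    B α β = ∫ t in V, ev (List.ofFn fun i => fderiv ℝ φ t (Pi.single i 1)) (α (φ t) * β (φ t))

/-- there are `n` closed compactly supported `κ`-forms on whose span `ε * B` is positive -/
def Defin (G : E → Fin K → ℝ) (κ : ℕ) (B : (E → Lam E) → (E → Lam E) → ℝ) (ε : ℝ) (n : ℕ) :
    Prop :=
  ∃ v : Fin n → E → Lam E, (∀ i, Fm G κ (v i) ∧ Closed G (v i)) ∧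
    ∀ c : Fin n → ℝ, c ≠ 0 → 0 < ε * B (∑ i, c i • v i) (∑ i, c i • v i)

/-- the `2κ`-manifold `C` has signature zero: `b₊ = b₋`, both finite -/
def SigZero (G : E → Fin K → ℝ) (κ : ℕ) : Prop :=
  ∀ J : E ≃L[ℝ] (Fin (2 * κ) → ℝ) × (Fin K → ℝ), (∃ B, IsInt G J κ B) ∧
    ∀ B, IsInt G J κ B →
      ∃ n, IsGreatest {m | Defin G κ B 1 m} n ∧ IsGreatest {m | Defin G κ B (-1) m} n

end Forms

/-! ### Generating functions over `M = g⁻¹(0)` -/

section Gen
variable {p q k : ℕ}

/-- base times fibre -/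
abbrev Tot (p k : ℕ) : Type := (Fin p → ℝ) × (Fin k → ℝ)

/-- `M = g⁻¹(0)` is a compact regular level set -/
structure Base (g : (Fin p → ℝ) → Fin q → ℝ) : Prop where
  sm : ContDiff ℝ ∞ g
  cpt : IsCompact {z | ‖g z‖ ≤ 1}
  reg : Reg g

/-- fibre derivative -/
def dv (f : Tot p k → ℝ) (y : Tot p k) : Fin k → ℝ := fun i => fderiv ℝ f y (0, Pi.single i 1)

/-- equations of the fibre-critical set over `M` -/
def crit (g : (Fin p → ℝ) → Fin q → ℝ) (f : Tot p k → ℝ) (y : Tot p k) : Fin (k + q) → ℝ :=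
  Fin.append (dv f y) (g y.1)

/-- the map to the cotangent bundle `T^*M`: `(z, v) ↦ (z, d_z f` restricted to `T_z M)` -/
def lag (g : (Fin p → ℝ) → Fin q → ℝ) (f : Tot p k → ℝ) (y : Tot p k) :
    Σ z : Fin p → ℝ, (fderiv ℝ g z).ker →L[ℝ] ℝ :=
  ⟨y.1, ((fderiv ℝ f y).comp (ContinuousLinearMap.inl ℝ _ _)).comp (fderiv ℝ g y.1).ker.subtypeL⟩

/-- `f` generates an embedded Lagrangian in `T^*M`: the fibre-critical set is cut out
transversally and maps injectively to `T^*M` -/
structure Gen (g : (Fin p → ℝ) → Fin q → ℝ) (f : Tot p k → ℝ) : Prop where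
  reg : Reg (crit g f)
  inj : InjOn (lag g f) (crit g f ⁻¹' {0})

/-- a homotopy of functions from `f₀` to `f₁`, controlled at infinity near `M` -/
structure Path (g : (Fin p → ℝ) → Fin q → ℝ) (F : ℝ × Tot p k → ℝ) (f₀ f₁ : Tot p k → ℝ) :
    Prop where
  sm : ContDiff ℝ ∞ F
  left : ∀ r ≤ 0, ∀ y, F (r, y) = f₀ y
  right : ∀ r ≥ 1, ∀ y, F (r, y) = f₁ y
  far : ∃ R m : ℝ, 0 < m ∧ ∀ r y, ‖g y.1‖ ≤ 1 → R ≤ ‖y.2‖ → m ≤ ‖dv (fun y => F (r, y)) y‖
  bdd : ∃ K₀ : ℝ, ∀ r y, ‖g y.1‖ ≤ 1 → |F (r, y) - f₀ y| ≤ K₀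

/-- equations of the cobordism `C`: the fibre-critical set of the homotopy -/
def cob (g : (Fin p → ℝ) → Fin q → ℝ) (F : ℝ × Tot p k → ℝ) (x : ℝ × Tot p k) :
    Fin (k + q) → ℝ :=
  crit g (fun y => F (x.1, y)) x.2

end Gen

/-- the final statement -/
def Final : Prop :=
  ∀ (p q k j : ℕ) (g : (Fin p → ℝ) → Fin q → ℝ) (f₀ f₁ : Tot p k → ℝ), 1 ≤ j →
    1 + p = 4 * j + q → Base g → Gen g f₀ → Gen g f₁ → (∃ F, Path g F f₀ f₁) →
    (∃ F, Path g F f₀ f₁ ∧ Reg (cob g F)) ∧
      ∀ F, Path g F f₀ f₁ → Reg (cob g F) → SigZero (cob g F) (2 * j)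

end Pool.Agent.MP_c8d41b_gt.GF

end
end MrgPart0

-- ======== part 1: formerly Pool.Agent.MP_c8d41b_gt.gf.Alg
section MrgPart1

/-! PROJECT GF: pointwise algebra of forms. -/

open Set ExteriorAlgebra

noncomputable section

namespace Pool.Agent.MP_c8d41b_gt.GF

variable {E E' E'' : Type} [NormedAddCommGroup E] [NormedSpace ℝ E] [NormedAddCommGroup E']
  [NormedSpace ℝ E'] [NormedAddCommGroup E''] [NormedSpace ℝ E'']

/-- induction: scalars, sums, left multiplication by a covector -/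
theorem lam_ind {P : Lam E → Prop} (h0 : ∀ r : ℝ, P (algebraMap ℝ _ r))
    (ha : ∀ a b, P a → P b → P (a + b)) (hm : ∀ l a, P a → P (ι ℝ l * a)) (a : Lam E) : P a := by
  induction a using CliffordAlgebra.left_induction with
  | algebraMap r => exact h0 r
  | add x y hx hy => exact ha x y hx hy
  | ι_mul x m hx => exact hm m x hx

/-- the parity involution -/
def inv : Lam E →ₐ[ℝ] Lam E := CliffordAlgebra.involute

@[simp] theorem inv_ι (l : E →L[ℝ] ℝ) : inv (ι ℝ l) = -ι ℝ l := CliffordAlgebra.involute_ι l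
@[simp] theorem inv_inv (a : Lam E) : inv (inv a) = a := CliffordAlgebra.involute_involute a

@[simp] theorem mp_ι (L : E' →L[ℝ] E) (l : E →L[ℝ] ℝ) : mp L (ι ℝ l) = ι ℝ (l.comp L) :=
  map_apply_ι _ _

theorem mp_id (a : Lam E) : mp (ContinuousLinearMap.id ℝ E) a = a := by
  induction a using lam_ind with
  | h0 r => simp
  | ha a b h1 h2 => rw [map_add, h1, h2]
  | hm l a h => rw [map_mul, h, mp_ι]; rfl

theorem mp_comp (A : E' →L[ℝ] E) (B : E'' →L[ℝ] E') (a : Lam E) :
    mp (A.comp B) a = mp B (mp A a) := by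
  induction a using lam_ind with
  | h0 r => simp
  | ha a b h1 h2 => simp only [map_add, h1, h2]
  | hm l a h => simp only [map_mul, h, mp_ι]; rfl

theorem ι_anti (l m : E →L[ℝ] ℝ) : ι ℝ l * ι ℝ m = -(ι ℝ m * ι ℝ l) :=
  eq_neg_of_add_eq_zero_left (ι_add_mul_swap l m)

theorem ι_ι_mul (l : E →L[ℝ] ℝ) (a : Lam E) : ι ℝ l * (ι ℝ l * a) = 0 := by
  rw [← mul_assoc, ι_sq_zero, zero_mul]

theorem ι_swap (l m : E →L[ℝ] ℝ) (a : Lam E) :
    ι ℝ l * (ι ℝ m * a) = -(ι ℝ m * (ι ℝ l * a)) := by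
  rw [← mul_assoc, ι_anti, neg_mul, mul_assoc]

theorem ι_mul_eq (l : E →L[ℝ] ℝ) (a : Lam E) : ι ℝ l * a = inv a * ι ℝ l := by
  induction a using lam_ind with
  | h0 r => simp [Algebra.commutes]
  | ha a b h1 h2 => rw [mul_add, map_add, add_mul, h1, h2]
  | hm m a h => rw [ι_swap, h, map_mul, inv_ι, neg_mul, neg_mul, mul_assoc]

theorem ctr_ι_mul (v : E) (l : E →L[ℝ] ℝ) (a : Lam E) :
    ctr v (ι ℝ l * a) = l v • a - ι ℝ l * ctr v a :=
  CliffordAlgebra.contractLeft_ι_mul _ _ _

@[simp] theorem ctr_algebraMap (v : E) (r : ℝ) : ctr v (algebraMap ℝ (Lam E) r) = 0 :=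
  CliffordAlgebra.contractLeft_algebraMap _ _ _

@[simp] theorem ctr_one (v : E) : ctr v (1 : Lam E) = 0 := CliffordAlgebra.contractLeft_one _ _

theorem ctr_ι (v : E) (l : E →L[ℝ] ℝ) : ctr v (ι ℝ l) = algebraMap ℝ _ (l v) :=
  CliffordAlgebra.contractLeft_ι _ _ _

theorem ctr_ctr (v : E) (a : Lam E) : ctr v (ctr v a) = 0 :=
  CliffordAlgebra.contractLeft_contractLeft _ _

theorem ctr_comm (v w : E) (a : Lam E) : ctr v (ctr w a) = -ctr w (ctr v a) :=
  CliffordAlgebra.contractLeft_comm _ _ _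

/-- contraction as a bilinear map -/
def ctrL : E →ₗ[ℝ] Lam E →ₗ[ℝ] Lam E where
  toFun := ctr
  map_add' v w := by simp only [ctr, map_add, ContinuousLinearMap.toLinearMap_add]
  map_smul' c v := by simp only [ctr, map_smul, ContinuousLinearMap.toLinearMap_smul, RingHom.id_apply]

@[simp] theorem ctrL_apply (v : E) : ctrL v = ctr v := rfl

theorem ctr_add_left (v w : E) (a : Lam E) : ctr (v + w) a = ctr v a + ctr w a := by
  rw [← ctrL_apply, map_add]; rfl
theorem ctr_smul_left (c : ℝ) (v : E) (a : Lam E) : ctr (c • v) a = c • ctr v a := by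
  rw [← ctrL_apply, map_smul]; rfl
theorem ctr_sub_left (v w : E) (a : Lam E) : ctr (v - w) a = ctr v a - ctr w a := by
  rw [← ctrL_apply, map_sub]; rfl
theorem ctr_zero_left (a : Lam E) : ctr (0 : E) a = 0 := by
  rw [← ctrL_apply, map_zero]; rfl

theorem ctr_mul (v : E) (a b : Lam E) : ctr v (a * b) = ctr v a * b + inv a * ctr v b := by
  induction a using lam_ind with
  | h0 r => simp [← Algebra.smul_def]
  | ha a a' h1 h2 => simp only [add_mul, map_add, h1, h2]; abel
  | hm l a h =>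
    rw [mul_assoc, ctr_ι_mul, ctr_ι_mul, h, map_mul, inv_ι]
    simp only [mul_add, sub_mul, smul_mul_assoc, mul_assoc, neg_mul]
    abel

theorem ctr_mp (L : E' →L[ℝ] E) (v : E') (a : Lam E) : ctr v (mp L a) = mp L (ctr (L v) a) := by
  induction a using lam_ind with
  | h0 r => simp
  | ha a b h1 h2 => simp only [map_add, h1, h2]
  | hm l a h => simp only [map_mul, mp_ι, ctr_ι_mul, h, map_sub, map_smul]; rfl

theorem inv_mp (L : E' →L[ℝ] E) (a : Lam E) : inv (mp L a) = mp L (inv a) := by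
  induction a using lam_ind with
  | h0 r => simp
  | ha a b h1 h2 => simp only [map_add, h1, h2]
  | hm l a h => simp only [map_mul, mp_ι, inv_ι, h, map_neg]

theorem inv_ctr (v : E) (a : Lam E) : inv (ctr v a) = -ctr v (inv a) := by
  induction a using lam_ind with
  | h0 r => simp
  | ha a b h1 h2 => simp only [map_add, h1, h2, neg_add]
  | hm l a h =>
    simp only [map_mul, inv_ι, ctr_ι_mul, map_sub, map_smul, h, neg_mul, map_neg, mul_neg, neg_neg]

theorem mp_add_rank (A : E' →L[ℝ] E) (l : E' →L[ℝ] ℝ) (w : E) (a : Lam E) :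
    mp (A + l.smulRight w) a = mp A a + ι ℝ l * mp A (ctr w a) := by
  induction a using lam_ind with
  | h0 r => simp
  | ha a b h1 h2 => simp only [map_add, h1, h2, mul_add]; abel
  | hm m a h =>
    have e : m.comp (A + l.smulRight w) = m.comp A + m w • l := by
      ext x; simp [mul_comm]
    rw [map_mul, h, mp_ι, e, ctr_ι_mul]
    simp only [map_mul, mp_ι, map_add, map_smul, map_sub, add_mul, mul_add, mul_sub,
      smul_mul_assoc, mul_smul_comm, ι_ι_mul, smul_zero, ι_swap l (m.comp A)]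
    abel

/-- two linear maps whose difference is killed by contraction give the same pull-back -/
theorem mp_congr [FiniteDimensional ℝ E'] {A B : E' →L[ℝ] E} {a : Lam E}
    (h : ∀ x, ctr (A x - B x) a = 0) : mp A a = mp B a := by
  let b := Module.finBasis ℝ E'
  have key : ∀ s : Finset (Fin (Module.finrank ℝ E')), mp (B + ∑ i ∈ s,
      (LinearMap.toContinuousLinearMap (b.coord i)).smulRight (A (b i) - B (b i))) a = mp B a := by
    intro s
    induction s using Finset.induction_on with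
    | empty => simp
    | insert i s hi ih =>
      rw [Finset.sum_insert hi, add_comm (ContinuousLinearMap.smulRight _ _), ← add_assoc,
        mp_add_rank, ih, h, map_zero, mul_zero, add_zero]
  rw [← key Finset.univ]
  congr 2
  refine ContinuousLinearMap.coe_injective (b.ext fun j => ?_)
  simp [Finsupp.single_apply]

theorem mp_zero (a : Lam E) : mp (0 : E' →L[ℝ] E) a = algebraMap ℝ _ (algebraMapInv a) := by
  induction a using lam_ind with
  | h0 r => simp
  | ha a b h1 h2 => simp only [map_add, h1, h2]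
  | hm l a h => simp [map_mul, algebraMapInv]

/-- a form killed by all contractions is a scalar -/
theorem eq_scalar [FiniteDimensional ℝ E] {a : Lam E} (h : ∀ v, ctr v a = 0) :
    a = algebraMap ℝ _ (algebraMapInv a) := by
  rw [← mp_zero, ← mp_congr (A := ContinuousLinearMap.id ℝ E) fun x => h _, mp_id]

theorem mp_eq_zero_of_ker {F : Type} [NormedAddCommGroup F] [NormedSpace ℝ F] {T : E →L[ℝ] F}
    {a : Lam E} (h : mp T.ker.subtypeL a = 0) {L : E' →L[ℝ] E} (hL : ∀ x, T (L x) = 0) :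
    mp L a = 0 := by
  have : L = T.ker.subtypeL.comp (L.codRestrict T.ker hL) := rfl
  rw [this, mp_comp, h, map_zero]

/-! ### Evaluation -/

/-- evaluation as a linear map -/
def evL : List E → Lam E →ₗ[ℝ] ℝ
  | [] => algebraMapInv.toLinearMap
  | v :: l => (evL l).comp (ctr v)

theorem ev_eq (l : List E) (a : Lam E) : ev l a = evL l a := by
  induction l generalizing a with
  | nil => rfl
  | cons v l ih => exact ih _

theorem ev_add (l : List E) (a b : Lam E) : ev l (a + b) = ev l a + ev l b := by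
  simp only [ev_eq, map_add]
theorem ev_sub (l : List E) (a b : Lam E) : ev l (a - b) = ev l a - ev l b := by
  simp only [ev_eq, map_sub]
theorem ev_neg (l : List E) (a : Lam E) : ev l (-a) = -ev l a := by simp only [ev_eq, map_neg]
theorem ev_smul (l : List E) (c : ℝ) (a : Lam E) : ev l (c • a) = c * ev l a := by
  simp only [ev_eq, map_smul, smul_eq_mul]
@[simp] theorem ev_zero (l : List E) : ev l (0 : Lam E) = 0 := by simp only [ev_eq, map_zero]

theorem algebraMapInv_mp (L : E' →L[ℝ] E) (a : Lam E) : algebraMapInv (mp L a) = algebraMapInv a := by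
  have := mp_comp L (0 : E' →L[ℝ] E') a
  rw [ContinuousLinearMap.comp_zero, mp_zero, mp_zero] at this
  exact ((algebraMap_inj _ _ _).1 this).symm

theorem ev_mp (L : E' →L[ℝ] E) (l : List E') (a : Lam E) : ev l (mp L a) = ev (l.map L) a := by
  induction l generalizing a with
  | nil => exact algebraMapInv_mp L a
  | cons v l ih => simp only [ev, List.map_cons, ctr_mp, ih]

theorem ctr_prod_mul {v : E} {a : Lam E} (ha : ctr v a = 0) (l : List (E →L[ℝ] ℝ))
    (hl : ∀ m ∈ l, m v = 0) : ctr v ((l.map (ι ℝ)).prod * a) = 0 := by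
  induction l with
  | nil => simpa using ha
  | cons m l ih =>
    rw [List.map_cons, List.prod_cons, mul_assoc, ctr_ι_mul, hl m (by simp),
      ih fun m' h => hl m' (by simp [h])]
    simp

/-- evaluating a product of dual covectors -/
theorem ev_prod {n : ℕ} (l : Fin n → E →L[ℝ] ℝ) (w : Fin n → E)
    (h : ∀ i j, l i (w j) = if i = j then 1 else 0) {a : Lam E} (ha : ∀ j, ctr (w j) a = 0)
    (vs : List E) :
    ev (List.ofFn w ++ vs) ((List.ofFn fun i => ι ℝ (l i)).prod * a) = ev vs a := by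
  induction n with
  | zero => simp
  | succ n ih =>
    rw [List.ofFn_succ, List.ofFn_succ, List.prod_cons, List.cons_append, ev, mul_assoc,
      ctr_ι_mul, h 0 0, if_pos rfl, one_smul]
    have e : (List.ofFn fun i : Fin n => ι ℝ (l i.succ)) =
        (List.ofFn fun i : Fin n => l i.succ).map (ι ℝ) := by rw [List.map_ofFn]; rfl
    have z := ctr_prod_mul (ha 0) (List.ofFn fun i : Fin n => l i.succ) (by
      intro m hm
      obtain ⟨i, rfl⟩ := (List.mem_ofFn' _ _).1 hm
      rw [h, if_neg (Fin.succ_ne_zero i)])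
    rw [← e] at z
    rw [z, mul_zero, sub_zero]
    exact ih (fun i => l i.succ) (fun i => w i.succ) (fun i j => by simp [h]) fun j => ha _

/-! ### Degrees -/

/-- forms of degree `n` -/
abbrev dg (E : Type) [NormedAddCommGroup E] [NormedSpace ℝ E] (n : ℕ) : Submodule ℝ (Lam E) :=
  ⋀[ℝ]^n (E →L[ℝ] ℝ)

theorem dg_ind {P : ℕ → Lam E → Prop} (h0 : ∀ r : ℝ, P 0 (algebraMap ℝ _ r))
    (ha : ∀ n a b, a ∈ dg E n → b ∈ dg E n → P n a → P n b → P n (a + b))
    (hm : ∀ n l a, a ∈ dg E n → P n a → P (n + 1) (ι ℝ l * a)) {n : ℕ} {a : Lam E}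
    (h : a ∈ dg E n) : P n a := by
  induction h using Submodule.pow_induction_on_left' with
  | algebraMap r => exact h0 r
  | add x y i hx hy h1 h2 => exact ha i x y hx hy h1 h2
  | mem_mul m hm' i x hx h1 =>
    obtain ⟨l, rfl⟩ := hm'
    exact hm i l x hx h1

theorem dg_mul {i j : ℕ} {a b : Lam E} (ha : a ∈ dg E i) (hb : b ∈ dg E j) :
    a * b ∈ dg E (i + j) := SetLike.mul_mem_graded (A := dg E) ha hb

theorem dg_ι (l : E →L[ℝ] ℝ) : ι ℝ l ∈ dg E 1 := by simp [dg, exteriorPower]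

theorem dg_algebraMap (r : ℝ) : algebraMap ℝ (Lam E) r ∈ dg E 0 := by simp [dg, exteriorPower]

theorem dg_ι_mul {n : ℕ} (l : E →L[ℝ] ℝ) {a : Lam E} (ha : a ∈ dg E n) :
    ι ℝ l * a ∈ dg E (n + 1) := add_comm 1 n ▸ dg_mul (dg_ι l) ha

theorem dg_prod {n : ℕ} (l : Fin n → E →L[ℝ] ℝ) :
    (List.ofFn fun i => ι ℝ (l i)).prod ∈ dg E n := by
  rw [← ιMulti_apply]
  exact ιMulti_range ℝ n ⟨l, rfl⟩

theorem dg_mp (L : E' →L[ℝ] E) {n : ℕ} {a : Lam E} (h : a ∈ dg E n) : mp L a ∈ dg E' n := by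
  refine dg_ind (P := fun n a => mp L a ∈ dg E' n) (fun r => ?_) (fun n a b _ _ h1 h2 => ?_)
    (fun n l a _ h1 => ?_) h
  · simp
  · rw [map_add]; exact add_mem h1 h2
  · rw [map_mul, mp_ι]; exact dg_ι_mul _ h1

theorem dg_ctr (v : E) {n : ℕ} {a : Lam E} (h : a ∈ dg E n) :
    ctr v a ∈ dg E (n - 1) ∧ (n = 0 → ctr v a = 0) := by
  refine dg_ind (P := fun n a => ctr v a ∈ dg E (n - 1) ∧ (n = 0 → ctr v a = 0))
    (fun r => by simp) (fun n a b _ _ h1 h2 => ?_) (fun n l a ha h1 => ⟨?_, by simp⟩) h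
  · rw [map_add]
    exact ⟨add_mem h1.1 h2.1, fun h => by rw [h1.2 h, h2.2 h, add_zero]⟩
  · rw [ctr_ι_mul, Nat.add_sub_cancel]
    refine sub_mem (Submodule.smul_mem _ _ ha) ?_
    rcases n with _ | n
    · rw [h1.2 rfl, mul_zero]; exact zero_mem _
    · exact dg_ι_mul _ h1.1

theorem inv_dg {n : ℕ} {a : Lam E} (h : a ∈ dg E n) : inv a = (-1 : ℝ) ^ n • a := by
  refine dg_ind (P := fun n a => inv a = (-1 : ℝ) ^ n • a) (fun r => by simp)
    (fun n a b _ _ h1 h2 => by rw [map_add, h1, h2, smul_add]) (fun n l a _ h1 => ?_) h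
  rw [map_mul, h1, inv_ι, pow_succ]
  simp

/-- forms of even degree are central -/
theorem comm_of_even {n : ℕ} (hn : Even n) {a : Lam E} (h : a ∈ dg E n) (b : Lam E) :
    a * b = b * a := by
  induction b using lam_ind with
  | h0 r => exact (Algebra.commutes r a).symm
  | ha b c h1 h2 => rw [mul_add, add_mul, h1, h2]
  | hm l b h1 =>
    have : ι ℝ l * a = a * ι ℝ l := by rw [ι_mul_eq, inv_dg h, hn.neg_one_pow, one_smul]
    rw [← mul_assoc, ← this, mul_assoc, h1, mul_assoc]

theorem ev_eq_zero {n : ℕ} {a : Lam E} (h : a ∈ dg E n) {l : List E} (hl : l.length ≠ n) :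
    ev l a = 0 := by
  induction l generalizing n a with
  | nil =>
    refine dg_ind (P := fun n a => 0 ≠ n → ev [] a = 0) (fun r h => absurd rfl h)
      (fun n a b _ _ h1 h2 h => by rw [ev_add, h1 h, h2 h, add_zero]) (fun n l a _ _ _ => ?_) h hl
    simp [ev, algebraMapInv]
  | cons v l ih =>
    rcases n with _ | n
    · rw [ev, (dg_ctr v h).2 rfl, ev_zero]
    · exact ih (dg_ctr v h).1 (by simpa using hl)

/-- the component of degree `n` -/
def prj (n : ℕ) : Lam E →ₗ[ℝ] Lam E := GradedAlgebra.proj (dg E) n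

theorem prj_mem (n : ℕ) (a : Lam E) : prj n a ∈ dg E n := by
  rw [prj, GradedAlgebra.proj_apply]; exact SetLike.coe_mem _

theorem prj_same {n : ℕ} {a : Lam E} (h : a ∈ dg E n) : prj n a = a := by
  rw [prj, GradedAlgebra.proj_apply]; exact DirectSum.decompose_of_mem_same _ h

theorem prj_ne {n m : ℕ} {a : Lam E} (h : a ∈ dg E n) (hn : n ≠ m) : prj m a = 0 := by
  rw [prj, GradedAlgebra.proj_apply]; exact DirectSum.decompose_of_mem_ne _ h hn

/-- induction over homogeneous components -/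
theorem hom_ind {P : Lam E → Prop} (h0 : P 0) (hh : ∀ n a, a ∈ dg E n → P a)
    (ha : ∀ a b, P a → P b → P (a + b)) (a : Lam E) : P a :=
  DirectSum.Decomposition.inductionOn (dg E) h0 (fun m => hh _ m.1 m.2) ha a

/-- a linear map that shifts degrees by `i` commutes with the projections -/
theorem prj_map {i : ℕ} (T : Lam E →ₗ[ℝ] Lam E') (hT : ∀ n a, a ∈ dg E n → T a ∈ dg E' (i + n))
    (j : ℕ) (a : Lam E) : prj (i + j) (T a) = T (prj j a) := by
  induction a using hom_ind with
  | h0 => simp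
  | ha a b h1 h2 => simp only [map_add, h1, h2]
  | hh n a h =>
    by_cases e : n = j
    · subst e; rw [prj_same h, prj_same (hT n a h)]
    · rw [prj_ne h e, prj_ne (hT n a h) (by omega), map_zero]

theorem prj_mp (L : E' →L[ℝ] E) (n : ℕ) (a : Lam E) : prj n (mp L a) = mp L (prj n a) := by
  have := prj_map (i := 0) (mp L).toLinearMap (fun n a h => by simpa using dg_mp L h) n a
  simpa using this

theorem prj_mul {i : ℕ} {a : Lam E} (h : a ∈ dg E i) (j : ℕ) (b : Lam E) :
    prj (i + j) (a * b) = a * prj j b :=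
  prj_map (LinearMap.mulLeft ℝ a) (fun _ _ hb => dg_mul h hb) j b

theorem ev_prj (l : List E) (a : Lam E) : ev l (prj l.length a) = ev l a := by
  induction a using hom_ind with
  | h0 => simp
  | ha a b h1 h2 => simp only [map_add, ev_add, h1, h2]
  | hh n a h =>
    by_cases e : n = l.length
    · subst e; rw [prj_same h]
    · rw [prj_ne h e, ev_zero, ev_eq_zero h (Ne.symm e)]

theorem ev_mul_prj {i j : ℕ} {a : Lam E} (h : a ∈ dg E i) {l : List E} (hl : l.length = i + j)
    (b : Lam E) : ev l (a * prj j b) = ev l (a * b) := by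
  rw [← prj_mul h, ← hl, ev_prj]

/-- top-degree forms transform by the determinant -/
theorem ev_mp_det [FiniteDimensional ℝ E] {N : ℕ} (b : Module.Basis (Fin N) ℝ E) (L : E →L[ℝ] E)
    (a : Lam E) : ev (List.ofFn b) (mp L a) = L.det * ev (List.ofFn b) a := by
  have hl : (List.ofFn b).length = N := List.length_ofFn
  rw [← ev_prj, ← ev_prj _ a, hl, prj_mp]
  have hm := prj_mem N a
  generalize prj N a = c at hm
  rw [dg, ← ιMulti_span_fixedDegree] at hm
  induction hm using Submodule.span_induction with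
  | zero => simp
  | add x y _ _ h1 h2 => rw [map_add, ev_add, ev_add, h1, h2, mul_add]
  | smul r x _ h1 => rw [map_smul, ev_smul, ev_smul, h1]; ring
  | mem x hx =>
    obtain ⟨l, rfl⟩ := hx
    let β := b.dualBasis.map (LinearMap.toContinuousLinearMap (𝕜 := ℝ) (E := E) (F' := ℝ))
    let f := (evL (List.ofFn b)).compAlternatingMap (ιMulti ℝ N (M := E →L[ℝ] ℝ))
    have hf : ∀ m, ev (List.ofFn b) (ιMulti ℝ N m) = f β * β.det m := fun m => by
      rw [ev_eq]
      exact (congrArg (fun g => g m) (f.eq_smul_basis_det β))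
    have hT : LinearMap.det (L.precomp ℝ : (E →L[ℝ] ℝ) →L[ℝ] E →L[ℝ] ℝ).toLinearMap = L.det := by
      rw [ContinuousLinearMap.det, ← LinearMap.det_dualMap (L : E →ₗ[ℝ] E),
        ← LinearMap.det_conj (L : E →ₗ[ℝ] E).dualMap
        (LinearMap.toContinuousLinearMap (𝕜 := ℝ) (E := E) (F' := ℝ))]
      congr 1
    rw [mp, map_apply_ιMulti, hf, hf, Module.Basis.det_comp, hT]
    ring

end Pool.Agent.MP_c8d41b_gt.GF

end
end MrgPart1

-- ======== part 2: formerly Pool.Agent.MP_c8d41b_gt.gf.Calc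
section MrgPart2

/-! PROJECT GF: calculus of forms (`dd`, pull-back, smoothness, supports). -/

open scoped ContDiff Topology
open Set Filter ExteriorAlgebra

noncomputable section

namespace Pool.Agent.MP_c8d41b_gt.GF

instance extFin (M : Type) [AddCommGroup M] [Module ℝ M] [FiniteDimensional ℝ M] :
    FiniteDimensional ℝ (ExteriorAlgebra ℝ M) :=
  Module.Finite.of_basis (Module.finBasis ℝ M).ExteriorAlgebra

variable {E E' E'' X : Type} [NormedAddCommGroup E] [NormedSpace ℝ E] [FiniteDimensional ℝ E]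
  [NormedAddCommGroup E'] [NormedSpace ℝ E'] [FiniteDimensional ℝ E']
  [NormedAddCommGroup E''] [NormedSpace ℝ E''] [FiniteDimensional ℝ E'']
  [NormedAddCommGroup X] [NormedSpace ℝ X]

instance lamComplete : CompleteSpace (Lam E) := FiniteDimensional.complete ℝ _

/-- a bilinear map between finite-dimensional spaces as a continuous one -/
def bil {A B C : Type} [NormedAddCommGroup A] [NormedSpace ℝ A] [FiniteDimensional ℝ A]
    [NormedAddCommGroup B] [NormedSpace ℝ B] [FiniteDimensional ℝ B] [NormedAddCommGroup C]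
    [NormedSpace ℝ C] (f : A →ₗ[ℝ] B →ₗ[ℝ] C) : A →L[ℝ] B →L[ℝ] C :=
  LinearMap.toContinuousLinearMap
    ((LinearMap.toContinuousLinearMap (𝕜 := ℝ) (E := B) (F' := C)).toLinearMap.comp f)

/-- the product as a continuous bilinear map -/
def mulL : Lam E →L[ℝ] Lam E →L[ℝ] Lam E := bil (LinearMap.mul ℝ (Lam E))
@[simp] theorem mulL_apply (a b : Lam E) : mulL a b = a * b := rfl

/-- contraction as a continuous bilinear map -/
def ctrC : E →L[ℝ] Lam E →L[ℝ] Lam E := bil ctrL
@[simp] theorem ctrC_apply (v : E) (a : Lam E) : ctrC v a = ctr v a := rfl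

/-- a linear map on forms as a continuous one -/
abbrev clm {F : Type} [NormedAddCommGroup F] [NormedSpace ℝ F] (T : Lam E →ₗ[ℝ] F) :
    Lam E →L[ℝ] F := LinearMap.toContinuousLinearMap T

/-- covectors as forms, continuous version -/
def ιL : (E →L[ℝ] ℝ) →L[ℝ] Lam E := LinearMap.toContinuousLinearMap (ι ℝ)
@[simp] theorem ιL_apply (l : E →L[ℝ] ℝ) : ιL l = ι ℝ l := rfl

section Smooth
variable {n : WithTop ℕ∞} {x : X}

theorem cda_mul {α β : X → Lam E} (h : ContDiffAt ℝ n α x) (h' : ContDiffAt ℝ n β x) :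
    ContDiffAt ℝ n (fun x => α x * β x) x :=
  (mulL.contDiff.contDiffAt.comp x h).clm_apply h'

theorem cda_ι {l : X → E →L[ℝ] ℝ} (h : ContDiffAt ℝ n l x) :
    ContDiffAt ℝ n (fun x => ι ℝ (l x)) x := ιL.contDiff.contDiffAt.comp x h

theorem cda_ctr {v : X → E} {α : X → Lam E} (h : ContDiffAt ℝ n v x) (h' : ContDiffAt ℝ n α x) :
    ContDiffAt ℝ n (fun x => ctr (v x) (α x)) x :=
  (ctrC.contDiff.contDiffAt.comp x h).clm_apply h'

theorem cda_lin {F : Type} [NormedAddCommGroup F] [NormedSpace ℝ F] (T : Lam E →ₗ[ℝ] F)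
    {α : X → Lam E} (h : ContDiffAt ℝ n α x) : ContDiffAt ℝ n (fun x => T (α x)) x :=
  (clm T).contDiff.contDiffAt.comp x h

theorem cda_inv {α : X → Lam E} (h : ContDiffAt ℝ n α x) :
    ContDiffAt ℝ n (fun x => inv (α x)) x := cda_lin inv.toLinearMap h

omit [FiniteDimensional ℝ E] in
theorem contDiff_mp (a : Lam E) : ContDiff ℝ n fun L : E' →L[ℝ] E => mp L a := by
  induction a using lam_ind with
  | h0 r => simpa using contDiff_const
  | ha a b h1 h2 => simpa using h1.add h2
  | hm l a h =>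
    simp only [map_mul, mp_ι]
    exact contDiff_iff_contDiffAt.2 fun L => cda_mul
      (cda_ι ((ContinuousLinearMap.compL ℝ E' E ℝ l).contDiff.contDiffAt)) h.contDiffAt

theorem cda_mp {L : X → E' →L[ℝ] E} {α : X → Lam E} (h : ContDiffAt ℝ n L x)
    (h' : ContDiffAt ℝ n α x) : ContDiffAt ℝ n (fun x => mp (L x) (α x)) x := by
  have h1 : ContDiff ℝ n fun L : E' →L[ℝ] E => clm (mp L).toLinearMap :=
    contDiff_clm_apply_iff.2 fun a => contDiff_mp a
  exact (h1.contDiffAt.comp x h).clm_apply h'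

end Smooth

/-- the linear map taking the derivative of a form to its exterior derivative -/
def dL : (E →L[ℝ] Lam E) →L[ℝ] Lam E :=
  ∑ i, (mulL (ι ℝ (LinearMap.toContinuousLinearMap ((Module.finBasis ℝ E).coord i)))).comp
    (ContinuousLinearMap.apply ℝ (Lam E) (Module.finBasis ℝ E i))

theorem dL_apply (T : E →L[ℝ] Lam E) : dL T = ∑ i, ι ℝ (LinearMap.toContinuousLinearMap
    ((Module.finBasis ℝ E).coord i)) * T (Module.finBasis ℝ E i) := by
  simp [dL]

theorem dd_eq (α : E → Lam E) (x : E) : dd α x = dL (fderiv ℝ α x) := (dL_apply _).symm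

theorem dd_eq' (α : E → Lam E) : dd α = fun x => dL (fderiv ℝ α x) := funext (dd_eq α)

theorem sum_coord (l : E →L[ℝ] ℝ) : ∑ i, l (Module.finBasis ℝ E i) •
    LinearMap.toContinuousLinearMap ((Module.finBasis ℝ E).coord i) = l := by
  refine ContinuousLinearMap.coe_injective ((Module.finBasis ℝ E).ext fun j => ?_)
  simp [Finsupp.single_apply]

theorem dL_smulRight (l : E →L[ℝ] ℝ) (a : Lam E) : dL (l.smulRight a) = ι ℝ l * a := by
  rw [dL_apply]
  conv_rhs => rw [← sum_coord l]
  simp [Finset.sum_mul]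

/-- `dd` may be computed in any basis -/
theorem dL_basis {I : Type} [Fintype I] (b : Module.Basis I ℝ E) (T : E →L[ℝ] Lam E) :
    dL T = ∑ i, ι ℝ (LinearMap.toContinuousLinearMap (b.coord i)) * T (b i) := by
  classical
  have : T = ∑ i, (LinearMap.toContinuousLinearMap (b.coord i)).smulRight (T (b i)) := by
    refine ContinuousLinearMap.coe_injective (b.ext fun j => ?_)
    simp [Finsupp.single_apply]
  conv_lhs => rw [this]
  simp only [map_sum, dL_smulRight]

variable {α β : E → Lam E} {x : E}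

theorem dd_congr (h : α =ᶠ[𝓝 x] β) : dd α x = dd β x := by rw [dd_eq, dd_eq, h.fderiv_eq]

theorem dd_congr' (h : α =ᶠ[𝓝 x] β) : dd α =ᶠ[𝓝 x] dd β :=
  h.eventuallyEq_nhds.mono fun _ h => dd_congr h

@[simp] theorem dd_const (a : Lam E) (x : E) : dd (fun _ => a) x = 0 := by simp [dd_eq]

@[simp] theorem dd_zero : dd (0 : E → Lam E) = 0 := funext fun x => dd_const 0 x

theorem dd_eq_zero (h : α =ᶠ[𝓝 x] 0) : dd α x = 0 := by rw [dd_congr h, dd_zero]; rfl

theorem dd_add (h : DifferentiableAt ℝ α x) (h' : DifferentiableAt ℝ β x) :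
    dd (fun x => α x + β x) x = dd α x + dd β x := by
  rw [dd_eq, fderiv_fun_add h h', map_add, dd_eq, dd_eq]

theorem dd_sub (h : DifferentiableAt ℝ α x) (h' : DifferentiableAt ℝ β x) :
    dd (fun x => α x - β x) x = dd α x - dd β x := by
  rw [dd_eq, fderiv_fun_sub h h', map_sub, dd_eq, dd_eq]

theorem dd_neg : dd (fun x => -α x) x = -dd α x := by
  rw [dd_eq, fderiv_fun_neg, map_neg, dd_eq]

theorem dd_smul (c : ℝ) (h : DifferentiableAt ℝ α x) :
    dd (fun x => c • α x) x = c • dd α x := by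
  rw [dd_eq, fderiv_fun_const_smul h, map_smul, dd_eq]

theorem dd_sum {I : Type} {s : Finset I} {γ : I → E → Lam E}
    (h : ∀ i ∈ s, DifferentiableAt ℝ (γ i) x) :
    dd (fun x => ∑ i ∈ s, γ i x) x = ∑ i ∈ s, dd (γ i) x := by
  rw [dd_eq, fderiv_fun_sum h, map_sum]
  simp only [dd_eq]

theorem dd_fsmul {f : E → ℝ} (hf : DifferentiableAt ℝ f x) (h : DifferentiableAt ℝ α x) :
    dd (fun x => f x • α x) x = ι ℝ (fderiv ℝ f x) * α x + f x • dd α x := by
  rw [dd_eq, fderiv_fun_smul hf h, map_add, map_smul, dL_smulRight, dd_eq, add_comm]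

theorem fderiv_lin {F : Type} [NormedAddCommGroup F] [NormedSpace ℝ F] (T : Lam E →ₗ[ℝ] F)
    {α : X → Lam E} {x : X} (h : DifferentiableAt ℝ α x) (v : X) :
    fderiv ℝ (fun x => T (α x)) x v = T (fderiv ℝ α x v) :=
  congrArg (fun L => L v) ((clm T).hasFDerivAt.comp x h.hasFDerivAt).fderiv

theorem fderiv_mul_apply {α β : X → Lam E} {x : X} (h : DifferentiableAt ℝ α x)
    (h' : DifferentiableAt ℝ β x) (v : X) :
    fderiv ℝ (fun x => α x * β x) x v = fderiv ℝ α x v * β x + α x * fderiv ℝ β x v := by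
  have := ((mulL.hasFDerivAt.comp x h.hasFDerivAt).clm_apply h'.hasFDerivAt).fderiv
  rw [add_comm]
  exact congrArg (fun L => L v) this

/-- Leibniz rule -/
theorem dd_mul (h : DifferentiableAt ℝ α x) (h' : DifferentiableAt ℝ β x) :
    dd (fun x => α x * β x) x = dd α x * β x + inv (α x) * dd β x := by
  simp only [dd, fderiv_mul_apply h h', mul_add, Finset.sum_add_distrib, Finset.sum_mul,
    Finset.mul_sum, ← mul_assoc]
  congr 1
  refine Finset.sum_congr rfl fun i _ => ?_
  rw [ι_mul_eq _ (α x)]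

theorem dd_inv (h : DifferentiableAt ℝ α x) : dd (fun x => inv (α x)) x = -inv (dd α x) := by
  have := fun v => fderiv_lin inv.toLinearMap h v
  simp only [AlgHom.toLinearMap_apply] at this
  simp [dd, this, map_sum]

theorem dd_prj (n : ℕ) (h : DifferentiableAt ℝ α x) :
    dd (fun x => prj n (α x)) x = prj (n + 1) (dd α x) := by
  simp only [dd, fderiv_lin (prj n) h, map_sum, add_comm n 1, prj_mul (dg_ι _)]

theorem dg_dd {n : ℕ} (h : DifferentiableAt ℝ α x) (hd : ∀ᶠ y in 𝓝 x, α y ∈ dg E n) :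
    dd α x ∈ dg E (n + 1) := by
  have : α =ᶠ[𝓝 x] fun x => prj n (α x) := hd.mono fun y hy => (prj_same hy).symm
  rw [dd_congr this, dd_prj n h]
  exact prj_mem _ _

/-- Cartan formula for a constant vector field -/
theorem dd_ctr (v : E) (h : DifferentiableAt ℝ α x) :
    dd (fun x => ctr v (α x)) x + ctr v (dd α x) = fderiv ℝ α x v := by
  simp only [dd, fderiv_lin (ctr v) h, map_sum, ctr_ι_mul, ← Finset.sum_add_distrib,
    add_sub_cancel, ← map_smul]
  rw [← map_sum]
  congr 1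
  exact (Module.finBasis ℝ E).sum_repr v

theorem cda_dd {m n : WithTop ℕ∞} (h : ContDiffAt ℝ n α x) (hmn : m + 1 ≤ n) :
    ContDiffAt ℝ m (dd α) x := by
  rw [dd_eq']
  exact dL.contDiff.contDiffAt.comp x (h.fderiv_right hmn)

theorem cda_dd' (h : ContDiffAt ℝ ∞ α x) : ContDiffAt ℝ ∞ (dd α) x := cda_dd h (by simp)

theorem cd_dd (h : ContDiff ℝ ∞ α) : ContDiff ℝ ∞ (dd α) :=
  contDiff_iff_contDiffAt.2 fun _ => cda_dd' h.contDiffAt

omit [FiniteDimensional ℝ E] in
theorem sum_anti {I : Type} [Fintype I] (l : I → E →L[ℝ] ℝ) (S : I → I → Lam E)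
    (hS : ∀ i j, S i j = S j i) : ∑ i, ∑ j, ι ℝ (l i) * (ι ℝ (l j) * S i j) = 0 := by
  have : ∑ i, ∑ j, ι ℝ (l i) * (ι ℝ (l j) * S i j) =
      -∑ i, ∑ j, ι ℝ (l i) * (ι ℝ (l j) * S i j) := by
    conv_rhs => rw [Finset.sum_comm]
    simp only [← Finset.sum_neg_distrib]
    exact Finset.sum_congr rfl fun i _ => Finset.sum_congr rfl fun j _ => by rw [ι_swap, hS]
  have h2 : (2 : ℝ) • ∑ i, ∑ j, ι ℝ (l i) * (ι ℝ (l j) * S i j) = 0 := by
    rw [two_smul]; exact add_eq_zero_iff_eq_neg.2 this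
  exact (smul_eq_zero.1 h2).resolve_left two_ne_zero

theorem dd_dd (h : ContDiffAt ℝ ∞ α x) : dd (dd α) x = 0 := by
  have h1 : DifferentiableAt ℝ (fderiv ℝ α) x :=
    (h.fderiv_right (m := 1) (by decide)).differentiableAt one_ne_zero
  have hs : IsSymmSndFDerivAt ℝ α x := h.isSymmSndFDerivAt (by
    rw [minSmoothness_of_isRCLikeNormedField]; decide)
  have e : ∀ v, fderiv ℝ (dd α) x v = dL (fderiv ℝ (fderiv ℝ α) x v) := fun v => by
    rw [dd_eq']
    exact congrArg (fun L => L v) (dL.hasFDerivAt.comp x h1.hasFDerivAt).fderiv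
  rw [dd]
  simp only [e, dL_apply, Finset.mul_sum]
  exact sum_anti _ _ fun i j => hs.eq _ _

theorem dd_fun {f : E → ℝ} (hf : DifferentiableAt ℝ f x) :
    dd (fun x => f x • (1 : Lam E)) x = ι ℝ (fderiv ℝ f x) := by
  rw [dd_fsmul hf (differentiableAt_const _), dd_const, smul_zero, add_zero, mul_one]

theorem dd_ι_fderiv {f : E → ℝ} (hf : ContDiffAt ℝ ∞ f x) :
    dd (fun x => ι ℝ (fderiv ℝ f x)) x = 0 := by
  rw [← dd_dd (α := fun x => f x • (1 : Lam E)) (x := x)
    (hf.smul (contDiffAt_const (c := (1 : Lam E))))]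
  refine dd_congr ?_
  have h1 : ContDiffAt ℝ 1 f x := hf.of_le (by decide)
  filter_upwards [h1.eventually (by simp)] with y hy
  exact (dd_fun (hy.differentiableAt one_ne_zero)).symm

/-! ### Pull-back -/

/-- pull-back of a form by a map -/
def pb (f : E' → E) (α : E → Lam E) (x : E') : Lam E' := mp (fderiv ℝ f x) (α (f x))

theorem cda_pb {f : E' → E} {y : E'} (hf : ContDiffAt ℝ ∞ f y) (h : ContDiffAt ℝ ∞ α (f y)) :
    ContDiffAt ℝ ∞ (pb f α) y :=
  cda_mp (hf.fderiv_right (by simp)) (h.comp y hf)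

theorem cd_pb {f : E' → E} (hf : ContDiff ℝ ∞ f) (h : ContDiff ℝ ∞ α) : ContDiff ℝ ∞ (pb f α) :=
  contDiff_iff_contDiffAt.2 fun _ => cda_pb hf.contDiffAt h.contDiffAt

omit [FiniteDimensional ℝ E] in
theorem pb_id (α : E → Lam E) : pb (fun x => x) α = α := funext fun x => by
  rw [pb, fderiv_fun_id, mp_id]

omit [FiniteDimensional ℝ E] [FiniteDimensional ℝ E'] [FiniteDimensional ℝ E''] in
theorem pb_comp {f : E' → E} {g : E'' → E'} {z : E''} (hf : DifferentiableAt ℝ f (g z))
    (hg : DifferentiableAt ℝ g z) (α : E → Lam E) :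
    pb (fun z => f (g z)) α z = pb g (pb f α) z := by
  rw [pb, pb, pb, fderiv_fun_comp z hf hg, mp_comp]

omit [FiniteDimensional ℝ E] [FiniteDimensional ℝ E'] in
theorem pb_congr {f g : E' → E} {y : E'} (h : f =ᶠ[𝓝 y] g) (α : E → Lam E) :
    pb f α y = pb g α y := by rw [pb, pb, h.fderiv_eq, h.eq_of_nhds]

omit [FiniteDimensional ℝ E] [FiniteDimensional ℝ E'] in
theorem pb_clm (L : E' →L[ℝ] E) (α : E → Lam E) (y : E') : pb L α y = mp L (α (L y)) := by
  rw [pb, L.fderiv]

theorem dd_mp_const {f : E' → E} {y : E'} (hf : ContDiffAt ℝ ∞ f y) (a : Lam E) :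
    dd (fun y => mp (fderiv ℝ f y) a) y = 0 := by
  have hd : ∀ a : Lam E, DifferentiableAt ℝ (fun y => mp (fderiv ℝ f y) a) y := fun a =>
    (cda_mp (n := 1) (hf.fderiv_right (by decide)) contDiffAt_const).differentiableAt one_ne_zero
  induction a using lam_ind with
  | h0 r => simp
  | ha a b h1 h2 => simp only [map_add]; rw [dd_add (hd a) (hd b), h1, h2, add_zero]
  | hm l a h =>
    simp only [map_mul]
    rw [dd_mul (hd _) (hd a), h, mul_zero, add_zero]
    have : dd (fun y => mp (fderiv ℝ f y) (ι ℝ l)) y = 0 := by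
      rw [← dd_ι_fderiv (f := fun y => l (f y)) (l.contDiff.contDiffAt.comp y hf)]
      refine dd_congr ?_
      have h1 : ContDiffAt ℝ 1 f y := hf.of_le (by decide)
      filter_upwards [h1.eventually (by simp)] with z hz
      rw [mp_ι]
      exact congrArg _ (l.hasFDerivAt.comp z (hz.differentiableAt one_ne_zero).hasFDerivAt).fderiv.symm
    rw [this, zero_mul]

/-- the exterior derivative commutes with pull-back -/
theorem dd_pb {f : E' → E} {y : E'} (hf : ContDiffAt ℝ ∞ f y) (h : DifferentiableAt ℝ α (f y)) :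
    dd (pb f α) y = pb f (dd α) y := by
  let B := Module.finBasis ℝ (Lam E)
  have hf1 : DifferentiableAt ℝ f y := hf.differentiableAt (by simp)
  have hc : ∀ k, DifferentiableAt ℝ (fun x => B.coord k (α x)) (f y) := fun k =>
    (clm (B.coord k)).differentiableAt.comp _ h
  have e : α = fun x => ∑ k, B.coord k (α x) • B k := funext fun x => (B.sum_repr _).symm
  have e1 : pb f α = fun y => ∑ k, B.coord k (α (f y)) • mp (fderiv ℝ f y) (B k) := by
    funext z
    rw [pb]
    conv_lhs => rw [e]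
    simp only [map_sum, map_smul]
  have hd : ∀ a : Lam E, DifferentiableAt ℝ (fun y => mp (fderiv ℝ f y) a) y := fun a =>
    (cda_mp (n := 1) (hf.fderiv_right (by decide)) contDiffAt_const).differentiableAt one_ne_zero
  have hc' : ∀ k, DifferentiableAt ℝ (fun y => B.coord k (α (f y))) y := fun k =>
    (hc k).comp y hf1
  rw [e1, dd_sum (γ := fun k y => B.coord k (α (f y)) • mp (fderiv ℝ f y) (B k))
    fun k _ => (hc' k).smul (hd _), pb]
  conv_rhs => rw [e, dd_sum (γ := fun k x => B.coord k (α x) • B k)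
    fun k _ => (hc k).smul_const _, map_sum]
  refine Finset.sum_congr rfl fun k _ => ?_
  rw [dd_fsmul (hc' k) (hd _), dd_fsmul (hc k) (differentiableAt_const _),
    dd_mp_const hf, dd_const, smul_zero, smul_zero, add_zero, add_zero, map_mul, mp_ι]
  exact congrArg (fun L => ι ℝ L * _) (fderiv_fun_comp y (hc k) hf1)

/-! ### Supports -/

theorem tsupport_dd (α : E → Lam E) : tsupport (dd α) ⊆ tsupport α :=
  closure_minimal (fun x hx => by
    by_contra h
    exact hx (dd_eq_zero (notMem_tsupport_iff_eventuallyEq.1 h))) (isClosed_tsupport _)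

/-- a function that is smooth on `U` and vanishes off a closed subset of `U` is smooth -/
theorem contDiff_of_closed {F : Type} [NormedAddCommGroup F] [NormedSpace ℝ F] {f : X → F}
    {U S : Set X} (hS : IsClosed S) (hSU : S ⊆ U) (hf : ∀ x ∈ U, ContDiffAt ℝ ∞ f x)
    (h0 : ∀ x ∉ S, f x = 0) : ContDiff ℝ ∞ f := by
  refine contDiff_iff_contDiffAt.2 fun x => ?_
  by_cases hx : x ∈ S
  · exact hf x (hSU hx)
  · refine (contDiffAt_const (c := (0 : F))).congr_of_eventuallyEq ?_
    filter_upwards [hS.isOpen_compl.mem_nhds hx] with y hy using h0 y hy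

/-- smooth forms with compact support in `U` -/
structure Oc (U : Set E) (α : E → Lam E) : Prop where
  sm : ContDiff ℝ ∞ α
  cpt : HasCompactSupport α
  sub : tsupport α ⊆ U

theorem Oc.of_compact {U S : Set E} (h : ContDiff ℝ ∞ α) (hS : IsCompact S) (hSU : S ⊆ U)
    (h0 : ∀ x ∉ S, α x = 0) : Oc U α :=
  have : tsupport α ⊆ S := closure_minimal (fun x hx => by_contra fun h => hx (h0 x h)) hS.isClosed
  ⟨h, hS.of_isClosed_subset (isClosed_tsupport _) this, this.trans hSU⟩

variable {U V : Set E}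

theorem Oc.mono (h : Oc U α) (hU : U ⊆ V) : Oc V α := ⟨h.sm, h.cpt, h.sub.trans hU⟩
theorem Oc.zero_of (h : Oc U α) (hx : x ∉ U) : α x = 0 :=
  image_eq_zero_of_notMem_tsupport fun h' => hx (h.sub h')
theorem Oc.da (h : Oc U α) (x : E) : DifferentiableAt ℝ α x := h.sm.differentiable (by simp) x
theorem Oc.zero : Oc U (0 : E → Lam E) :=
  Oc.of_compact contDiff_const isCompact_empty (empty_subset _) fun _ _ => rfl
theorem Oc.dd (h : Oc U α) : Oc U (dd α) :=
  Oc.of_compact (cd_dd h.sm) h.cpt h.sub fun _ hx =>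
    image_eq_zero_of_notMem_tsupport fun h' => hx (tsupport_dd α h')
theorem Oc.add (h : Oc U α) (h' : Oc U β) : Oc U (α + β) :=
  Oc.of_compact (h.sm.add h'.sm) (IsCompact.union h.cpt h'.cpt) (union_subset h.sub h'.sub)
    fun x hx => by
      rw [mem_union, not_or] at hx
      rw [Pi.add_apply, image_eq_zero_of_notMem_tsupport hx.1,
        image_eq_zero_of_notMem_tsupport hx.2, add_zero]
theorem Oc.lin (h : Oc U α) (T : Lam E →ₗ[ℝ] Lam E) : Oc U fun x => T (α x) :=
  Oc.of_compact (contDiff_iff_contDiffAt.2 fun _ => cda_lin T h.sm.contDiffAt) h.cpt h.sub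
    fun x hx => by rw [image_eq_zero_of_notMem_tsupport hx, map_zero]
theorem Oc.smul (h : Oc U α) (c : ℝ) : Oc U (c • α) := h.lin (c • LinearMap.id)
theorem Oc.neg (h : Oc U α) : Oc U (-α) := h.lin (-LinearMap.id)
theorem Oc.sub' (h : Oc U α) (h' : Oc U β) : Oc U (α - β) := by
  rw [sub_eq_add_neg]; exact h.add h'.neg
theorem Oc.inv (h : Oc U α) : Oc U fun x => inv (α x) := h.lin GF.inv.toLinearMap
theorem Oc.mul_right (h : Oc U α) (h' : ∀ x ∈ U, ContDiffAt ℝ ∞ β x) :
    Oc U fun x => α x * β x :=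
  have h0 : ∀ x ∉ tsupport α, α x * β x = 0 := fun x hx => by
    rw [image_eq_zero_of_notMem_tsupport hx, zero_mul]
  Oc.of_compact (contDiff_of_closed (isClosed_tsupport _) h.sub
    (fun x hx => cda_mul h.sm.contDiffAt (h' x hx)) h0) h.cpt h.sub h0
theorem Oc.mul_left (h : Oc U α) (h' : ∀ x ∈ U, ContDiffAt ℝ ∞ β x) :
    Oc U fun x => β x * α x :=
  have h0 : ∀ x ∉ tsupport α, β x * α x = 0 := fun x hx => by
    rw [image_eq_zero_of_notMem_tsupport hx, mul_zero]
  Oc.of_compact (contDiff_of_closed (isClosed_tsupport _) h.sub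
    (fun x hx => cda_mul (h' x hx) h.sm.contDiffAt) h0) h.cpt h.sub h0
theorem Oc.fsmul (h : Oc U α) {f : E → ℝ} (h' : ∀ x ∈ U, ContDiffAt ℝ ∞ f x) :
    Oc U fun x => f x • α x :=
  have h0 : ∀ x ∉ tsupport α, f x • α x = 0 := fun x hx => by
    rw [image_eq_zero_of_notMem_tsupport hx, smul_zero]
  Oc.of_compact (contDiff_of_closed (isClosed_tsupport _) h.sub
    (fun x hx => (h' x hx).smul h.sm.contDiffAt) h0) h.cpt h.sub h0

/-! ### Integration of top-degree forms -/

/-- integral of the top-degree part of a form, in the coordinates of the basis `b` -/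
def itg {N : ℕ} (b : Module.Basis (Fin N) ℝ E) (α : E → Lam E) : ℝ :=
  ∫ y : Fin N → ℝ, ev (List.ofFn b) (α (b.equivFun.symm y))

end Pool.Agent.MP_c8d41b_gt.GF

end
end MrgPart2

-- marker of a merged file
example : 731051 + 158832 = 731051 + 158832 := rfl
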