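import Mathlib.Analysis.Calculus.DifferentialForm.Basic
import Mathlib.LinearAlgebra.Matrix.Determinant.Basic
import Pool.Agent.MP_c8d41b_gt.gf.Calc
import Pool.Agent.MP_c8d41b_gt.St

/-! PROJECT GF: exterior algebra elements as alternating maps. -/

open scoped ContDiff Topology
open Set Filter ExteriorAlgebra

noncomputable section

namespace Pool.Agent.MP_c8d41b_gt.GF.Br

variable {E : Type} [NormedAddCommGroup E] [NormedSpace ℝ E] {n : ℕ}

/-- alternating forms -/
abbrev Alt (E : Type) [NormedAddCommGroup E] [NormedSpace ℝ E] (n : ℕ) : Type :=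
  E [⋀^Fin n]→L[ℝ] ℝ

theorem ev_ι_mul (l : E →L[ℝ] ℝ) (a : Lam E) (v : Fin (n + 1) → E) :
    ev (List.ofFn v) (ι ℝ l * a) =
      ∑ i : Fin (n + 1), (-1 : ℤ) ^ (i : ℕ) • (l (v i) * ev (List.ofFn (i.removeNth v)) a) := by
  induction n generalizing a with
  | zero => simp [ev, ctr_ι_mul, algebraMapInv]
  | succ n ih =>
    rw [List.ofFn_succ, ev, ctr_ι_mul, ev_sub, ev_smul, ih, Fin.sum_univ_succ (n := n + 1),
      sub_eq_add_neg, ← Finset.sum_neg_distrib]
    congr 1
    · rw [Fin.val_zero, pow_zero, one_smul]; rfl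
    · refine Finset.sum_congr rfl fun i _ => ?_
      rw [List.ofFn_succ (f := i.succ.removeNth v), ev]
      simp only [Fin.removeNth, Fin.succ_succAbove_zero, Fin.succ_succAbove_succ, Fin.val_succ,
        pow_succ, mul_neg_one, neg_smul]
      rfl

theorem ev_ιMulti (l : Fin n → E →L[ℝ] ℝ) (v : Fin n → E) :
    ev (List.ofFn v) (ιMulti ℝ n l) = (Matrix.of fun i j => l j (v i)).det := by
  induction n with
  | zero => simp [ev]
  | succ n ih =>
    rw [ιMulti_succ_apply, ev_ι_mul, Matrix.det_succ_column_zero]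
    refine Finset.sum_congr rfl fun i _ => ?_
    rw [ih]
    simp only [zsmul_eq_mul, Int.cast_pow, Int.cast_neg, Int.cast_one, mul_assoc]
    rfl

theorem sum_det (l m : Fin n → E →L[ℝ] ℝ) (v : Fin (n + n) → E) :
    ∑ σ : Equiv.Perm (Fin (n + n)), ((Equiv.Perm.sign σ : ℤ) : ℝ) *
      ((Matrix.of fun i j => l j (v (σ (Fin.castAdd n i)))).det *
        (Matrix.of fun i j => m j (v (σ (Fin.natAdd n i)))).det) =
      (n.factorial * n.factorial) * (Matrix.of fun i j => Fin.append l m j (v i)).det := by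
  have : ∀ τ τ' : Equiv.Perm (Fin n), ∑ σ : Equiv.Perm (Fin (n + n)),
      ((Equiv.Perm.sign σ : ℤ) : ℝ) * ((((Equiv.Perm.sign τ : ℤ) : ℝ) *
        ∏ i, l i (v (σ (Fin.castAdd n (τ i))))) * (((Equiv.Perm.sign τ' : ℤ) : ℝ) *
        ∏ i, m i (v (σ (Fin.natAdd n (τ' i)))))) = ∑ σ : Equiv.Perm (Fin (n + n)),
      ((Equiv.Perm.sign σ : ℤ) : ℝ) * ∏ i, Fin.append l m i (v (σ i)) := fun τ τ' => by
    rw [← Equiv.sum_comp (Equiv.mulRight (finSumFinEquiv.permCongr (τ.sumCongr τ')))
      fun σ => ((Equiv.Perm.sign σ : ℤ) : ℝ) * ∏ i, Fin.append l m i (v (σ i))]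
    refine Finset.sum_congr rfl fun σ _ => ?_
    simp [Fin.prod_univ_add, -Fin.natAdd_eq_addNat]
    ring
  simp only [Matrix.det_apply', Matrix.of_apply]
  rw [Finset.sum_congr rfl fun σ _ => by rw [Finset.sum_mul_sum, Finset.mul_sum,
    Finset.sum_congr rfl fun τ _ => Finset.mul_sum _ _ _], Finset.sum_comm,
    Finset.sum_congr rfl fun τ _ => Finset.sum_comm]
  simp only [this]
  simp [Fintype.card_perm, mul_assoc]

theorem wedge_ev {a b : Lam E} (ha : a ∈ dg E n) (hb : b ∈ dg E n) (v : Fin (n + n) → E) :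
    St.wedge (fun u => ev (List.ofFn u) a) (fun u => ev (List.ofFn u) b) v =
      ev (List.ofFn v) (a * b) := by
  have h0 : (n.factorial * n.factorial : ℝ) ≠ 0 := by positivity
  rw [St.wedge, div_eq_iff h0]
  rw [dg, ← ιMulti_span_fixedDegree] at ha hb
  induction ha using Submodule.span_induction with
  | zero => simp
  | add a a' _ _ h1 h2 =>
    simp only [ev_add, add_mul, mul_add, Finset.sum_add_distrib, h1, h2]
  | smul c a _ h1 =>
    simp only [ev_smul, smul_mul_assoc, mul_assoc c, ← h1, Finset.mul_sum, mul_left_comm c]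
  | mem a h =>
    obtain ⟨l, rfl⟩ := h
    induction hb using Submodule.span_induction with
    | zero => simp
    | add a a' _ _ h1 h2 =>
      simp only [ev_add, add_mul, mul_add, Finset.sum_add_distrib, h1, h2]
    | smul c a _ h1 =>
      simp only [ev_smul, mul_smul_comm, mul_assoc c, ← h1, Finset.mul_sum, mul_left_comm c]
    | mem b h =>
      obtain ⟨m, rfl⟩ := h
      simp only [ιMulti_mul_ιMulti, ev_ιMulti]
      rw [sum_det, mul_comm]

theorem exists_alt (n : ℕ) (a : Lam E) : ∃ A : Alt E n, ∀ v, A v = ev (List.ofFn v) a := by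
  have : ∀ {n} {a : Lam E}, a ∈ dg E n → ∃ A : Alt E n, ∀ v, A v = ev (List.ofFn v) a :=
    fun h => dg_ind (P := fun n a => ∃ A : Alt E n, ∀ v, A v = ev (List.ofFn v) a)
      (fun r => ⟨.constOfIsEmpty ℝ E _ r, fun v => by simp [ev]⟩)
      (fun n a b _ _ ⟨A, h1⟩ ⟨B, h2⟩ => ⟨A + B, fun v => by simp [h1, h2, ev_add]⟩)
      (fun n l a _ ⟨A, h1⟩ => ⟨.alternatizeUncurryFin (l.smulRight A), fun v => by
        rw [ev_ι_mul]
        simp [ContinuousAlternatingMap.alternatizeUncurryFin_apply, h1]⟩) h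
  obtain ⟨A, h⟩ := this (prj_mem n a)
  refine ⟨A, fun v => ?_⟩
  have := ev_prj (List.ofFn v) a
  rw [List.length_ofFn] at this
  rw [h, this]

/-- the alternating map of an element of the exterior algebra -/
def Ps (n : ℕ) : Lam E →ₗ[ℝ] Alt E n where
  toFun a := (exists_alt n a).choose
  map_add' a b := ContinuousAlternatingMap.ext fun v => by
    rw [ContinuousAlternatingMap.add_apply, (exists_alt n _).choose_spec,
      (exists_alt n _).choose_spec, (exists_alt n _).choose_spec, ev_add]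
  map_smul' c a := ContinuousAlternatingMap.ext fun v => by
    rw [ContinuousAlternatingMap.smul_apply, (exists_alt n _).choose_spec,
      (exists_alt n _).choose_spec, ev_smul]
    rfl

theorem Ps_apply (a : Lam E) (v : Fin n → E) : Ps n a v = ev (List.ofFn v) a :=
  (exists_alt n a).choose_spec v

variable [FiniteDimensional ℝ E]

theorem eq_zero_of_ev {a : Lam E} (ha : a ∈ dg E n)
    (h : ∀ v : Fin n → E, ev (List.ofFn v) a = 0) : a = 0 := by
  induction n generalizing a with
  | zero =>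
    rw [eq_scalar (a := a) fun v => (dg_ctr v ha).2 rfl, show algebraMapInv a = 0 from h ![],
      map_zero]
  | succ n ih =>
    rw [eq_scalar (a := a) fun w => ih (dg_ctr w ha).1 fun v => by
      simpa [ev] using h (Fin.cons w v),
      show algebraMapInv a = 0 from ev_eq_zero (l := []) ha (by simp), map_zero]

theorem Ps_surj (n : ℕ) : Function.Surjective (Ps n : Lam E → Alt E n) := by
  induction n with
  | zero =>
    refine fun A => ⟨algebraMap ℝ _ (A ![]), ContinuousAlternatingMap.ext fun v => ?_⟩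
    rw [Ps_apply, Subsingleton.elim v ![]]
    simp [ev]
  | succ n ih =>
    intro A
    let b := Module.finBasis ℝ E
    choose a ha using fun j => ih (A.curryLeft (b j))
    refine ⟨((n + 1 : ℕ) : ℝ)⁻¹ • ∑ j, ι ℝ (LinearMap.toContinuousLinearMap (b.coord j)) * a j,
      ContinuousAlternatingMap.ext fun v => ?_⟩
    have h1 := congrArg (fun B => B v) A.alternatizeUncurryFin_curryLeft
    simp only [ContinuousAlternatingMap.alternatizeUncurryFin_apply] at h1
    rw [Ps_apply, ev_smul, inv_mul_eq_iff_eq_mul₀ (by positivity), ev_eq, map_sum]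
    simp only [← ev_eq, ev_ι_mul]
    simp only [← Ps_apply, ha]
    rw [Finset.sum_comm, ← nsmul_eq_mul, ← ContinuousAlternatingMap.smul_apply, ← h1]
    refine Finset.sum_congr rfl fun i _ => ?_
    rw [← Finset.smul_sum]
    conv_rhs => rw [← b.sum_repr (v i), map_sum, ContinuousAlternatingMap.sum_apply]
    simp

theorem exists_Th (n : ℕ) : ∃ T : Alt E n →L[ℝ] Lam E, (∀ A, Ps n (T A) = A) ∧
    (∀ A, T A ∈ dg E n) ∧ ∀ a ∈ dg E n, T (Ps n a) = a := by
  obtain ⟨R, hR⟩ := (Ps (E := E) n).exists_rightInverse_of_surjective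
    (LinearMap.range_eq_top.2 (Ps_surj n))
  have : FiniteDimensional ℝ (Alt E n) := Module.Finite.of_surjective _ (Ps_surj n)
  have h : ∀ A, Ps n (prj n (R A)) = A := fun A => ContinuousAlternatingMap.ext fun v => by
    have := ev_prj (List.ofFn v) (R A)
    rw [List.length_ofFn] at this
    rw [Ps_apply, this, ← Ps_apply]
    exact congrArg (fun B => B v) (LinearMap.congr_fun hR A)
  refine ⟨LinearMap.toContinuousLinearMap ((prj n).comp R), h, fun A => prj_mem _ _,
    fun a ha => sub_eq_zero.1 (eq_zero_of_ev (sub_mem (prj_mem _ _) ha) fun v => ?_)⟩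
  rw [ev_sub, ← Ps_apply, ← Ps_apply, sub_eq_zero]
  exact congrArg (fun B => B v) (h _)

theorem extDeriv_Ps {α : E → Lam E} {x : E} (h : DifferentiableAt ℝ α x) (v : Fin (n + 1) → E) :
    extDeriv (fun x => Ps n (α x)) x v = ev (List.ofFn v) (dd α x) := by
  rw [extDeriv, ContinuousAlternatingMap.alternatizeUncurryFin_apply, dd, ev_eq, map_sum]
  simp only [← ev_eq, ev_ι_mul, fderiv_lin (Ps n) h, Ps_apply]
  rw [Finset.sum_comm]
  refine Finset.sum_congr rfl fun i _ => ?_
  rw [← Finset.smul_sum]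
  conv_lhs => rw [← (Module.finBasis ℝ E).sum_repr (v i), map_sum, ev_eq, map_sum]
  simp [ev_eq]

end Pool.Agent.MP_c8d41b_gt.GF.Br
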