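import Pool.Agent.MP_c8d41b_gt.gf.Spec
import Mathlib.MeasureTheory.Integral.Pi
import Mathlib.LinearAlgebra.Dual.Lemmas
import Mathlib.Analysis.Calculus.BumpFunction.Normed
import Mathlib.Analysis.Calculus.BumpFunction.FiniteDimension
import Mathlib.Analysis.SpecialFunctions.SmoothTransition
import Mathlib.MeasureTheory.Integral.IntervalIntegral.FundThmCalculus
import Mathlib.MeasureTheory.Group.Integral
import Mathlib.Analysis.Calculus.Deriv.Prod
import Mathlib.Analysis.Calculus.ParametricIntervalIntegral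
import Mathlib.Analysis.Calculus.LineDeriv.IntegrationByParts
import Mathlib.MeasureTheory.Function.Jacobian

-- ======== part 0: formerly Pool.Agent.MP_c8d41b_gt.gf.Base
section MrgPart0

/-! PROJECT GF: small shared facts on the doubled space. -/

open scoped ContDiff Topology
open Set Filter ExteriorAlgebra

noncomputable section

namespace Pool.Agent.MP_c8d41b_gt.GF

variable {Y : Type} [NormedAddCommGroup Y] [NormedSpace ℝ Y] {K : ℕ}

theorem nq_nonneg (y : Fin K → ℝ) : 0 ≤ nq y := Finset.sum_nonneg fun _ _ => sq_nonneg _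

theorem sq_le_nq (y : Fin K → ℝ) (i : Fin K) : y i ^ 2 ≤ nq y :=
  Finset.single_le_sum (f := fun i => y i ^ 2) (fun _ _ => sq_nonneg _) (Finset.mem_univ i)

theorem norm_sq_le_nq (y : Fin K → ℝ) : ‖y‖ ^ 2 ≤ nq y := by
  have h : ‖y‖ ≤ √(nq y) := (pi_norm_le_iff_of_nonneg (Real.sqrt_nonneg _)).2 fun i =>
    Real.abs_le_sqrt (sq_le_nq y i)
  calc ‖y‖ ^ 2 ≤ √(nq y) ^ 2 := by gcongr
    _ = nq y := Real.sq_sqrt (nq_nonneg y)

theorem nq_le {y : Fin K → ℝ} {h : ℝ} (hy : ‖y‖ ≤ h) : nq y ≤ K * h ^ 2 := by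
  have : ∀ i, y i ^ 2 ≤ h ^ 2 := fun i =>
    sq_le_sq' (abs_le.1 ((norm_le_pi_norm y i).trans hy)).1
      (abs_le.1 ((norm_le_pi_norm y i).trans hy)).2
  simpa [nq] using Finset.sum_le_sum fun i (_ : i ∈ Finset.univ) => this i

theorem nq_eq_zero {y : Fin K → ℝ} (h : nq y = 0) : y = 0 := by
  have := norm_sq_le_nq y
  exact norm_eq_zero.1 (by nlinarith [norm_nonneg y])

@[simp] theorem nq_zero : nq (0 : Fin K → ℝ) = 0 := by simp [nq]
theorem nq_smul (c : ℝ) (y : Fin K → ℝ) : nq (c • y) = c ^ 2 * nq y := by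
  simp [nq, mul_pow, Finset.mul_sum]

theorem cd_nq : ContDiff ℝ ∞ (nq : (Fin K → ℝ) → ℝ) :=
  ContDiff.sum fun i _ => (contDiff_apply ℝ ℝ i).pow 2

theorem fderiv_nq (y v : Fin K → ℝ) : fderiv ℝ nq y v = 2 * ∑ i, y i * v i := by
  have h : HasFDerivAt (nq : (Fin K → ℝ) → ℝ) (∑ i, (2 * y i) •
      (ContinuousLinearMap.proj i : (Fin K → ℝ) →L[ℝ] ℝ)) y :=
    HasFDerivAt.fun_sum fun i _ => by
      simpa using (hasFDerivAt_apply (𝕜 := ℝ) i y).pow 2
  rw [h.fderiv]
  simp [Finset.mul_sum, mul_assoc]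

@[simp] theorem tau_apply (x : XX Y K) : tau x = (x.1, -x.2) := rfl
theorem tau_tau (x : XX Y K) : tau (tau x) = x := by simp
theorem cd_tau : ContDiff ℝ ∞ ⇑(tau (Y := Y) (K := K)) := contDiff_fst.prodMk contDiff_snd.neg

variable {Gt : XX Y K → Fin K → ℝ}

theorem cd_aa (h : ContDiff ℝ ∞ Gt) : ContDiff ℝ ∞ (aa Gt) := h.add contDiff_snd
theorem cd_bb (h : ContDiff ℝ ∞ Gt) : ContDiff ℝ ∞ (bb Gt) := h.sub contDiff_snd
theorem cd_D0 (h : ContDiff ℝ ∞ Gt) : ContDiff ℝ ∞ (D0 Gt) :=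
  (cd_nq.comp (cd_aa h)).sub (cd_nq.comp (cd_bb h))
theorem cd_G1 (h : ContDiff ℝ ∞ Gt) : ContDiff ℝ ∞ (G1 Gt) :=
  h.comp (contDiff_id.prodMk contDiff_const)

theorem Pre.aa_tau (h : Pre Gt) (x : XX Y K) : aa Gt (tau x) = bb Gt x := by
  rw [aa, bb, h.even, sub_eq_add_neg]; rfl
theorem Pre.bb_tau (h : Pre Gt) (x : XX Y K) : bb Gt (tau x) = aa Gt x := by
  rw [← h.aa_tau, tau_tau]
theorem Pre.D0_tau (h : Pre Gt) (x : XX Y K) : D0 Gt (tau x) = -D0 Gt x := by
  rw [D0, D0, h.aa_tau, h.bb_tau, neg_sub]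
theorem Pre.tau_TT (h : Pre Gt) {R ρ : ℝ} {x : XX Y K} : tau x ∈ TT Gt R ρ ↔ x ∈ TT Gt R ρ := by
  simp only [TT, mem_ofPred_eq, h.aa_tau, h.bb_tau, add_comm (nq (bb Gt x))]; rfl

omit [NormedAddCommGroup Y] [NormedSpace ℝ Y] in
theorem D0_eq (Gt : XX Y K → Fin K → ℝ) (x : XX Y K) : D0 Gt x = 4 * ∑ i, Gt x i * x.2 i := by
  simp only [D0, nq, aa, bb, Pi.add_apply, Pi.sub_apply, ← Finset.sum_sub_distrib, Finset.mul_sum]
  exact Finset.sum_congr rfl fun i _ => by ring

theorem isOpen_TT (h : ContDiff ℝ ∞ Gt) (R ρ : ℝ) : IsOpen (TT Gt R ρ) :=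
  (isOpen_lt (continuous_snd.comp continuous_fst).norm continuous_const).inter
    (isOpen_lt (((cd_nq.comp (cd_aa h)).add (cd_nq.comp (cd_bb h))).continuous) continuous_const)

omit [NormedSpace ℝ Y] in
theorem TT_mono {R ρ ρ' : ℝ} (h : ρ ≤ ρ') : TT Gt R ρ ⊆ TT Gt R ρ' :=
  fun _ hx => ⟨hx.1, hx.2.trans_le h⟩
omit [NormedSpace ℝ Y] in
theorem TT_sub_TC {R ρ ρ' : ℝ} (h : ρ ≤ ρ') : TT Gt R ρ ⊆ TC Gt R ρ' :=
  fun _ hx => ⟨hx.1, hx.2.le.trans h⟩
omit [NormedSpace ℝ Y] in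
theorem TC_sub_TT {R ρ ρ' : ℝ} (h : ρ < ρ') : TC Gt R ρ ⊆ TT Gt R ρ' :=
  fun _ hx => ⟨hx.1, hx.2.trans_lt h⟩

theorem Tube.closed' {R ν ρ : ℝ} {π Ex} (h : Tube Gt R ν π Ex) (hρ : ρ ≤ ν) :
    IsClosed (TC Gt R ρ) := by
  have : TC Gt R ρ = TC Gt R ν ∩ {x | nq (aa Gt x) + nq (bb Gt x) ≤ ρ} :=
    Set.ext fun x => ⟨fun hx => ⟨⟨hx.1, hx.2.trans hρ⟩, hx.2⟩, fun hx => ⟨hx.1.1, hx.2⟩⟩
  rw [this]
  exact h.closed.inter (isClosed_le (((cd_nq.comp (cd_aa h.pre.sm)).add
    (cd_nq.comp (cd_bb h.pre.sm))).continuous) continuous_const)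

theorem Tube.cpt' {R ν ρ : ℝ} {π Ex} (h : Tube Gt R ν π Ex) (hρ : ρ ≤ ν) (r : ℝ) :
    IsCompact (TC Gt R ρ ∩ {x | |x.1.1| ≤ r}) :=
  (h.cpt r).of_isClosed_subset ((h.closed' hρ).inter (isClosed_le
    (continuous_fst.comp continuous_fst).abs continuous_const))
    fun _ hx => ⟨⟨hx.1.1, hx.1.2.trans hρ⟩, hx.2⟩

theorem m0_pos {h : ℝ} (hh : 0 < h) : 0 < m0 K h := by unfold m0; positivity

theorem lt_m0 {h : ℝ} (hh : 0 < h) : K * h ^ 2 < m0 K h := by
  unfold m0; nlinarith [pow_pos hh 2]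

/-- the bump form vanishes off the cube -/
theorem PhiS_eq_zero {e : ℝ → ℝ} {h : ℝ} (he : Bump e (-h) h) (hh : 0 ≤ h) {y : Fin K → ℝ}
    (hy : h < ‖y‖) : PhiS K e y = 0 := by
  obtain ⟨i, hi⟩ : ∃ i, h < |y i| := by
    by_contra hc
    push Not at hc
    exact absurd ((pi_norm_le_iff_of_nonneg hh).2 hc) (not_le.2 hy)
  have : e (y i) = 0 := he.zero _ fun hm => absurd (abs_le.2 hm) (not_le.2 hi)
  rw [PhiS, Phi, Finset.prod_eq_zero (Finset.mem_univ i) (by simpa using this), zero_smul]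

end Pool.Agent.MP_c8d41b_gt.GF

end
end MrgPart0

-- ======== part 1: formerly Pool.Agent.MP_c8d41b_gt.gf.Box
section MrgPart1

/-! PROJECT GF, row BOX: duality and finiteness for a coordinate box. -/

open scoped ContDiff Topology
open Set Filter ExteriorAlgebra

noncomputable section

namespace Pool.Agent.MP_c8d41b_gt.GF

namespace BoxP

variable {E : Type} [NormedAddCommGroup E] [NormedSpace ℝ E] [FiniteDimensional ℝ E] {N : ℕ}

/-- the coordinate functions -/
def co (b : Module.Basis (Fin N) ℝ E) (i : Fin N) : E →L[ℝ] ℝ :=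
  LinearMap.toContinuousLinearMap (b.coord i)

theorem co_apply (b : Module.Basis (Fin N) ℝ E) (i : Fin N) (x : E) : co b i x = b.repr x i := rfl

theorem co_basis (b : Module.Basis (Fin N) ℝ E) (i j : Fin N) :
    co b i (b j) = if i = j then 1 else 0 := by
  simp [co_apply, Finsupp.single_apply, eq_comm]

/-- the open box -/
def bx (b : Module.Basis (Fin N) ℝ E) (lo hi : Fin N → ℝ) : Set E :=
  {x | ∀ i, lo i < b.repr x i ∧ b.repr x i < hi i}

theorem isOpen_bx (b : Module.Basis (Fin N) ℝ E) (lo hi : Fin N → ℝ) : IsOpen (bx b lo hi) := by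
  rw [bx, ofPred_forall]
  exact isOpen_iInter_of_finite fun i =>
    (isOpen_lt continuous_const (co b i).continuous).inter
      (isOpen_lt (co b i).continuous continuous_const)

theorem oc_box (b : Module.Basis (Fin N) ℝ E) {lo hi lo' hi' : Fin N → ℝ} (h1 : ∀ i, lo i < lo' i)
    (h2 : ∀ i, hi' i < hi i) {γ : E → Lam E} (hγ : ContDiff ℝ ∞ γ)
    (h0 : ∀ x i, co b i x ∉ Icc (lo' i) (hi' i) → γ x = 0) : Oc (bx b lo hi) γ := by
  refine Oc.of_compact (S := b.equivFun.symm '' Icc lo' hi') hγ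
    (isCompact_Icc.image b.equivFun.symm.toLinearMap.continuous_of_finiteDimensional) ?_ ?_
  · rintro _ ⟨y, hy, rfl⟩ i
    have : b.repr (b.equivFun.symm y) i = y i := congrFun (b.equivFun.apply_symm_apply y) i
    rw [this]
    exact ⟨(h1 i).trans_le (hy.1 i), (hy.2 i).trans_lt (h2 i)⟩
  · intro x hx
    by_contra hne
    refine hx ⟨b.equivFun x, ⟨fun i => ?_, fun i => ?_⟩, b.equivFun.symm_apply_apply x⟩
    · exact (not_not.1 fun h => hne (h0 x i h)).1
    · exact (not_not.1 fun h => hne (h0 x i h)).2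

omit [NormedSpace ℝ E] [FiniteDimensional ℝ E] in
theorem shrink {K : Set E} (hK : IsCompact K) {f : E → ℝ} (hf : Continuous f) {a a' c c' : ℝ}
    (ha : a < a') (hc : c' < c) (h : ∀ x ∈ K, a < f x ∧ f x < c) :
    ∃ a'' c'', a < a'' ∧ a'' ≤ a' ∧ c' ≤ c'' ∧ c'' < c ∧ ∀ x ∈ K, f x ∈ Icc a'' c'' := by
  obtain ⟨m, hm, hm'⟩ := ((hK.image hf).insert a').exists_isLeast (insert_nonempty _ _)
  obtain ⟨M, hM, hM'⟩ := ((hK.image hf).insert c').exists_isGreatest (insert_nonempty _ _)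
  refine ⟨m, M, ?_, hm' (mem_insert _ _), hM' (mem_insert _ _), ?_, fun x hx =>
    ⟨hm' (mem_insert_of_mem _ ⟨x, hx, rfl⟩), hM' (mem_insert_of_mem _ ⟨x, hx, rfl⟩)⟩⟩
  · rcases hm with rfl | ⟨x, hx, rfl⟩
    · exact ha
    · exact (h x hx).1
  · rcases hM with rfl | ⟨x, hx, rfl⟩
    · exact hc
    · exact (h x hx).2

theorem const_of_inv (b : Module.Basis (Fin N) ℝ E) {σ : E → Lam E}
    (h : ∀ x i (t : ℝ), σ (x + t • b i) = σ x) (x : E) : σ x = σ 0 := by
  have h1 : ∀ s : Finset (Fin N), σ (∑ i ∈ s, b.repr x i • b i) = σ 0 := fun s => by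
    induction s using Finset.induction_on with
    | empty => rw [Finset.sum_empty]
    | insert i s hi ih => rw [Finset.sum_insert hi, add_comm, h, ih]
  rw [← h1 Finset.univ, b.sum_repr]

theorem itg_Phi (b : Module.Basis (Fin N) ℝ E) {e : Fin N → ℝ → ℝ} (he : ∀ i, ∫ t, e i t = 1) :
    itg b (Phi (co b) e) = 1 := by
  have h1 : ev (List.ofFn b) (List.ofFn fun i => ι ℝ (co b i)).prod = 1 := by
    have := ev_prod (co b) b (co_basis b) (a := 1) (fun j => ctr_one _) []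
    rw [List.append_nil, mul_one] at this
    rw [this, ev, map_one]
  have h2 : ∀ (y : Fin N → ℝ) i, co b i (b.equivFun.symm y) = y i := fun y i =>
    congrFun (b.equivFun.apply_symm_apply y) i
  simp only [itg, Phi, ev_smul, h1, mul_one, h2]
  rw [MeasureTheory.integral_fintype_prod_volume_eq_prod]
  simp [he]

/-- the generator of compactly supported cohomology of a box -/
theorem gen (hF : FibStmt) (hB : BumpStmt) (b : Module.Basis (Fin N) ℝ E) {lo hi : Fin N → ℝ}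
    (hlt : ∀ i, lo i < hi i) : ∃ Φ : E → Lam E, Oc (bx b lo hi) Φ ∧ dd Φ = 0 ∧ itg b Φ = 1 ∧
      ∀ α, Oc (bx b lo hi) α → dd α = 0 →
        ∃ (c : ℝ) (γ : E → Lam E), Oc (bx b lo hi) γ ∧ α = c • Φ + dd γ := by
  have h1 : ∀ i, lo i < (2 * lo i + hi i) / 3 := fun i => by linarith [hlt i]
  have h2 : ∀ i, (lo i + 2 * hi i) / 3 < hi i := fun i => by linarith [hlt i]
  choose e he using fun i => hB.1 ((2 * lo i + hi i) / 3) ((lo i + 2 * hi i) / 3)
    (by linarith [hlt i])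
  obtain ⟨hsm, hdd, -⟩ := hB.2.2 E N (co b) e fun i => (he i).sm
  refine ⟨Phi (co b) e, oc_box b h1 h2 hsm fun x i hx => ?_, hdd, itg_Phi b fun i => (he i).int,
    fun α hα hd => ?_⟩
  · rw [Phi, Finset.prod_eq_zero (Finset.mem_univ i) ((he i).zero _ hx), zero_smul]
  choose lo' hi' k1 k2 k3 k4 k5 using fun i => shrink hα.cpt (co b i).continuous (h1 i) (h2 i)
    fun x hx => hα.sub hx i
  obtain ⟨σ, γ, -, hγ, hO, hinv, hctr, hγ0, -⟩ := hF E N (co b) b lo' hi' e α univ (co_basis b)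
    (fun i => ⟨(he i).sm, fun t ht => (he i).zero t fun h => ht (Icc_subset_Icc (k2 i) (k3 i) h),
      (he i).int⟩) hα.sm
    (fun x i hx => image_eq_zero_of_notMem_tsupport fun h => hx (k5 i x h))
    (fun _ _ _ _ => mem_univ _) (fun x _ => congrFun hd x)
  have hc : ∀ v, ctr v (σ 0) = 0 := fun v => by
    rw [← b.sum_repr v, ← ctrL_apply, map_sum, LinearMap.sum_apply]
    exact Finset.sum_eq_zero fun i _ => by rw [ctrL_apply, ctr_smul_left, hctr, smul_zero]
  refine ⟨algebraMapInv (σ 0), γ, oc_box b k1 k4 hγ hγ0, funext fun x => ?_⟩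
  rw [(hO x (mem_univ _)).1, const_of_inv b hinv x, Pi.add_apply, Pi.smul_apply]
  conv_lhs => rw [eq_scalar hc, Algebra.algebraMap_eq_smul_one, mul_smul_comm, mul_one]

/-- Poincare lemma -/
theorem poincare (hH : HomotStmt) (b : Module.Basis (Fin N) ℝ E) {lo hi : Fin N → ℝ} {x₀ : E}
    (h0 : x₀ ∈ bx b lo hi) {A : E → Lam E} (hA : ContDiffOn ℝ ∞ A (bx b lo hi))
    (hd : ∀ x ∈ bx b lo hi, dd A x = 0) : ∃ (c : ℝ) (A₁ : E → Lam E),
      ∀ x ∈ bx b lo hi, ContDiffAt ℝ ∞ A₁ x ∧ A x = algebraMap ℝ _ c + dd A₁ x := by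
  let H : ℝ × E → E := fun p => x₀ + p.1 • (p.2 - x₀)
  have hHs : ContDiff ℝ ∞ H :=
    contDiff_const.add (contDiff_fst.smul (contDiff_snd.sub contDiff_const))
  have hm : ∀ x ∈ bx b lo hi, ∀ t ∈ Icc (0 : ℝ) 1, H (t, x) ∈ bx b lo hi := fun x hx t ht i => by
    have e : b.repr (H (t, x)) i = b.repr x₀ i + t * (b.repr x i - b.repr x₀ i) := by simp [H]
    rw [e]
    obtain ⟨a1, a2⟩ := hx i
    obtain ⟨a3, a4⟩ := h0 i
    rcases ht.1.eq_or_lt with rfl | hp
    · constructor <;> linarith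
    · constructor <;> nlinarith [ht.2]
  refine ⟨algebraMapInv (A x₀), hK H A, fun x hx => ?_⟩
  obtain ⟨k1, k2⟩ := hH E E H A _ x hHs (isOpen_bx b lo hi) hA (hm x hx)
  refine ⟨k1, ?_⟩
  have e1 : (fun y => H (1, y)) = fun y => y := funext fun y => by simp [H]
  have e0 : (fun y => H (0, y)) = fun _ => x₀ := funext fun y => by simp [H]
  rw [e1, e0, pb_id, pb, fderiv_fun_const, Pi.zero_apply, mp_zero,
    hK_eq_zero fun t ht => hd _ (hm x hx t ht), add_zero] at k2
  rw [← k2, add_sub_cancel]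

/-- forms with compact support in `U` -/
def OcS (U : Set E) : Submodule ℝ (E → Lam E) where
  carrier := {α | Oc U α}
  add_mem' := Oc.add
  zero_mem' := Oc.zero
  smul_mem' := fun c _ h => h.smul c

/-- `α ↦ d (inv α)` -/
def dI (U : Set E) : OcS U →ₗ[ℝ] (E → Lam E) where
  toFun α := dd fun x => inv (α.1 x)
  map_add' α β := funext fun x => by
    simp only [Submodule.coe_add, Pi.add_apply, map_add]
    exact dd_add ((Oc.inv α.2).da x) ((Oc.inv β.2).da x)
  map_smul' c α := funext fun x => by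
    simp only [Submodule.coe_smul, Pi.smul_apply, map_smul, RingHom.id_apply]
    exact dd_smul c ((Oc.inv α.2).da x)

/-- pairing with a form that is smooth on `U` -/
def pr {b : Module.Basis (Fin N) ℝ E} (hS : Stokes b) {U : Set E} {A : E → Lam E}
    (hA : ∀ x ∈ U, ContDiffAt ℝ ∞ A x) : OcS U →ₗ[ℝ] ℝ where
  toFun α := itg b fun x => α.1 x * A x
  map_add' α β := by
    rw [← hS.add _ _ ((Oc.mul_right α.2 hA).mono (subset_univ _))
      ((Oc.mul_right β.2 hA).mono (subset_univ _))]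
    exact congrArg (itg b) (funext fun x => add_mul _ _ _)
  map_smul' c α := by
    rw [RingHom.id_apply, smul_eq_mul, ← hS.smul]
    exact congrArg (itg b) (funext fun x => smul_mul_assoc c (α.1 x) (A x))

theorem itg_zero (b : Module.Basis (Fin N) ℝ E) : itg b (fun _ => (0 : Lam E)) = 0 := by simp [itg]

theorem itg_congr (b : Module.Basis (Fin N) ℝ E) {U : Set E} {α A A' : E → Lam E} (hα : Oc U α)
    (h : ∀ x ∈ U, A x = A' x) : (itg b fun x => α x * A x) = itg b fun x => α x * A' x := by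
  refine congrArg (itg b) (funext fun x => ?_)
  by_cases hx : x ∈ U
  · rw [h x hx]
  · rw [hα.zero_of hx, zero_mul, zero_mul]

theorem itg_scalar {b : Module.Basis (Fin N) ℝ E} (hS : Stokes b) {U : Set E} {α A : E → Lam E}
    (hα : Oc U α) (hA : ∀ x ∈ U, ContDiffAt ℝ ∞ A x) (c : ℝ) :
    (itg b fun x => α x * (algebraMap ℝ _ c + A x)) = c * itg b α + itg b fun x => α x * A x := by
  rw [← hS.smul, ← hS.add _ _ ((hα.smul c).mono (subset_univ _))
    ((hα.mul_right hA).mono (subset_univ _))]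
  refine congrArg (itg b) (funext fun x => ?_)
  rw [mul_add, Algebra.algebraMap_eq_smul_one, mul_smul_comm, mul_one]
  rfl

theorem dd_inv_zero {U : Set E} {α : E → Lam E} (hα : Oc U α) (hd : dd α = 0) :
    (dd fun x => inv (α x)) = 0 := funext fun x => by
  rw [dd_inv (hα.da x), hd, Pi.zero_apply, map_zero, neg_zero]

theorem cone (hH : HomotStmt) {b : Module.Basis (Fin N) ℝ E} (hS : Stokes b) {lo hi : Fin N → ℝ}
    {x₀ : E} (h0 : x₀ ∈ bx b lo hi) {Φ : E → Lam E} (hΦ : Oc (bx b lo hi) Φ) (hdΦ : dd Φ = 0)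
    (hi1 : itg b Φ = 1) (hgen : ∀ α, Oc (bx b lo hi) α → dd α = 0 →
      ∃ (c : ℝ) (γ : E → Lam E), Oc (bx b lo hi) γ ∧ α = c • Φ + dd γ) : Cone b (bx b lo hi) := by
  intro φ A hA hd hcyc
  obtain ⟨c, A₁, h1⟩ := poincare hH b h0 hA hd
  have hU := isOpen_bx b lo hi
  have s1 : ∀ x ∈ bx b lo hi, ContDiffAt ℝ ∞ A₁ x := fun x hx => (h1 x hx).1
  have s1' : ContDiffOn ℝ ∞ A₁ (bx b lo hi) := fun x hx => (s1 x hx).contDiffWithinAt
  have hc : c = 0 := by
    have k1 := hcyc Φ hΦ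
    have k2 := hS.ibp _ _ A₁ hU hΦ.inv s1'
    rw [dd_inv_zero hΦ hdΦ] at k1 k2
    simp only [inv_inv, Pi.zero_apply, zero_mul, itg_zero] at k2
    rw [itg_congr b hΦ fun x hx => (h1 x hx).2, itg_scalar hS hΦ fun x hx => cda_dd' (s1 x hx), hi1,
      map_zero] at k1
    linarith
  have h2 : ∀ x ∈ bx b lo hi, dd A₁ x = A x := fun x hx => by
    rw [(h1 x hx).2, hc, map_zero, zero_add]
  have hex : ∀ γ, Oc (bx b lo hi) γ → φ (dd γ) = itg b fun x => dd γ x * A₁ x := fun γ hγ => by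
    have k1 := hcyc _ hγ.inv
    simp only [inv_inv] at k1
    rw [hS.ibp _ _ A₁ hU hγ s1', itg_congr b hγ.inv h2, ← k1, neg_neg]
  obtain ⟨c', hc'⟩ : ∃ c', c' = φ Φ - itg b fun x => Φ x * A₁ x := ⟨_, rfl⟩
  have s2 : ∀ x ∈ bx b lo hi, ContDiffAt ℝ ∞ (fun x => algebraMap ℝ (Lam E) c' + A₁ x) x :=
    fun x hx => contDiffAt_const.add (s1 x hx)
  let ψ : OcS (bx b lo hi) →ₗ[ℝ] ℝ := pr hS s2 - φ.comp (OcS _).subtype
  have hψ : ∀ α : OcS (bx b lo hi), ψ α =
      c' * itg b α.1 + (itg b fun x => α.1 x * A₁ x) - φ α.1 := fun α => by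
    rw [← itg_scalar hS α.2 s1]; rfl
  have hker : ψ ∈ (LinearMap.ker (dI (bx b lo hi))).dualAnnihilator := by
    rw [Submodule.mem_dualAnnihilator]
    intro α hα
    have hdα : dd α.1 = 0 := funext fun x => by
      have k := congrFun (LinearMap.mem_ker.1 hα) x
      change dd (fun x => inv (α.1 x)) x = 0 at k
      rw [dd_inv (Oc.da α.2 x), neg_eq_zero] at k
      rw [← inv_inv (dd α.1 x), k, map_zero, Pi.zero_apply]
    obtain ⟨a, γ, hγ, e⟩ := hgen α.1 α.2 hdα
    have e' : α = a • (⟨Φ, hΦ⟩ : OcS (bx b lo hi)) + ⟨dd γ, hγ.dd⟩ := Subtype.ext e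
    rw [e', map_add, map_smul, hψ, hψ]
    simp only [hi1, hS.stokes γ (hγ.mono (subset_univ _)), hex γ hγ, hc', smul_eq_mul]
    ring
  rw [← LinearMap.range_dualMap_eq_dualAnnihilator_ker] at hker
  obtain ⟨φ', hφ'⟩ := hker
  refine ⟨φ', fun x => algebraMap ℝ (Lam E) c' + A₁ x, fun x hx => (s2 x hx).contDiffWithinAt,
    fun x hx => ?_, fun α hα => ?_⟩
  · rw [dd_add (α := fun _ => algebraMap ℝ (Lam E) c') (differentiableAt_const _)
      ((s1 x hx).differentiableAt (by simp)), dd_const, zero_add, h2 x hx]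
  · have k : φ' (dd fun x => inv (α x)) =
        (itg b fun x => α x * (algebraMap ℝ (Lam E) c' + A₁ x)) - φ α :=
      congrArg (fun f : OcS (bx b lo hi) →ₗ[ℝ] ℝ => f ⟨α, hα⟩) hφ'
    rw [k]; ring

end BoxP

open BoxP in
theorem box (hH : HomotStmt) (hF : FibStmt) (hB : BumpStmt) (hS : StokesStmt) : BoxStmt := by
  rintro E _ _ _ N b U ⟨lo, hi, rfl⟩
  change Cone b (bx b lo hi) ∧ FD (bx b lo hi)
  rcases (bx b lo hi).eq_empty_or_nonempty with he | ⟨x₀, h0⟩
  · have hz : ∀ α : E → Lam E, Oc (bx b lo hi) α → α = 0 := fun α hα =>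
      funext fun x => hα.zero_of (by rw [he]; exact notMem_empty x)
    refine ⟨fun φ A _ _ _ => ⟨0, 0, contDiffOn_const, fun x hx => ?_, fun α hα => ?_⟩,
      0, Fin.elim0, fun i => i.elim0, fun α hα _ => ⟨Fin.elim0, 0, Oc.zero, ?_⟩⟩
    · rw [he] at hx; exact absurd hx (notMem_empty x)
    · rw [hz α hα]; simp [itg]
    · rw [hz α hα]; simp
  · obtain ⟨Φ, hΦ, hd, hi1, hgen⟩ := gen hF hB b fun i => (h0 i).1.trans (h0 i).2
    refine ⟨cone hH (hS E N b) h0 hΦ hd hi1 hgen, 1, fun _ => Φ, fun _ => ⟨hΦ, hd⟩,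
      fun α hα hdα => ?_⟩
    obtain ⟨c, γ, hγ, e⟩ := hgen α hα hdα
    exact ⟨fun _ => c, γ, hγ, by rw [Fin.sum_univ_one]; exact e⟩

end Pool.Agent.MP_c8d41b_gt.GF

end
end MrgPart1

-- ======== part 2: formerly Pool.Agent.MP_c8d41b_gt.gf.Fib
section MrgPart2

/-! PROJECT GF, row FIB: bump forms and integration along fibre directions. -/

open scoped ContDiff Topology
open Set Filter ExteriorAlgebra

noncomputable section

namespace Pool.Agent.MP_c8d41b_gt.GF

namespace FibP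

variable {E : Type} [NormedAddCommGroup E] [NormedSpace ℝ E] [FiniteDimensional ℝ E]

theorem cd_el {l : E →L[ℝ] ℝ} {e : ℝ → ℝ} {γ : E → Lam E} (he : ContDiff ℝ ∞ e)
    (hγ : ContDiff ℝ ∞ γ) : ContDiff ℝ ∞ fun x => e (l x) • (ι ℝ l * γ x) :=
  (he.comp l.contDiff).smul
    (contDiff_iff_contDiffAt.2 fun _ => cda_mul contDiffAt_const hγ.contDiffAt)

theorem dd_el {l : E →L[ℝ] ℝ} {e : ℝ → ℝ} {γ : E → Lam E} (he : ContDiff ℝ ∞ e)
    (hγ : ContDiff ℝ ∞ γ) (x : E) :
    dd (fun x => e (l x) • (ι ℝ l * γ x)) x = -(e (l x) • (ι ℝ l * dd γ x)) := by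
  have h1 : HasDerivAt e (deriv e (l x)) (l x) :=
    (he.differentiable (by simp) _).hasDerivAt
  have h2 : HasFDerivAt (fun x => e (l x)) (deriv e (l x) • l) x :=
    h1.comp_hasFDerivAt x l.hasFDerivAt
  have h3 : DifferentiableAt ℝ γ x := hγ.differentiable (by simp) x
  have h4 : DifferentiableAt ℝ (fun x => ι ℝ l * γ x) x :=
    (cda_mul (n := ∞) contDiffAt_const hγ.contDiffAt).differentiableAt (by simp)
  rw [dd_fsmul h2.differentiableAt h4, h2.fderiv, dd_mul (differentiableAt_const _) h3, dd_const,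
    map_smul, smul_mul_assoc, ι_ι_mul, inv_ι]
  simp

omit [FiniteDimensional ℝ E] in
theorem Phi_succ {n : ℕ} (l : Fin (n + 1) → E →L[ℝ] ℝ) (e : Fin (n + 1) → ℝ → ℝ) (x : E) :
    Phi l e x = e 0 (l 0 x) • (ι ℝ (l 0) * Phi (fun i => l i.succ) (fun i => e i.succ) x) := by
  simp only [Phi, Fin.prod_univ_succ, List.ofFn_succ, List.prod_cons, mul_smul, mul_smul_comm]

omit [FiniteDimensional ℝ E] in
theorem Phi_zero (l : Fin 0 → E →L[ℝ] ℝ) (e : Fin 0 → ℝ → ℝ) (x : E) : Phi l e x = 1 := by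
  simp [Phi]

theorem Phi_prop {n : ℕ} (l : Fin n → E →L[ℝ] ℝ) (e : Fin n → ℝ → ℝ)
    (he : ∀ i, ContDiff ℝ ∞ (e i)) : ContDiff ℝ ∞ (Phi l e) ∧ dd (Phi l e) = 0 := by
  induction n with
  | zero =>
    rw [funext (Phi_zero l e)]
    exact ⟨contDiff_const, funext fun x => dd_const _ x⟩
  | succ n ih =>
    obtain ⟨h1, h2⟩ := ih (fun i => l i.succ) (fun i => e i.succ) fun i => he _
    rw [funext (Phi_succ l e)]
    refine ⟨cd_el (he 0) h1, funext fun x => ?_⟩
    rw [dd_el (he 0) h1, h2]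
    simp

/-! ### Integrals along lines -/

section Line
variable {w : E} {l : E →L[ℝ] ℝ} {lo hi : ℝ} {F : E → Lam E}

theorem cont_line (hF : ContDiff ℝ ∞ F) (x w : E) : Continuous fun u : ℝ => F (x + u • w) :=
  hF.continuous.comp (by fun_prop)

/-- integral over a fixed segment -/
theorem seg (hP : ParStmt) (hF : ContDiff ℝ ∞ F) (w : E) (a b : ℝ) (x : E) :
    ContDiffAt ℝ ∞ (fun x => ∫ u in a..b, F (x + u • w)) x ∧
      dd (fun x => ∫ u in a..b, F (x + u • w)) x = ∫ u in a..b, dd F (x + u • w) := by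
  have hA : ContDiff ℝ ∞ fun p : ℝ × E => p.2 + p.1 • w := by fun_prop
  obtain ⟨h1, h2⟩ := hP E (Lam E) (fun p => F (p.2 + p.1 • w)) univ a b x isOpen_univ
    (hF.comp hA).contDiffOn fun _ _ => mem_univ _
  refine ⟨h1, ?_⟩
  have h3 : ∀ (t : ℝ) (v : E), fderiv ℝ (fun p : ℝ × E => F (p.2 + p.1 • w)) (t, x) (0, v) =
      fderiv ℝ F (x + t • w) v := fun t v => by
    have h4 : HasFDerivAt (fun p : ℝ × E => p.2 + p.1 • w)
        (ContinuousLinearMap.snd ℝ ℝ E + (ContinuousLinearMap.fst ℝ ℝ E).smulRight w) (t, x) :=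
      hasFDerivAt_snd.add (hasFDerivAt_fst.smul_const w)
    have h5 := ((hF.differentiable (by simp) (x + t • w)).hasFDerivAt.comp (t, x) h4).fderiv
    refine (congrArg (fun L => L (0, v)) h5).trans ?_
    simp
  have h6 : ∀ v : E, Continuous fun t : ℝ => fderiv ℝ F (x + t • w) v := fun v =>
    ((hF.continuous_fderiv (by simp)).comp (by fun_prop)).clm_apply continuous_const
  simp only [dd, h2, h3]
  have h7 : ∀ (c : Lam E) (v : E), Continuous fun t : ℝ => c * fderiv ℝ F (x + t • w) v :=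
    fun c v => (mulL c).continuous.comp (h6 v)
  rw [intervalIntegral.integral_finsetSum fun i _ => (h7 _ _).intervalIntegrable a b]
  have h8 : ∀ (c : Lam E) (v : E), c * ∫ t in a..b, fderiv ℝ F (x + t • w) v =
      ∫ t in a..b, c * fderiv ℝ F (x + t • w) v := fun c v =>
    ((mulL c).intervalIntegral_comp_comm ((h6 v).intervalIntegrable a b)).symm
  exact Finset.sum_congr rfl fun i _ => h8 _ _

/-- fundamental theorem of calculus for the contraction of a form closed along a line -/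
theorem seg_ctr (hF : ContDiff ℝ ∞ F) {x : E} (hd : ∀ u : ℝ, dd F (x + u • w) = 0) (a b : ℝ) :
    ∫ u in a..b, dd (fun y => ctr w (F y)) (x + u • w) = F (x + b • w) - F (x + a • w) := by
  have hD := hF.differentiable (by simp)
  have h1 : ∀ u : ℝ, dd (fun y => ctr w (F y)) (x + u • w) = fderiv ℝ F (x + u • w) w := fun u => by
    rw [← dd_ctr w (hD _), hd, map_zero, add_zero]
  simp only [h1]
  refine intervalIntegral.integral_eq_sub_of_hasDerivAt (f := fun u : ℝ => F (x + u • w))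
    (fun u _ => ?_) (Continuous.intervalIntegrable (((hF.continuous_fderiv (by simp)).comp
      (by fun_prop)).clm_apply continuous_const) _ _)
  have h2 : HasDerivAt (fun u : ℝ => x + u • w) w u := by
    simpa using ((hasDerivAt_id u).smul_const w).const_add x
  exact (hD _).hasFDerivAt.comp_hasDerivAt u h2

/-- integral over the whole line -/
def lI (w : E) (F : E → Lam E) (x : E) : Lam E := ∫ u : ℝ, F (x + u • w)

/-- integral over the half line -/
def lJ (w : E) (F : E → Lam E) (x : E) : Lam E := ∫ u in Iic (0 : ℝ), F (x + u • w)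

theorem lI_eq (hw : l w = 1) (h0 : ∀ x, l x ∉ Icc lo hi → F x = 0) {x : E} {M : ℝ}
    (h1 : l x - lo < M) (h2 : hi - l x < M) : lI w F x = ∫ u in -M..M, F (x + u • w) := by
  refine (intervalIntegral.integral_eq_integral_of_support_subset fun u hu => ?_).symm
  have := not_not.1 (mt (h0 _) hu)
  simp only [map_add, map_smul, hw, smul_eq_mul, mul_one, mem_Icc] at this
  exact ⟨by linarith [this.1], by linarith [this.2]⟩

theorem lJ_eq (hw : l w = 1) (h0 : ∀ x, l x ∉ Icc lo hi → F x = 0) {x : E} {M : ℝ}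
    (h1 : l x - lo < M) (h2 : 0 ≤ M) : lJ w F x = ∫ u in -M..0, F (x + u • w) := by
  rw [intervalIntegral.integral_of_le (by linarith)]
  refine MeasureTheory.setIntegral_eq_of_subset_of_forall_sdiff_eq_zero measurableSet_Iic
    Ioc_subset_Iic_self fun u hu => h0 _ fun h => hu.2 ⟨?_, hu.1⟩
  simp only [map_add, map_smul, hw, smul_eq_mul, mul_one, mem_Icc] at h
  linarith [h.1]

omit [FiniteDimensional ℝ E] in
theorem big (l : E →L[ℝ] ℝ) (lo hi : ℝ) (x : E) :
    ∃ M : ℝ, 0 ≤ M ∧ ∀ᶠ y in 𝓝 x, l y - lo < M ∧ hi - l y < M := by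
  refine ⟨|l x - lo| + |hi - l x| + 1, by positivity, Filter.Eventually.and ?_ ?_⟩
  · refine Continuous.tendsto (f := fun y => l y - lo) (by fun_prop) x (Iio_mem_nhds ?_)
    linarith [le_abs_self (l x - lo), abs_nonneg (hi - l x)]
  · refine Continuous.tendsto (f := fun y => hi - l y) (by fun_prop) x (Iio_mem_nhds ?_)
    linarith [le_abs_self (hi - l x), abs_nonneg (l x - lo)]

theorem lI_lin (hw : l w = 1) (hF : ContDiff ℝ ∞ F) (h0 : ∀ x, l x ∉ Icc lo hi → F x = 0)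
    (T : Lam E →ₗ[ℝ] Lam E) (x : E) : T (lI w F x) = lI w (fun y => T (F y)) x := by
  obtain ⟨M, -, hM⟩ := big l lo hi x
  obtain ⟨h1, h2⟩ := hM.self_of_nhds
  rw [lI_eq hw h0 h1 h2, lI_eq hw (fun y hy => by rw [h0 y hy, map_zero]) h1 h2]
  exact ((clm T).intervalIntegral_comp_comm ((cont_line hF x w).intervalIntegrable _ _)).symm

theorem cd_ctr (hF : ContDiff ℝ ∞ F) (w : E) : ContDiff ℝ ∞ fun y => ctr w (F y) :=
  contDiff_iff_contDiffAt.2 fun _ => cda_lin (ctr w) hF.contDiffAt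

theorem lI_ctr (hP : ParStmt) (hw : l w = 1) (hF : ContDiff ℝ ∞ F)
    (h0 : ∀ x, l x ∉ Icc lo hi → F x = 0) (x : E) :
    ContDiffAt ℝ ∞ (lI w fun y => ctr w (F y)) x ∧
      ((∀ u : ℝ, dd F (x + u • w) = 0) → dd (lI w fun y => ctr w (F y)) x = 0) := by
  obtain ⟨M, -, hM⟩ := big l lo hi x
  obtain ⟨h1, h2⟩ := hM.self_of_nhds
  have e : (lI w fun y => ctr w (F y)) =ᶠ[𝓝 x] fun x => ∫ u in -M..M, ctr w (F (x + u • w)) :=
    hM.mono fun y hy => lI_eq hw (fun y hy => by rw [h0 y hy, map_zero]) hy.1 hy.2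
  obtain ⟨h3, h4⟩ := seg hP (cd_ctr hF w) w (-M) M x
  refine ⟨h3.congr_of_eventuallyEq e, fun hd => ?_⟩
  rw [dd_congr e, h4, seg_ctr hF hd, h0, h0, sub_zero]
  all_goals
    simp only [map_add, map_smul, hw, smul_eq_mul, mul_one, mem_Icc]
    exact fun h => by linarith [h.1, h.2]

theorem lJ_ctr (hP : ParStmt) (hw : l w = 1) (hF : ContDiff ℝ ∞ F)
    (h0 : ∀ x, l x ∉ Icc lo hi → F x = 0) (x : E) :
    ContDiffAt ℝ ∞ (lJ w fun y => ctr w (F y)) x ∧
      ((∀ u : ℝ, dd F (x + u • w) = 0) → dd (lJ w fun y => ctr w (F y)) x = F x) := by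
  obtain ⟨M, hM0, hM⟩ := big l lo hi x
  obtain ⟨h1, h2⟩ := hM.self_of_nhds
  have e : (lJ w fun y => ctr w (F y)) =ᶠ[𝓝 x] fun x => ∫ u in -M..0, ctr w (F (x + u • w)) :=
    hM.mono fun y hy => lJ_eq hw (fun y hy => by rw [h0 y hy, map_zero]) hy.1 hM0
  obtain ⟨h3, h4⟩ := seg hP (cd_ctr hF w) w (-M) 0 x
  refine ⟨h3.congr_of_eventuallyEq e, fun hd => ?_⟩
  rw [dd_congr e, h4, seg_ctr hF hd, h0 (x + -M • w), sub_zero, zero_smul, add_zero]
  simp only [map_add, map_smul, hw, smul_eq_mul, mul_one, mem_Icc]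
  exact fun h => by linarith [h.1]

end Line

/-- integration along one direction -/
theorem one (hP : ParStmt) {w : E} {l : E →L[ℝ] ℝ} {lo hi : ℝ} {e : ℝ → ℝ} {α : E → Lam E}
    (hw : l w = 1) (he : Bump e lo hi) (hα : ContDiff ℝ ∞ α)
    (h0 : ∀ x, l x ∉ Icc lo hi → α x = 0) :
    ∃ σ γ : E → Lam E, ContDiff ℝ ∞ σ ∧ ContDiff ℝ ∞ γ ∧
      (∀ x, (∀ u : ℝ, dd α (x + u • w) = 0) →
        α x = e (l x) • (ι ℝ l * σ x) + dd γ x ∧ dd σ x = 0) ∧
      (∀ x (t : ℝ), σ (x + t • w) = σ x) ∧ (∀ x, ctr w (σ x) = 0) ∧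
      (∀ x, l x ∉ Icc lo hi → γ x = 0) ∧
      (∀ x, (∀ u : ℝ, α (x + u • w) = 0) → σ x = 0 ∧ γ x = 0) ∧
      (∀ v, (∀ x, α (x + v) = α x) → ∀ x, σ (x + v) = σ x) ∧
      ∀ v, (∀ x, ctr v (α x) = 0) → ∀ x, ctr v (σ x) = 0 := by
  have h0' : ∀ x, l x ∉ Icc lo hi → ctr w (α x) = 0 := fun x hx => by rw [h0 x hx, map_zero]
  set σ := lI w fun y => ctr w (α y) with hσ
  have s1 : ContDiff ℝ ∞ σ := contDiff_iff_contDiffAt.2 fun x => (lI_ctr hP hw hα h0 x).1
  have s2 : ∀ x (t : ℝ), σ (x + t • w) = σ x := fun x t => by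
    simp only [hσ, lI, add_assoc, ← add_smul]
    exact MeasureTheory.integral_add_left_eq_self (fun u : ℝ => ctr w (α (x + u • w))) t
  have s3 : ∀ v, (∀ x, ctr v (ctr w (α x)) = 0) → ∀ x, ctr v (σ x) = 0 := fun v hv x => by
    rw [hσ, lI_lin hw (cd_ctr hα w) h0']
    simp [hv, lI]
  have s4 : ∀ x, ctr w (σ x) = 0 := s3 w fun x => ctr_ctr _ _
  have s5 : ∀ x, (∀ u : ℝ, α (x + u • w) = 0) → σ x = 0 := fun x hx => by simp [hσ, lI, hx]
  set β : E → Lam E := fun x => α x - e (l x) • (ι ℝ l * σ x) with hβ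
  have b1 : ContDiff ℝ ∞ β := hα.sub (cd_el he.sm s1)
  have b0 : ∀ x, l x ∉ Icc lo hi → β x = 0 := fun x hx => by simp [hβ, h0 x hx, he.zero _ hx]
  have b0' : ∀ x, l x ∉ Icc lo hi → ctr w (β x) = 0 := fun x hx => by rw [b0 x hx, map_zero]
  refine ⟨σ, lJ w fun y => ctr w (β y), s1,
    contDiff_iff_contDiffAt.2 fun x => (lJ_ctr hP hw b1 b0 x).1, fun x hx => ?_, s2, s4,
    fun x hx => ?_, fun x hx => ⟨s5 x hx, ?_⟩, fun v hv x => ?_,
    fun v hv => s3 v fun x => by rw [ctr_comm, hv, map_zero, neg_zero]⟩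
  · have hs : ∀ u : ℝ, dd σ (x + u • w) = 0 := fun u =>
      (lI_ctr hP hw hα h0 _).2 fun t => by rw [add_assoc, ← add_smul, hx]
    refine ⟨?_, by simpa using hs 0⟩
    rw [(lJ_ctr hP hw b1 b0 x).2 fun u => by
      rw [hβ, dd_sub (hα.differentiable (by simp) _) ((cd_el he.sm s1).differentiable (by simp) _),
        dd_el he.sm s1, hx, hs]
      simp]
    simp [hβ]
  · rcases not_and_or.1 hx with h | h
    · refine MeasureTheory.setIntegral_eq_zero_of_forall_eq_zero fun u hu => b0' _ fun h' => h ?_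
      simp only [map_add, map_smul, hw, smul_eq_mul, mul_one, mem_Icc] at h'
      linarith [h'.1, mem_Iic.1 hu]
    · have e1 : lJ w (fun y => ctr w (β y)) x = lI w (fun y => ctr w (β y)) x := by
        refine MeasureTheory.setIntegral_eq_integral_of_forall_compl_eq_zero fun u hu =>
          b0' _ fun h' => h ?_
        simp only [map_add, map_smul, hw, smul_eq_mul, mul_one, mem_Icc] at h'
        linarith [h'.2, not_le.1 (mt mem_Iic.2 hu)]
      obtain ⟨M, -, hM⟩ := big l lo hi x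
      obtain ⟨h1, h2⟩ := hM.self_of_nhds
      have e2 : ∫ u in -M..M, e (l x + u) = 1 := by
        rw [intervalIntegral.integral_eq_integral_of_support_subset fun u hu => ?_,
          MeasureTheory.integral_add_left_eq_self e, he.int]
        have := not_not.1 (mt (he.zero _) hu)
        exact ⟨by linarith [this.1], by linarith [this.2]⟩
      have e3 : ∀ u : ℝ, ctr w (β (x + u • w)) = ctr w (α (x + u • w)) - e (l x + u) • σ x :=
        fun u => by simp [hβ, ctr_ι_mul, s2, s4, hw]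
      have e4 : Continuous fun u : ℝ => e (l x + u) • σ x :=
        (he.sm.continuous.comp (continuous_const.add continuous_id)).smul continuous_const
      rw [e1, lI_eq hw b0' h1 h2]
      simp only [e3]
      rw [intervalIntegral.integral_sub ((cont_line (cd_ctr hα w) x w).intervalIntegrable _ _)
        (e4.intervalIntegrable _ _), intervalIntegral.integral_smul_const, e2, one_smul,
        ← lI_eq hw h0' h1 h2, sub_self]
  · simp [lJ, hβ, hx, s2, s5 x hx]
  · simp only [hσ, lI, add_right_comm x v, hv]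

theorem all (hP : ParStmt) (O : Set E) (n : ℕ) : ∀ (l : Fin n → E →L[ℝ] ℝ) (w : Fin n → E)
    (lo hi : Fin n → ℝ) (e : Fin n → ℝ → ℝ) (α : E → Lam E),
    (∀ i j, l i (w j) = if i = j then 1 else 0) →
    (∀ i, Bump (e i) (lo i) (hi i)) → ContDiff ℝ ∞ α →
    (∀ x i, l i x ∉ Icc (lo i) (hi i) → α x = 0) →
    (∀ x ∈ O, ∀ i (t : ℝ), x + t • w i ∈ O) → (∀ x ∈ O, dd α x = 0) →
    ∃ σ γ : E → Lam E, (ContDiff ℝ ∞ σ ∧ ContDiff ℝ ∞ γ ∧
      (∀ x ∈ O, α x = Phi l e x * σ x + dd γ x ∧ dd σ x = 0) ∧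
      (∀ x i (t : ℝ), σ (x + t • w i) = σ x) ∧ (∀ x i, ctr (w i) (σ x) = 0) ∧
      (∀ x i, l i x ∉ Icc (lo i) (hi i) → γ x = 0) ∧
      ∀ x, (∀ c : Fin n → ℝ, α (x + ∑ i, c i • w i) = 0) → σ x = 0 ∧ γ x = 0) ∧
      (∀ v, (∀ x, α (x + v) = α x) → ∀ x, σ (x + v) = σ x) ∧
      ∀ v, (∀ x, ctr v (α x) = 0) → ∀ x, ctr v (σ x) = 0 := by
  induction n with
  | zero =>
    intro l w lo hi e α _ _ hα _ _ hd
    exact ⟨α, 0, ⟨hα, contDiff_const, fun x hx => ⟨by simp [Phi_zero], hd x hx⟩,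
      fun _ i => i.elim0, fun _ i => i.elim0, fun _ i => i.elim0,
      fun x hx => ⟨by simpa using hx 0, rfl⟩⟩, fun _ h => h, fun _ h => h⟩
  | succ n ih =>
    intro l w lo hi e α hw he hα h0 hO hd
    obtain ⟨σ₁, γ₁, a1, a2, a3, a4, a5, a6, a7, a8, a9⟩ :=
      one hP (w := w 0) (l := l 0) (by simp [hw]) (he 0) hα fun x => h0 x 0
    have z : ∀ x (i : Fin n), l i.succ x ∉ Icc (lo i.succ) (hi i.succ) →
        ∀ u : ℝ, α (x + u • w 0) = 0 := fun x i hx u =>
      h0 _ i.succ (by simpa [hw, Fin.succ_ne_zero] using hx)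
    have a3' := fun x (hx : x ∈ O) => a3 x fun u => hd _ (hO x hx 0 u)
    obtain ⟨σ, γ, ⟨b1, b2, b3, b4, b5, b6, b7⟩, b8, b9⟩ := ih (fun i => l i.succ)
      (fun i => w i.succ) (fun i => lo i.succ) (fun i => hi i.succ) (fun i => e i.succ) σ₁
      (fun i j => by simp [hw]) (fun i => he _) a1 (fun x i hx => (a7 x (z x i hx)).1)
      (fun x hx i => hO x hx _) fun x hx => (a3' x hx).2
    refine ⟨σ, fun x => γ₁ x - e 0 (l 0 x) • (ι ℝ (l 0) * γ x), ⟨b1, a2.sub (cd_el (he 0).sm b2),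
      fun x hx => ⟨?_, (b3 x hx).2⟩, fun x i t => ?_, fun x i => ?_, fun x i => ?_,
      fun x hx => ?_⟩, fun v hv => b8 v (a8 v hv), fun v hv => b9 v (a9 v hv)⟩
    · rw [dd_sub (a2.differentiable (by simp) _)
        ((cd_el (he 0).sm b2).differentiable (by simp) _), dd_el (he 0).sm b2, Phi_succ,
        (a3' x hx).1, (b3 x hx).1]
      simp only [mul_add, smul_add, smul_mul_assoc, mul_assoc]
      abel
    · exact Fin.cases (b8 _ (fun x => a4 x t) x) (fun i => b4 x i t) i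
    · exact Fin.cases (b9 _ a5 x) (fun i => b5 x i) i
    · refine Fin.cases (fun hx => ?_) (fun i hx => ?_) i
      · simp [a6 x hx, (he 0).zero _ hx]
      · simp [(a7 x (z x i hx)).2, b6 x i hx]
    · have h1 := b7 x fun c => (a7 _ fun u => by
        have := hx (Fin.cons u c)
        rw [Fin.sum_univ_succ] at this
        simpa [add_assoc, add_comm, add_left_comm] using this).1
      have h2 := (a7 x fun u => by
        have := hx (Fin.cons u 0)
        rw [Fin.sum_univ_succ] at this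
        simpa using this).2
      exact ⟨h1.1, by simp [h1.2, h2]⟩

end FibP

theorem bump : BumpStmt := by
  refine ⟨fun lo hi h => ?_, fun s t h => ?_, fun E _ _ _ n l e he =>
    ⟨(FibP.Phi_prop l e he).1, (FibP.Phi_prop l e he).2,
      fun x => Submodule.smul_mem _ _ (dg_prod l)⟩⟩
  · let φ : ContDiffBump ((lo + hi) / 2) := ⟨(hi - lo) / 4, (hi - lo) / 2, by linarith, by linarith⟩
    refine ⟨φ.normed MeasureTheory.volume, φ.contDiff_normed, fun t ht => ?_, φ.integral_normed⟩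
    by_contra h0
    have h1 : t ∈ Function.support (φ.normed MeasureTheory.volume) := h0
    rw [φ.support_normed_eq, Metric.mem_ball, Real.dist_eq, abs_lt,
      show φ.rOut = (hi - lo) / 2 from rfl] at h1
    exact ht ⟨by linarith [h1.1], by linarith [h1.2]⟩
  · have h1 : 0 < t - s := sub_pos.2 h
    refine ⟨fun r => Real.smoothTransition ((t - r) / (t - s)),
      Real.smoothTransition.contDiff.comp (by fun_prop),
      fun r hr => Real.smoothTransition.one_of_one_le ((one_le_div h1).2 (by linarith)),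
      fun r hr => Real.smoothTransition.zero_of_nonpos (div_nonpos_of_nonpos_of_nonneg
        (by linarith) h1.le),
      fun r => ⟨Real.smoothTransition.nonneg _, Real.smoothTransition.le_one _⟩⟩

theorem fib (hP : ParStmt) (_hB : BumpStmt) : FibStmt := by
  intro E _ _ _ n l w lo hi e α O h1 h2 h3 h4 h5 h6
  obtain ⟨σ, γ, h, -⟩ := FibP.all hP O n l w lo hi e α h1 h2 h3 h4 h5 h6
  exact ⟨σ, γ, h⟩

end Pool.Agent.MP_c8d41b_gt.GF

end
end MrgPart2

-- ======== part 3: formerly Pool.Agent.MP_c8d41b_gt.gf.Homot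
section MrgPart3

/-! PROJECT GF, row HOMOT: integrals with parameters and the homotopy formula. -/

open scoped ContDiff Topology
open Set Filter ExteriorAlgebra MeasureTheory

noncomputable section

namespace Pool.Agent.MP_c8d41b_gt.GF

namespace Homot

section Par
variable {X : Type} [NormedAddCommGroup X] {U : Set (ℝ × X)} {a b : ℝ}

theorem isOpen_tube (hU : IsOpen U) : IsOpen {x : X | ∀ t ∈ uIcc a b, (t, x) ∈ U} := by
  refine isOpen_iff_mem_nhds.2 fun x hx => ?_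
  obtain ⟨u, v, -, hv, hu, hx', huv⟩ := generalized_tube_lemma (isCompact_uIcc (a := a) (b := b))
    (isCompact_singleton (x := x)) hU (by
      rintro ⟨t, y⟩ ⟨ht, rfl⟩
      exact hx t ht)
  filter_upwards [hv.mem_nhds (hx' rfl)] with y hy t ht using huv ⟨hu ht, hy⟩

theorem cont_slice {F : Type} [TopologicalSpace F] {f : ℝ × X → F} (hf : ContinuousOn f U) {x : X}
    (hx : ∀ t ∈ uIcc a b, (t, x) ∈ U) : ContinuousOn (fun t => f (t, x)) (uIcc a b) :=
  hf.comp (by fun_prop) hx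

variable [NormedSpace ℝ X]

theorem cd_part {F : Type} [NormedAddCommGroup F] [NormedSpace ℝ F] {f : ℝ × X → F}
    (hU : IsOpen U) (hf : ContDiffOn ℝ ∞ f U) :
    ContDiffOn ℝ ∞ (fun p => (fderiv ℝ f p).comp (ContinuousLinearMap.inr ℝ ℝ X)) U :=
  (hf.fderiv_of_isOpen hU (by simp)).clm_comp contDiffOn_const

theorem hasFDerivAt_slice {F : Type} [NormedAddCommGroup F] [NormedSpace ℝ F] {f : ℝ × X → F}
    {t : ℝ} {x : X} (hf : DifferentiableAt ℝ f (t, x)) :
    HasFDerivAt (fun y => f (t, y)) ((fderiv ℝ f (t, x)).comp (ContinuousLinearMap.inr ℝ ℝ X)) x :=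
  hf.hasFDerivAt.comp x (hasFDerivAt_prodMk_right t x)

variable [FiniteDimensional ℝ X]

theorem hasD {F : Type} [NormedAddCommGroup F] [NormedSpace ℝ F] {f : ℝ × X → F} {x₀ : X}
    (hU : IsOpen U) (hf : ContDiffOn ℝ ∞ f U) (hx : ∀ t ∈ uIcc a b, (t, x₀) ∈ U) :
    HasFDerivAt (fun x => ∫ t in a..b, f (t, x))
      (∫ t in a..b, (fderiv ℝ f (t, x₀)).comp (ContinuousLinearMap.inr ℝ ℝ X)) x₀ := by
  have : ProperSpace X := FiniteDimensional.proper ℝ X
  obtain ⟨r, hr, hsub⟩ := Metric.nhds_basis_closedBall.mem_iff.1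
    ((isOpen_tube (a := a) (b := b) hU).mem_nhds hx)
  have hg := (cd_part hU hf).continuousOn
  obtain ⟨C, hC⟩ := ((isCompact_uIcc (a := a) (b := b)).prod
    (isCompact_closedBall x₀ r)).exists_bound_of_continuousOn
    (hg.mono fun p hp => hsub hp.2 p.1 hp.1)
  have hB := Metric.closedBall_mem_nhds x₀ hr
  refine intervalIntegral.hasFDerivAt_integral_of_dominated_of_fderiv_le
    (F := fun x t => f (t, x))
    (F' := fun x t => (fderiv ℝ f (t, x)).comp (ContinuousLinearMap.inr ℝ ℝ X))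
    (bound := fun _ => C) hB ?_ (cont_slice hf.continuousOn hx).intervalIntegrable
    (((cont_slice hg hx).mono uIoc_subset_uIcc).aestronglyMeasurable measurableSet_uIoc)
    (Eventually.of_forall fun t ht x hx' => hC (t, x) ⟨uIoc_subset_uIcc ht, hx'⟩)
    intervalIntegrable_const
    (Eventually.of_forall fun t ht x hx' => hasFDerivAt_slice
      ((hf.contDiffAt (hU.mem_nhds (hsub hx' t (uIoc_subset_uIcc ht)))).differentiableAt (by simp)))
  filter_upwards [hB] with x hx'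
  exact ((cont_slice hf.continuousOn (hsub hx')).mono uIoc_subset_uIcc).aestronglyMeasurable
    measurableSet_uIoc

theorem cd_nat (hU : IsOpen U) (n : ℕ) : ∀ (F : Type) [NormedAddCommGroup F] [NormedSpace ℝ F]
    (f : ℝ × X → F), ContDiffOn ℝ ∞ f U →
    ContDiffOn ℝ n (fun x => ∫ t in a..b, f (t, x)) {x | ∀ t ∈ uIcc a b, (t, x) ∈ U} := by
  induction n with
  | zero =>
    intro F _ _ f hf
    rw [Nat.cast_zero, contDiffOn_zero]
    exact fun x hx => (hasD hU hf hx).continuousAt.continuousWithinAt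
  | succ n ih =>
    intro F _ _ f hf
    rw [Nat.cast_succ, contDiffOn_succ_iff_fderiv_of_isOpen (isOpen_tube hU)]
    refine ⟨fun x hx => (hasD hU hf hx).differentiableAt.differentiableWithinAt, by simp, ?_⟩
    exact (ih _ _ (cd_part hU hf)).congr fun x hx => (hasD hU hf hx).fderiv

theorem cda_int {F : Type} [NormedAddCommGroup F] [NormedSpace ℝ F] {f : ℝ × X → F} {x₀ : X}
    (hU : IsOpen U) (hf : ContDiffOn ℝ ∞ f U) (hx : ∀ t ∈ uIcc a b, (t, x₀) ∈ U) :
    ContDiffAt ℝ ∞ (fun x => ∫ t in a..b, f (t, x)) x₀ :=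
  (contDiffOn_infty.2 fun n => cd_nat hU n F f hf).contDiffAt ((isOpen_tube hU).mem_nhds hx)

end Par

variable {E E' : Type} [NormedAddCommGroup E] [NormedSpace ℝ E]
  [NormedAddCommGroup E'] [NormedSpace ℝ E'] {H : ℝ × E' → E}

theorem pb_slice (hH : ContDiff ℝ ∞ H) (α : E → Lam E) (t : ℝ) (x : E') :
    pb (fun y => H (t, y)) α x = mp (ContinuousLinearMap.inr ℝ ℝ E') (pb H α (t, x)) := by
  rw [pb, pb, (hasFDerivAt_slice (hH.differentiable (by simp) (t, x))).fderiv, mp_comp]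

variable [FiniteDimensional ℝ E']

theorem hK_eq (hH : ContDiff ℝ ∞ H) (α : E → Lam E) : hK H α = fun x =>
    ∫ t in (0 : ℝ)..1, mp (ContinuousLinearMap.inr ℝ ℝ E') (ctr (1, 0) (pb H α (t, x))) := by
  funext x
  rw [hK]
  congr 1
  funext t
  rw [pb, ctr_mp, (hasFDerivAt_slice (hH.differentiable (by simp) (t, x))).fderiv, mp_comp]

theorem dL_slice {B : ℝ × E' → Lam (ℝ × E')} {t : ℝ} {x : E'} (hB : DifferentiableAt ℝ B (t, x)) :
    dL ((fderiv ℝ (fun p => mp (ContinuousLinearMap.inr ℝ ℝ E') (B p)) (t, x)).comp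
      (ContinuousLinearMap.inr ℝ ℝ E')) = mp (ContinuousLinearMap.inr ℝ ℝ E') (dd B (t, x)) := by
  have h1 : DifferentiableAt ℝ (fun p => mp (ContinuousLinearMap.inr ℝ ℝ E') (B p)) (t, x) :=
    (clm (mp (ContinuousLinearMap.inr ℝ ℝ E')).toLinearMap).differentiableAt.comp _ hB
  have e : ∀ γ : ℝ × E' → Lam (ℝ × E'), pb (fun y : E' => (t, y)) γ =
      fun y => mp (ContinuousLinearMap.inr ℝ ℝ E') (γ (t, y)) := fun γ => funext fun y => by
    rw [pb, (hasFDerivAt_prodMk_right t y).fderiv]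
  rw [← (hasFDerivAt_slice h1).fderiv, ← dd_eq, ← e,
    dd_pb (f := fun y : E' => (t, y)) (by fun_prop) hB, e]

end Homot

open Homot

theorem par : ParStmt := by
  intro X F _ _ _ _ _ _ f U a b x₀ hU hf hx
  refine ⟨cda_int hU hf hx, fun v => ?_⟩
  rw [(hasD hU hf hx).fderiv, ContinuousLinearMap.intervalIntegral_apply
    (cont_slice (cd_part hU hf).continuousOn hx).intervalIntegrable]
  simp

theorem homot : HomotStmt := by
  intro E E' _ _ _ _ _ _ H α U x hH hU hα hx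
  have hW : IsOpen (H ⁻¹' U) := hU.preimage hH.continuous
  have hx' : ∀ t ∈ uIcc (0 : ℝ) 1, (t, x) ∈ H ⁻¹' U := fun t ht =>
    hx t (by rwa [uIcc_of_le zero_le_one] at ht)
  have hA : ∀ p ∈ H ⁻¹' U, ContDiffAt ℝ ∞ (pb H α) p := fun p hp =>
    cda_pb hH.contDiffAt (hα.contDiffAt (hU.mem_nhds hp))
  have hB : ∀ p ∈ H ⁻¹' U, ContDiffAt ℝ ∞ (fun p => ctr ((1, 0) : ℝ × E') (pb H α p)) p :=
    fun p hp => cda_ctr contDiffAt_const (hA p hp)
  have hk : ContDiffOn ℝ ∞
      (fun p => mp (ContinuousLinearMap.inr ℝ ℝ E') (ctr (1, 0) (pb H α p))) (H ⁻¹' U) :=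
    fun p hp => (cda_mp contDiffAt_const (hB p hp)).contDiffWithinAt
  rw [hK_eq hH, hK_eq hH]
  refine ⟨cda_int hW hk hx', ?_⟩
  have i1 := (cont_slice (cd_part hW hk).continuousOn hx').intervalIntegrable (μ := volume)
  have c1 : ContinuousOn (fun p => mp (ContinuousLinearMap.inr ℝ ℝ E')
      (dd (fun p => ctr ((1, 0) : ℝ × E') (pb H α p)) p)) (H ⁻¹' U) := fun p hp =>
    (cda_mp contDiffAt_const (cda_dd' (hB p hp))).continuousAt.continuousWithinAt
  have c2 : ContinuousOn (fun p => mp (ContinuousLinearMap.inr ℝ ℝ E')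
      (ctr ((1, 0) : ℝ × E') (dd (pb H α) p))) (H ⁻¹' U) := fun p hp =>
    (cda_mp contDiffAt_const (cda_ctr contDiffAt_const
      (cda_dd' (hA p hp)))).continuousAt.continuousWithinAt
  have j1 := (cont_slice c1 hx').intervalIntegrable (μ := volume)
  have j2 := (cont_slice c2 hx').intervalIntegrable (μ := volume)
  rw [dd_eq, (hasD hW hk hx').fderiv, ← dL.intervalIntegral_comp_comm i1,
    intervalIntegral.integral_congr fun t ht =>
      dL_slice ((hB _ (hx' t ht)).differentiableAt (by simp))]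
  have e2 : ∫ t in (0 : ℝ)..1, mp (ContinuousLinearMap.inr ℝ ℝ E')
      (ctr (1, 0) (pb H (dd α) (t, x))) = ∫ t in (0 : ℝ)..1, mp (ContinuousLinearMap.inr ℝ ℝ E')
      (ctr (1, 0) (dd (pb H α) (t, x))) := intervalIntegral.integral_congr fun t ht => by
    rw [dd_pb hH.contDiffAt ((hα.contDiffAt (hU.mem_nhds (hx' t ht))).differentiableAt (by simp))]
  simp only
  rw [e2, ← intervalIntegral.integral_add j1 j2, pb_slice hH, pb_slice hH]
  refine (intervalIntegral.integral_eq_sub_of_hasDerivAt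
    (f := fun t => mp (ContinuousLinearMap.inr ℝ ℝ E') (pb H α (t, x))) (fun t ht => ?_)
    (j1.add j2)).symm
  have hd := (hA _ (hx' t ht)).differentiableAt (by simp)
  rw [← map_add, dd_ctr _ hd]
  have h1 : HasDerivAt (fun s : ℝ => pb H α (s, x)) (fderiv ℝ (pb H α) (t, x) (1, 0)) t :=
    hd.hasFDerivAt.comp_hasDerivAt (f := fun s : ℝ => (s, x)) t
      (HasDerivAt.prodMk (hasDerivAt_id t) (hasDerivAt_const t x))
  exact (clm (mp (ContinuousLinearMap.inr ℝ ℝ E')).toLinearMap).hasFDerivAt.comp_hasDerivAt t h1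

end Pool.Agent.MP_c8d41b_gt.GF

end
end MrgPart3

-- ======== part 4: formerly Pool.Agent.MP_c8d41b_gt.gf.Stokes
section MrgPart4

/-! PROJECT GF, row STOKES: Stokes formula and change of variables for the integral of forms. -/

open scoped ContDiff Topology
open Set Filter ExteriorAlgebra MeasureTheory

noncomputable section

namespace Pool.Agent.MP_c8d41b_gt.GF

namespace StokesP

set_option linter.unusedSectionVars false

variable {E E' : Type} [NormedAddCommGroup E] [NormedSpace ℝ E] [FiniteDimensional ℝ E]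
  [NormedAddCommGroup E'] [NormedSpace ℝ E'] [FiniteDimensional ℝ E'] {N : ℕ}

/-- a linear functional of a compactly supported form, read in coordinates -/
theorem coord (b : Module.Basis (Fin N) ℝ E) (T : Lam E →ₗ[ℝ] ℝ) {α : E → Lam E}
    (h : Oc univ α) : ContDiff ℝ ∞ (fun y => T (α (b.equivFunL.symm y))) ∧
      HasCompactSupport fun y => T (α (b.equivFunL.symm y)) :=
  ⟨((clm T).contDiff.comp h.sm).comp b.equivFunL.symm.contDiff,
    (h.cpt.comp_left (map_zero T)).comp_homeomorph b.equivFunL.symm.toHomeomorph⟩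

theorem integrable (b : Module.Basis (Fin N) ℝ E) {α : E → Lam E} (h : Oc univ α) :
    Integrable fun y : Fin N → ℝ => ev (List.ofFn b) (α (b.equivFun.symm y)) := by
  simp only [ev_eq]
  exact (coord b _ h).1.continuous.integrable_of_hasCompactSupport (coord b _ h).2

theorem integral_fderiv {g : (Fin N → ℝ) → ℝ} (h : ContDiff ℝ ∞ g) (hc : HasCompactSupport g)
    (v : Fin N → ℝ) : Integrable (fun y => fderiv ℝ g y v) ∧ ∫ y, fderiv ℝ g y v = 0 := by
  have h1 : Integrable fun y => fderiv ℝ g y v :=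
    ((h.continuous_fderiv (by simp)).clm_apply continuous_const).integrable_of_hasCompactSupport
      (hc.fderiv_apply ℝ v)
  have h2 := integral_mul_fderiv_eq_neg_fderiv_mul_of_integrable (μ := volume)
    (f := fun _ => (1 : ℝ)) (g := g) (v := v) (by simp) (by simpa using h1)
    (by simpa using h.continuous.integrable_of_hasCompactSupport hc)
    (fun _ _ => differentiableAt_const _) fun x _ => h.differentiable (by simp) x
  exact ⟨h1, by simpa using h2⟩

theorem itg_dd (b : Module.Basis (Fin N) ℝ E) {α : E → Lam E} (h : Oc univ α) :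
    itg b (dd α) = 0 := by
  let T : Fin N → Lam E →ₗ[ℝ] ℝ := fun i => (evL (List.ofFn b)).comp
    (LinearMap.mulLeft ℝ (ι ℝ (LinearMap.toContinuousLinearMap (b.coord i))))
  have key := fun i => integral_fderiv (coord b (T i) h).1 (coord b (T i) h).2 (b.equivFunL (b i))
  have e : ∀ y, ev (List.ofFn b) (dd α (b.equivFun.symm y)) =
      ∑ i, fderiv ℝ (fun y => T i (α (b.equivFunL.symm y))) y (b.equivFunL (b i)) := fun y => by
    rw [dd_eq, dL_basis b, ev_eq, map_sum]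
    refine Finset.sum_congr rfl fun i _ => ?_
    have h1 := (h.da _).hasFDerivAt.comp y b.equivFunL.symm.hasFDerivAt
    rw [fderiv_lin (T i) (α := fun y => α (b.equivFunL.symm y)) h1.differentiableAt]
    refine congrArg (T i) ?_
    have h2 : fderiv ℝ (fun y => α (b.equivFunL.symm y)) y = _ := h1.fderiv
    rw [h2, ContinuousLinearMap.comp_apply, ContinuousLinearEquiv.coe_coe,
      ContinuousLinearEquiv.symm_apply_apply]
    rfl
  rw [itg]
  simp only [e]
  rw [integral_finsetSum _ fun i _ => (key i).1]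
  exact Finset.sum_eq_zero fun i _ => (key i).2

theorem itg_add (b : Module.Basis (Fin N) ℝ E) {α β : E → Lam E} (h : Oc univ α)
    (h' : Oc univ β) : itg b (α + β) = itg b α + itg b β := by
  simp only [itg, Pi.add_apply, ev_add]
  exact integral_add (integrable b h) (integrable b h')

theorem itg_ibp (b : Module.Basis (Fin N) ℝ E) {U : Set E} {α β : E → Lam E} (hU : IsOpen U)
    (h : Oc U α) (h' : ContDiffOn ℝ ∞ β U) :
    (itg b fun x => dd α x * β x) = -itg b fun x => inv (α x) * dd β x := by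
  have hβ : ∀ x ∈ U, ContDiffAt ℝ ∞ β x := fun x hx => h'.contDiffAt (hU.mem_nhds hx)
  have h1 := h.mul_right hβ
  have e : dd (fun x => α x * β x) = (fun x => dd α x * β x) + fun x => inv (α x) * dd β x := by
    funext x
    by_cases hx : x ∈ U
    · exact dd_mul (h.da x) ((hβ x hx).differentiableAt (by simp))
    · rw [h1.dd.zero_of hx, Pi.add_apply, h.dd.zero_of hx, h.zero_of hx, map_zero, zero_mul,
        zero_mul, add_zero]
  have h2 := itg_dd b (h1.mono (subset_univ U))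
  rw [e, itg_add b ((h.dd.mul_right hβ).mono (subset_univ U))
    ((h.inv.mul_right fun x hx => cda_dd' (hβ x hx)).mono (subset_univ U))] at h2
  exact eq_neg_of_add_eq_zero_left h2

/-- a linear map in coordinates -/
def co (b : Module.Basis (Fin N) ℝ E) (b' : Module.Basis (Fin N) ℝ E') (L : E' →L[ℝ] E) :
    (Fin N → ℝ) →L[ℝ] (Fin N → ℝ) :=
  (b.equivFunL : E →L[ℝ] _).comp (L.comp (b'.equivFunL.symm : _ →L[ℝ] E'))

theorem det_co (b : Module.Basis (Fin N) ℝ E) (b' : Module.Basis (Fin N) ℝ E') (L : E' →L[ℝ] E) :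
    (co b b' L).det = b.det fun i => L (b' i) := by
  rw [ContinuousLinearMap.det, ← LinearMap.det_toMatrix', Module.Basis.det_apply]
  congr 1
  ext i j
  simp [co, Module.Basis.toMatrix_apply, Module.Basis.equivFunL, Pi.single_apply]

theorem ev_mp_basis (b : Module.Basis (Fin N) ℝ E) (b' : Module.Basis (Fin N) ℝ E')
    (L : E' →L[ℝ] E) (a : Lam E) :
    ev (List.ofFn b') (mp L a) = b.det (fun i => L (b' i)) * ev (List.ofFn b) a := by
  let M : E →L[ℝ] E := L.comp (b.constrL b')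
  have h1 : ∀ i, M (b i) = L (b' i) := fun i => by
    rw [ContinuousLinearMap.comp_apply, Module.Basis.constrL_basis]
  have h2 : M.det = b.det fun i => L (b' i) := by
    have := b.det_comp (M : E →ₗ[ℝ] E) b
    rw [b.det_self, mul_one] at this
    rw [ContinuousLinearMap.det, ← this]
    exact congrArg b.det (funext h1)
  rw [← h2, ← ev_mp_det, ev_mp, ev_mp, List.map_ofFn, List.map_ofFn]
  exact congrArg (fun f => ev (List.ofFn f) a) (funext h1).symm

/-- change of variables in coordinates -/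
theorem chg (b : Module.Basis (Fin N) ℝ E) (b' : Module.Basis (Fin N) ℝ E') {Ξ : E' → E}
    {V : Set E'} {α : E → Lam E} (hV : IsOpen V) (hd : ∀ y ∈ V, DifferentiableAt ℝ Ξ y)
    (hi : InjOn Ξ V) (h0 : ∀ x ∉ Ξ '' V, α x = 0) :
    itg b α = ∫ y in b'.equivFunL.symm ⁻¹' V,
      |b.det fun i => fderiv ℝ Ξ (b'.equivFunL.symm y) (b' i)| *
        ev (List.ofFn b) (α (Ξ (b'.equivFunL.symm y))) := by
  have hs : MeasurableSet (b'.equivFunL.symm ⁻¹' V) :=
    (hV.preimage b'.equivFunL.symm.continuous).measurableSet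
  have key := integral_image_eq_integral_abs_det_fderiv_smul volume hs
    (f := fun y => b.equivFunL (Ξ (b'.equivFunL.symm y)))
    (f' := fun y => co b b' (fderiv ℝ Ξ (b'.equivFunL.symm y)))
    (fun y hy => (b.equivFunL.hasFDerivAt.comp y
      ((hd _ hy).hasFDerivAt.comp y b'.equivFunL.symm.hasFDerivAt)).hasFDerivWithinAt)
    (fun y hy z hz h => b'.equivFunL.symm.injective (hi hy hz (b.equivFunL.injective h)))
    fun y => ev (List.ofFn b) (α (b.equivFunL.symm y))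
  simp only [det_co, ContinuousLinearEquiv.symm_apply_apply, smul_eq_mul] at key
  rw [← key, setIntegral_eq_integral_of_forall_compl_eq_zero fun y hy => ?_]
  · rfl
  · rw [h0 _ fun ⟨x, hx, e⟩ => hy ⟨b'.equivFunL x, by simpa using hx, by simp [e]⟩, ev_zero]

theorem itg_lin (b : Module.Basis (Fin N) ℝ E) (L : E ≃L[ℝ] E) :
    ∃ s : ℝ, s ≠ 0 ∧ ∀ α, itg b (pb L α) = s * itg b α := by
  have hd : (b.det fun i => L (b i)) ≠ 0 := by
    have := b.det_comp (L.toLinearEquiv : E →ₗ[ℝ] E) b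
    rw [b.det_self, mul_one] at this
    exact fun h => (LinearEquiv.isUnit_det' L.toLinearEquiv).ne_zero (this.symm.trans h)
  refine ⟨_, div_ne_zero hd (abs_ne_zero.2 hd), fun α => ?_⟩
  rw [chg b b (Ξ := L) (α := α) isOpen_univ (fun y _ => L.differentiableAt) L.injective.injOn
    fun x hx => absurd ⟨L.symm x, trivial, L.apply_symm_apply x⟩ hx, itg]
  simp only [pb, L.fderiv, ev_mp_basis b b, preimage_univ, Measure.restrict_univ,
    ContinuousLinearEquiv.coe_coe, integral_const_mul]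
  rw [← mul_assoc, div_mul_cancel₀ _ (abs_ne_zero.2 hd)]
  rfl

end StokesP

open StokesP

theorem stokes : StokesStmt := fun _ _ _ _ _ b =>
  { add := fun _ _ h h' => itg_add b h h'
    smul := fun c α => by simp only [itg, Pi.smul_apply, ev_smul, integral_const_mul]
    stokes := fun _ h => itg_dd b h
    ibp := fun _ _ _ hU h h' => itg_ibp b hU h h'
    lin := itg_lin b }

theorem cov : CovStmt := by
  intro E E' _ _ _ _ _ _ N b b' Ξ V α hV hΞ hi hpos h0
  rw [chg b b' hV (fun y hy => (hΞ.contDiffAt (hV.mem_nhds hy)).differentiableAt (by simp)) hi h0,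
    ← integral_indicator (hV.preimage b'.equivFunL.symm.continuous).measurableSet, itg]
  refine integral_congr_ae (Eventually.of_forall fun y => ?_)
  change _ = ev (List.ofFn b') (V.indicator (pb Ξ α) (b'.equivFunL.symm y))
  by_cases hy : b'.equivFunL.symm y ∈ V
  · rw [indicator_of_mem hy, indicator_of_mem (show y ∈ _ ⁻¹' V from hy), pb, ev_mp_basis b b',
      abs_of_pos (hpos _ hy)]
  · rw [indicator_of_notMem hy, indicator_of_notMem (show y ∉ _ ⁻¹' V from hy), ev_zero]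

end Pool.Agent.MP_c8d41b_gt.GF

end
end MrgPart4

-- marker of a merged file
example : 731051 + 714625 = 731051 + 714625 := rfl
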