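import Pool.Agent.MP_c8d41b_gt.gf.Stokes
import Mathlib.Analysis.Calculus.Deriv.MeanValue
import Mathlib.Analysis.Calculus.MeanValue
import Mathlib.Analysis.Calculus.LineDeriv.Basic
import Mathlib.Analysis.Calculus.Deriv.Prod
import Mathlib.MeasureTheory.Integral.Pi
import Mathlib.MeasureTheory.Integral.Prod

-- ======== part 0: formerly Pool.Agent.MP_c8d41b_gt.gf.Core
section MrgPart0

/-! PROJECT GF, row CORE: the signature vanishes. -/

open scoped ContDiff Topology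
open Set Filter ExteriorAlgebra

noncomputable section

namespace Pool.Agent.MP_c8d41b_gt.GF

namespace Core

variable {E : Type} [NormedAddCommGroup E] [NormedSpace ℝ E] [FiniteDimensional ℝ E] {K : ℕ}

theorem da {α : E → Lam E} (h : ContDiff ℝ ∞ α) (x : E) : DifferentiableAt ℝ α x :=
  h.differentiable (by simp) x

theorem dd_add' {α β : E → Lam E} (h : ContDiff ℝ ∞ α) (h' : ContDiff ℝ ∞ β) :
    dd (α + β) = dd α + dd β := funext fun x => dd_add (da h x) (da h' x)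

theorem dd_smul' (c : ℝ) {α : E → Lam E} (h : ContDiff ℝ ∞ α) : dd (c • α) = c • dd α :=
  funext fun x => dd_smul c (da h x)

omit [FiniteDimensional ℝ E] in
theorem cpt_of {G : E → Fin K → ℝ} (hG : Continuous G) {α : E → Lam E} {S : Set E}
    (hS : IsClosed S) (h : IsCompact (S ∩ G ⁻¹' {0})) (h0 : ∀ x ∉ S, α x = 0) :
    IsCompact (tsupport α ∩ G ⁻¹' {0}) :=
  h.of_isClosed_subset ((isClosed_tsupport _).inter (isClosed_singleton.preimage hG))
    (inter_subset_inter_left _ (closure_minimal (fun x hx => by_contra fun k => hx (h0 x k)) hS))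

/-- closed forms of degree `κ` -/
def Zs {G : E → Fin K → ℝ} (hG : Continuous G) (κ : ℕ) : Submodule ℝ (E → Lam E) where
  carrier := {α | Fm G κ α ∧ Closed G α}
  zero_mem' := ⟨⟨contDiff_const, fun _ => zero_mem _, cpt_of hG isClosed_empty (by simp)
    fun _ _ => rfl⟩, fun x _ => by simp⟩
  add_mem' := fun {α β} h h' => ⟨⟨h.1.sm.add h'.1.sm, fun x => add_mem (h.1.deg x) (h'.1.deg x),
    cpt_of hG ((isClosed_tsupport α).union (isClosed_tsupport β))
      (by rw [union_inter_distrib_right]; exact h.1.cpt.union h'.1.cpt) fun x hx => by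
        rw [mem_union, not_or] at hx
        rw [Pi.add_apply, image_eq_zero_of_notMem_tsupport hx.1,
          image_eq_zero_of_notMem_tsupport hx.2, add_zero]⟩, fun x hx => by
    rw [dd_add' h.1.sm h'.1.sm, Pi.add_apply, map_add, h.2 x hx, h'.2 x hx, add_zero]⟩
  smul_mem' := fun c α h => ⟨⟨h.1.sm.const_smul c, fun x => Submodule.smul_mem _ _ (h.1.deg x),
    cpt_of hG (isClosed_tsupport α) h.1.cpt fun x hx => by
      rw [Pi.smul_apply, image_eq_zero_of_notMem_tsupport hx, smul_zero]⟩, fun x hx => by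
    rw [dd_smul' c h.1.sm, Pi.smul_apply, map_smul, h.2 x hx, smul_zero]⟩

theorem f0_mul {G : E → Fin K → ℝ} (hG : Continuous G) {κ : ℕ} {α β : E → Lam E} (h : Fm G κ α)
    (h' : Fm G κ β) : F0 G fun c => α c * β c :=
  ⟨contDiff_iff_contDiffAt.2 fun _ => cda_mul h.sm.contDiffAt h'.sm.contDiffAt,
    cpt_of hG (isClosed_tsupport α) h.cpt fun x hx => by
      rw [image_eq_zero_of_notMem_tsupport hx, zero_mul]⟩

/-- exact forms -/
def Ex (U : Set E) : Submodule ℝ (E → Lam E) where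
  carrier := {α | ∃ γ, Oc U γ ∧ α = dd γ}
  zero_mem' := ⟨0, Oc.zero, dd_zero.symm⟩
  add_mem' := by
    rintro _ _ ⟨γ, h, rfl⟩ ⟨γ', h', rfl⟩
    exact ⟨γ + γ', h.add h', (dd_add' h.sm h'.sm).symm⟩
  smul_mem' := by
    rintro c _ ⟨γ, h, rfl⟩
    exact ⟨c • γ, h.smul c, (dd_smul' c h.sm).symm⟩

end Core

open Core in
theorem sig (hI : IntStmt) (hU : UniqStmt) (hL : LagStmt) (hF : FinStmt) (hN : LinStmt)
    (hT : ThmStmt) (hS : StokesStmt) : SigStmt := by
  intro Y _ _ _ K κ P hP hκ h1 J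
  obtain ⟨b, hb⟩ := hI Y K (2 * κ) κ P hP J
  refine ⟨⟨_, hb⟩, fun B hB => ?_⟩
  have T := hT Y K P hP
  have S := hS _ _ b
  have hG : ContDiff ℝ ∞ P.G := cd_G1 hP.tube.pre.sm
  have hc := hG.continuous
  have oc : ∀ α β : Zs hc κ, Oc univ (P.t2 fun c => α.1 c * β.1 c) := fun α β =>
    (T.oc2 _ (f0_mul hc α.2.1 β.2.1)).mono (subset_univ _)
  have sy : ∀ α β : Zs hc κ, (fun c => α.1 c * β.1 c) = fun c => β.1 c * α.1 c := fun α β =>
    funext fun c => comm_of_even hκ (α.2.1.deg c) _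
  have a1 : ∀ α α' β : Zs hc κ, itg b (P.t2 fun c => (α + α').1 c * β.1 c) =
      itg b (P.t2 fun c => α.1 c * β.1 c) + itg b (P.t2 fun c => α'.1 c * β.1 c) :=
    fun α α' β => by
      rw [← S.add _ _ (oc α β) (oc α' β), ← (T.add _ _).2]
      congr 2
      exact funext fun c => add_mul _ _ _
  have a2 : ∀ (r : ℝ) (α β : Zs hc κ), itg b (P.t2 fun c => (r • α).1 c * β.1 c) =
      r • itg b (P.t2 fun c => α.1 c * β.1 c) := fun r α β => by
    rw [smul_eq_mul, ← S.smul, ← (T.smul _ _).2]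
    congr 2
    exact funext fun c => smul_mul_assoc r (α.1 c) (β.1 c)
  let q : Zs hc κ →ₗ[ℝ] Zs hc κ →ₗ[ℝ] ℝ := LinearMap.mk₂ ℝ
    (fun α β => itg b (P.t2 fun c => α.1 c * β.1 c)) a1 a2
    (fun α β β' => by rw [sy, a1, sy β, sy β']) fun r α β => by rw [sy, a2, sy β]
  have hq : ∀ α β, q α β = itg b (P.t2 fun c => α.1 c * β.1 c) := fun _ _ => rfl
  let t : Zs hc κ →ₗ[ℝ] (XX Y K → Lam (XX Y K)) :=
    { toFun := fun α => P.t2 α.1
      map_add' := fun α β => (T.add _ _).2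
      map_smul' := fun r α => (T.smul _ _).2 }
  let t' := (Ex (TT P.Gt P.R P.ν)).mkQ.comp t
  have f0 : ∀ α : Zs hc κ, F0 P.G α.1 := fun α => ⟨α.2.1.sm, α.2.1.cpt⟩
  let Λ : Submodule ℝ (Zs hc κ) :=
    { carrier := {α | InLam P α.1}
      zero_mem' := ⟨0, Oc.zero, by
        have : P.th 0 = 0 := by simpa using (T.smul 0 0).1
        change Oc _ (dd (P.th 0 - 0))
        rw [this, sub_zero, dd_zero]
        exact Oc.zero⟩
      add_mem' := by
        rintro α β ⟨k, h, h'⟩ ⟨l, g, g'⟩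
        refine ⟨k + l, h.add g, ?_⟩
        rw [Submodule.coe_add, (T.add _ _).1, add_sub_add_comm,
          dd_add' (α := P.th α.1 - k) (β := P.th β.1 - l) ((T.oc _ (f0 α)).sm.sub h.sm)
            ((T.oc _ (f0 β)).sm.sub g.sm)]
        exact h'.add g'
      smul_mem' := by
        rintro r α ⟨k, h, h'⟩
        refine ⟨r • k, h.smul r, ?_⟩
        rw [Submodule.coe_smul, (T.smul _ _).1, ← smul_sub,
          dd_smul' r (α := P.th α.1 - k) ((T.oc _ (f0 α)).sm.sub h.sm)]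
        exact h'.smul r }
  obtain ⟨l1, l2⟩ := hL Y K κ P hP hκ b
  obtain ⟨n, k1, k2⟩ := hN _ q (LinearMap.ker t') Λ (fun α β => by rw [hq, hq, sy])
    (by
      obtain ⟨m, v, hv⟩ := hF Y K P hP
      have : LinearMap.range t' ≤ Submodule.span ℝ (range fun i =>
          (Ex (TT P.Gt P.R P.ν)).mkQ (v i)) := by
        rintro _ ⟨α, rfl⟩
        obtain ⟨c, γ, h, e⟩ := hv α.1 (f0 α) α.2.2
        have e' : t' α = ∑ i, c i • (Ex (TT P.Gt P.R P.ν)).mkQ (v i) := by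
          change (Ex (TT P.Gt P.R P.ν)).mkQ (P.t2 α.1) = _
          rw [e, map_add, map_sum, Submodule.mkQ_apply _ (dd γ),
            (Submodule.Quotient.mk_eq_zero _).2 (show dd γ ∈ Ex _ from ⟨γ, h, rfl⟩), add_zero]
          simp only [map_smul]
        rw [e']
        exact Submodule.sum_mem _ fun i _ => Submodule.smul_mem _ _ (Submodule.subset_span ⟨i, rfl⟩)
      have h2 : FiniteDimensional ℝ (Submodule.span ℝ (range fun i =>
          (Ex (TT P.Gt P.R P.ν)).mkQ (v i))) := FiniteDimensional.span_of_finite ℝ (finite_range _)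
      have h3 := Submodule.finiteDimensional_of_le this
      exact t'.quotKerEquivRange.symm.finiteDimensional)
    (fun α hα β => by
      obtain ⟨γ, h, e⟩ : P.t2 α.1 ∈ Ex (TT P.Gt P.R P.ν) := (Submodule.Quotient.mk_eq_zero _).1 hα
      rw [hq, funext (T.mul2 α.1 β.1), e, S.ibp _ γ _ (isOpen_TT hP.tube.pre.sm _ _) h
        (cd_pb hP.tube.spi β.2.1.sm).contDiffOn, neg_eq_zero]
      have : (fun x => inv (γ x) * dd (pb P.π β.1) x) = fun _ => 0 := funext fun x => by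
        by_cases hx : x ∈ TT P.Gt P.R P.ν
        · rw [T.dpi _ β.2.1.sm β.2.2 x hx, mul_zero]
        · rw [h.zero_of hx, map_zero, zero_mul]
      rw [this]
      simp [itg])
    (fun α hα β hβ => l1 _ _ α.2.1 β.2.1 hα hβ)
    fun α h => l2 _ α.2.1 α.2.2 fun β h1 h2 h3 => h ⟨β, h1, h2⟩ h3
  have key : ∀ ε : ℝ, {m | Defin P.G κ B ε m} = {m | ∃ v : Fin m → Zs hc κ, ∀ c : Fin m → ℝ,
      c ≠ 0 → 0 < ε * q (∑ i, c i • v i) (∑ i, c i • v i)} := fun ε => by
    have e : ∀ {m} (v : Fin m → Zs hc κ) (c : Fin m → ℝ), q (∑ i, c i • v i) (∑ i, c i • v i) =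
        B (∑ i, c i • (v i).1) (∑ i, c i • (v i).1) := fun v c => by
      have e1 : ∑ i, c i • (v i).1 = (∑ i, c i • v i).1 := by simp
      rw [e1, hq]
      exact (hU _ K (2 * κ) κ P.G J _ _ (by omega) hG hP.tube.pre.reg hB hb _ _
        (∑ i, c i • v i).2.1 (∑ i, c i • v i).2.1).symm
    ext m
    constructor
    · rintro ⟨v, h, h'⟩
      exact ⟨fun i => ⟨v i, h i⟩, fun c hc => by rw [e]; exact h' c hc⟩
    · rintro ⟨v, h⟩
      exact ⟨fun i => (v i).1, fun i => (v i).2, fun c hc => by rw [← e]; exact h c hc⟩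
  exact ⟨n, key 1 ▸ k1, key (-1) ▸ k2⟩

theorem core (hT : TubeStmt) (hP : PertStmt) (hD : DynStmt) (hB : BumpStmt) (hS : SigStmt) :
    CoreStmt := by
  intro Y _ _ _ K κ Gt hG hκ h1
  obtain ⟨R, ν, π, Ex, hν, h⟩ := hT Y K Gt hG
  obtain ⟨D, h2⟩ := hP Y K Gt R ν π Ex (h ν hν le_rfl)
  obtain ⟨fl, ε, K₁, h3⟩ := hD Y K Gt R ν π Ex D (h ν hν le_rfl) h2
  have hε := h3.pos
  have h4 : 0 < ε / (4 * (K + 1)) := by positivity
  have h5 := Real.sqrt_pos.2 h4
  obtain ⟨e, he⟩ := hB.1 (-√(ε / (4 * (K + 1)))) (√(ε / (4 * (K + 1)))) (by linarith)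
  have h6 := m0_pos (K := K) h5
  obtain ⟨ψ, k1, k2, k3, -⟩ := hB.2.1 (ε + m0 K √(ε / (4 * (K + 1))))
    (ε + 2 * m0 K √(ε / (4 * (K + 1)))) (by linarith)
  exact hS Y K κ ⟨Gt, R, ν / 4, π, Ex, D, fl, ε, K₁, _, e, ψ⟩
    ⟨h _ (by positivity) (by linarith), h3, h5, le_of_eq (by
      rw [m0, Real.sq_sqrt h4.le]
      field_simp), he, k1, k2, k3⟩ hκ h1

end Pool.Agent.MP_c8d41b_gt.GF

end
end MrgPart0

-- ======== part 1: formerly Pool.Agent.MP_c8d41b_gt.gf.Dyn
section MrgPart1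

/-! PROJECT GF, row DYN: the descending flow. -/

open scoped ContDiff Topology
open Set Filter

noncomputable section

namespace Pool.Agent.MP_c8d41b_gt.GF

namespace DynP

open MP_6d695c_gt.SW

section General
variable {X : Type} [NormedAddCommGroup X] [NormedSpace ℝ X]

/-- descent of a function along a flow -/
theorem desc {ξ : X → X} {fl : ℝ → X → X} (hf : IsFlow ξ fl) {f : X → ℝ} (hs : ContDiff ℝ ∞ f)
    (x : X) {s t k : ℝ} (hst : s ≤ t)
    (h : ∀ u ∈ Icc s t, fderiv ℝ f (fl u x) (ξ (fl u x)) ≤ -k) :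
    f (fl t x) ≤ f (fl s x) - k * (t - s) := by
  have hd : ∀ u, HasDerivAt (fun u => f (fl u x)) (fderiv ℝ f (fl u x) (ξ (fl u x))) u := fun u =>
    ((hs.differentiable (by simp)) _).hasFDerivAt.comp_hasDerivAt u (hf.der x u)
  have := (convex_Icc s t).image_sub_le_mul_sub_of_deriv_le
    (fun u _ => (hd u).continuousAt.continuousWithinAt)
    (fun u _ => (hd u).differentiableAt.differentiableWithinAt)
    (fun u hu => (hd u).deriv.trans_le (h u (interior_subset hu))) s (left_mem_Icc.2 hst) t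
    (right_mem_Icc.2 hst) hst
  linarith

theorem speed {ξ : X → X} {fl : ℝ → X → X} (hf : IsFlow ξ fl) {C : ℝ} (hC : ∀ x, ‖ξ x‖ ≤ C)
    (x : X) {t : ℝ} (ht : 0 ≤ t) : ‖fl t x - x‖ ≤ C * t := by
  have := norm_image_sub_le_of_norm_deriv_le_segment' (f := fun u => fl u x) (a := 0) (b := t)
    (fun u _ => (hf.der x u).hasDerivWithinAt) (fun u _ => hC _) t (right_mem_Icc.2 ht)
  simpa [hf.zero] using this

/-- a bounded smooth gradient-like field -/
theorem grad [FiniteDimensional ℝ X] {D : X → ℝ} (hD : ContDiff ℝ ∞ D) {m : ℝ} (hm : 0 < m) :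
    ∃ (ξ : X → X) (C μ : ℝ), ContDiff ℝ ∞ ξ ∧ (∀ x, ‖ξ x‖ ≤ C) ∧ 0 < μ ∧
      (∀ x, fderiv ℝ D x (ξ x) ≤ 0) ∧ ∀ x, m ≤ ‖fderiv ℝ D x‖ → fderiv ℝ D x (ξ x) ≤ -μ := by
  let b := Module.finBasis ℝ X
  let A : (X →L[ℝ] ℝ) →L[ℝ] Fin (Module.finrank ℝ X) → ℝ :=
    ContinuousLinearMap.pi fun i => ContinuousLinearMap.apply ℝ ℝ (b i)
  let S : (Fin (Module.finrank ℝ X) → ℝ) →L[ℝ] X := b.equivFunL.symm
  have hA : ∀ l i, A l i = l (b i) := fun _ _ => rfl
  have hq : ∀ l, l (S (A l)) = nq (A l) := fun l => by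
    change l (b.equivFun.symm (A l)) = _
    rw [b.equivFun_symm_apply, map_sum, nq]
    exact Finset.sum_congr rfl fun i _ => by rw [map_smul, hA, smul_eq_mul, sq]
  have hinj : ∀ l, A l = 0 → l = 0 := fun l hl => ContinuousLinearMap.coe_injective
    (b.ext fun i => (hA l i).symm.trans (congrFun hl i))
  obtain ⟨κ, hκ, hanti⟩ := A.toLinearMap.exists_antilipschitzWith (LinearMap.ker_eq_bot'.2 hinj)
  have hκ' : (0 : ℝ) < κ := hκ
  have hw : ContDiff ℝ ∞ fun x => A (fderiv ℝ D x) :=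
    A.contDiff.comp (hD.fderiv_right (m := ∞) (by simp))
  have hpos : ∀ w : Fin (Module.finrank ℝ X) → ℝ, 0 < 1 + nq w := fun w => by
    linarith [nq_nonneg w]
  have hval : ∀ x, fderiv ℝ D x (-(1 + nq (A (fderiv ℝ D x)))⁻¹ • S (A (fderiv ℝ D x))) =
      (1 + nq (A (fderiv ℝ D x)))⁻¹ - 1 := fun x => by
    rw [map_smul, hq, smul_eq_mul]
    have := hpos (A (fderiv ℝ D x))
    field_simp
    ring
  refine ⟨fun x => -(1 + nq (A (fderiv ℝ D x)))⁻¹ • S (A (fderiv ℝ D x)), ‖S‖,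
    1 - (1 + (m / κ) ^ 2)⁻¹, ?_, fun x => ?_, ?_, fun x => ?_, fun x hx => ?_⟩
  · exact ((contDiff_const.add (cd_nq.comp hw)).inv fun x => (hpos _).ne').neg.smul
      (S.contDiff.comp hw)
  · set w := A (fderiv ℝ D x)
    have h1 : ‖w‖ ≤ 1 + nq w := by nlinarith [norm_sq_le_nq w, norm_nonneg w]
    rw [norm_smul, norm_neg, norm_inv, Real.norm_of_nonneg (hpos w).le, inv_mul_le_iff₀ (hpos w)]
    calc ‖S w‖ ≤ ‖S‖ * ‖w‖ := S.le_opNorm w
      _ ≤ ‖S‖ * (1 + nq w) := by gcongr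
      _ = _ := mul_comm _ _
  · have : 0 < (m / κ) ^ 2 := by positivity
    exact sub_pos.2 (inv_lt_one_of_one_lt₀ (by linarith))
  · rw [hval, sub_nonpos]
    exact inv_le_one_of_one_le₀ (by linarith [nq_nonneg (A (fderiv ℝ D x))])
  · rw [hval, neg_sub, sub_le_sub_iff_right]
    have h1 : ‖fderiv ℝ D x‖ ≤ κ * ‖A (fderiv ℝ D x)‖ :=
      ZeroHomClass.bound_of_antilipschitz A.toLinearMap hanti _
    have h2 : m / κ ≤ ‖A (fderiv ℝ D x)‖ := by
      rw [div_le_iff₀ hκ', mul_comm]; exact hx.trans h1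
    have h3 : (m / κ) ^ 2 ≤ nq (A (fderiv ℝ D x)) :=
      le_trans (by gcongr) (norm_sq_le_nq _)
    have h4 : 0 < 1 + (m / κ) ^ 2 := by positivity
    gcongr

end General

variable {Y : Type} [NormedAddCommGroup Y] [NormedSpace ℝ Y] [FiniteDimensional ℝ Y] {K : ℕ}
  {Gt : XX Y K → Fin K → ℝ} {R ν : ℝ} {D : XX Y K → ℝ}

omit [FiniteDimensional ℝ Y] in
theorem fderiv_nq_comp {g : XX Y K → Fin K → ℝ} (hg : ContDiff ℝ ∞ g) (x v : XX Y K) (c : ℝ)
    (h : fderiv ℝ g x v = c • g x) : fderiv ℝ (fun y => nq (g y)) x v = 2 * c * nq (g x) := by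
  have := ((cd_nq.differentiable (by simp)) (g x)).hasFDerivAt.comp x
    ((hg.differentiable (by simp)) x).hasFDerivAt
  rw [show (fun y => nq (g y)) = nq ∘ g from rfl, this.fderiv, ContinuousLinearMap.comp_apply,
    fderiv_nq, h, nq, mul_assoc, Finset.mul_sum _ _ c]
  congr 1
  exact Finset.sum_congr rfl fun i _ => by simp only [Pi.smul_apply, smul_eq_mul]; ring

/-- the properties of the field -/
structure Fld (Gt : XX Y K → Fin K → ℝ) (R ν : ℝ) (D : XX Y K → ℝ) (ε : ℝ) (Kc : Set (XX Y K))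
    (ξ : XX Y K → XX Y K) (C μ : ℝ) : Prop where
  sm : ContDiff ℝ ∞ ξ
  bd : ∀ x, ‖ξ x‖ ≤ C
  pos : 0 < μ
  le : ∀ x, fderiv ℝ D x (ξ x) ≤ 0
  off : ∀ x ∉ TT Gt R (ν / 4), |D x| ≤ ε ∨ x ∉ Kc → fderiv ℝ D x (ξ x) ≤ -μ
  on : ∀ x ∈ TT Gt R (ν / 4), fderiv ℝ D x (ξ x) = -2 * (nq (aa Gt x) + nq (bb Gt x))
  ona : ∀ x ∈ TT Gt R (ν / 4), fderiv ℝ (fun y => nq (aa Gt y)) x (ξ x) = -2 * nq (aa Gt x)

theorem field (hB : BumpStmt) {π Ex} (hT : Tube Gt R ν π Ex) (hP : Pert Gt R ν D) {ε m : ℝ}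
    {Kc : Set (XX Y K)} (hm : 0 < m)
    (hl : ∀ x ∉ TT Gt R (ν / 4), |D x| ≤ ε ∨ x ∉ Kc → m ≤ ‖fderiv ℝ D x‖) :
    ∃ ξ C μ, Fld Gt R ν D ε Kc ξ C μ := by
  have hν := hT.pos
  obtain ⟨ξg, Cg, μ, gsm, gbd, hμ, gle, goff⟩ := grad hP.sm hm
  obtain ⟨ξm, Cm, msm, mbd, hmod⟩ := hT.model
  obtain ⟨ψ, ψsm, ψ1, ψ0, ψb⟩ := hB.2.1 (ν / 4) (3 * ν / 8) (by linarith)
  have ha := cd_aa hT.pre.sm
  have hb := cd_bb hT.pre.sm
  have hQ : ContDiff ℝ ∞ fun x => nq (aa Gt x) + nq (bb Gt x) :=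
    (cd_nq.comp ha).add (cd_nq.comp hb)
  let χ : XX Y K → ℝ := fun x => if ‖x.1.2‖ < R then ψ (nq (aa Gt x) + nq (bb Gt x)) else 0
  have χ0 : ∀ x ∉ TC Gt R (3 * ν / 8), χ x = 0 := fun x hx => by
    by_cases h : ‖x.1.2‖ < R
    · exact (if_pos h).trans (ψ0 _ (le_of_lt (not_le.1 fun h' => hx ⟨h, h'⟩)))
    · exact if_neg h
  have χsm : ContDiff ℝ ∞ χ := by
    refine contDiff_of_closed (hT.closed' (by linarith)) (TC_sub_TT (ρ' := ν) (by linarith))
      (fun x hx => (ψsm.comp hQ).contDiffAt.congr_of_eventuallyEq ?_) χ0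
    filter_upwards [(isOpen_TT hT.pre.sm R ν).mem_nhds hx] with y hy using if_pos hy.1
  have χb : ∀ x, 0 ≤ χ x ∧ χ x ≤ 1 := fun x => by
    by_cases h : ‖x.1.2‖ < R
    · rw [show χ x = _ from if_pos h]; exact ψb _
    · rw [show χ x = _ from if_neg h]; exact ⟨le_rfl, zero_le_one⟩
  have χ1 : ∀ x ∈ TT Gt R (ν / 4), χ x = 1 := fun x hx => (if_pos hx.1).trans (ψ1 _ hx.2.le)
  have hma : ∀ x ∈ TT Gt R ν, fderiv ℝ (fun y => nq (aa Gt y)) x (ξm x) = -2 * nq (aa Gt x) :=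
    fun x hx => by rw [fderiv_nq_comp ha x _ (-1) (by rw [(hmod x hx).1, neg_one_smul])]; ring
  have hmD : ∀ x ∈ TT Gt R (ν / 2),
      fderiv ℝ D x (ξm x) = -2 * (nq (aa Gt x) + nq (bb Gt x)) := fun x hx => by
    have hx' : x ∈ TT Gt R ν := TT_mono (by linarith) hx
    have h1 : D =ᶠ[𝓝 x] fun y => nq (aa Gt y) - nq (bb Gt y) := by
      filter_upwards [(isOpen_TT hT.pre.sm R _).mem_nhds hx] with y hy using hP.eq y hy
    have da : DifferentiableAt ℝ (fun y => nq (aa Gt y)) x :=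
      ((cd_nq.comp ha).differentiable (by simp)) x
    have db : DifferentiableAt ℝ (fun y => nq (bb Gt y)) x :=
      ((cd_nq.comp hb).differentiable (by simp)) x
    rw [h1.fderiv_eq, fderiv_fun_sub da db, sub_apply, hma x hx',
      fderiv_nq_comp hb x _ 1 (by rw [(hmod x hx').2, one_smul])]
    ring
  have key : ∀ x k, fderiv ℝ D x (ξg x) ≤ -k →
      (x ∈ TC Gt R (3 * ν / 8) → k ≤ 2 * (nq (aa Gt x) + nq (bb Gt x))) →
      fderiv ℝ D x (χ x • ξm x + (1 - χ x) • ξg x) ≤ -k := fun x k h1 h2 => by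
    rw [map_add, map_smul, map_smul, smul_eq_mul, smul_eq_mul]
    by_cases hx : x ∈ TC Gt R (3 * ν / 8)
    · rw [hmD x (TC_sub_TT (by linarith) hx)]
      nlinarith [χb x, h2 hx]
    · rw [χ0 x hx]; linarith
  refine ⟨fun x => χ x • ξm x + (1 - χ x) • ξg x, Cm + Cg, min μ (ν / 2),
    (χsm.smul msm).add ((contDiff_const.sub χsm).smul gsm), fun x => ?_,
    lt_min hμ (by linarith), fun x => ?_, fun x hx h => ?_, fun x hx => ?_, fun x hx => ?_⟩
  · refine (norm_add_le _ _).trans (add_le_add ?_ ?_)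
    · rw [norm_smul, Real.norm_of_nonneg (χb x).1]
      nlinarith [χb x, mbd x, norm_nonneg (ξm x)]
    · rw [norm_smul, Real.norm_of_nonneg (sub_nonneg.2 (χb x).2)]
      nlinarith [χb x, gbd x, norm_nonneg (ξg x)]
  · simpa using key x 0 (by simpa using gle x) fun _ => by
      linarith [nq_nonneg (aa Gt x), nq_nonneg (bb Gt x)]
  · refine key x _ ((goff x (hl x hx h)).trans (neg_le_neg (min_le_left _ _))) fun hx' => ?_
    have : ν / 4 ≤ nq (aa Gt x) + nq (bb Gt x) := not_lt.1 fun h' => hx ⟨hx'.1, h'⟩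
    linarith [min_le_right μ (ν / 2)]
  · simp only [χ1 x hx, one_smul, sub_self, zero_smul, add_zero]
    exact hmD x (TT_mono (by linarith) hx)
  · simp only [χ1 x hx, one_smul, sub_self, zero_smul, add_zero]
    exact hma x (TT_mono (by linarith) hx)

variable {ε C μ : ℝ} {Kc : Set (XX Y K)} {ξ : XX Y K → XX Y K} {fl : ℝ → XX Y K → XX Y K}

omit [FiniteDimensional ℝ Y] in
theorem mono (hP : Pert Gt R ν D) (h : Fld Gt R ν D ε Kc ξ C μ) (hf : IsFlow ξ fl) (x : XX Y K)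
    {s t : ℝ} (hst : s ≤ t) : D (fl t x) ≤ D (fl s x) := by
  simpa using desc hf hP.sm x (k := 0) hst fun u _ => by simpa using h.le _

omit [FiniteDimensional ℝ Y] in
theorem far (hP : Pert Gt R ν D) (hν : 0 < ν) (h : Fld Gt R ν D ε Kc ξ C μ) (hK : IsCompact Kc)
    (hf : IsFlow ξ fl) (c e : ℝ) (he : 0 < e) :
    ∃ ρ, ∃ T ≥ 0, ∀ x, ρ ≤ ‖x‖ → D x ≤ -e → D (fl T x) ≤ -c := by
  obtain ⟨M, hM⟩ := hK.isBounded.exists_norm_le
  have hκ : 0 < min μ (2 * e) := lt_min h.pos (by linarith)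
  have hC : 0 ≤ C := (norm_nonneg _).trans (h.bd 0)
  have hT : 0 ≤ |c| / min μ (2 * e) := by positivity
  refine ⟨M + C * (|c| / min μ (2 * e)) + 1, _, hT, fun x hx hD => ?_⟩
  have := desc hf hP.sm x (k := min μ (2 * e)) hT fun u hu => by
    by_cases hm : fl u x ∈ TT Gt R (ν / 4)
    · have h1 := mono hP h hf x hu.1
      rw [hf.zero, hP.eq _ (TT_mono (by linarith) hm), D0] at h1
      rw [h.on _ hm]
      linarith [nq_nonneg (aa Gt (fl u x)), min_le_right μ (2 * e)]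
    · refine (h.off _ hm (Or.inr fun hk => ?_)).trans (neg_le_neg (min_le_left _ _))
      have h1 := speed hf h.bd x hu.1
      have h2 := norm_sub_norm_le x (fl u x)
      rw [norm_sub_rev] at h2
      have h3 : C * u ≤ C * (|c| / min μ (2 * e)) := by gcongr; exact hu.2
      linarith [hM _ hk]
  rw [hf.zero, sub_zero, mul_div_cancel₀ _ hκ.ne'] at this
  linarith [le_abs_self c]

omit [FiniteDimensional ℝ Y] in
theorem down {π Ex} (hT : Tube Gt R ν π Ex) (hP : Pert Gt R ν D) (h : Fld Gt R ν D ε Kc ξ C μ)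
    (hf : IsFlow ξ fl) {e : ℝ} (he : 0 < e) (heε : e ≤ ε) (heν : 16 * e ≤ ν) (δ : ℝ)
    (hδ : 0 < δ) : ∃ T ≥ 0, ∀ x, D x < e →
      D (fl T x) ≤ -e ∨ (fl T x ∈ TT Gt R (ν / 4) ∧ ‖aa Gt (fl T x)‖ ≤ δ) := by
  have hκ : 0 < min μ (2 * e) := lt_min h.pos (by linarith)
  set T₁ := 2 * e / min μ (2 * e) with hT₁
  set T₂ := e / (2 * δ ^ 2) with hT₂
  have h1 : 0 ≤ T₁ := by positivity
  have h2 : 0 ≤ T₂ := by positivity
  refine ⟨T₁ + T₂, by positivity, fun x hx => or_iff_not_imp_left.2 fun hD => ?_⟩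
  have lo : ∀ u ≤ T₁ + T₂, -e < D (fl u x) := fun u hu =>
    (not_le.1 hD).trans_le (mono hP h hf x hu)
  have hi : ∀ u ≥ 0, D (fl u x) < e := fun u hu => by
    have := mono hP h hf x hu
    rw [hf.zero] at this
    linarith
  obtain ⟨t₀, ht₀, hm⟩ : ∃ t₀ ∈ Icc 0 T₁, fl t₀ x ∈ TT Gt R e := by
    by_contra hc
    push Not at hc
    have := desc hf hP.sm x (k := min μ (2 * e)) h1 fun u hu => by
      by_cases hm : fl u x ∈ TT Gt R (ν / 4)
      · have : e ≤ nq (aa Gt (fl u x)) + nq (bb Gt (fl u x)) :=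
          not_lt.1 fun h' => hc u hu ⟨hm.1, h'⟩
        rw [h.on _ hm]
        linarith [min_le_right μ (2 * e)]
      · refine (h.off _ hm (Or.inl (abs_le.2 ⟨?_, ?_⟩))).trans (neg_le_neg (min_le_left _ _))
        · linarith [lo u (by linarith [hu.2])]
        · linarith [hi u hu.1]
    rw [hf.zero, sub_zero, hT₁, mul_div_cancel₀ _ hκ.ne'] at this
    linarith [lo T₁ (by linarith)]
  have ha : ContDiff ℝ ∞ fun y => nq (aa Gt y) := cd_nq.comp (cd_aa hT.pre.sm)
  have hc : Continuous fun u => fl u x :=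
    continuous_iff_continuousAt.2 fun u => (hf.der x u).continuousAt
  have ha0 : nq (aa Gt (fl t₀ x)) < e := by linarith [hm.2, nq_nonneg (bb Gt (fl t₀ x))]
  have sub : TC Gt R (3 * e) ⊆ TT Gt R (ν / 4) := TC_sub_TT (by linarith)
  have dec : ∀ s t, s ≤ t → (∀ u ∈ Icc s t, fl u x ∈ TC Gt R (3 * e)) →
      nq (aa Gt (fl t x)) ≤ nq (aa Gt (fl s x)) := fun s t hst hu => by
    simpa using desc hf ha x (k := 0) hst fun u hu' => by
      rw [h.ona _ (sub (hu u hu'))]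
      linarith [nq_nonneg (aa Gt (fl u x))]
  have stay : Icc t₀ (T₁ + T₂) ⊆ (fun u => fl u x) ⁻¹' TC Gt R (3 * e) := by
    refine IsClosed.Icc_subset_of_forall_mem_nhdsGT_of_Icc_subset
      (((hT.closed' (by linarith)).preimage hc).inter isClosed_Icc)
      (TT_sub_TC (by linarith) hm) fun t ht hs => ?_
    have hm' : fl t x ∈ TC Gt R (3 * e) := hs (right_mem_Icc.2 ht.1)
    have h3 := dec t₀ t ht.1 hs
    have h4 := lo t ht.2.le
    rw [hP.eq _ (TC_sub_TT (by linarith) hm'), D0] at h4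
    have h5 : fl t x ∈ TT Gt R (3 * e) := ⟨hm'.1, by linarith⟩
    exact mem_nhdsWithin_of_mem_nhds (mem_of_superset
      (((isOpen_TT hT.pre.sm R _).preimage hc).mem_nhds h5) fun u hu => TT_sub_TC le_rfl hu)
  have hle : t₀ ≤ T₁ + T₂ := by linarith [ht₀.2]
  refine ⟨sub (stay (right_mem_Icc.2 hle)), ?_⟩
  by_contra hc'
  have h3 : δ ^ 2 ≤ nq (aa Gt (fl (T₁ + T₂) x)) :=
    le_trans (by gcongr; exact (not_le.1 hc').le) (norm_sq_le_nq _)
  have h4 := desc hf ha x (k := 2 * δ ^ 2) hle fun u hu => by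
    rw [h.ona _ (sub (stay hu))]
    linarith [dec u _ hu.2 fun v hv => stay ⟨hu.1.trans hv.1, hv.2⟩]
  have h5 : 2 * δ ^ 2 * T₂ ≤ 2 * δ ^ 2 * (T₁ + T₂ - t₀) := by gcongr; linarith [ht₀.2]
  rw [hT₂, mul_div_cancel₀ _ (by positivity)] at h5
  linarith [nq_nonneg (aa Gt (fl (T₁ + T₂) x))]

end DynP

open DynP in
theorem dyn (hF : FlowStmt) (hB : BumpStmt) : DynStmt := by
  intro Y _ _ _ K Gt R ν π Ex D hT hP
  have hν := hT.pos
  obtain ⟨ε, m, Kc, hε, hm, hK, hl⟩ := hP.low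
  obtain ⟨ξ, C, μ, h⟩ := field hB hT hP hm hl
  obtain ⟨fl, hf⟩ := hF _ ξ C h.sm h.bd
  obtain ⟨K₁, hK₁⟩ := hP.bdd
  have he : 0 < min ε (ν / 16) := lt_min hε (by linarith)
  have he' := min_le_right ε (ν / 16)
  exact ⟨fl, min ε (ν / 16), K₁, hP.sm, hP.odd, fun x hx => hP.eq x (TT_mono (by linarith) hx),
    hK₁, he, by linarith, hf.sm, hf.zero, hf.add,
    fun x t ht => (mono hP h hf x ht).trans_eq (by rw [hf.zero]),
    down hT hP h hf he (min_le_left _ _) (by linarith), far hP hν h hK hf⟩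

end Pool.Agent.MP_c8d41b_gt.GF

end
end MrgPart1

-- ======== part 2: formerly Pool.Agent.MP_c8d41b_gt.gf.GeoB
section MrgPart2

/-! PROJECT GF, row GEOB: the difference function of a path of generating functions. -/

open scoped ContDiff Topology
open Set Filter

noncomputable section

namespace Pool.Agent.MP_c8d41b_gt.GF

namespace GeoB

variable {p q k : ℕ} {g : (Fin p → ℝ) → Fin q → ℝ} {F : ℝ × Tot p k → ℝ}
  {Gt : XX (Tot p k) (k + q) → Fin (k + q) → ℝ}

/-- the multiplier part of `s` -/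
def s2 (s : Fin (k + q) → ℝ) : Fin q → ℝ := fun i => s (Fin.natAdd k i)

/-- the covector `σ · dg` -/
def cv (g : (Fin p → ℝ) → Fin q → ℝ) (z : Fin p → ℝ) (σ : Fin q → ℝ) : (Fin p → ℝ) →L[ℝ] ℝ :=
  ∑ i, σ i • (ContinuousLinearMap.proj i).comp (fderiv ℝ g z)

theorem cv_apply (z w : Fin p → ℝ) (σ : Fin q → ℝ) :
    cv g z σ w = ∑ i, σ i * fderiv ℝ g z w i := by simp [cv]

theorem norm_le_of {s : Fin (k + q) → ℝ} {c : ℝ} (hc : 0 ≤ c) (h1 : ‖s1 s‖ ≤ c)
    (h2 : ‖s2 s‖ ≤ c) : ‖s‖ ≤ c := by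
  refine (pi_norm_le_iff_of_nonneg hc).2 fun i => ?_
  induction i using Fin.addCases with
  | left i => exact (norm_le_pi_norm (s1 s) i).trans h1
  | right i => exact (norm_le_pi_norm (s2 s) i).trans h2

theorem s1_append (a : Fin k → ℝ) (b : Fin q → ℝ) : s1 (Fin.append a b) = a :=
  funext fun i => Fin.append_left a b i

theorem s2_append (a : Fin k → ℝ) (b : Fin q → ℝ) : s2 (Fin.append a b) = b :=
  funext fun i => Fin.append_right a b i

theorem crit_eq_zero {f : Tot p k → ℝ} {y : Tot p k} :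
    crit g f y = 0 ↔ dv f y = 0 ∧ g y.1 = 0 := by
  constructor
  · intro h
    exact ⟨by rw [← s1_append (dv f y) (g y.1)]; exact congrArg s1 h,
      by rw [← s2_append (dv f y) (g y.1)]; exact congrArg s2 h⟩
  · rintro ⟨h1, h2⟩
    funext i
    rw [crit, h1, h2]
    induction i using Fin.addCases with
    | left i => exact Fin.append_left _ _ i
    | right i => exact Fin.append_right _ _ i

theorem cd_slice (hF : ContDiff ℝ ∞ F) (r : ℝ) : ContDiff ℝ ∞ fun y => F (r, y) :=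
  hF.comp (contDiff_const.prodMk contDiff_id)

theorem fd (hF : ContDiff ℝ ∞ F) (hg : ContDiff ℝ ∞ g) (hG : GtOf g F Gt) (r : ℝ)
    (z w : Fin p → ℝ) (u v : Fin k → ℝ) (s t : Fin (k + q) → ℝ) :
    fderiv ℝ (D0 Gt) ((r, z, u), s) ((0, w, v), t) =
      2 * (fderiv ℝ (fun y => F (r, y)) (z, u + s1 s) (w, v + s1 t) -
        fderiv ℝ (fun y => F (r, y)) (z, u - s1 s) (w, v - s1 t)) +
      4 * (∑ i, s2 t i * g z i + cv g z (s2 s) w) := by
  have hf := (cd_slice hF r).differentiable (by simp)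
  have h0 : HasDerivAt _ _ _ := (((cd_D0 hG.sm).differentiable (by simp))
    ((r, z, u), s)).hasFDerivAt.hasLineDerivAt ((0, w, v), t)
  have h1 : HasDerivAt _ _ _ := (hf (z, u + s1 s)).hasFDerivAt.hasLineDerivAt (w, v + s1 t)
  have h2 : HasDerivAt _ _ _ := (hf (z, u - s1 s)).hasFDerivAt.hasLineDerivAt (w, v - s1 t)
  have h3 : HasDerivAt _ _ _ := (hg.differentiable (by simp) z).hasFDerivAt.hasLineDerivAt w
  have h4 : ∀ i, HasDerivAt (fun c : ℝ => (s2 s i + c * s2 t i) * g (z + c • w) i)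
      (s2 t i * g z i + s2 s i * fderiv ℝ g z w i) 0 := fun i => by
    have a := ((hasDerivAt_id (0 : ℝ)).mul_const (s2 t i)).const_add (s2 s i)
    simpa using a.fun_mul (hasDerivAt_pi.1 h3 i)
  have h5 := ((h1.fun_sub h2).const_mul 2).fun_add
    ((HasDerivAt.fun_sum fun i (_ : i ∈ Finset.univ) => h4 i).const_mul 4)
  rw [cv_apply, ← Finset.sum_add_distrib]
  refine h0.unique (h5.congr_of_eventuallyEq (Eventually.of_forall fun c => ?_))
  have e : (((r, z, u), s) : XX (Tot p k) (k + q)) + c • ((0, w, v), t) =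
      ((r, z + c • w, u + c • v), s + c • t) := by simp
  have e1 : ((z, u + s1 s) : Tot p k) + c • (w, v + s1 t) =
      (z + c • w, u + c • v + s1 (s + c • t)) := by
    ext <;> simp [s1]; ring
  have e2 : ((z, u - s1 s) : Tot p k) + c • (w, v - s1 t) =
      (z + c • w, u + c • v - s1 (s + c • t)) := by
    ext <;> simp [s1]; ring
  simp only [e, e1, e2, hG.diff]
  rfl

theorem single_norm {n : ℕ} (i : Fin n) : ‖(Pi.single i 1 : Fin n → ℝ)‖ = 1 := by
  rw [Pi.norm_single, norm_one]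

/-- the four families of bounds by the norm of the differential -/
theorem bounds (hF : ContDiff ℝ ∞ F) (hg : ContDiff ℝ ∞ g) (hG : GtOf g F Gt) (r : ℝ)
    (z : Fin p → ℝ) (u : Fin k → ℝ) (s : Fin (k + q) → ℝ) {N : ℝ}
    (hN : ‖fderiv ℝ (D0 Gt) ((r, z, u), s)‖ ≤ N) :
    ‖g z‖ ≤ N / 4 ∧ ‖dv (fun y => F (r, y)) (z, u + s1 s)‖ ≤ N / 4 ∧
      ‖dv (fun y => F (r, y)) (z, u - s1 s)‖ ≤ N / 4 ∧
      ∀ w, |2 * (fderiv ℝ (fun y => F (r, y)) (z, u + s1 s) (w, 0) -
        fderiv ℝ (fun y => F (r, y)) (z, u - s1 s) (w, 0)) + 4 * cv g z (s2 s) w| ≤ N * ‖w‖ := by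
  have h0 : 0 ≤ N := (norm_nonneg _).trans hN
  have h4 : 0 ≤ N / 4 := by positivity
  have key : ∀ (v : XX (Tot p k) (k + q)) (c : ℝ), ‖v‖ ≤ c →
      |fderiv ℝ (D0 Gt) ((r, z, u), s) v| ≤ N * c := fun v c hv =>
    (ContinuousLinearMap.le_opNorm _ v).trans (mul_le_mul hN hv (norm_nonneg _) h0)
  have nz : ∀ (v : Fin k → ℝ) (t : Fin (k + q) → ℝ), ‖v‖ ≤ 1 → ‖s1 t‖ ≤ 1 → ‖s2 t‖ ≤ 1 →
      ‖(((0, 0, v), t) : XX (Tot p k) (k + q))‖ ≤ 1 := fun v t h1 h2 h3 => by
    simp [Prod.norm_def, h1, norm_le_of zero_le_one h2 h3]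
  have two : ∀ (y : Tot p k) (i : Fin k), fderiv ℝ (fun y => F (r, y)) y
      (0, Pi.single i 1 + Pi.single i 1) = 2 * dv (fun y => F (r, y)) y i := fun y i => by
    rw [dv, two_mul, ← map_add, Prod.mk_add_mk, add_zero]
  have zz : ((0, 0) : Tot p k) = 0 := rfl
  refine ⟨(pi_norm_le_iff_of_nonneg h4).2 fun i => ?_, (pi_norm_le_iff_of_nonneg h4).2 fun i => ?_,
    (pi_norm_le_iff_of_nonneg h4).2 fun i => ?_, fun w => ?_⟩
  · have := key _ 1 (nz 0 (Fin.append 0 (Pi.single i 1)) (by simp) (by simp [s1_append])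
      (by rw [s2_append, single_norm]))
    rw [fd hF hg hG, s1_append, s2_append] at this
    simp [zz, Pi.single_apply, abs_mul] at this
    rw [Real.norm_eq_abs]; linarith
  · have := key _ 1 (nz (Pi.single i 1) (Fin.append (Pi.single i 1) 0) (single_norm i).le
      (by rw [s1_append, single_norm]) (by simp [s2_append]))
    rw [fd hF hg hG, s1_append, s2_append, two] at this
    simp [zz, abs_mul] at this
    rw [Real.norm_eq_abs]; linarith
  · have := key _ 1 (nz (Pi.single i 1) (Fin.append (-Pi.single i 1) 0) (single_norm i).le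
      (by rw [s1_append, norm_neg, single_norm]) (by simp [s2_append]))
    rw [fd hF hg hG, s1_append, s2_append, sub_neg_eq_add, two] at this
    simp [zz, abs_mul] at this
    rw [Real.norm_eq_abs]; linarith
  · have := key ((0, w, 0), 0) ‖w‖ (by simp [Prod.norm_def])
    rw [fd hF hg hG] at this
    have e1 : s1 (0 : Fin (k + q) → ℝ) = 0 := rfl
    have e2 : s2 (0 : Fin (k + q) → ℝ) = 0 := rfl
    simpa [e1, e2] using this

theorem cv_inj (hb : Base g) {z : Fin p → ℝ} (hz : g z = 0) {σ : Fin q → ℝ} (h : cv g z σ = 0) :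
    σ = 0 := by
  funext i
  obtain ⟨w, hw⟩ := hb.reg z hz (Pi.single i 1)
  have := cv_apply (g := g) z w σ
  rw [h, hw] at this
  simpa [Pi.single_apply] using this.symm

theorem cv_low (hb : Base g) : ∃ μ > 0, ∀ z σ, ‖g z‖ ≤ 1 → ‖g z‖ ≤ μ → μ * ‖σ‖ ≤ ‖cv g z σ‖ := by
  have hd := hb.sm.continuous_fderiv (by simp)
  have hg := hb.sm.continuous
  have hc : Continuous fun x : (Fin p → ℝ) × (Fin q → ℝ) => ‖g x.1‖ + ‖cv g x.1 x.2‖ := by
    unfold cv
    fun_prop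
  obtain ⟨a, ha, h⟩ := (hb.cpt.prod (isCompact_sphere (0 : Fin q → ℝ) 1)).exists_forall_le'
    hc.continuousOn (a := 0) fun x hx => by
      by_contra hh
      have h1 : ‖g x.1‖ = 0 := by linarith [norm_nonneg (g x.1), norm_nonneg (cv g x.1 x.2)]
      have h2 : ‖cv g x.1 x.2‖ = 0 := by
        linarith [norm_nonneg (g x.1), norm_nonneg (cv g x.1 x.2)]
      have := hx.2
      rw [cv_inj hb (norm_eq_zero.1 h1) (norm_eq_zero.1 h2)] at this
      simp at this
  refine ⟨a / 2, by positivity, fun z σ h1 h2 => ?_⟩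
  rcases eq_or_ne σ 0 with rfl | hσ
  · simp
  have hn : 0 < ‖σ‖ := norm_pos_iff.2 hσ
  have h3 := h (z, ‖σ‖⁻¹ • σ) ⟨h1, by simp [norm_smul, hn.ne']⟩
  have e : cv g z (‖σ‖⁻¹ • σ) = ‖σ‖⁻¹ • cv g z σ := by
    simp [cv, Finset.smul_sum, mul_smul]
  simp only [e, norm_smul, norm_inv, norm_norm] at h3
  rw [← le_div_iff₀ hn, div_eq_inv_mul ‖cv g z σ‖]
  linarith

theorem fd_bdd {f₀ f₁ : Tot p k → ℝ} (hb : Base g) (hP : Path2 g F f₀ f₁) (R : ℝ) :
    ∃ C, ∀ r y, ‖g y.1‖ ≤ 1 → ‖y.2‖ ≤ R → ‖fderiv ℝ (fun y => F (r, y)) y‖ ≤ C := by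
  have hc : Continuous fun x : ℝ × Tot p k => fderiv ℝ (fun y => F (x.1, y)) x.2 :=
    (ContDiff.fderiv (m := ∞) (n := 0) (f := fun (x : ℝ × Tot p k) y => F (x.1, y))
      (g := Prod.snd) (hP.sm.comp (contDiff_fst.fst.prodMk contDiff_snd)) contDiff_snd
      (by simp)).continuous
  obtain ⟨C, hC⟩ := ((isCompact_Icc (a := (0 : ℝ)) (b := 1)).prod
    (hb.cpt.prod (isCompact_closedBall (0 : Fin k → ℝ) R))).exists_bound_of_continuousOn
    hc.continuousOn
  refine ⟨C, fun r y h1 h2 => ?_⟩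
  have h3 : ∀ r ∈ Icc (0 : ℝ) 1, ‖fderiv ℝ (fun y => F (r, y)) y‖ ≤ C := fun r hr =>
    hC (r, y) ⟨hr, h1, mem_closedBall_zero_iff.2 h2⟩
  rcases le_total r 0 with h | h
  · have : (fun y => F (r, y)) = fun y => F (0, y) :=
      funext fun y => by rw [hP.left r h, hP.left 0 le_rfl]
    rw [this]; exact h3 0 ⟨le_rfl, zero_le_one⟩
  rcases le_total r 1 with h' | h'
  · exact h3 r ⟨h, h'⟩
  · have : (fun y => F (r, y)) = fun y => F (1, y) :=
      funext fun y => by rw [hP.right r h', hP.right 1 le_rfl]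
    rw [this]; exact h3 1 ⟨zero_le_one, le_rfl⟩

theorem ends (hb : Base g) (hF : ContDiff ℝ ∞ F) (hG : GtOf g F Gt) {r : ℝ}
    (hf : Gen g fun y => F (r, y)) (z : Fin p → ℝ) (u : Fin k → ℝ) (s : Fin (k + q) → ℝ)
    (h : fderiv ℝ (D0 Gt) ((r, z, u), s) = 0) : Gt ((r, z, u), s) = 0 ∧ s = 0 := by
  obtain ⟨h1, h2, h3, h4⟩ := bounds hF hb.sm hG r z u s (N := 0) (by rw [h, norm_zero])
  simp only [zero_div, norm_le_zero_iff, zero_mul, abs_nonpos_iff] at h1 h2 h3 h4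
  have e := hf.inj (x₁ := (z, u + s1 s)) (x₂ := (z, u - s1 s)) (crit_eq_zero.2 ⟨h2, h1⟩)
    (crit_eq_zero.2 ⟨h3, h1⟩) (by
      refine Sigma.ext rfl (heq_of_eq ?_)
      ext w
      have := h4 w.1
      have hw : fderiv ℝ g z w.1 = 0 := w.2
      rw [cv_apply, hw] at this
      simp at this
      exact sub_eq_zero.1 this)
  have e1 : s1 s = 0 := by
    funext i
    have := congrFun (congrArg Prod.snd e) i
    simp only [Pi.add_apply, Pi.sub_apply] at this
    rw [Pi.zero_apply]; linarith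
  have e2 : s2 s = 0 := cv_inj hb h1 (by
    ext1 w
    have := h4 w
    rw [e] at this
    simpa using this)
  have e3 : s = 0 := norm_le_zero_iff.1 (norm_le_of le_rfl (by simp [e1]) (by simp [e2]))
  subst e3
  refine ⟨?_, rfl⟩
  change G1 Gt (r, z, u) = 0
  rw [hG.zero]
  refine crit_eq_zero.2 ⟨?_, h1⟩
  rwa [e1, add_zero] at h2

end GeoB

open GeoB in
theorem geoB : GeoBStmt := by
  intro p q k g F f₀ f₁ Gt hb h0 h1 hP hR hG
  obtain ⟨R, m, hm, hfar⟩ := hP.far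
  obtain ⟨Rz, hRz⟩ := hb.cpt.isBounded.exists_norm_le
  refine ⟨hG.sm, hG.even, hG.left, hG.right, hG.zero ▸ hR, ⟨max Rz R, fun x hx => ?_⟩, ?_, ?_, ?_⟩
  · rw [hG.zero] at hx
    obtain ⟨a, b⟩ := crit_eq_zero.1 hx
    refine max_le_max (hRz _ (by simp [b])) (le_of_not_ge fun h => ?_)
    have := hfar x.1 x.2 (by simp [b]) h
    rw [a, norm_zero] at this
    exact absurd hm (not_lt.2 this)
  · obtain ⟨K₀, hK⟩ := hP.bdd
    refine ⟨8 * K₀, ?_⟩
    rintro ⟨⟨r, z, u⟩, s⟩ t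
    have e : (((r, z, u), s) : XX (Tot p k) (k + q)) + t • er = ((r + t, z, u), s) := by
      simp [er]
    rw [e, hG.diff, hG.diff, abs_le]
    have a1 := abs_le.1 (hK (r + t) (z, u + s1 s))
    have a2 := abs_le.1 (hK (r + t) (z, u - s1 s))
    have a3 := abs_le.1 (hK r (z, u + s1 s))
    have a4 := abs_le.1 (hK r (z, u - s1 s))
    constructor <;> linarith [a1.1, a1.2, a2.1, a2.2, a3.1, a3.2, a4.1, a4.2]
  · rintro ⟨⟨r, z, u⟩, s⟩ hr h
    refine ends hb hP.sm hG ?_ z u s h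
    rcases hr with hr | hr
    · rwa [funext (hP.left r hr)]
    · rwa [funext (hP.right r hr)]
  · obtain ⟨μ, hμ, hlow⟩ := cv_low hb
    obtain ⟨C, hC⟩ := fd_bdd hb hP R
    refine ⟨|Rz| + |R| + |(1 + C) / μ| + 1, min μ (min m 1), by positivity, ?_⟩
    rintro ⟨⟨r, z, u⟩, s⟩ hx
    by_contra hN
    obtain ⟨b1, b2, b3, b4⟩ := bounds hP.sm hb.sm hG r z u s (not_le.1 hN).le
    have m1 := min_le_left μ (min m 1)
    have m2 := (min_le_right μ (min m 1)).trans (min_le_left m 1)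
    have m3 := (min_le_right μ (min m 1)).trans (min_le_right m 1)
    generalize min μ (min m 1) = N at b1 b2 b3 b4 m1 m2 m3
    have g1 : ‖g z‖ ≤ 1 := by linarith
    have u1 : ‖u + s1 s‖ ≤ R := le_of_not_ge fun h => by
      linarith [hfar r (z, u + s1 s) (show ‖g z‖ < 1 / 2 by linarith) h]
    have u2 : ‖u - s1 s‖ ≤ R := le_of_not_ge fun h => by
      linarith [hfar r (z, u - s1 s) (show ‖g z‖ < 1 / 2 by linarith) h]
    have c1 := hC r (z, u + s1 s) g1 u1
    have c2 := hC r (z, u - s1 s) g1 u2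
    have hC0 : 0 ≤ C := (norm_nonneg _).trans c1
    have hcv : ‖cv g z (s2 s)‖ ≤ 1 + C := by
      refine ContinuousLinearMap.opNorm_le_bound _ (by positivity) fun w => ?_
      have nw : ‖((w, 0) : Tot p k)‖ = ‖w‖ := by simp [Prod.norm_def]
      have d1 := abs_le.1 ((ContinuousLinearMap.le_of_opNorm_le _ c1 (w, 0)).trans_eq' rfl)
      have d2 := abs_le.1 ((ContinuousLinearMap.le_of_opNorm_le _ c2 (w, 0)).trans_eq' rfl)
      have d3 := abs_le.1 ((b4 w).trans (mul_le_mul_of_nonneg_right m3 (norm_nonneg w)))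
      rw [nw] at d1 d2
      rw [Real.norm_eq_abs, abs_le]
      constructor <;> nlinarith [d1.1, d1.2, d2.1, d2.2, d3.1, d3.2, norm_nonneg w]
    have σ1 : ‖s2 s‖ ≤ (1 + C) / μ := by
      rw [le_div_iff₀' hμ]
      exact (hlow z _ g1 (by linarith)).trans hcv
    have n1 : ‖u‖ ≤ R := by
      have e : (2 : ℝ) • u = (u + s1 s) + (u - s1 s) := by module
      have := norm_add_le (u + s1 s) (u - s1 s)
      rw [← e, norm_smul, Real.norm_two] at this
      linarith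
    have n2 : ‖s1 s‖ ≤ R := by
      have e : (2 : ℝ) • s1 s = (u + s1 s) - (u - s1 s) := by module
      have := norm_sub_le (u + s1 s) (u - s1 s)
      rw [← e, norm_smul, Real.norm_two] at this
      linarith
    have p1 := abs_nonneg Rz
    have p2 := abs_nonneg R
    have p3 := abs_nonneg ((1 + C) / μ)
    have n3 : ‖s‖ ≤ |R| + |(1 + C) / μ| := norm_le_of (by positivity)
      (by linarith [le_abs_self R]) (by linarith [le_abs_self ((1 + C) / μ)])
    have n4 : ‖z‖ ≤ |Rz| := (hRz z g1).trans (le_abs_self _)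
    refine absurd hx (not_le.2 ?_)
    simp only [Prod.norm_def, max_lt_iff]
    refine ⟨⟨?_, ?_⟩, ?_⟩ <;> linarith [le_abs_self R]

end Pool.Agent.MP_c8d41b_gt.GF

end
end MrgPart2

-- ======== part 3: formerly Pool.Agent.MP_c8d41b_gt.gf.IntA
section MrgPart3

/-! PROJECT GF, row INT: coordinates, Fubini and signs of determinants. -/

open scoped ContDiff Topology
open Set Filter ExteriorAlgebra MeasureTheory

noncomputable section

namespace Pool.Agent.MP_c8d41b_gt.GF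

namespace IntP

/-- splitting of coordinates -/
def sp (m n : ℕ) : (Fin (m + n) → ℝ) ≃ₗ[ℝ] (Fin m → ℝ) × (Fin n → ℝ) where
  toFun y := (fun i => y (Fin.castAdd n i), fun j => y (Fin.natAdd m j))
  invFun z := Fin.append z.1 z.2
  map_add' _ _ := rfl
  map_smul' _ _ := rfl
  left_inv y := Fin.append_castAdd_natAdd
  right_inv z := by ext i <;> simp

theorem sp_left (m n : ℕ) (i : Fin m) :
    sp m n (Pi.single (Fin.castAdd n i) 1) = (Pi.single i 1, 0) := by
  ext j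
  · simp [sp, Pi.single_apply]
  · have : Fin.natAdd m j ≠ Fin.castAdd n i := fun h => by
      have := congrArg Fin.val h
      simp at this
      omega
    simp [sp, this]

theorem sp_right (m n : ℕ) (i : Fin n) :
    sp m n (Pi.single (Fin.natAdd m i) 1) = (0, Pi.single i 1) := by
  ext j
  · have : Fin.castAdd n j ≠ Fin.natAdd m i := fun h => by
      have := congrArg Fin.val h
      simp at this
      omega
    simp [sp, this]
  · simp [sp, Pi.single_apply]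

theorem integral_sp (m n : ℕ) (f : (Fin m → ℝ) → ℝ) (g : (Fin n → ℝ) → ℝ) :
    ∫ y : Fin (m + n) → ℝ, f (sp m n y).1 * g (sp m n y).2 = (∫ a, f a) * ∫ t, g t := by
  have h1 := (volume_preserving_arrowCongr' (finSumFinEquiv (m := m) (n := n)).symm
    (MeasurableEquiv.refl ℝ) (MeasurePreserving.id _)).trans
    (volume_measurePreserving_sumPiEquivProdPi fun _ : Fin m ⊕ Fin n => ℝ)
  rw [← integral_prod_mul, ← Measure.volume_eq_prod, ← h1.integral_comp']
  rfl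

/-- the model space -/
abbrev EE (K d : ℕ) : Type := ((Fin K → ℝ) × (Fin K → ℝ)) × (Fin d → ℝ)

/-- coordinates on the model space -/
def co (K d : ℕ) : (Fin (K + K + d) → ℝ) ≃ₗ[ℝ] EE K d :=
  (sp (K + K) d).trans ((sp K K).prodCongr (LinearEquiv.refl ℝ _))

/-- the basis of the model space -/
def bs (K d : ℕ) : Module.Basis (Fin (K + K + d)) ℝ (EE K d) :=
  (Pi.basisFun ℝ (Fin (K + K + d))).map (co K d)

theorem bs_symm (K d : ℕ) (y : Fin (K + K + d) → ℝ) : (bs K d).equivFun.symm y = co K d y := by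
  rw [LinearEquiv.symm_apply_eq]
  ext i
  simp [bs]

theorem ofFn_bs (K d : ℕ) : List.ofFn (bs K d) =
    List.ofFn (fun i : Fin K => (((Pi.single i 1, 0), 0) : EE K d)) ++
      (List.ofFn (fun i : Fin K => (((0, Pi.single i 1), 0) : EE K d)) ++
        List.ofFn fun i : Fin d => (((0, 0), Pi.single i 1) : EE K d)) := by
  rw [← List.append_assoc, ← List.ofFn_fin_append, ← List.ofFn_fin_append]
  congr 1
  funext i
  have e : ∀ i, bs K d i = (sp K K (sp (K + K) d (Pi.single i 1)).1,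
      (sp (K + K) d (Pi.single i 1)).2) := fun i => by simp [bs, co]
  rw [e]
  induction i using Fin.addCases with
  | right i => rw [Fin.append_right, sp_right, map_zero]; rfl
  | left i =>
    rw [Fin.append_left, sp_left]
    induction i using Fin.addCases with
    | left i => rw [Fin.append_left, sp_left]
    | right i => rw [Fin.append_right, sp_right]

theorem integral_co (K d : ℕ) (f g : (Fin K → ℝ) → ℝ) (h : (Fin d → ℝ) → ℝ) :
    ∫ y : Fin (K + K + d) → ℝ, f (co K d y).1.1 * g (co K d y).1.2 * h (co K d y).2 =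
      (∫ a, f a) * (∫ a, g a) * ∫ t, h t := by
  rw [← integral_sp K K f g,
    ← integral_sp (K + K) d (fun y => f (sp K K y).1 * g (sp K K y).2) h]
  rfl

section Sign
variable {E : Type} [NormedAddCommGroup E] [NormedSpace ℝ E] [FiniteDimensional ℝ E]

theorem det_ne {A : E →L[ℝ] E} (h : ∀ v, A v = 0 → v = 0) : A.det ≠ 0 := fun h0 =>
  LinearMap.det_eq_zero_iff_ker_ne_bot.1 h0 (LinearMap.ker_eq_bot'.2 h)

theorem inj_of_det {A : E →L[ℝ] E} (h : A.det ≠ 0) (v : E) (hv : A v = 0) : v = 0 := by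
  by_contra hc
  exact h (LinearMap.det_eq_zero_iff_ker_ne_bot.2 ((Submodule.ne_bot_iff _).2 ⟨v, hv, hc⟩))

/-- the sign of the determinant is constant along a path of injective maps -/
theorem det_pos {A : ℝ → E →L[ℝ] E} (hc : ContinuousOn A (Icc 0 1))
    (hi : ∀ s ∈ Icc (0 : ℝ) 1, ∀ v, A s v = 0 → v = 0) (h0 : 0 < (A 0).det) : 0 < (A 1).det := by
  by_contra hn
  obtain ⟨s, hs, e⟩ := intermediate_value_Icc' zero_le_one
    (ContinuousLinearMap.continuous_det.comp_continuousOn hc) ⟨not_lt.1 hn, h0.le⟩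
  exact det_ne (hi s hs) e

end Sign

end IntP

end Pool.Agent.MP_c8d41b_gt.GF

end
end MrgPart3

-- ======== part 4: formerly Pool.Agent.MP_c8d41b_gt.gf.Int
section MrgPart4

/-! PROJECT GF, row INT: the integral of the Thom form is the integral over `C`. -/

open scoped ContDiff Topology
open Set Filter ExteriorAlgebra MeasureTheory

noncomputable section

namespace Pool.Agent.MP_c8d41b_gt.GF

namespace IntP

variable {Y : Type} [NormedAddCommGroup Y] [NormedSpace ℝ Y] [FiniteDimensional ℝ Y] {K d : ℕ}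
  {P : Dat Y K} {J : (ℝ × Y) ≃L[ℝ] (Fin d → ℝ) × (Fin K → ℝ)} {φ : (Fin d → ℝ) → ℝ × Y}
  {V : Set (Fin d → ℝ)}

/-- the parametrisation of the tube -/
def Xi (P : Dat Y K) (φ : (Fin d → ℝ) → ℝ × Y) (z : EE K d) : XX Y K :=
  P.Ex (φ z.2, z.1.1, z.1.2)

/-- its domain -/
def VV (P : Dat Y K) (V : Set (Fin d → ℝ)) : Set (EE K d) :=
  {z | nq z.1.1 + nq z.1.2 < P.ν ∧ z.2 ∈ V}

/-- the three projections -/
abbrev pa (K d : ℕ) : EE K d →L[ℝ] Fin K → ℝ :=
  (ContinuousLinearMap.fst ℝ _ _).comp (ContinuousLinearMap.fst ℝ _ _)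
abbrev pc (K d : ℕ) : EE K d →L[ℝ] Fin K → ℝ :=
  (ContinuousLinearMap.snd ℝ _ _).comp (ContinuousLinearMap.fst ℝ _ _)
abbrev pt (K d : ℕ) : EE K d →L[ℝ] Fin d → ℝ := ContinuousLinearMap.snd ℝ _ _

omit [NormedAddCommGroup Y] [NormedSpace ℝ Y] [FiniteDimensional ℝ Y] in
theorem isOpen_VV (hV : IsOpen V) : IsOpen (VV P V) :=
  (isOpen_lt ((cd_nq.continuous.comp (pa K d).continuous).add
    (cd_nq.continuous.comp (pc K d).continuous)) continuous_const).inter
    (hV.preimage continuous_snd)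

omit [FiniteDimensional ℝ Y] in
theorem cda_phi (hφ : Chart P.G J φ V) {t : Fin d → ℝ} (ht : t ∈ V) : ContDiffAt ℝ ∞ φ t :=
  hφ.sm.contDiffAt (hφ.op.mem_nhds ht)

omit [FiniteDimensional ℝ Y] in
theorem da_phi (hφ : Chart P.G J φ V) {t : Fin d → ℝ} (ht : t ∈ V) : DifferentiableAt ℝ φ t :=
  (cda_phi hφ ht).differentiableAt (by simp)

omit [FiniteDimensional ℝ Y] in
theorem cda_Xi (hP : P.Ok) (hφ : Chart P.G J φ V) {z : EE K d} (hz : z.2 ∈ V) :
    ContDiffAt ℝ ∞ (Xi P φ) z :=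
  hP.tube.sex.contDiffAt.comp z (((cda_phi hφ hz).comp z contDiffAt_snd).prodMk
    ((pa K d).contDiff.contDiffAt.prodMk (pc K d).contDiff.contDiffAt))

omit [FiniteDimensional ℝ Y] in
theorem da_Xi (hP : P.Ok) (hφ : Chart P.G J φ V) {z : EE K d} (hz : z.2 ∈ V) :
    DifferentiableAt ℝ (Xi P φ) z := (cda_Xi hP hφ hz).differentiableAt (by simp)

omit [FiniteDimensional ℝ Y] in
theorem Xi_ex (hP : P.Ok) (hφ : Chart P.G J φ V) {z : EE K d} (hz : z ∈ VV P V) :
    ‖(Xi P φ z).1.2‖ < P.R ∧ aa P.Gt (Xi P φ z) = z.1.1 ∧ bb P.Gt (Xi P φ z) = z.1.2 ∧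
      P.π (Xi P φ z) = φ z.2 :=
  hP.tube.ex _ _ _ (hφ.mem _ hz.2) hz.1

omit [FiniteDimensional ℝ Y] in
theorem dXi (hP : P.Ok) (hφ : Chart P.G J φ V) {z : EE K d} (hz : z ∈ VV P V) :
    (fderiv ℝ (aa P.Gt) (Xi P φ z)).comp (fderiv ℝ (Xi P φ) z) = pa K d ∧
    (fderiv ℝ (bb P.Gt) (Xi P φ z)).comp (fderiv ℝ (Xi P φ) z) = pc K d ∧
    (fderiv ℝ P.π (Xi P φ z)).comp (fderiv ℝ (Xi P φ) z) = (fderiv ℝ φ z.2).comp (pt K d) := by
  have hn := (isOpen_VV (P := P) hφ.op).mem_nhds hz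
  have hX := da_Xi hP hφ hz.2
  refine ⟨?_, ?_, ?_⟩
  · rw [← fderiv_fun_comp z ((cd_aa hP.tube.pre.sm).differentiable (by simp) _) hX,
      ← (pa K d).fderiv (x := z)]
    exact EventuallyEq.fderiv_eq (mem_of_superset hn fun w hw => (Xi_ex hP hφ hw).2.1)
  · rw [← fderiv_fun_comp z ((cd_bb hP.tube.pre.sm).differentiable (by simp) _) hX,
      ← (pc K d).fderiv (x := z)]
    exact EventuallyEq.fderiv_eq (mem_of_superset hn fun w hw => (Xi_ex hP hφ hw).2.2.1)
  · rw [← fderiv_fun_comp z (hP.tube.spi.differentiable (by simp) _) hX,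
      ← ((da_phi hφ hz.2).hasFDerivAt.comp z (pt K d).hasFDerivAt).fderiv]
    exact EventuallyEq.fderiv_eq (mem_of_superset hn fun w hw => (Xi_ex hP hφ hw).2.2.2)

theorem dphi_inj (hφ : Chart P.G J φ V) {t : Fin d → ℝ} (ht : t ∈ V) (w : Fin d → ℝ)
    (hw : fderiv ℝ φ t w = 0) : w = 0 := by
  obtain ⟨Z, -, h⟩ := hφ.pos t ht
  exact congrArg Prod.fst (inj_of_det h.ne' (w, 0) (by simp [hw]))

theorem dXi_inj (hP : P.Ok) (hφ : Chart P.G J φ V) {z : EE K d} (hz : z ∈ VV P V) (v : EE K d)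
    (hv : fderiv ℝ (Xi P φ) z v = 0) : v = 0 := by
  obtain ⟨h1, h2, h3⟩ := dXi hP hφ hz
  have e1 := congrArg (fun L => L v) h1
  have e2 := congrArg (fun L => L v) h2
  have e3 := congrArg (fun L => L v) h3
  simp only [ContinuousLinearMap.comp_apply, hv, map_zero] at e1 e2 e3
  exact Prod.ext (Prod.ext e1.symm e2.symm) (dphi_inj hφ hz.2 _ e3.symm)

/-- from `(a, b, t)` to `((t, y), s)` -/
def L0 (K d : ℕ) : EE K d ≃ₗ[ℝ] ((Fin d → ℝ) × (Fin K → ℝ)) × (Fin K → ℝ) where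
  toFun v := ((v.2, (1 / 2 : ℝ) • (v.1.1 + v.1.2)), (1 / 2 : ℝ) • (v.1.1 - v.1.2))
  invFun w := ((w.1.2 + w.2, w.1.2 - w.2), w.1.1)
  map_add' _ _ := by ext <;> simp <;> ring
  map_smul' _ _ := by ext <;> simp <;> ring
  left_inv _ := by ext <;> simp <;> ring
  right_inv _ := by ext <;> simp <;> ring

/-- the linear model of the parametrisation -/
def LL (J : (ℝ × Y) ≃L[ℝ] (Fin d → ℝ) × (Fin K → ℝ)) : EE K d ≃L[ℝ] XX Y K :=
  (L0 K d).toContinuousLinearEquiv.trans (J.symm.prodCongr (ContinuousLinearEquiv.refl ℝ _))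

omit [FiniteDimensional ℝ Y] in
theorem det_LL (J : (ℝ × Y) ≃L[ℝ] (Fin d → ℝ) × (Fin K → ℝ)) (A : EE K d →L[ℝ] XX Y K) :
    (((bs K d).map (LL J).toLinearEquiv).det fun i => A (bs K d i)) =
      (((LL J).symm : XX Y K →L[ℝ] EE K d).comp A).det := by
  have := (bs K d).det_comp ((((LL J).symm : XX Y K →L[ℝ] EE K d).comp A : EE K d →L[ℝ] EE K d) :
    EE K d →ₗ[ℝ] EE K d) (bs K d)
  rw [Module.Basis.det_self, mul_one] at this
  rw [Module.Basis.det_map, ContinuousLinearMap.det, ← this]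
  rfl

omit [FiniteDimensional ℝ Y] in
theorem det_model (J : (ℝ × Y) ≃L[ℝ] (Fin d → ℝ) × (Fin K → ℝ))
    (M : (Fin d → ℝ) × (Fin K → ℝ) →L[ℝ] ℝ × Y) :
    (((LL J).symm : XX Y K →L[ℝ] EE K d).comp ((M.prodMap (ContinuousLinearMap.id ℝ _)).comp
      ((L0 K d).toContinuousLinearEquiv : EE K d →L[ℝ] _))).det =
      ((J : (ℝ × Y) →L[ℝ] _).comp M).det := by
  have := LinearMap.det_conj (LinearMap.prodMap (J.toContinuousLinearMap.comp M).toLinearMap
    (LinearMap.id (R := ℝ) (M := Fin K → ℝ))) (L0 K d).symm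
  rw [LinearMap.det_prodMap, LinearMap.det_id, mul_one] at this
  rw [ContinuousLinearMap.det, ContinuousLinearMap.det, ← this]
  rfl

omit [FiniteDimensional ℝ Y] in
theorem dGt_zero {Gt : XX Y K → Fin K → ℝ} (h : Pre Gt) (c : ℝ × Y) (v : XX Y K) :
    fderiv ℝ Gt (c, 0) v = fderiv ℝ (G1 Gt) c v.1 := by
  have hd : ∀ x, HasFDerivAt Gt (fderiv ℝ Gt x) x := fun x =>
    (h.sm.differentiable (by simp) x).hasFDerivAt
  have h1 := ((hd (tau (c, 0))).comp (c, 0) (tau (Y := Y) (K := K)).hasFDerivAt).fderiv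
  rw [show Gt ∘ tau = Gt from funext h.even, show tau (c, (0 : Fin K → ℝ)) = (c, 0) by simp] at h1
  have h2 := ((hd (c, 0)).comp c (hasFDerivAt_prodMk_left (𝕜 := ℝ) c (0 : Fin K → ℝ))).fderiv
  have h3 : fderiv ℝ Gt (c, 0) (0, v.2) = 0 := by
    have e := congrArg (fun L => L (0, v.2)) h1
    have e2 : (tau (Y := Y) (K := K)) (0, v.2) = -(0, v.2) := by simp
    simp only [ContinuousLinearMap.comp_apply, ContinuousLinearEquiv.coe_coe, e2, map_neg] at e
    exact self_eq_neg.1 e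
  have h4 : v = (v.1, 0) + (0, v.2) := by simp
  rw [h4, map_add, h3, add_zero]
  simp only [Prod.fst_add, add_zero]
  exact (congrArg (fun L => L v.1) h2).symm

theorem det_zero (hP : P.Ok) (hφ : Chart P.G J φ V) {t : Fin d → ℝ} (ht : t ∈ V) :
    0 < (((LL J).symm : XX Y K →L[ℝ] EE K d).comp (fderiv ℝ (Xi P φ) ((0, 0), t))).det := by
  obtain ⟨Z, hZ, h⟩ := hφ.pos t ht
  rw [← det_model] at h
  have hz : (((0, 0), t) : EE K d) ∈ VV P V := ⟨by simpa using hP.tube.pos, ht⟩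
  have hx : Xi P φ ((0, 0), t) = (φ t, 0) := hP.tube.ex0 _ (hφ.mem _ ht)
  obtain ⟨h1, h2, -⟩ := dXi hP hφ hz
  have hG := (hP.tube.pre.sm.differentiable (by simp) (φ t, 0)).hasFDerivAt
  rw [hx, (show HasFDerivAt (aa P.Gt) _ _ from hG.add hasFDerivAt_snd).fderiv] at h1
  rw [hx, (show HasFDerivAt (bb P.Gt) _ _ from hG.sub hasFDerivAt_snd).fderiv] at h2
  have h3 : ∀ w, fderiv ℝ (Xi P φ) ((0, 0), t) ((0, 0), w) = (fderiv ℝ φ t w, 0) := fun w => by
    have e1 := ((da_Xi hP hφ hz.2).hasFDerivAt.comp t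
      (hasFDerivAt_prodMk_right (𝕜 := ℝ) ((0, 0) : (Fin K → ℝ) × (Fin K → ℝ)) t)).fderiv
    have e2 := ((da_phi hφ ht).hasFDerivAt.prodMk
      (hasFDerivAt_const (0 : Fin K → ℝ) t)).fderiv
    have e3 : (Xi P φ ∘ fun s => ((0, 0), s)) =ᶠ[𝓝 t] fun s => (φ s, 0) :=
      mem_of_superset (hφ.op.mem_nhds ht) fun s hs => hP.tube.ex0 _ (hφ.mem _ hs)
    rw [e3.fderiv_eq, e2] at e1
    exact (congrArg (fun L => L w) e1).symm
  have h4 : ∀ w, fderiv ℝ P.G (φ t) (fderiv ℝ φ t w) = 0 := fun w => by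
    have e1 := (((cd_G1 hP.tube.pre.sm).differentiable (by simp) (φ t)).hasFDerivAt.comp t
      (da_phi hφ ht).hasFDerivAt).fderiv
    have e3 : (G1 P.Gt ∘ φ) =ᶠ[𝓝 t] fun _ => 0 :=
      mem_of_superset (hφ.op.mem_nhds ht) fun s hs => hφ.mem _ hs
    rw [e3.fderiv_eq, fderiv_fun_const] at e1
    exact (congrArg (fun L => L w) e1).symm
  set A := fderiv ℝ (Xi P φ) ((0, 0), t)
  set A0 := (((fderiv ℝ φ t).coprod Z).prodMap (ContinuousLinearMap.id ℝ (Fin K → ℝ))).comp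
    (L0 K d).toContinuousLinearEquiv.toContinuousLinearMap
  have hA0 : ∀ v, A0 v = (fderiv ℝ φ t v.2 + Z ((1 / 2 : ℝ) • (v.1.1 + v.1.2)),
      (1 / 2 : ℝ) • (v.1.1 - v.1.2)) := fun v => rfl
  have key := det_pos (A := fun s : ℝ => ((LL J).symm : XX Y K →L[ℝ] EE K d).comp
    ((1 - s) • A0 + s • A)) (by fun_prop) (fun s _ v hv => ?_) (by simpa using h)
  · simpa using key
  have hv0 : (1 - s) • A0 v + s • A v = 0 := (LL J).symm.map_eq_zero_iff.1 hv
  have e1 := congrArg (fun L => L v) h1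
  have e2 := congrArg (fun L => L v) h2
  simp only [ContinuousLinearMap.comp_apply, ContinuousLinearMap.add_apply,
    ContinuousLinearMap.sub_apply, dGt_zero hP.tube.pre, ContinuousLinearMap.coe_fst',
    ContinuousLinearMap.coe_snd'] at e1 e2
  have e3 := congrArg (fun x => fderiv ℝ (G1 P.Gt) (φ t) x.1) hv0
  have e4 := congrArg Prod.snd hv0
  have e5 : ∀ w, fderiv ℝ (G1 P.Gt) (φ t) (Z w) = w := fun w => congrArg (fun L => L w) hZ
  simp only [hA0, Prod.fst_add, Prod.smul_fst, map_add, map_smul, h4, e5, zero_add, Prod.fst_zero,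
    map_zero, Prod.snd_add, Prod.smul_snd, Prod.snd_zero] at e3 e4
  have ha : v.1.1 = 0 := by linear_combination (norm := module) e3 + e4 - s • e1
  have hb : v.1.2 = 0 := by linear_combination (norm := module) e3 - e4 - s • e2
  have hv1 : v = ((0, 0), v.2) := Prod.ext (Prod.ext ha hb) rfl
  have e6 := congrArg Prod.fst hv0
  rw [hv1, h3, hA0] at e6
  rw [hv1, dphi_inj hφ ht v.2 (by simpa [← add_smul] using e6)]
  rfl

theorem det_Xi (hP : P.Ok) (hφ : Chart P.G J φ V) {z : EE K d} (hz : z ∈ VV P V) :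
    0 < (((LL J).symm : XX Y K →L[ℝ] EE K d).comp (fderiv ℝ (Xi P φ) z)).det := by
  have hm : ∀ s ∈ Icc (0 : ℝ) 1, ((s • z.1, z.2) : EE K d) ∈ VV P V := fun s hs => by
    refine ⟨?_, hz.2⟩
    have h1 := hz.1
    have h2 := nq_nonneg z.1.1
    have h3 := nq_nonneg z.1.2
    have h4 : s ^ 2 ≤ 1 := pow_le_one₀ hs.1 hs.2
    simp only [Prod.smul_fst, Prod.smul_snd, nq_smul]
    nlinarith
  have key := det_pos (A := fun s : ℝ => ((LL J).symm : XX Y K →L[ℝ] EE K d).comp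
    (fderiv ℝ (Xi P φ) (s • z.1, z.2))) (fun s hs => ?_)
    (fun s hs v hv => dXi_inj hP hφ (hm s hs) v ((LL J).symm.map_eq_zero_iff.1 hv))
    (by rw [zero_smul]; exact det_zero hP hφ hz.2)
  · simpa using key
  have h1 : ContinuousAt (fderiv ℝ (Xi P φ)) (s • z.1, z.2) :=
    ((cda_Xi hP hφ (hm s hs).2).fderiv_right (m := 0) (by simp)).continuousAt
  exact (continuousAt_const.clm_comp (h1.comp_of_eq
    (f := fun s : ℝ => ((s • z.1, z.2) : EE K d)) (by fun_prop) rfl)).continuousWithinAt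

omit [FiniteDimensional ℝ Y] in
theorem mp_PhiS {E : Type} [NormedAddCommGroup E] [NormedSpace ℝ E] (L : E →L[ℝ] Fin K → ℝ)
    (e : ℝ → ℝ) (y : Fin K → ℝ) : mp L (PhiS K e y) = (∏ i, e (y i)) •
      (List.ofFn fun i => ι ℝ ((ContinuousLinearMap.proj i).comp L)).prod := by
  rw [PhiS, Phi, map_smul, map_list_prod, List.map_ofFn]
  congr 3
  exact funext fun i => mp_ι _ _

omit [FiniteDimensional ℝ Y] in
theorem ev_Xi (hP : P.Ok) (hφ : Chart P.G J φ V) {z : EE K d} (hz : z ∈ VV P V)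
    (γ : ℝ × Y → Lam (ℝ × Y)) :
    ev (List.ofFn (bs K d)) (pb (Xi P φ) (P.t2 γ) z) = (∏ i, P.e (z.1.1 i)) *
      (∏ i, P.e (z.1.2 i)) * ev (List.ofFn fun i => fderiv ℝ φ z.2 (Pi.single i 1)) (γ (φ z.2)) := by
  obtain ⟨h0, e1, e2, e3⟩ := Xi_ex hP hφ hz
  obtain ⟨h1, h2, h3⟩ := dXi hP hφ hz
  have h4 : ∀ a : (Fin K → ℝ) × (Fin K → ℝ),
      ctr ((a, 0) : EE K d) (mp ((fderiv ℝ φ z.2).comp (pt K d)) (γ (φ z.2))) = 0 := fun a => by
    rw [ctr_mp]
    simp [ctr_zero_left]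
  rw [pb, Dat.t2, T2, indicator_of_mem (s := {x : XX Y K | ‖x.1.2‖ < P.R}) h0, map_mul, map_mul,
    pb, pb, pb, ← mp_comp, ← mp_comp, ← mp_comp, h1, h2, h3, e1, e2, e3, mp_PhiS, mp_PhiS,
    smul_mul_smul_comm, smul_mul_assoc, ev_smul, mul_assoc _ _ (mp _ _), ofFn_bs,
    ev_prod _ _ (fun i j => by simp [Pi.single_apply]) fun j => ?_,
    ev_prod _ _ (fun i j => by simp [Pi.single_apply]) fun j => h4 _, ev_mp, List.map_ofFn]
  · rfl
  · have := ctr_prod_mul (h4 (Pi.single j 1, 0))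
      (List.ofFn fun i => (ContinuousLinearMap.proj i).comp (pc K d)) (by
        simp only [List.forall_mem_ofFn_iff]
        intro i
        simp)
    rwa [List.map_ofFn] at this

omit [FiniteDimensional ℝ Y] in
theorem prod_zero (hP : P.Ok) {a b : Fin K → ℝ} (h : ¬nq a + nq b < P.ν) :
    (∏ i, P.e (a i)) * ∏ i, P.e (b i) = 0 := by
  by_contra hc
  have key : ∀ y : Fin K → ℝ, ∏ i, P.e (y i) ≠ 0 → nq y < m0 K P.h := fun y hy =>
    (nq_le ((pi_norm_le_iff_of_nonneg hP.con.pos.le).2 fun i => abs_le.2 (by_contra fun hn =>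
      hy (Finset.prod_eq_zero (Finset.mem_univ i) (hP.con.bump.zero _ hn))))).trans_lt
      (lt_m0 hP.con.pos)
  have := key a (left_ne_zero_of_mul hc)
  have := key b (right_ne_zero_of_mul hc)
  have := hP.con.le
  have := hP.dyn.le
  have := hP.dyn.pos
  exact h (by linarith)

theorem f0_mul {G : ℝ × Y → Fin K → ℝ} {κ : ℕ} {α β : ℝ × Y → Lam (ℝ × Y)} (hG : Continuous G)
    (hα : Fm G κ α) (hβ : Fm G κ β) : F0 G fun c => α c * β c :=
  ⟨contDiff_iff_contDiffAt.2 fun _ => cda_mul hα.sm.contDiffAt hβ.sm.contDiffAt,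
    hα.cpt.of_isClosed_subset ((isClosed_tsupport _).inter (isClosed_singleton.preimage hG))
      (inter_subset_inter_left _ (closure_mono (Function.support_mul_subset_left α β)))⟩

end IntP

open IntP

theorem int (hC : CovStmt) (hT : ThmStmt) (hS : StokesStmt) (_hB : BumpStmt) : IntStmt := by
  intro Y _ _ _ K d κ P hP J
  have hth := hT Y K P hP
  have hG := (cd_G1 hP.tube.pre.sm).continuous
  refine ⟨(bs K d).map (LL J).toLinearEquiv, fun α α' β hα hα' hβ => ?_,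
    fun φ V hφ α β hα hβ hs => ?_⟩
  · rw [← (hS _ _ _).add _ _ ((hth.oc2 _ (f0_mul hG hα hβ)).mono (subset_univ _))
      ((hth.oc2 _ (f0_mul hG hα' hβ)).mono (subset_univ _)), ← (hth.add _ _).2]
    congr 2
    exact funext fun c => add_mul _ _ _
  rw [hC _ _ _ _ (bs K d) (Xi P φ) (VV P V) _ (isOpen_VV hφ.op)
    (fun z hz => (cda_Xi hP hφ hz.2).contDiffWithinAt) (fun z hz w hw e => ?_)
    (fun z hz => by rw [det_LL]; exact det_Xi hP hφ hz) fun x hx => by_contra fun h0 => hx ?_,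
    ← integral_indicator hφ.op.measurableSet]
  · have := integral_co K d (fun a => ∏ i, P.e (a i)) (fun a => ∏ i, P.e (a i)) (V.indicator
      fun t => ev (List.ofFn fun i => fderiv ℝ φ t (Pi.single i 1)) (α (φ t) * β (φ t)))
    rw [integral_fintype_prod_volume_eq_prod fun _ => P.e] at this
    simp only [hP.con.bump.int, Finset.prod_const_one, one_mul] at this
    rw [← this, itg]
    refine integral_congr_ae (Eventually.of_forall fun y => ?_)
    simp only [bs_symm]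
    generalize co K d y = z
    by_cases hz : z ∈ VV P V
    · rw [indicator_of_mem hz, indicator_of_mem hz.2, ev_Xi hP hφ hz]
    · rw [indicator_of_notMem hz, ev_zero]
      by_cases ht : z.2 ∈ V
      · rw [prod_zero hP fun h => hz ⟨h, ht⟩, zero_mul]
      · rw [indicator_of_notMem ht, mul_zero]
  · obtain ⟨-, a1, a2, a3⟩ := Xi_ex hP hφ hz
    obtain ⟨-, b1, b2, b3⟩ := Xi_ex hP hφ hw
    rw [e] at a1 a2 a3
    exact Prod.ext (Prod.ext (a1.symm.trans b1) (a2.symm.trans b2))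
      (hφ.inj hz.2 hw.2 (a3.symm.trans b3))
  · have hx : x ∈ TT P.Gt P.R P.ν := TC_sub_TT (half_lt_self hP.tube.pos) (hth.supp2 _ x h0)
    have h1 : α (P.π x) ≠ 0 := fun h => h0 (by
      rw [Dat.t2, T2, indicator_of_mem (s := {x : XX Y K | ‖x.1.2‖ < P.R}) hx.1, pb, pb, pb, h,
        zero_mul, map_zero, mul_zero])
    obtain ⟨t, ht, e⟩ := hs ⟨subset_tsupport _ h1, hP.tube.mem x hx⟩
    exact ⟨((aa P.Gt x, bb P.Gt x), t), ⟨hx.2, ht⟩, by rw [Xi, e]; exact hP.tube.expi x hx⟩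

end Pool.Agent.MP_c8d41b_gt.GF

end
end MrgPart4

-- ======== part 5: formerly Pool.Agent.MP_c8d41b_gt.gf.Lag
section MrgPart5

/-! PROJECT GF, row LAG: the subspace `InLam` is its own orthogonal complement. -/

open scoped ContDiff Topology
open Set Filter ExteriorAlgebra

noncomputable section

namespace Pool.Agent.MP_c8d41b_gt.GF

namespace LagP

variable {Y : Type} [NormedAddCommGroup Y] [NormedSpace ℝ Y] [FiniteDimensional ℝ Y] {K : ℕ}

omit [FiniteDimensional ℝ Y] in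
theorem pbt (γ : XX Y K → Lam (XX Y K)) (x : XX Y K) :
    pb tau γ x = mp (tau (Y := Y) (K := K) : XX Y K →L[ℝ] XX Y K) (γ (tau x)) := by
  rw [pb, ContinuousLinearEquiv.fderiv]

omit [FiniteDimensional ℝ Y] in
theorem pbt_pbt (γ : XX Y K → Lam (XX Y K)) (x : XX Y K) : pb tau (pb tau γ) x = γ x := by
  rw [pbt, pbt, ← mp_comp, tau_tau]
  have : (tau (Y := Y) (K := K) : XX Y K →L[ℝ] XX Y K).comp (tau (Y := Y) (K := K) :
      XX Y K →L[ℝ] XX Y K) = ContinuousLinearMap.id ℝ _ :=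
    ContinuousLinearMap.ext fun y => tau_tau y
  rw [this, mp_id]

theorem oc_pbt {U : Set (XX Y K)} {γ : XX Y K → Lam (XX Y K)} (h : Oc U γ) :
    Oc (tau ⁻¹' U) (pb tau γ) :=
  Oc.of_compact (S := tau ⁻¹' tsupport γ) (cd_pb cd_tau h.sm)
    ((tau (Y := Y) (K := K)).toHomeomorph.isCompact_preimage.2 h.cpt) (preimage_mono h.sub)
    fun x hx => by rw [pbt, image_eq_zero_of_notMem_tsupport hx, map_zero]

theorem dd_pbt {γ : XX Y K → Lam (XX Y K)} (h : ContDiff ℝ ∞ γ) (x : XX Y K) :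
    dd (pb tau γ) x = pb tau (dd γ) x :=
  dd_pb cd_tau.contDiffAt (h.differentiable (by simp) _)

/-- forms with supports on opposite sides of a level do not meet -/
theorem mul_zero {D : XX Y K → ℝ} (hD : ∀ x, D (tau x) = -D x) {c : ℝ}
    {β : XX Y K → Lam (XX Y K)} (hβ : Oc {x | D x < -c} β) {x : XX Y K} {a : Lam (XX Y K)}
    (ha : c < D x → a = 0) : a * pb tau β x = 0 := by
  by_cases h : c < D x
  · rw [ha h, zero_mul]
  · rw [pbt, hβ.zero_of (x := tau x) fun h' => h (by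
      have h2 : D (tau x) < -c := h'
      rw [hD] at h2; linarith), map_zero, MulZeroClass.mul_zero]

omit [FiniteDimensional ℝ Y] in
theorem itg_zero {N : ℕ} (b : Module.Basis (Fin N) ℝ (XX Y K)) {α : XX Y K → Lam (XX Y K)}
    (h : ∀ x, α x = 0) : itg b α = 0 := by
  simp [itg, h]

end LagP

open LagP in
theorem lag_ (hT : ThmStmt) (hI : IsoStmt) (hL : LocStmt) (hE : EndStmt) (hP : PDStmt)
    (hS : StokesStmt) : LagStmt := by
  intro Y _ _ _ K κ P hP0 hκ b
  have T := hT Y K P hP0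
  have St := hS _ _ b
  have hodd := hP0.dyn.odd
  have hm : 0 < P.m := m0_pos hP0.con.pos
  have hme : 4 * P.m ≤ P.ε₀ := hP0.con.le
  have hK1 : 0 ≤ P.K₁ := (abs_nonneg _).trans (hP0.dyn.bdd 0 0)
  have f0 : ∀ {α}, Fm P.G κ α → F0 P.G α := fun h => ⟨h.sm, h.cpt⟩
  have hlt : ∀ {c c' : ℝ}, c ≤ c' → P.lt c ⊆ P.lt c' := fun h _ hx => lt_of_lt_of_le hx h
  constructor
  · rintro α β hα hβ ⟨k1, h1, h1'⟩ ⟨k2, h2, h2'⟩
    have o1 := T.oc α (f0 hα)
    have w1 : Oc (P.lt P.m) (P.th α - k1) := o1.sub' (h1.mono (hlt (by linarith)))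
    have w2 : Oc (P.lt P.m) (P.th β - k2) :=
      (T.oc β (f0 hβ)).sub' (h2.mono (hlt (by linarith)))
    rw [← hI Y K _ b P.D P.K₁ P.m (P.m + P.K₁) _ _ hodd hP0.dyn.bdd le_rfl w1 w2 h1' h2']
    congr 1
    funext x
    have e1 : k1 x * pb tau (P.th β - k2) x = 0 :=
      mul_zero (c := -P.m) hodd (by rw [neg_neg]; exact w2) fun h =>
        h1.zero_of fun h' => absurd h (not_lt.2 (le_of_lt h'))
    have e2 : P.th α x * pb tau k2 x = 0 :=
      mul_zero hodd h2 fun h => o1.zero_of fun h' => absurd h (not_lt.2 (le_of_lt h'))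
    rw [← T.pair κ α β hκ hα.deg, Pi.sub_apply, sub_mul, e1, sub_zero, pbt (P.th β - k2),
      Pi.sub_apply, map_sub, mul_sub, ← pbt, ← pbt, e2, sub_zero]
  · intro α hα hcl H
    have o1 := T.oc α (f0 hα)
    have u1 : Oc univ (P.th α) := o1.mono (subset_univ _)
    have hdeg : ∀ x, P.th α x ∈ dg _ (K + κ) := fun x => by
      have h := T.prj_th κ α x
      rw [show (fun c => prj κ (α c)) = α from funext fun c => prj_same (hα.deg c)] at h
      rw [h]; exact prj_mem _ _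
    have hS0 : ∀ x ∈ tsupport (dd (P.th α)), P.D x ≤ -P.ε₀ :=
      closure_minimal (t := {x | P.D x ≤ -P.ε₀})
        (fun x hx => not_lt.1 fun h => hx (T.dth α (f0 hα) hcl x h))
        (isClosed_le hP0.dyn.sm.continuous continuous_const)
    obtain ⟨B', B, fB', fB, hBB, hSB, hB, hB', hend⟩ := hE Y K _ b P.Gt P.R P.ν P.D P.fl P.ε₀ P.K₁
      P.m (P.m + P.K₁) _ hP0.dyn hm (by linarith) (by linarith) o1.dd.cpt hS0
    obtain ⟨γ', k', hγ', hk', e⟩ := (hP _ _ b).1 B' B fB' fB hBB (dd (P.th α))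
      ⟨o1.dd.sm, o1.dd.cpt, hSB⟩ (funext fun x => dd_dd o1.sm.contDiffAt) fun A β hA hA0 hβ hβA => by
        obtain ⟨η, hη, hηA, hdη⟩ := hend A β hA hA0 hβ hβA
        have hs : Oc (P.lt P.ε₀) (pb tau (dd η)) := (oc_pbt hdη).mono fun x hx => by
          have h2 : -P.ε₀ < P.D (tau x) := hx.1
          rw [hodd] at h2
          exact neg_lt_neg_iff.1 h2
        have hds : dd (pb tau (dd η)) = 0 := funext fun x => by
          rw [dd_pbt hdη.sm, pbt, dd_dd hη.sm.contDiffAt, map_zero]; rfl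
        obtain ⟨σ, γ, k, hσ, hσc, hγ, hk, es⟩ := hL Y K P hP0 _ hs hds
        have oσ := T.oc σ hσ
        obtain ⟨hσ1, hσ2⟩ := T.prj_fm κ σ hσ hσc
        have hin : InLam P fun c => prj κ (σ c) := by
          refine ⟨fun x => (-prj (K + κ)) (k x), hk.lin _, ?_⟩
          have e1 : (P.th fun c => prj κ (σ c)) - (fun x => (-prj (K + κ)) (k x)) =
              fun x => prj (K + κ) (pb tau (dd η) x - dd γ x) := funext fun x => by
            rw [Pi.sub_apply, T.prj_th, es, Pi.add_apply, Pi.add_apply, LinearMap.neg_apply,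
              sub_neg_eq_add, ← map_add]
            congr 1; abel
          have e2 : dd (fun x => prj (K + κ) (pb tau (dd η) x - dd γ x)) = 0 := funext fun x => by
            rw [dd_prj _ ((hs.da x).fun_sub (hγ.dd.da x)), dd_sub (hs.da x) (hγ.dd.da x), hds,
              dd_dd hγ.sm.contDiffAt]
            simp
          rw [e1, e2]
          exact Oc.zero
        have z1 : (itg b fun x => inv (P.th α x) * pb tau (P.th σ) x) = 0 := by
          have h0 := H _ hσ1 hσ2 hin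
          have h1 : (fun x => inv (P.th α x) * pb tau (P.th σ) x) =
              (-1 : ℝ) ^ (K + κ) • fun x => P.th α x * pb tau (P.th σ) x := funext fun x => by
            rw [inv_dg (hdeg x), smul_mul_assoc]; rfl
          rw [h1, St.smul, mul_eq_zero]
          right
          rw [← h0, itg, itg]
          congr 1
          funext y
          rw [← T.pair κ α _ hκ hα.deg, pbt (P.th fun c => prj κ (σ c)), T.prj_th, ← prj_mp,
            ← pbt, ev_mul_prj (hdeg _) (by rw [List.length_ofFn]; ring)]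
        have z2 : (itg b fun x => inv (P.th α x) * dd (pb tau γ) x) = 0 := by
          rw [← neg_eq_zero, ← St.ibp univ _ _ isOpen_univ u1 (oc_pbt hγ).sm.contDiffOn]
          exact itg_zero b fun x => mul_zero (c := -P.ε₀) hodd (by rw [neg_neg]; exact hγ)
            (T.dth α (f0 hα) hcl x)
        have e1 : (fun x => dd (P.th α) x * A x) = fun x => dd (P.th α) x * η x :=
          funext fun x => by
            by_cases hx : x ∈ tsupport (dd (P.th α))
            · rw [hηA x hx]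
            · rw [image_eq_zero_of_notMem_tsupport hx, zero_mul, zero_mul]
        have e2 : (fun x => inv (P.th α x) * dd η x) =
            (fun x => inv (P.th α x) * pb tau (P.th σ) x) +
              fun x => inv (P.th α x) * dd (pb tau γ) x := funext fun x => by
          have e3 : inv (P.th α x) * pb tau k x = 0 := mul_zero hodd hk fun h => by
            rw [o1.zero_of fun h' => absurd h (not_lt.2 (le_of_lt h')), map_zero]
          rw [← pbt_pbt (dd η) x, es, pbt, Pi.add_apply, Pi.add_apply, map_add, map_add, ← pbt,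
            ← pbt, ← pbt, mul_add, mul_add, e3, add_zero, Pi.add_apply, dd_pbt hγ.sm]
        rw [e1, St.ibp univ _ _ isOpen_univ u1 hη.sm.contDiffOn, e2,
          St.add _ _ (u1.inv.mul_right fun x _ => (oc_pbt oσ).sm.contDiffAt)
            (u1.inv.mul_right fun x _ => (oc_pbt hγ).dd.sm.contDiffAt), z1, z2]
        simp
    refine ⟨γ', hγ'.mono hB, ?_⟩
    have e2 : dd (P.th α - γ') = k' := funext fun x => by
      have h := dd_sub (o1.da x) (hγ'.da x)
      rw [e] at h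
      exact h.trans (by simp)
    rw [e2]
    exact hk'.mono hB'

end Pool.Agent.MP_c8d41b_gt.GF

end
end MrgPart5

-- ======== part 6: formerly Pool.Agent.MP_c8d41b_gt.gf.Loc2
section MrgPart6

/-! PROJECT GF, row LOC2: the local analysis near the critical set. -/

open scoped ContDiff Topology
open Set Filter ExteriorAlgebra

noncomputable section

namespace Pool.Agent.MP_c8d41b_gt.GF

namespace Loc2

variable {Y : Type} [NormedAddCommGroup Y] [NormedSpace ℝ Y] {K : ℕ}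

/-- the fibre coordinates -/
def ll (Y : Type) [NormedAddCommGroup Y] [NormedSpace ℝ Y] (K : ℕ) (i : Fin K) :
    XX Y K →L[ℝ] ℝ :=
  (ContinuousLinearMap.proj i : (Fin K → ℝ) →L[ℝ] ℝ).comp (ContinuousLinearMap.snd ℝ _ _)

/-- the fibre directions -/
def ww (Y : Type) [NormedAddCommGroup Y] (K : ℕ) (i : Fin K) : XX Y K := (0, Pi.single i 1)

theorem ll_apply (i : Fin K) (x : XX Y K) : ll Y K i x = x.2 i := rfl

theorem sum_ww (c : Fin K → ℝ) : ∑ i, c i • ww Y K i = ((0, c) : XX Y K) := by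
  refine Prod.ext ?_ ?_
  · simp [ww, Prod.fst_sum]
  · rw [Prod.snd_sum]
    funext j
    simp [ww, Finset.sum_apply, Pi.single_apply]

theorem inv_sum {F : Type} {σ : XX Y K → F} (h : ∀ x i (t : ℝ), σ (x + t • ww Y K i) = σ x)
    (c : ℝ × Y) (a : Fin K → ℝ) : σ (c, a) = σ (c, 0) := by
  have key : ∀ s : Finset (Fin K), σ ((c, 0) + ∑ i ∈ s, a i • ww Y K i) = σ (c, 0) := by
    intro s
    induction s using Finset.induction_on with
    | empty => simp
    | insert i s hi ih => rw [Finset.sum_insert hi, add_comm (a i • _), ← add_assoc, h, ih]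
  rw [← key Finset.univ, sum_ww]
  simp

theorem ctr_fib {z : Lam (XX Y K)} (h : ∀ i, ctr (ww Y K i) z = 0) (a : Fin K → ℝ) :
    ctr ((0, a) : XX Y K) z = 0 := by
  rw [← sum_ww, ← ctrL_apply, map_sum, LinearMap.sum_apply]
  exact Finset.sum_eq_zero fun i _ => by rw [ctrL_apply, ctr_smul_left, h, smul_zero]

theorem phi_eq (e : ℝ → ℝ) (x : XX Y K) : Phi (ll Y K) (fun _ => e) x =
    mp (ContinuousLinearMap.snd ℝ (ℝ × Y) (Fin K → ℝ)) (PhiS K e x.2) := by
  rw [PhiS, Phi, Phi, map_smul, map_list_prod, List.map_ofFn]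
  congr 3
  funext i
  simp only [Function.comp_apply, mp_ι]
  rfl

theorem exists_big {h : ℝ} (hh : 0 ≤ h) {y : Fin K → ℝ} (hy : h < ‖y‖) : ∃ i, h < |y i| := by
  by_contra hc
  push Not at hc
  exact absurd ((pi_norm_le_iff_of_nonneg hh).2 hc) (not_le.2 hy)

/-- a cut-off function on the fibre -/
theorem exists_cut (hB : BumpStmt) (K : ℕ) {h : ℝ} (hh : 0 < h) :
    ∃ χ : (Fin K → ℝ) → ℝ, ContDiff ℝ ∞ χ ∧ (∀ a, ‖a‖ < 3 * h / 4 → χ a = 1) ∧
      ∀ a, h < ‖a‖ → χ a = 0 := by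
  obtain ⟨ψ, h1, h2, h3, -⟩ := hB.2.1 ((3 * h / 4) ^ 2) (h ^ 2) (by nlinarith)
  refine ⟨fun a => ∏ i, ψ (a i ^ 2), contDiff_prod fun i _ =>
    h1.comp ((contDiff_apply ℝ ℝ i).pow 2), fun a ha => ?_, fun a ha => ?_⟩
  · refine Finset.prod_eq_one fun i _ => h2 _ ?_
    have := abs_le.1 ((norm_le_pi_norm a i).trans ha.le)
    exact sq_le_sq' this.1 this.2
  · obtain ⟨i, hi⟩ := exists_big hh.le ha
    refine Finset.prod_eq_zero (Finset.mem_univ i) (h3 _ ?_)
    rw [ge_iff_le, ← sq_abs (a i)]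
    exact pow_le_pow_left₀ hh.le hi.le 2

variable {P : Dat Y K}

theorem small (hP : P.Ok) {a b : Fin K → ℝ} (ha : ‖a‖ < 2 * P.h) (hb : nq b < P.ε₀) :
    nq a + nq b < P.ν := by
  have h1 := nq_le ha.le
  have h2 := lt_m0 (K := K) hP.con.pos
  have h3 := hP.con.le
  have h4 := hP.dyn.le
  have h5 := hP.dyn.pos
  nlinarith

theorem OO_sub (hP : P.Ok) {x : XX Y K} (hx : x ∈ OO P.Gt P.R P.ε₀ P.h) :
    x ∈ TT P.Gt P.R P.ν := ⟨hx.1, small hP hx.2.1 hx.2.2⟩

theorem ex_mem (hP : P.Ok) {c : ℝ × Y} (hc : G1 P.Gt c = 0) {a b : Fin K → ℝ}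
    (ha : ‖a‖ < 2 * P.h) (hb : nq b < P.ε₀) : P.Ex (c, a, b) ∈ OO P.Gt P.R P.ε₀ P.h ∧
      aa P.Gt (P.Ex (c, a, b)) = a ∧ P.π (P.Ex (c, a, b)) = c := by
  obtain ⟨h1, h2, h3, h4⟩ := hP.tube.ex c a b hc (small hP ha hb)
  exact ⟨⟨h1, by rw [h2]; exact ha, by rw [h3]; exact hb⟩, h2, h4⟩

theorem nq_t {b : Fin K → ℝ} {t ε : ℝ} (ht : t ∈ Icc (0 : ℝ) 1) (hb : nq b < ε) :
    nq (t • b) < ε := by
  rw [nq_smul]
  have h1 : t ^ 2 ≤ 1 := by nlinarith [ht.1, ht.2]
  nlinarith [nq_nonneg b]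

end Loc2

open Loc2 in
theorem loc2 (hH : HomotStmt) (hF : FibStmt) (hB : BumpStmt) : Loc2Stmt := by
  intro Y _ _ _ K P hP s hs hds hz
  have hh := hP.con.pos
  have hε : nq (0 : Fin K → ℝ) < P.ε₀ := by rw [nq_zero]; exact hP.dyn.pos
  have cda := cd_aa hP.tube.pre.sm
  have cdb := cd_bb hP.tube.pre.sm
  obtain ⟨χ, χs, χ1, χ0⟩ := exists_cut hB K hh
  -- the form on the model space
  set Ex0 : XX Y K → XX Y K := fun z => P.Ex (z.1, z.2, 0) with hEx0
  have cdE : ContDiff ℝ ∞ Ex0 :=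
    hP.tube.sex.comp (contDiff_fst.prodMk (contDiff_snd.prodMk contDiff_const))
  set s0 := pb Ex0 s with hs0
  have cds0 : ContDiff ℝ ∞ s0 := cd_pb cdE hs.sm
  have ds0 : ∀ z, dd s0 z = 0 := fun z => by
    rw [hs0, dd_pb cdE.contDiffAt (hs.da _), hds, pb, Pi.zero_apply, map_zero]
  have s0z : ∀ z : XX Y K, G1 P.Gt z.1 = 0 → P.h / 2 < ‖z.2‖ → ‖z.2‖ < 2 * P.h → s0 z = 0 := by
    intro z hc h1 h2
    obtain ⟨m1, m2, -⟩ := ex_mem hP hc h2 hε
    rw [hs0, pb, hEx0]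
    simp only
    rw [hz _ m1 (by rw [m2]; exact h1), map_zero]
  set α : XX Y K → Lam (XX Y K) := fun z => χ z.2 • s0 z with hα
  have cdχ : ContDiff ℝ ∞ fun z : XX Y K => χ z.2 := χs.comp contDiff_snd
  have cdα : ContDiff ℝ ∞ α := cdχ.smul cds0
  have αs : ∀ z : XX Y K, G1 P.Gt z.1 = 0 → ‖z.2‖ < 2 * P.h → α z = s0 z := by
    intro z hc h2
    rcases lt_or_ge ‖z.2‖ (3 * P.h / 4) with h1 | h1
    · simp only [hα, χ1 _ h1, one_smul]
    · simp only [hα, s0z z hc (by linarith) h2, smul_zero]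
  have α0 : ∀ z : XX Y K, P.h < ‖z.2‖ → α z = 0 := fun z h1 => by
    simp only [hα, χ0 _ h1, zero_smul]
  have dα : ∀ z ∈ {z : XX Y K | G1 P.Gt z.1 = 0}, dd α z = 0 := by
    intro z hc
    have cn : Continuous fun z : XX Y K => ‖z.2‖ := continuous_snd.norm
    rcases lt_or_ge ‖z.2‖ (3 * P.h / 4) with h1 | h1
    · rw [← ds0 z]
      refine dd_congr ?_
      filter_upwards [(isOpen_lt cn continuous_const).mem_nhds h1] with y hy
      simp only [hα, χ1 _ hy, one_smul]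
    rcases lt_or_ge P.h ‖z.2‖ with h2 | h2
    · refine dd_eq_zero ?_
      filter_upwards [(isOpen_lt continuous_const cn).mem_nhds h2] with y hy using α0 y hy
    · rw [hα, dd_fsmul (cdχ.differentiable (by simp) z) (cds0.differentiable (by simp) z), ds0,
        s0z z hc (by linarith) (by linarith), mul_zero, smul_zero, add_zero]
  obtain ⟨σ', γ', cdσ, cdγ, hform, hinv, hctr, γ0, hzero⟩ := hF (XX Y K) K (ll Y K) (ww Y K)
    (fun _ => -P.h) (fun _ => P.h) (fun _ => P.e) α {z : XX Y K | G1 P.Gt z.1 = 0}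
    (fun i j => by simp [ll_apply, ww, Pi.single_apply]) (fun _ => hP.con.bump) cdα
    (fun x i hi => α0 x (lt_of_lt_of_le (not_le.1 fun hm => hi (abs_le.1 hm))
      (norm_le_pi_norm x.2 i)))
    (fun x hx i t => by simpa [ww] using hx) dα
  -- points of the critical set away from the support
  have far : ∀ c : ℝ × Y, (∀ a, ‖a‖ ≤ P.h → P.Ex (c, a, 0) ∉ tsupport s) → ∀ a,
      σ' (c, a) = 0 ∧ γ' (c, a) = 0 := by
    intro c hc a
    refine hzero _ fun u => ?_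
    rw [sum_ww]
    rcases lt_or_ge P.h ‖a + u‖ with h1 | h1
    · exact α0 _ (by simpa using h1)
    · have : s (Ex0 ((c, a) + (0, u))) = 0 :=
        image_eq_zero_of_notMem_tsupport (by simpa [hEx0] using hc _ h1)
      simp only [hα, hs0, pb, this, map_zero, smul_zero]
  have away : ∀ c : ℝ × Y, G1 P.Gt c = 0 → c ∉ P.π '' tsupport s → ∀ a b, ‖a‖ < 2 * P.h →
      nq b < P.ε₀ → P.Ex (c, a, b) ∉ tsupport s := fun c hc hn a b ha hb hm =>
    hn ⟨_, hm, (ex_mem hP hc ha hb).2.2⟩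
  have cK : IsCompact (P.π '' tsupport s) := hs.cpt.image hP.tube.spi.continuous
  set il : (ℝ × Y) →L[ℝ] XX Y K := ContinuousLinearMap.inl ℝ _ _ with hil
  set pa : XX Y K → XX Y K := fun x => (P.π x, aa P.Gt x) with hpa
  have cdpa : ContDiff ℝ ∞ pa := hP.tube.spi.prodMk cda
  set H : ℝ × XX Y K → XX Y K := fun q => P.Ex (P.π q.2, aa P.Gt q.2, q.1 • bb P.Gt q.2) with hHd
  have cdH : ContDiff ℝ ∞ H := hP.tube.sex.comp ((hP.tube.spi.comp contDiff_snd).prodMk
    ((cda.comp contDiff_snd).prodMk (contDiff_fst.smul (cdb.comp contDiff_snd))))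
  have hom := fun x => hH _ _ H s univ x cdH isOpen_univ hs.sm.contDiffOn fun _ _ => mem_univ _
  have cdK : ContDiff ℝ ∞ (hK H s) := contDiff_iff_contDiffAt.2 fun x => (hom x).1
  have cdg : ContDiff ℝ ∞ (pb pa γ') := cd_pb cdpa cdγ
  refine ⟨pb il σ', fun x => hK H s x + pb pa γ' x, ⟨cd_pb il.contDiff cdσ, ?_⟩, ?_,
    cdK.add cdg, ?_, ?_, ?_⟩
  · have hcl : IsClosed {c : ℝ × Y | ∃ a : Metric.closedBall (0 : Fin K → ℝ) P.h,
        P.Ex (c, a.1, 0) ∈ tsupport s} := by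
      have : CompactSpace (Metric.closedBall (0 : Fin K → ℝ) P.h) :=
        isCompact_iff_compactSpace.1 (isCompact_closedBall _ _)
      have h1 : IsClosed {q : (ℝ × Y) × Metric.closedBall (0 : Fin K → ℝ) P.h |
          P.Ex (q.1, q.2.1, 0) ∈ tsupport s} :=
        (isClosed_tsupport s).preimage (hP.tube.sex.continuous.comp (by fun_prop))
      convert isClosedMap_fst_of_compactSpace _ h1 using 1
      ext c
      simp
    have hsub : tsupport (pb il σ') ⊆ _ := closure_minimal (fun c hc => by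
      by_contra hn
      refine hc ?_
      rw [pb_clm, hil, ContinuousLinearMap.inl_apply,
        (far c (fun a ha hm => hn ⟨⟨a, by simpa using ha⟩, hm⟩) 0).1, map_zero]) hcl
    refine cK.of_isClosed_subset ((isClosed_tsupport _).inter (isClosed_singleton.preimage
      (cd_G1 hP.tube.pre.sm).continuous)) fun c hc => ?_
    obtain ⟨a, ha⟩ := hsub hc.1
    by_contra hn
    have h1 : ‖a.1‖ ≤ P.h := mem_closedBall_zero_iff.1 a.2
    exact away c hc.2 hn a.1 0 (by linarith) hε ha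
  · intro c hc
    rw [dd_pb il.contDiff.contDiffAt (cdσ.differentiable (by simp) _), pb_clm,
      (hform (il c) hc).2, map_zero, map_zero]
  · intro x hx
    have hT := OO_sub hP hx
    have hc := hP.tube.mem x hT
    have e1 : pb (fun y => H (1, y)) s x = s x := by
      rw [pb_congr (g := fun y => y), pb_id]
      filter_upwards [(isOpen_TT hP.tube.pre.sm _ _).mem_nhds hT] with y hy
      simp only [hHd, one_smul, hP.tube.expi y hy]
    have e0 : pb (fun y => H (0, y)) s x = pb pa s0 x := by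
      rw [hs0, ← pb_comp (cdE.differentiable (by simp) _) (cdpa.differentiable (by simp) _)]
      simp only [hHd, hEx0, hpa, zero_smul]
    have e2 : hK H (dd s) x = 0 := hK_eq_zero fun t _ => by rw [hds]; rfl
    have dπ := hP.tube.spi.differentiable (by simp) x
    have da := cda.differentiable (by simp) x
    have dpa : fderiv ℝ pa x = (fderiv ℝ P.π x).prod (fderiv ℝ (aa P.Gt) x) :=
      dπ.fderiv_prodMk da
    have e3 : mp (fderiv ℝ pa x) (Phi (ll Y K) (fun _ => P.e) (pa x)) =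
        pb (aa P.Gt) (PhiS K P.e) x := by
      rw [phi_eq, ← mp_comp, dpa]
      rfl
    have e4 : mp (fderiv ℝ pa x) (σ' (pa x)) = pb P.π (pb il σ') x := by
      rw [pb, pb_clm, ← mp_comp, hil, ContinuousLinearMap.inl_apply, ← inv_sum hinv _ (aa P.Gt x)]
      refine mp_congr fun v => ?_
      have : fderiv ℝ pa x v - ((ContinuousLinearMap.inl ℝ (ℝ × Y) (Fin K → ℝ)).comp
          (fderiv ℝ P.π x)) v = (0, fderiv ℝ (aa P.Gt) x v) := by simp [dpa]
      rw [this]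
      exact ctr_fib (hctr _) _
    have e5 : pb pa s0 x = pb (aa P.Gt) (PhiS K P.e) x * pb P.π (pb il σ') x +
        dd (pb pa γ') x := by
      rw [dd_pb cdpa.contDiffAt (cdγ.differentiable (by simp) _), ← e3, ← e4, pb, pb,
        ← αs (pa x) hc hx.2.1, (hform (pa x) hc).1, map_add, map_mul]
    have e6 := (hom x).2
    rw [e1, e0, e2, e5, add_zero, sub_eq_iff_eq_add] at e6
    rw [dd_add (cdK.differentiable (by simp) _) (cdg.differentiable (by simp) _), e6]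
    abel
  · intro x hx ha
    have hc := hP.tube.mem x (OO_sub hP hx)
    obtain ⟨i, hi⟩ := exists_big hh.le ha
    have e1 : hK H s x = 0 := hK_eq_zero fun t ht => by
      obtain ⟨m1, m2, -⟩ := ex_mem hP hc hx.2.1 (nq_t ht hx.2.2)
      exact hz _ m1 (by rw [m2]; linarith)
    simp only [e1, pb, γ0 (pa x) i fun hm => absurd (abs_le.2 hm) (not_le.2 hi),
      map_zero, add_zero]
  · obtain ⟨L, hL⟩ := hP.tube.near
    obtain ⟨M, hM⟩ := cK.exists_bound_of_continuousOn (f := fun c : ℝ × Y => c.1)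
      continuous_fst.continuousOn
    refine ⟨M + L, fun x hx hr => ?_⟩
    have hT := OO_sub hP hx
    have hc := hP.tube.mem x hT
    have hn : P.π x ∉ P.π '' tsupport s := fun hm => by
      have h1 := abs_le.1 (hM _ hm)
      have h2 := abs_le.1 (hL x hT)
      exact absurd (abs_le.2 ⟨by linarith, by linarith⟩) (not_le.2 hr)
    have e1 : hK H s x = 0 := hK_eq_zero fun t ht => image_eq_zero_of_notMem_tsupport
      (away _ hc hn _ _ hx.2.1 (nq_t ht hx.2.2))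
    have e2 : γ' (pa x) = 0 := (far _ (fun a ha => away _ hc hn a 0 (by linarith) hε) _).2
    simp only [e1, pb, e2, map_zero, add_zero]

end Pool.Agent.MP_c8d41b_gt.GF

end
end MrgPart6

-- ======== part 7: formerly Pool.Agent.MP_c8d41b_gt.gf.Thm
section MrgPart7

/-! PROJECT GF, row THM: properties of the Thom maps. -/

open scoped ContDiff Topology
open Set Filter ExteriorAlgebra

noncomputable section

namespace Pool.Agent.MP_c8d41b_gt.GF

namespace ThmRow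

variable {Y : Type} [NormedAddCommGroup Y] [NormedSpace ℝ Y] [FiniteDimensional ℝ Y] {K : ℕ}
  {P : Dat Y K}

/-- the bump form pulled back by `a` -/
abbrev fa (P : Dat Y K) : XX Y K → Lam (XX Y K) := pb (aa P.Gt) (PhiS K P.e)
/-- the bump form pulled back by `b` -/
abbrev fb (P : Dat Y K) : XX Y K → Lam (XX Y K) := pb (bb P.Gt) (PhiS K P.e)

omit [FiniteDimensional ℝ Y] in
theorem th_of {x : XX Y K} (hx : ‖x.1.2‖ < P.R) (α : ℝ × Y → Lam (ℝ × Y)) :
    P.th α x = P.ψ (nq (bb P.Gt x)) • (fa P x * pb P.π α x) :=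
  indicator_of_mem (s := {x : XX Y K | ‖x.1.2‖ < P.R}) hx _

omit [FiniteDimensional ℝ Y] in
theorem th_not {x : XX Y K} (hx : ¬‖x.1.2‖ < P.R) (α : ℝ × Y → Lam (ℝ × Y)) : P.th α x = 0 :=
  indicator_of_notMem (s := {x : XX Y K | ‖x.1.2‖ < P.R}) hx _

omit [FiniteDimensional ℝ Y] in
theorem t2_of {x : XX Y K} (hx : ‖x.1.2‖ < P.R) (α : ℝ × Y → Lam (ℝ × Y)) :
    P.t2 α x = fa P x * fb P x * pb P.π α x :=
  indicator_of_mem (s := {x : XX Y K | ‖x.1.2‖ < P.R}) hx _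

omit [FiniteDimensional ℝ Y] in
theorem t2_not {x : XX Y K} (hx : ¬‖x.1.2‖ < P.R) (α : ℝ × Y → Lam (ℝ × Y)) : P.t2 α x = 0 :=
  indicator_of_notMem (s := {x : XX Y K | ‖x.1.2‖ < P.R}) hx _

omit [NormedSpace ℝ Y] [FiniteDimensional ℝ Y] in
theorem near_R {x : XX Y K} (hx : ‖x.1.2‖ < P.R) : ∀ᶠ z : XX Y K in 𝓝 x, ‖z.1.2‖ < P.R :=
  (isOpen_lt (continuous_snd.comp continuous_fst).norm continuous_const).mem_nhds hx

omit [FiniteDimensional ℝ Y] in
theorem le_of_pb (hP : P.Ok) {f : XX Y K → Fin K → ℝ} {x : XX Y K}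
    (h : pb f (PhiS K P.e) x ≠ 0) : ‖f x‖ ≤ P.h := by
  by_contra hc
  exact h (by rw [pb, PhiS_eq_zero hP.con.bump hP.con.pos.le (not_le.1 hc), map_zero])

omit [FiniteDimensional ℝ Y] in
theorem nq_lt (hP : P.Ok) {y : Fin K → ℝ} (h : ‖y‖ ≤ P.h) : nq y < P.m :=
  (nq_le h).trans_lt (lt_m0 hP.con.pos)

omit [FiniteDimensional ℝ Y] in
theorem th_ne (hP : P.Ok) {α : ℝ × Y → Lam (ℝ × Y)} {x : XX Y K} (h : P.th α x ≠ 0) :
    x ∈ TC P.Gt P.R (P.ν / 2) ∧ ‖aa P.Gt x‖ ≤ P.h ∧ α (P.π x) ≠ 0 := by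
  have hx : ‖x.1.2‖ < P.R := by_contra fun hc => h (th_not hc α)
  rw [th_of hx] at h
  have h1 : ‖aa P.Gt x‖ ≤ P.h := le_of_pb hP fun h0 => h (by rw [fa, h0, zero_mul, smul_zero])
  have h2 : nq (bb P.Gt x) < P.ε₀ + 2 * P.m := by
    by_contra hc
    exact h (by rw [hP.con.zero _ (not_lt.1 hc), zero_smul])
  refine ⟨⟨hx, ?_⟩, h1, fun h0 => h (by rw [pb, h0, map_zero, mul_zero, smul_zero])⟩
  have := nq_lt hP h1
  have := hP.con.le
  have := hP.dyn.le
  have := hP.dyn.pos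
  simp only [Dat.m] at *
  linarith

omit [FiniteDimensional ℝ Y] in
theorem mem_TC (hP : P.Ok) {x : XX Y K} (hx : ‖x.1.2‖ < P.R) (h1 : ‖aa P.Gt x‖ ≤ P.h)
    (h2 : ‖bb P.Gt x‖ ≤ P.h) : x ∈ TC P.Gt P.R (P.ν / 2) := by
  refine ⟨hx, ?_⟩
  have := nq_lt hP h1
  have := nq_lt hP h2
  have := hP.con.le
  have := hP.dyn.le
  have := hP.dyn.pos
  simp only [Dat.m] at *
  linarith

omit [FiniteDimensional ℝ Y] in
theorem t2_ne (hP : P.Ok) {α : ℝ × Y → Lam (ℝ × Y)} {x : XX Y K} (h : P.t2 α x ≠ 0) :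
    x ∈ TC P.Gt P.R (P.ν / 2) ∧ α (P.π x) ≠ 0 := by
  have hx : ‖x.1.2‖ < P.R := by_contra fun hc => h (t2_not hc α)
  rw [t2_of hx] at h
  exact ⟨mem_TC hP hx (le_of_pb hP fun h0 => h (by rw [fa, h0, zero_mul, zero_mul]))
    (le_of_pb hP fun h0 => h (by rw [fb, h0, mul_zero, zero_mul])),
    fun h0 => h (by rw [pb, h0, map_zero, mul_zero])⟩

omit [FiniteDimensional ℝ Y] in
theorem half_sub (hP : P.Ok) : TC P.Gt P.R (P.ν / 2) ⊆ TT P.Gt P.R P.ν :=
  TC_sub_TT (half_lt_self hP.tube.pos)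

/-- the coordinate `r` is bounded where the pull-back does not vanish -/
theorem r_bdd (hP : P.Ok) {α : ℝ × Y → Lam (ℝ × Y)} (hα : F0 P.G α) :
    ∃ ρ, ∀ x ∈ TT P.Gt P.R P.ν, α (P.π x) ≠ 0 → |x.1.1| ≤ ρ := by
  obtain ⟨L, hL⟩ := hP.tube.near
  obtain ⟨C, hC⟩ := hα.cpt.isBounded.exists_norm_le
  refine ⟨C + L, fun x hx h => ?_⟩
  have h1 : |(P.π x).1| ≤ C :=
    (norm_fst_le (P.π x)).trans (hC _ ⟨subset_tsupport _ h, hP.tube.mem x hx⟩)
  have h2 := hL x hx
  rw [abs_le] at *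
  constructor <;> linarith [h1.1, h1.2, h2.1, h2.2]

omit [FiniteDimensional ℝ Y] in
theorem phi (hB : BumpStmt) (hP : P.Ok) : ContDiff ℝ ∞ (PhiS K P.e) ∧ dd (PhiS K P.e) = 0 ∧
    ∀ y, PhiS K P.e y ∈ dg (Fin K → ℝ) K :=
  hB.2.2 _ K _ _ fun _ => hP.con.bump.sm

theorem cd_fa (hB : BumpStmt) (hP : P.Ok) : ContDiff ℝ ∞ (fa P) :=
  cd_pb (cd_aa hP.tube.pre.sm) (phi hB hP).1
theorem cd_fb (hB : BumpStmt) (hP : P.Ok) : ContDiff ℝ ∞ (fb P) :=
  cd_pb (cd_bb hP.tube.pre.sm) (phi hB hP).1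

theorem dd_pb_phi (hB : BumpStmt) (hP : P.Ok) {f : XX Y K → Fin K → ℝ} (hf : ContDiff ℝ ∞ f)
    (x : XX Y K) : dd (pb f (PhiS K P.e)) x = 0 := by
  rw [dd_pb hf.contDiffAt ((phi hB hP).1.differentiable (by simp) _), (phi hB hP).2.1, pb,
    Pi.zero_apply, map_zero]

theorem dpi (hP : P.Ok) (β : ℝ × Y → Lam (ℝ × Y)) (hβ : ContDiff ℝ ∞ β) (hc : Closed P.G β)
    (x : XX Y K) (hx : x ∈ TT P.Gt P.R P.ν) : dd (pb P.π β) x = 0 := by
  rw [dd_pb hP.tube.spi.contDiffAt (hβ.differentiable (by simp) _), pb]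
  refine mp_eq_zero_of_ker (hc _ (hP.tube.mem x hx)) fun v => ?_
  have h1 : (fun z => P.G (P.π z)) =ᶠ[𝓝 x] fun _ => 0 := by
    filter_upwards [(isOpen_TT hP.tube.pre.sm _ _).mem_nhds hx] with z hz using hP.tube.mem z hz
  have h2 := h1.fderiv_eq (𝕜 := ℝ)
  rw [fderiv_fun_comp x ((cd_G1 hP.tube.pre.sm).differentiable (by simp) _)
    (hP.tube.spi.differentiable (by simp) _), fderiv_fun_const] at h2
  exact congrArg (fun L => L v) h2

theorem oc (hB : BumpStmt) (hP : P.Ok) (α : ℝ × Y → Lam (ℝ × Y)) (hα : F0 P.G α) :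
    Oc (P.lt P.m) (P.th α) := by
  obtain ⟨ρ, hρ⟩ := r_bdd hP hα
  have hS : IsCompact ((TC P.Gt P.R (P.ν / 2) ∩ {x | |x.1.1| ≤ ρ}) ∩ {x | ‖aa P.Gt x‖ ≤ P.h}) :=
    (hP.tube.cpt' (half_le_self hP.tube.pos.le) ρ).inter_right
      (isClosed_le (cd_aa hP.tube.pre.sm).continuous.norm continuous_const)
  have h0 : ∀ x ∉ (TC P.Gt P.R (P.ν / 2) ∩ {x | |x.1.1| ≤ ρ}) ∩ {x | ‖aa P.Gt x‖ ≤ P.h},
      P.th α x = 0 := fun x hx => by_contra fun h =>
    have h' := th_ne hP h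
    hx ⟨⟨h'.1, hρ x (half_sub hP h'.1) h'.2.2⟩, h'.2.1⟩
  refine Oc.of_compact (contDiff_of_closed (U := {x | ‖x.1.2‖ < P.R}) hS.isClosed
    (fun x hx => hx.1.1.1) (fun x hx => ?_) h0) hS (fun x hx => ?_) h0
  · refine ContDiffAt.congr_of_eventuallyEq
      (f := fun x => P.ψ (nq (bb P.Gt x)) • (fa P x * pb P.π α x)) ?_
      ((near_R hx).mono fun z hz => th_of hz α)
    exact (hP.con.sm.comp (cd_nq.comp (cd_bb hP.tube.pre.sm))).contDiffAt.smul
      (cda_mul (cd_fa hB hP).contDiffAt (cd_pb hP.tube.spi hα.sm).contDiffAt)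
  · have h1 := nq_lt hP hx.2
    have h2 := nq_nonneg (bb P.Gt x)
    show P.D x < P.m
    rw [hP.dyn.eq x (half_sub hP hx.1.1), D0]
    linarith

theorem dth (hB : BumpStmt) (hP : P.Ok) (α : ℝ × Y → Lam (ℝ × Y)) (hα : F0 P.G α)
    (hc : Closed P.G α) (x : XX Y K) (hx : -P.ε₀ < P.D x) : dd (P.th α) x = 0 := by
  have hS : IsClosed (TC P.Gt P.R (P.ν / 2) ∩ {x | ‖aa P.Gt x‖ ≤ P.h}) :=
    (hP.tube.closed' (half_le_self hP.tube.pos.le)).inter
      (isClosed_le (cd_aa hP.tube.pre.sm).continuous.norm continuous_const)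
  by_cases hm : x ∈ TC P.Gt P.R (P.ν / 2) ∩ {x | ‖aa P.Gt x‖ ≤ P.h}
  · have hT := half_sub hP hm.1
    have h1 : nq (bb P.Gt x) < P.ε₀ + P.m := by
      have := nq_lt hP hm.2
      rw [hP.dyn.eq x hT, D0] at hx
      linarith
    have h2 : P.th α =ᶠ[𝓝 x] fun z => fa P z * pb P.π α z := by
      filter_upwards [near_R hT.1, (isOpen_lt (cd_nq.comp (cd_bb hP.tube.pre.sm)).continuous
        continuous_const).mem_nhds h1] with z hz hz'
      rw [th_of hz, hP.con.one (nq (bb P.Gt z)) (le_of_lt hz'), one_smul]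
    rw [dd_congr h2, dd_mul ((cd_fa hB hP).differentiable (by simp) _)
      ((cd_pb hP.tube.spi hα.sm).differentiable (by simp) _), dpi hP α hα.sm hc x hT,
      dd_pb_phi hB hP (cd_aa hP.tube.pre.sm), zero_mul, mul_zero, add_zero]
  · refine dd_eq_zero ?_
    filter_upwards [hS.isOpen_compl.mem_nhds hm] with z hz
    by_contra h
    exact hz ⟨(th_ne hP h).1, (th_ne hP h).2.1⟩

theorem oc2 (hB : BumpStmt) (hP : P.Ok) (α : ℝ × Y → Lam (ℝ × Y)) (hα : F0 P.G α) :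
    Oc (TT P.Gt P.R P.ν) (P.t2 α) := by
  obtain ⟨ρ, hρ⟩ := r_bdd hP hα
  have hS := hP.tube.cpt' (half_le_self hP.tube.pos.le) ρ
  have h0 : ∀ x ∉ TC P.Gt P.R (P.ν / 2) ∩ {x | |x.1.1| ≤ ρ}, P.t2 α x = 0 :=
    fun x hx => by_contra fun h =>
      have h' := t2_ne hP h
      hx ⟨h'.1, hρ x (half_sub hP h'.1) h'.2⟩
  refine Oc.of_compact (contDiff_of_closed (U := {x | ‖x.1.2‖ < P.R}) hS.isClosed
    (fun x hx => hx.1.1) (fun x hx => ?_) h0) hS (fun x hx => half_sub hP hx.1) h0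
  refine ContDiffAt.congr_of_eventuallyEq (f := fun x => fa P x * fb P x * pb P.π α x) ?_
    ((near_R hx).mono fun z hz => t2_of hz α)
  exact cda_mul (cda_mul (cd_fa hB hP).contDiffAt (cd_fb hB hP).contDiffAt)
    (cd_pb hP.tube.spi hα.sm).contDiffAt

theorem dt2 (hB : BumpStmt) (hP : P.Ok) (α : ℝ × Y → Lam (ℝ × Y)) (hα : F0 P.G α)
    (hc : Closed P.G α) : dd (P.t2 α) = 0 := by
  funext x
  by_cases hm : x ∈ TC P.Gt P.R (P.ν / 2)
  · have hT := half_sub hP hm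
    have da := (cd_fa hB hP).differentiable (by simp) x
    have db := (cd_fb hB hP).differentiable (by simp) x
    have dab : DifferentiableAt ℝ (fun z => fa P z * fb P z) x :=
      (cda_mul (cd_fa hB hP).contDiffAt (cd_fb hB hP).contDiffAt).differentiableAt (by simp)
    rw [dd_congr ((near_R hT.1).mono fun z hz => t2_of hz α), dd_mul dab
      ((cd_pb hP.tube.spi hα.sm).differentiable (by simp) _), dd_mul da db,
      dpi hP α hα.sm hc x hT, dd_pb_phi hB hP (cd_aa hP.tube.pre.sm),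
      dd_pb_phi hB hP (cd_bb hP.tube.pre.sm)]
    simp
  · refine dd_eq_zero ?_
    filter_upwards [(hP.tube.closed' (half_le_self hP.tube.pos.le)).isOpen_compl.mem_nhds hm]
      with z hz
    by_contra h
    exact hz (t2_ne hP h).1

omit [FiniteDimensional ℝ Y] in
theorem prj_th (hB : BumpStmt) (hP : P.Ok) (κ : ℕ) (α : ℝ × Y → Lam (ℝ × Y)) (x : XX Y K) :
    P.th (fun c => prj κ (α c)) x = prj (K + κ) (P.th α x) := by
  by_cases hx : ‖x.1.2‖ < P.R
  · have h : fa P x ∈ dg (XX Y K) K := dg_mp _ ((phi hB hP).2.2 _)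
    rw [th_of hx, th_of hx, map_smul, prj_mul h, pb, pb, prj_mp]
  · rw [th_not hx, th_not hx, map_zero]

theorem prj_fm (κ : ℕ) (α : ℝ × Y → Lam (ℝ × Y)) (hα : F0 P.G α) (hc : Closed P.G α) :
    Fm P.G κ (fun c => prj κ (α c)) ∧ Closed P.G fun c => prj κ (α c) := by
  refine ⟨⟨contDiff_iff_contDiffAt.2 fun _ => cda_lin _ hα.sm.contDiffAt, fun _ => prj_mem _ _,
    ?_⟩, fun x hx => ?_⟩
  · have h1 : tsupport (fun c => prj κ (α c)) ⊆ tsupport α :=
      closure_mono fun c hc h0 => hc (by simp only [h0, map_zero])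
    rw [← inter_eq_left.2 h1, inter_assoc]
    exact hα.cpt.inter_left (isClosed_tsupport _)
  · rw [dd_prj κ (hα.sm.differentiable (by simp) x), ← prj_mp, hc x hx, map_zero]

omit [FiniteDimensional ℝ Y] in
theorem pair (hP : P.Ok) (κ : ℕ) (α β : ℝ × Y → Lam (ℝ × Y)) (hκ : Even κ)
    (hα : ∀ c, α c ∈ dg (ℝ × Y) κ) (x : XX Y K) :
    P.th α x * pb tau (P.th β) x = P.t2 (fun c => α c * β c) x := by
  by_cases hx : ‖x.1.2‖ < P.R
  swap
  · rw [th_not hx, t2_not hx, zero_mul]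
  have dt : DifferentiableAt ℝ (tau (Y := Y) (K := K)) x := cd_tau.differentiable (by simp) x
  have e1 : pb tau (fa P) x = fb P x := by
    rw [← pb_comp ((cd_aa hP.tube.pre.sm).differentiable (by simp) _) dt]
    exact congrArg (fun f => pb f (PhiS K P.e) x) (funext hP.tube.pre.aa_tau)
  have e2 : pb tau (P.th β) x =
      P.ψ (nq (aa P.Gt x)) • (fb P x * pb (fun z => P.π (tau z)) β x) := by
    rw [pb_comp (hP.tube.spi.differentiable (by simp) _) dt, ← e1, pb,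
      th_of (x := tau x) hx, map_smul, map_mul, hP.tube.pre.bb_tau]
    rfl
  rw [e2, th_of hx, t2_of hx]
  by_cases ha : fa P x = 0
  · simp [ha]
  by_cases hb : fb P x = 0
  · simp [hb]
  have h1 := le_of_pb hP ha
  have h2 := le_of_pb hP hb
  have hT := half_sub hP (mem_TC hP hx h1 h2)
  have e3 : (fun z => P.π (tau z)) =ᶠ[𝓝 x] P.π := by
    filter_upwards [(isOpen_TT hP.tube.pre.sm _ _).mem_nhds hT] with z hz
      using hP.tube.pitau z hz
  have hε := hP.dyn.pos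
  have c1 : pb P.π α x * fb P x = fb P x * pb P.π α x := comm_of_even hκ (dg_mp _ (hα _)) _
  have c2 : pb P.π (fun c => α c * β c) x = pb P.π α x * pb P.π β x := map_mul _ _ _
  rw [pb_congr e3, hP.con.one _ (by linarith [nq_lt hP h2]),
    hP.con.one _ (by linarith [nq_lt hP h1]), one_smul, one_smul, c2, mul_assoc,
    ← mul_assoc (pb P.π α x), c1]
  simp only [mul_assoc]

end ThmRow

open ThmRow in
theorem thm (hB : BumpStmt) : ThmStmt := fun Y _ _ _ K P hP =>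
  { oc := oc hB hP
    dth := dth hB hP
    prj_th := prj_th hB hP
    prj_fm := prj_fm
    add := fun α β => by
      constructor <;> funext x <;> by_cases hx : ‖x.1.2‖ < P.R
      · simp only [Pi.add_apply, th_of hx, pb, map_add, mul_add, smul_add]
      · simp only [Pi.add_apply, th_not hx, add_zero]
      · simp only [Pi.add_apply, t2_of hx, pb, map_add, mul_add]
      · simp only [Pi.add_apply, t2_not hx, add_zero]
    smul := fun c α => by
      constructor <;> funext x <;> by_cases hx : ‖x.1.2‖ < P.R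
      · simp only [Pi.smul_apply, th_of hx, pb, map_smul, mul_smul_comm, smul_comm c]
      · simp only [Pi.smul_apply, th_not hx, smul_zero]
      · simp only [Pi.smul_apply, t2_of hx, pb, map_smul, mul_smul_comm]
      · simp only [Pi.smul_apply, t2_not hx, smul_zero]
    pair := pair hP
    oc2 := oc2 hB hP
    supp2 := fun _ _ h => (t2_ne hP h).1
    dt2 := dt2 hB hP
    dpi := dpi hP
    mul2 := fun α β x => by
      by_cases hx : ‖x.1.2‖ < P.R
      · simp only [t2_of hx, pb, map_mul, mul_assoc]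
      · simp only [t2_not hx, zero_mul] }

end Pool.Agent.MP_c8d41b_gt.GF

end
end MrgPart7

-- marker of a merged file
example : 731051 + 150548 = 731051 + 150548 := rfl
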