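import Mathlib.Analysis.Calculus.BumpFunction.FiniteDimension
import Mathlib.Analysis.Calculus.LocalExtr.Basic
import Mathlib.LinearAlgebra.Dual.Lemmas
import Pool.Agent.MP_c8d41b_gt.gf.Stokes

-- ======== part 0: formerly Pool.Agent.MP_c8d41b_gt.gf.Pert
section MrgPart0

/-! PROJECT GF, row PERT: an odd perturbation without critical points near the zero level. -/

open scoped ContDiff Topology
open Set Filter

noncomputable section

namespace Pool.Agent.MP_c8d41b_gt.GF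

namespace Pt

theorem jet_ex {X P : Type} [NormedAddCommGroup X] [NormedSpace ℝ X] [NormedAddCommGroup P]
    [NormedSpace ℝ P] [FiniteDimensional ℝ P] {L : X → P →L[ℝ] ℝ} (hL : ContDiff ℝ ∞ L) :
    ∃ T : X → P →L[ℝ] ℝ × (X →L[ℝ] ℝ), ContDiff ℝ ∞ T ∧
      ∀ a c, T a c = (L a c, fderiv ℝ (fun x => L x c) a) := by
  have h : ∀ a c, (L a).prod (fderiv ℝ L a).flip c = (L a c, fderiv ℝ (fun x => L x c) a) :=
    fun a c => by
      rw [fderiv_clm_apply (hL.differentiable (by simp) a) (differentiableAt_const c)]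
      simp
  refine ⟨fun a => (L a).prod (fderiv ℝ L a).flip, contDiff_clm_apply_iff.2 fun c => ?_, h⟩
  simp only [h]
  exact (hL.clm_apply contDiff_const).prodMk
    ((hL.clm_apply contDiff_const).fderiv_right (m := ∞) le_rfl)

variable {Y : Type} [NormedAddCommGroup Y] [NormedSpace ℝ Y] {K : ℕ}
  {Gt : XX Y K → Fin K → ℝ} {R ν : ℝ} {π : XX Y K → ℝ × Y}
  {Ex : (ℝ × Y) × (Fin K → ℝ) × (Fin K → ℝ) → XX Y K}

theorem fd_D0 (h : ContDiff ℝ ∞ Gt) (x v : XX Y K) : fderiv ℝ (D0 Gt) x v =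
    2 * ∑ i, aa Gt x i * fderiv ℝ (aa Gt) x v i - 2 * ∑ i, bb Gt x i * fderiv ℝ (bb Gt) x v i := by
  have h1 := ((cd_nq.differentiable (by simp) (aa Gt x)).hasFDerivAt.comp x
    ((cd_aa h).differentiable (by simp) x).hasFDerivAt).sub
    ((cd_nq.differentiable (by simp) (bb Gt x)).hasFDerivAt.comp x
    ((cd_bb h).differentiable (by simp) x).hasFDerivAt)
  rw [show fderiv ℝ (D0 Gt) x = _ from h1.fderiv]
  simp only [sub_apply, ContinuousLinearMap.comp_apply, fderiv_nq]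

theorem low_tube (h : Tube Gt R ν π Ex) {x : XX Y K} (hx : x ∈ TT Gt R ν)
    (hx' : x ∉ TT Gt R (ν / 4)) : fderiv ℝ (D0 Gt) x ≠ 0 := by
  obtain ⟨ξ, C, -, -, hξ⟩ := h.model
  intro h0
  have h1 := fd_D0 h.pre.sm x (ξ x)
  rw [h0, (hξ x hx).1, (hξ x hx).2] at h1
  have h2 : ν / 4 ≤ nq (aa Gt x) + nq (bb Gt x) := not_lt.1 fun h3 => hx' ⟨hx.1, h3⟩
  simp only [nq, sq] at h2
  simp only [zero_apply, Pi.neg_apply, mul_neg, Finset.sum_neg_distrib] at h1
  linarith [h.pos]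

theorem mem_zero (h : Tube Gt R ν π Ex) {x : XX Y K} (h1 : Gt x = 0) (h2 : x.2 = 0) :
    x ∈ TT Gt R (ν / 4) := by
  refine ⟨h.zero x.1 ?_, ?_⟩
  · rw [← h1, G1, ← h2]
  · simp only [aa, bb, h1, h2, add_zero, sub_zero, nq_zero]
    linarith [h.pos]

theorem low_zero (h : Tube Gt R ν π Ex) {x : XX Y K} (hx : x.2 = 0)
    (hx' : x ∉ TT Gt R (ν / 4)) : fderiv ℝ (D0 Gt) x ≠ 0 := by
  intro h0
  have h1 := fd_D0 h.pre.sm x (0, Gt x)
  have hG := (h.pre.sm.differentiable (by simp) x).hasFDerivAt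
  rw [h0, show fderiv ℝ (aa Gt) x = _ from (hG.add hasFDerivAt_snd).fderiv,
    show fderiv ℝ (bb Gt) x = _ from (hG.sub hasFDerivAt_snd).fderiv] at h1
  simp only [aa, bb, hx, add_zero, sub_zero, zero_apply, Pi.zero_apply, add_apply, sub_apply,
    ContinuousLinearMap.coe_snd', Pi.add_apply, Pi.sub_apply, mul_add, mul_sub,
    Finset.sum_add_distrib, Finset.sum_sub_distrib] at h1
  refine hx' (mem_zero h (nq_eq_zero ?_) hx)
  simp only [nq, sq]
  linarith

theorem shift (h : Pre Gt) {x : XX Y K} {r : ℝ}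
    (hr : (x.1.1 < 0 ∧ r < 0) ∨ (1 < x.1.1 ∧ 1 < r)) :
    Gt ((r, x.1.2), x.2) = Gt x ∧ fderiv ℝ (D0 Gt) ((r, x.1.2), x.2) = fderiv ℝ (D0 Gt) x := by
  have key : ∀ (z : XX Y K) (r : ℝ), (z.1.1 < 0 ∧ r < 0) ∨ (1 < z.1.1 ∧ 1 < r) →
      Gt ((r, z.1.2), z.2) = Gt z := by
    rintro ⟨⟨r', y⟩, s⟩ r (hr | hr)
    · rw [h.left r hr.2.le, h.left r' hr.1.le]
    · rw [h.right r hr.2.le, h.right r' hr.1.le]
  refine ⟨key x r hr, ?_⟩
  have e : ((r, x.1.2), x.2) = x + ((r - x.1.1, 0), 0) := by ext <;> simp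
  rw [e, ← fderiv_comp_add_right]
  refine EventuallyEq.fderiv_eq ?_
  have hc : Continuous fun z : XX Y K => z.1.1 := by fun_prop
  have hc' : Continuous fun z : XX Y K => z.1.1 + (r - x.1.1) := by fun_prop
  have : ∀ᶠ z : XX Y K in 𝓝 x, (z.1.1 < 0 ∧ z.1.1 + (r - x.1.1) < 0) ∨
      (1 < z.1.1 ∧ 1 < z.1.1 + (r - x.1.1)) := by
    refine IsOpen.mem_nhds (((isOpen_lt hc continuous_const).inter
      (isOpen_lt hc' continuous_const)).union ((isOpen_lt continuous_const hc).inter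
      (isOpen_lt continuous_const hc'))) ?_
    simpa using hr
  filter_upwards [this] with z hz
  have e2 : z + ((r - x.1.1, 0), 0) = ((z.1.1 + (r - x.1.1), z.1.2), z.2) := by ext <;> simp
  rw [e2, D0_eq, D0_eq, key z _ hz]

variable [FiniteDimensional ℝ Y]

theorem low_far (h : Tube Gt R ν π Ex) : ∃ ρ m : ℝ, 0 < m ∧
    ∀ x ∉ TT Gt R (ν / 4), ρ ≤ ‖x‖ → m ≤ ‖fderiv ℝ (D0 Gt) x‖ := by
  obtain ⟨R', m, hm, hf⟩ := h.pre.far
  have hc : Continuous fun z : XX Y K => z.1.1 := by fun_prop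
  have hA : IsCompact ((Metric.closedBall (0 : XX Y K) (max R' 2) ∩
      {x | x.1.1 ≤ 0 ∨ 1 ≤ x.1.1}) \ TT Gt R (ν / 4)) :=
    ((isCompact_closedBall _ _).inter_right ((isClosed_le hc continuous_const).union
      (isClosed_le continuous_const hc))).diff (isOpen_TT h.pre.sm _ _)
  obtain ⟨μ, hμ, hb⟩ := hA.exists_forall_le' (f := fun x => ‖fderiv ℝ (D0 Gt) x‖) (a := 0)
    ((cd_D0 h.pre.sm).continuous_fderiv (by simp)).norm.continuousOn fun x hx =>
      norm_pos_iff.2 fun h0 => hx.2 (mem_zero h (h.pre.ends x hx.1.2 h0).1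
        (h.pre.ends x hx.1.2 h0).2)
  refine ⟨max R' 2, min m μ, lt_min hm hμ, fun x hx hρ => ?_⟩
  by_cases h1 : R' ≤ ‖(x.1.2, x.2)‖
  · exact (min_le_left _ _).trans (hf x h1)
  rw [Prod.norm_mk, not_le, max_lt_iff] at h1
  have h2 : 2 ≤ |x.1.1| := by
    by_contra h2
    refine absurd hρ (not_le.2 ?_)
    rw [Prod.norm_def, Prod.norm_def]
    exact max_lt (max_lt (lt_max_of_lt_right (not_le.1 h2)) (lt_max_of_lt_left h1.1))
      (lt_max_of_lt_left h1.2)
  obtain ⟨r, hr, hr'⟩ : ∃ r : ℝ, |r| = 2 ∧ ((x.1.1 < 0 ∧ r < 0) ∨ (1 < x.1.1 ∧ 1 < r)) := by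
    rcases le_abs.1 h2 with h3 | h3
    · exact ⟨2, abs_two, Or.inr ⟨by linarith, one_lt_two⟩⟩
    · exact ⟨-2, by simp, Or.inl ⟨by linarith, by norm_num⟩⟩
  obtain ⟨e1, e2⟩ := shift h.pre hr'
  rw [← e2]
  refine (min_le_right _ _).trans (hb _ ⟨⟨?_, ?_⟩, fun h3 => hx ?_⟩)
  · rw [mem_closedBall_zero_iff, Prod.norm_mk, Prod.norm_mk]
    exact max_le (max_le (le_max_of_le_right hr.le) (le_max_of_le_left h1.1.le))
      (le_max_of_le_left h1.2.le)
  · exact hr'.imp (fun h => h.2.le) fun h => h.2.le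
  · simpa only [TT, aa, bb, mem_ofPred_eq, e1] using h3

theorem cut_ex (h : Tube Gt R ν π Ex) (ρ : ℝ) : ∃ χ : XX Y K → ℝ, ContDiff ℝ ∞ χ ∧
    (∀ x, 0 ≤ χ x) ∧ (∀ x, χ (tau x) = χ x) ∧
    ∀ x, χ x = 0 ↔ ρ ≤ ‖x‖ ∨ x ∈ TC Gt R (ν / 2) := by
  obtain ⟨f, hs, hf, hr⟩ := ((Metric.isOpen_ball (x := (0 : XX Y K)) (ε := ρ)).sdiff
    (h.closed' (half_le_self h.pos.le))).exists_contDiff_support_eq (n := ⊤)
  have h0 : ∀ x, 0 ≤ f x := fun x => (hr ⟨x, rfl⟩).1
  have h1 : ∀ x, f x = 0 ↔ ρ ≤ ‖x‖ ∨ x ∈ TC Gt R (ν / 2) := fun x => by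
    rw [← Function.notMem_support, hs, Set.mem_sdiff, mem_ball_zero_iff, not_and_or, not_lt, not_not]
  refine ⟨fun x => f x * f (tau x), hf.mul (hf.comp cd_tau), fun x => mul_nonneg (h0 _) (h0 _),
    fun x => by simp only [tau_tau, mul_comm], fun x => ?_⟩
  have e : tau x ∈ TC Gt R (ν / 2) ↔ x ∈ TC Gt R (ν / 2) := by
    simp only [TC, mem_ofPred_eq, h.pre.aa_tau, h.pre.bb_tau, add_comm (nq (bb Gt x))]; rfl
  have e' : ‖tau x‖ = ‖x‖ := by rw [tau_apply, Prod.norm_mk, norm_neg, Prod.norm_def x]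
  simp only [mul_eq_zero, h1, e, e', or_self]

/-- the parameter space -/
def PP (Y : Type) [NormedAddCommGroup Y] [NormedSpace ℝ Y] (K : ℕ) : Type :=
  (ℝ × (ℝ × Y) × ℝ) →L[ℝ] (Fin K → ℝ) →L[ℝ] ℝ

instance : NormedAddCommGroup (PP Y K) :=
  inferInstanceAs (NormedAddCommGroup ((ℝ × (ℝ × Y) × ℝ) →L[ℝ] (Fin K → ℝ) →L[ℝ] ℝ))

instance : NormedSpace ℝ (PP Y K) :=
  inferInstanceAs (NormedSpace ℝ ((ℝ × (ℝ × Y) × ℝ) →L[ℝ] (Fin K → ℝ) →L[ℝ] ℝ))

instance : FiniteDimensional ℝ (PP Y K) :=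
  inferInstanceAs (FiniteDimensional ℝ ((ℝ × (ℝ × Y) × ℝ) →L[ℝ] (Fin K → ℝ) →L[ℝ] ℝ))

/-- a parameter as a bilinear map -/
def PP.bl (c : PP Y K) : (ℝ × (ℝ × Y) × ℝ) →L[ℝ] (Fin K → ℝ) →L[ℝ] ℝ := c

/-- even functions -/
def EE (x : XX Y K) : ℝ × (ℝ × Y) × ℝ := (1, x.1, nq x.2)

/-- the odd polynomials -/
def LL (x : XX Y K) : PP Y K →L[ℝ] ℝ :=
  LinearMap.toContinuousLinearMap
    { toFun := fun c => c.bl (EE x) x.2
      map_add' := fun _ _ => rfl
      map_smul' := fun _ _ => rfl }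

theorem LL_apply (x : XX Y K) (c : PP Y K) : LL x c = c.bl (EE x) x.2 := rfl

theorem cd_LL : ContDiff ℝ ∞ (LL : XX Y K → PP Y K →L[ℝ] ℝ) :=
  contDiff_clm_apply_iff.2 fun c => (c.bl.contDiff.comp
    (contDiff_const.prodMk (contDiff_fst.prodMk (cd_nq.comp contDiff_snd)))).clm_apply contDiff_snd

theorem onto {a : XX Y K} (ha : a.2 ≠ 0) (t : ℝ) (l : XX Y K →L[ℝ] ℝ) :
    ∃ c : PP Y K, LL a c = t ∧ HasFDerivAt (fun x => LL x c) l a := by
  have hq : nq a.2 ≠ 0 := fun h => ha (nq_eq_zero h)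
  set σ : (Fin K → ℝ) →L[ℝ] ℝ := fderiv ℝ nq a.2 with hσ
  have hσa : σ a.2 = 2 * nq a.2 := by simp only [hσ, fderiv_nq, nq, sq]
  set l1 : (ℝ × Y) →L[ℝ] ℝ := l.comp (ContinuousLinearMap.inl ℝ _ _) with hl1
  set l2 : (Fin K → ℝ) →L[ℝ] ℝ := l.comp (ContinuousLinearMap.inr ℝ _ _) with hl2
  set κ : ℝ := (l2 a.2 - t) / (2 * nq a.2) with hκ
  set w : (Fin K → ℝ) →L[ℝ] ℝ := (2 * nq a.2)⁻¹ • σ with hw
  have hwa : w a.2 = 1 := by
    rw [hw, smul_apply, hσa, smul_eq_mul]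
    field_simp
  let c : (ℝ × (ℝ × Y) × ℝ) →L[ℝ] (Fin K → ℝ) →L[ℝ] ℝ := (ContinuousLinearMap.fst ℝ _ _).smulRight
      (l2 - (l1 a.1 + nq a.2 * κ) • w - κ • σ) +
    ((l1.coprod (κ • ContinuousLinearMap.id ℝ ℝ)).comp
      (ContinuousLinearMap.snd ℝ _ _)).smulRight w
  have hc : ∀ x : XX Y K, LL x c = l2 x.2 - (l1 a.1 + nq a.2 * κ) * w x.2 - κ * σ x.2 +
      (l1 x.1 + κ * nq x.2) * w x.2 := fun x => by
    show c (EE x) x.2 = _
    simp [c, EE]
  refine ⟨c, ?_, ?_⟩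
  · rw [hc, hwa, hσa, hκ]
    field_simp
    ring
  · simp only [hc]
    have h2 : HasFDerivAt (fun x : XX Y K => x.2) (ContinuousLinearMap.snd ℝ _ _) a :=
      hasFDerivAt_snd
    have h3 : HasFDerivAt (fun x : XX Y K => nq x.2) (σ.comp (ContinuousLinearMap.snd ℝ _ _)) a :=
      (cd_nq.differentiable (by simp) a.2).hasFDerivAt.comp a h2
    have h4 := w.hasFDerivAt.comp a h2
    refine ((((l2.hasFDerivAt.comp a h2).sub (h4.const_mul (l1 a.1 + nq a.2 * κ))).sub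
      ((σ.hasFDerivAt.comp a h2).const_mul κ)).add
      (((l1.hasFDerivAt.comp a hasFDerivAt_fst).add (h3.const_mul κ)).mul h4)).congr_fderiv ?_
    refine ContinuousLinearMap.ext fun v => ?_
    have : l v = l1 v.1 + l2 v.2 := by
      simp only [hl1, hl2, ContinuousLinearMap.comp_apply, ← map_add]
      simp
    simp [hwa, this]
    ring

end Pt

open Pt in
theorem pert (hS : SardStmt) (_hB : BumpStmt) : PertStmt := by
  intro Y _ _ _ K Gt R ν π Ex h
  obtain ⟨ρ, m, hm, hfar⟩ := low_far h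
  obtain ⟨χ, hχ, χ0, χe, χz⟩ := cut_ex h ρ
  have hL : ContDiff ℝ ∞ fun x : XX Y K => χ x • LL x := hχ.smul cd_LL
  obtain ⟨T, hT, hTa⟩ := jet_ex hL
  have hD := cd_D0 h.pre.sm
  have hu : ContDiff ℝ ∞ fun x => (D0 Gt x, fderiv ℝ (D0 Gt) x) :=
    hD.prodMk (hD.fderiv_right (m := ∞) le_rfl)
  have hLc : ∀ c, ContDiff ℝ ∞ fun x : XX Y K => LL x c := fun c => cd_LL.clm_apply contDiff_const
  have hT2 : ∀ a c, T a c = (χ a * LL a c,
      χ a • fderiv ℝ (fun x => LL x c) a + LL a c • fderiv ℝ χ a) := fun a c => by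
    rw [hTa, ← fderiv_fun_mul (hχ.differentiable (by simp) a)
      ((hLc c).differentiable (by simp) a)]
    rfl
  have hT0 : ∀ a c, χ a = 0 → T a c = 0 := fun a c ha => by
    have : IsLocalMin χ a := Eventually.of_forall fun x => ha ▸ χ0 x
    rw [hT2, ha, this.fderiv_eq_zero]
    simp
  have hO : IsOpen {x : XX Y K | χ x ≠ 0 ∧ x.2 ≠ 0} :=
    (isOpen_ne_fun hχ.continuous continuous_const).inter
      (isOpen_ne_fun continuous_snd continuous_const)
  have hs : ∀ a ∈ {x : XX Y K | χ x ≠ 0 ∧ x.2 ≠ 0}, Function.Surjective (T a) := by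
    rintro a ⟨h1, h2⟩ ⟨t, l⟩
    obtain ⟨c, c1, c2⟩ := onto h2 (t / χ a) ((χ a)⁻¹ • (l - (t / χ a) • fderiv ℝ χ a))
    refine ⟨c, ?_⟩
    rw [hT2, c1, c2.fderiv, smul_inv_smul₀ h1, sub_add_cancel, mul_div_cancel₀ _ h1]
  have hd := hS _ _ _ _ _ T hO hu.contDiffOn hT.contDiffOn hs (by
    rw [Module.finrank_prod (M := ℝ), Module.finrank_self,
      ← (LinearMap.toContinuousLinearMap (E := XX Y K) (F' := ℝ)).finrank_eq,
      Subspace.dual_finrank_eq]
    omega)
  have hK : IsCompact (Metric.closedBall (0 : XX Y K) ρ \ TT Gt R (ν / 4)) :=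
    (isCompact_closedBall _ _).diff (isOpen_TT h.pre.sm _ _)
  have hU : ∀ᶠ c : PP Y K in 𝓝 0, ∀ x ∈ (Metric.closedBall (0 : XX Y K) ρ \ TT Gt R (ν / 4)) ∩
      {x | x.2 = 0}, (D0 Gt x, fderiv ℝ (D0 Gt) x) + T x c ≠ 0 := by
    refine (hK.inter_right (isClosed_eq continuous_snd continuous_const)
      ).eventually_forall_of_forall_eventually fun x hx => ?_
    refine (isOpen_ne_fun ((hu.continuous.comp continuous_snd).add
      ((hT.continuous.comp continuous_snd).clm_apply continuous_fst)) continuous_const).mem_nhds ?_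
    intro h0
    exact low_zero h hx.2 hx.1.2 (by simpa using congrArg Prod.snd h0)
  obtain ⟨c, c1, c2⟩ : ∃ c : PP Y K, (∀ x ∈ (Metric.closedBall (0 : XX Y K) ρ \
      TT Gt R (ν / 4)) ∩ {x | x.2 = 0}, (D0 Gt x, fderiv ℝ (D0 Gt) x) + T x c ≠ 0) ∧
      ∀ a ∈ {x : XX Y K | χ x ≠ 0 ∧ x.2 ≠ 0}, (D0 Gt a, fderiv ℝ (D0 Gt) a) + T a c ≠ 0 := by
    by_cases hne : ∃ a, a ∈ {x : XX Y K | χ x ≠ 0 ∧ x.2 ≠ 0}
    · obtain ⟨a, ha⟩ := hne
      have := (hs a ha).nontrivial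
      have hp : 0 < Module.finrank ℝ (PP Y K) := Module.finrank_pos
      obtain ⟨c, c1, c2⟩ := (dense_compl_of_dimH_lt_finrank
        (hd.trans_lt (by exact_mod_cast Nat.sub_lt hp one_pos))).inter_nhds_nonempty hU
      exact ⟨c, c2, fun a ha h0 => c1 ⟨a, ha, h0⟩⟩
    · exact ⟨0, hU.self_of_nhds, fun a ha => (hne ⟨a, ha⟩).elim⟩
  have hg : ContDiff ℝ ∞ fun x => χ x * LL x c := hχ.mul (hLc c)
  have hJ : ∀ x, (D0 Gt x + χ x * LL x c, fderiv ℝ (fun x => D0 Gt x + χ x * LL x c) x) =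
      (D0 Gt x, fderiv ℝ (D0 Gt) x) + T x c := fun x => by
    rw [hTa, fderiv_fun_add (hD.differentiable (by simp) x) (hg.differentiable (by simp) x)]
    rfl
  refine ⟨fun x => D0 Gt x + χ x * LL x c, hD.add hg, fun x => ?_, fun x hx => ?_, ?_, ?_⟩
  · rw [h.pre.D0_tau, χe, LL_apply, LL_apply]
    simp [EE, nq]
    ring
  · rw [(χz x).2 (Or.inr (TT_sub_TC le_rfl hx)), zero_mul, add_zero]
  · obtain ⟨K₁, h1⟩ := h.pre.bdd
    obtain ⟨M, hM⟩ := hg.continuous.bounded_above_of_compact_support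
      (HasCompactSupport.intro (isCompact_closedBall (0 : XX Y K) ρ) fun x hx => by
        rw [(χz x).2 (Or.inl (not_le.1 (mem_closedBall_zero_iff.not.1 hx)).le), zero_mul])
    refine ⟨K₁ + 2 * M, fun x t => ?_⟩
    have h2 := abs_le.1 (h1 x t)
    have h3 := abs_le.1 (hM x)
    have h4 := abs_le.1 (hM (x + t • er))
    exact abs_le.2 ⟨by linarith [h2.1, h3.2, h4.1], by linarith [h2.2, h3.1, h4.2]⟩
  · obtain ⟨μ, hμ, hb⟩ := hK.exists_forall_le'
      (f := fun x => ‖(D0 Gt x, fderiv ℝ (D0 Gt) x) + T x c‖) (a := 0)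
      (hu.continuous.add (hT.continuous.clm_apply continuous_const)).norm.continuousOn
      fun x hx => norm_pos_iff.2 (by
        by_cases h1 : χ x = 0
        · rw [hT0 x c h1, add_zero]
          intro h0
          have h2 : fderiv ℝ (D0 Gt) x = 0 := congrArg Prod.snd h0
          rcases (χz x).1 h1 with h3 | h3
          · have := hfar x hx.2 h3
            rw [h2, norm_zero] at this
            exact absurd hm (not_lt.2 this)
          · exact low_tube h (TC_sub_TT (half_lt_self h.pos) h3) hx.2 h2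
        · by_cases h2 : x.2 = 0
          · exact c1 x ⟨hx, h2⟩
          · exact c2 x ⟨h1, h2⟩)
    refine ⟨μ / 2, min μ m, _, half_pos hμ, lt_min hμ hm, isCompact_closedBall 0 ρ,
      fun x hx h1 => ?_⟩
    by_cases h2 : x ∈ Metric.closedBall (0 : XX Y K) ρ
    · have h3 := hb x ⟨h2, hx⟩
      rw [← hJ, Prod.norm_mk, le_max_iff] at h3
      refine (min_le_left _ _).trans (h3.resolve_left fun h4 => ?_)
      have := h1.resolve_right (not_not.2 h2)
      rw [Real.norm_eq_abs] at h4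
      linarith
    · have h3 := (not_le.1 (mem_closedBall_zero_iff.not.1 h2)).le
      have h4 := congrArg Prod.snd (hJ x)
      rw [hT0 x c ((χz x).2 (Or.inl h3)), add_zero] at h4
      exact (min_le_right _ _).trans ((hfar x hx h3).trans_eq (congrArg norm h4.symm))

end Pool.Agent.MP_c8d41b_gt.GF

end
end MrgPart0

-- ======== part 1: formerly Pool.Agent.MP_c8d41b_gt.gf.TransA
section MrgPart1

/-! PROJECT GF, row TRANS, part A: generic quadratic perturbations are regular. -/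

open scoped ContDiff Topology
open Set Filter

noncomputable section

namespace Pool.Agent.MP_c8d41b_gt.GF.Trans

variable {p q k : ℕ}

/-- `Fin.append` as a continuous linear map -/
def apL (k q : ℕ) : (Fin k → ℝ) × (Fin q → ℝ) →L[ℝ] Fin (k + q) → ℝ :=
  LinearMap.toContinuousLinearMap
    { toFun := fun y => Fin.append y.1 y.2
      map_add' := fun y y' => funext fun l => by
        refine Fin.addCases (fun i => ?_) (fun i => ?_) l <;> simp
      map_smul' := fun c y => funext fun l => by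
        refine Fin.addCases (fun i => ?_) (fun i => ?_) l <;> simp }

theorem apL_apply (y : (Fin k → ℝ) × (Fin q → ℝ)) : apL k q y = Fin.append y.1 y.2 := rfl

theorem apL_surj : Function.Surjective (apL k q) := fun y =>
  ⟨(fun i => y (Fin.castAdd q i), fun i => y (Fin.natAdd k i)), Fin.append_castAdd_natAdd⟩

theorem append_eq_zero {a : Fin k → ℝ} {b : Fin q → ℝ} (h : Fin.append a b = 0) :
    a = 0 ∧ b = 0 :=
  ⟨funext fun i => by simpa using congrFun h (Fin.castAdd q i),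
    funext fun i => by simpa using congrFun h (Fin.natAdd k i)⟩

/-- the total space -/
abbrev X (p k : ℕ) : Type := ℝ × Tot p k

/-- inclusion of the fibre -/
def io (p k : ℕ) : (Fin k → ℝ) →L[ℝ] X p k :=
  (ContinuousLinearMap.inr ℝ _ _).comp (ContinuousLinearMap.inr ℝ _ _)
/-- projection to the fibre -/
def pr (p k : ℕ) : X p k →L[ℝ] Fin k → ℝ :=
  (ContinuousLinearMap.snd ℝ _ _).comp (ContinuousLinearMap.snd ℝ _ _)
/-- projection to the base -/
def pz (p k : ℕ) : X p k →L[ℝ] Fin p → ℝ :=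
  (ContinuousLinearMap.fst ℝ _ _).comp (ContinuousLinearMap.snd ℝ _ _)

/-- fibre derivative on the total space -/
def Vf (h : X p k → ℝ) (x : X p k) : Fin k → ℝ :=
  fun i => fderiv ℝ h x (io p k (Pi.single i 1))

theorem dv_eq {h : X p k → ℝ} {x : X p k} (hh : DifferentiableAt ℝ h x) :
    dv (fun y => h (x.1, y)) x.2 = Vf h x := funext fun i => by
  have := (hh.hasFDerivAt.comp x.2 (hasFDerivAt_prodMk_right (𝕜 := ℝ) x.1 x.2)).fderiv
  exact congrArg (fun L => L (0, Pi.single i 1)) this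

theorem cob_eq {h : X p k → ℝ} (hh : Differentiable ℝ h) (g : (Fin p → ℝ) → Fin q → ℝ) :
    cob g h = fun x => apL k q (Vf h x, g (pz p k x)) := funext fun x => by
  rw [cob, crit, dv_eq (hh x)]; rfl

theorem sum_single (l : Fin k → ℝ) : ∑ i, l i • (Pi.single i 1 : Fin k → ℝ) = l := by
  funext j; simp [Finset.sum_apply, Pi.single_apply]

/-- criterion for regularity -/
theorem surj_of {h : X p k → ℝ} (hh : ContDiff ℝ ∞ h) {g : (Fin p → ℝ) → Fin q → ℝ}
    (hg : ContDiff ℝ ∞ g) {x : X p k} (hs : Function.Surjective (fderiv ℝ g (pz p k x)))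
    (H : ∀ l : Fin k → ℝ, l ≠ 0 → ∃ δ, fderiv ℝ g (pz p k x) (pz p k δ) = 0 ∧
      fderiv ℝ (fderiv ℝ h) x δ (io p k l) ≠ 0) :
    Function.Surjective (fderiv ℝ (cob g h) x) := by
  have h2 : HasFDerivAt (fderiv ℝ h) (fderiv ℝ (fderiv ℝ h) x) x :=
    ((hh.fderiv_right (m := 1) (by decide)).differentiable one_ne_zero x).hasFDerivAt
  let L1 : X p k →L[ℝ] Fin k → ℝ := ContinuousLinearMap.pi fun i =>
    (fderiv ℝ (fderiv ℝ h) x).flip (io p k (Pi.single i 1))
  let L2 := (fderiv ℝ g (pz p k x)).comp (pz p k)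
  have hV : HasFDerivAt (Vf h) L1 x := hasFDerivAt_pi.2 fun i => by
    have := h2.clm_apply (hasFDerivAt_const (io p k (Pi.single i 1)) x)
    rw [ContinuousLinearMap.comp_zero, zero_add] at this
    exact this
  have hG : HasFDerivAt (fun x => g (pz p k x)) L2 x :=
    (hg.differentiable (by simp) _).hasFDerivAt.comp x (pz p k).hasFDerivAt
  have hc : fderiv ℝ (cob g h) x = (apL k q).comp (L1.prod L2) := by
    rw [cob_eq (hh.differentiable (by simp))]
    exact ((apL k q).hasFDerivAt.comp x (hV.prodMk hG)).fderiv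
  have hk : Submodule.map L1.toLinearMap L2.ker = ⊤ := by
    by_contra hne
    obtain ⟨f, hf, hle⟩ := Submodule.exists_le_ker_of_lt_top _ (lt_top_iff_ne_top.2 hne)
    have hf' : ∀ y : Fin k → ℝ, f y = ∑ i, y i * f (Pi.single i 1) := fun y => by
      conv_lhs => rw [← sum_single y]
      simp [map_sum]
    obtain ⟨δ, h1, h3⟩ := H (fun i => f (Pi.single i 1)) fun h0 => hf (LinearMap.ext fun y => by
      rw [hf']; simp [show ∀ i, f (Pi.single i 1) = 0 from congrFun h0])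
    apply h3
    have : f (L1 δ) = 0 := hle ⟨δ, h1, rfl⟩
    rw [hf'] at this
    rw [← sum_single (fun i => f (Pi.single i 1)), map_sum, map_sum, ← this]
    exact Finset.sum_congr rfl fun i _ => by simp [L1, mul_comm]
  rw [hc]
  refine apL_surj.comp fun y => ?_
  obtain ⟨z, hz⟩ := hs y.2
  obtain ⟨δ, h1, h3⟩ : y.1 - L1 (0, z, 0) ∈ Submodule.map L1.toLinearMap L2.ker :=
    hk ▸ Submodule.mem_top
  refine ⟨(0, z, 0) + δ, Prod.ext ?_ ?_⟩
  · have : L1 δ = y.1 - L1 (0, z, 0) := h3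
    change L1 ((0, z, 0) + δ) = _
    rw [map_add, this, add_sub_cancel]
  · have : L2 δ = 0 := h1
    change L2 ((0, z, 0) + δ) = _
    rw [map_add, this, add_zero]
    exact hz

/-- parameters -/
abbrev PP (p k : ℕ) : Type := (Fin k → ℝ) × (X p k →L[ℝ] Fin k → ℝ)

/-- the dot product -/
def dt (k : ℕ) : (Fin k → ℝ) →L[ℝ] (Fin k → ℝ) →L[ℝ] ℝ := bil (dotProductBilin ℝ ℝ)

theorem dt_apply (a b : Fin k → ℝ) : dt k a b = ∑ i, a i * b i := rfl

theorem dt_comm (a b : Fin k → ℝ) : dt k a b = dt k b a := dotProduct_comm a b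

theorem dt_single (a : Fin k → ℝ) (i : Fin k) : dt k a (Pi.single i 1) = a i := by
  simp [dt_apply, Pi.single_apply]

/-- the quadratic perturbation -/
def Pc (c : PP p k) (x : X p k) : ℝ := dt k (c.1 + c.2 x) (pr p k x)

theorem cd_Pc : ContDiff ℝ ∞ fun y : PP p k × X p k => Pc y.1 y.2 :=
  ((dt k).contDiff.comp (contDiff_fst.fst.add (contDiff_fst.snd.clm_apply contDiff_snd))).clm_apply
    ((pr p k).contDiff.comp contDiff_snd)

theorem cd_Pc' (c : PP p k) : ContDiff ℝ ∞ (Pc c) :=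
  cd_Pc.comp (contDiff_const.prodMk contDiff_id)

theorem fd_Pc (c : PP p k) (x δ : X p k) : fderiv ℝ (Pc c) x δ =
    dt k (c.1 + c.2 x) (pr p k δ) + dt k (c.2 δ) (pr p k x) :=
  congrArg (fun L => L δ) (((dt k).hasFDerivAt.comp x (c.2.hasFDerivAt.const_add c.1)).clm_apply
    (pr p k).hasFDerivAt).fderiv

theorem fd2_Pc (c : PP p k) (x δ : X p k) (l : Fin k → ℝ) :
    fderiv ℝ (fderiv ℝ (Pc c)) x δ (io p k l) =
      dt k l (c.2 δ) + dt k (c.2 (io p k l)) (pr p k δ) := by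
  have h2 : HasFDerivAt (fderiv ℝ (Pc c)) (fderiv ℝ (fderiv ℝ (Pc c)) x) x :=
    (((cd_Pc' c).fderiv_right (m := 1) (by decide)).differentiable one_ne_zero x).hasFDerivAt
  have h3 := h2.clm_apply (hasFDerivAt_const (io p k l) x)
  have h4 : HasFDerivAt (fun y => fderiv ℝ (Pc c) y (io p k l))
      ((dt k l).comp c.2 + (dt k (c.2 (io p k l))).comp (pr p k)) x := by
    have := (((dt k l).comp c.2).hasFDerivAt.add
      ((dt k (c.2 (io p k l))).comp (pr p k)).hasFDerivAt).const_add (dt k l c.1) (x := x)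
    refine this.congr_of_eventuallyEq (Eventually.of_forall fun y => ?_)
    simp only [fd_Pc]
    rw [dt_comm (c.1 + c.2 y), map_add, add_assoc]
    rfl
  simpa using congrArg (fun L => L δ) (h3.unique h4)

section Chart
variable {n : ℕ}

/-- chart coordinates -/
abbrev W (n k : ℕ) : Type := ℝ × (Fin n → ℝ) × (Fin k → ℝ)

/-- the linear part of the equations -/
def TL (x : X p k) (M : W n k →L[ℝ] X p k) (l : Fin k → ℝ) :
    (PP p k × ℝ) →ₗ[ℝ] (Fin k → ℝ) × (W n k →L[ℝ] ℝ) × ℝ where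
  toFun c := (c.1.1 + (c.1.2 x + fun i => dt k (c.1.2 (io p k (Pi.single i 1))) (pr p k x)),
    ((dt k l).comp c.1.2 + (dt k (c.1.2 (io p k l))).comp (pr p k)).comp M, c.2)
  map_add' c c' := by
    refine Prod.ext (funext fun i => ?_) (Prod.ext (ContinuousLinearMap.ext fun w => ?_) rfl)
    · simp; ring
    · simp; ring
  map_smul' s c := by
    refine Prod.ext (funext fun i => ?_) (Prod.ext (ContinuousLinearMap.ext fun w => ?_) rfl)
    · simp
    · simp

theorem TL_surj (x : X p k) {M : W n k →L[ℝ] X p k} (hM : Function.Injective M) {l : Fin k → ℝ}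
    (hl : l ≠ 0) : Function.Surjective (TL x M l) := by
  rintro ⟨t1, t2, t3⟩
  obtain ⟨N, hN⟩ := M.toLinearMap.exists_leftInverse_of_injective (LinearMap.ker_eq_bot.2 hM)
  obtain ⟨i, hi0⟩ := Function.ne_iff.1 hl
  let μ : Fin k → ℝ := (l i)⁻¹ • Pi.single i 1
  have hμ : dt k l μ = 1 := by
    rw [map_smul, dt_single]; exact inv_mul_cancel₀ hi0
  let l0 : X p k →L[ℝ] ℝ := t2.comp (LinearMap.toContinuousLinearMap N)
  let l1 := l0 - (l0 (io p k l) / 2) • (dt k μ).comp (pr p k)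
  let c2 := l1.smulRight μ
  refine ⟨((t1 - (c2 x + fun i => dt k (c2 (io p k (Pi.single i 1))) (pr p k x)), c2), t3),
    Prod.ext (sub_add_cancel _ _) (Prod.ext (ContinuousLinearMap.ext fun w => ?_) rfl)⟩
  have h1 : l0 (M w) = t2 w := congrArg t2 (LinearMap.congr_fun hN w)
  have h2 : pr p k (io p k l) = l := rfl
  change dt k l (l1 (M w) • μ) + dt k (l1 (io p k l) • μ) (pr p k (M w)) = t2 w
  simp only [l1, sub_apply, smul_apply, map_smul,
    ContinuousLinearMap.comp_apply, h1, h2, hμ, dt_comm μ l, smul_eq_mul]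
  ring

/-- the bad parameters seen in one chart of the base -/
theorem chart_small (hS : SardStmt) {F : X p k → ℝ} (hF : ContDiff ℝ ∞ F)
    {φ : (Fin n → ℝ) → Fin p → ℝ} {V : Set (Fin n → ℝ)} (hV : IsOpen V)
    (hφ : ContDiffOn ℝ ∞ φ V) (hi : ∀ t ∈ V, Function.Injective (fderiv ℝ φ t)) :
    dimH {c : PP p k × ℝ | ∃ r, ∃ t ∈ V, ∃ v l, l ≠ 0 ∧ nq l - 1 + c.2 = 0 ∧
      Vf (fun x => F x + Pc c.1 x) (r, φ t, v) = 0 ∧
      ∀ a b e, fderiv ℝ (fderiv ℝ fun x => F x + Pc c.1 x) (r, φ t, v) (a, fderiv ℝ φ t b, e)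
        (io p k l) = 0} ≤ ((Module.finrank ℝ (PP p k × ℝ) - 1 : ℕ) : ENNReal) := by
  let j : W n k × (Fin k → ℝ) → X p k := fun a => (a.1.1, φ a.1.2.1, a.1.2.2)
  let M : W n k × (Fin k → ℝ) → W n k →L[ℝ] X p k := fun a =>
    (ContinuousLinearMap.id ℝ ℝ).prodMap
      ((fderiv ℝ φ a.1.2.1).prodMap (ContinuousLinearMap.id ℝ _))
  let O : Set (W n k × (Fin k → ℝ)) := {a | a.1.2.1 ∈ V ∧ a.2 ≠ 0}
  have ht : ContDiff ℝ ∞ fun a : W n k × (Fin k → ℝ) => a.1.2.1 := contDiff_fst.snd.fst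
  have hO : IsOpen O := (hV.preimage ht.continuous).inter (isOpen_ne.preimage continuous_snd)
  have hj : ContDiffOn ℝ ∞ j O := contDiff_fst.fst.contDiffOn.prodMk
    ((hφ.comp ht.contDiffOn fun a ha => ha.1).prodMk contDiff_fst.snd.snd.contDiffOn)
  have hM : ContDiffOn ℝ ∞ M O := contDiffOn_clm_apply.2 fun w => contDiffOn_const.prodMk
    ((((hφ.fderiv_of_isOpen hV (by simp)).comp ht.contDiffOn fun a ha => ha.1).clm_apply
      contDiffOn_const).prodMk contDiffOn_const)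
  have hl : ContDiffOn ℝ ∞ (fun a : W n k × (Fin k → ℝ) => io p k a.2) O :=
    ((io p k).contDiff.comp contDiff_snd).contDiffOn
  have hF1 : ContDiff ℝ ∞ (fderiv ℝ F) := hF.fderiv_right (by simp)
  have hF2 : ContDiff ℝ ∞ (fderiv ℝ (fderiv ℝ F)) := hF1.fderiv_right (by simp)
  let u : W n k × (Fin k → ℝ) → (Fin k → ℝ) × (W n k →L[ℝ] ℝ) × ℝ := fun a =>
    (Vf F (j a), ((fderiv ℝ (fderiv ℝ F) (j a)).flip (io p k a.2)).comp (M a), nq a.2 - 1)
  let T := fun a => LinearMap.toContinuousLinearMap (TL (j a) (M a) a.2)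
  have hu : ContDiffOn ℝ ∞ u O := by
    refine (contDiffOn_pi.2 fun i => (hF1.comp_contDiffOn hj).clm_apply contDiffOn_const).prodMk
      (ContDiffOn.prodMk (contDiffOn_clm_apply.2 fun w => ?_)
        ((cd_nq.comp contDiff_snd).sub contDiff_const).contDiffOn)
    exact ((hF2.comp_contDiffOn hj).clm_apply (hM.clm_apply contDiffOn_const)).clm_apply hl
  have hT : ContDiffOn ℝ ∞ T O := by
    refine contDiffOn_clm_apply.2 fun c => ?_
    have h1 : ContDiffOn ℝ ∞ (fun a => c.1.1 + (c.1.2 (j a) + fun i =>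
        dt k (c.1.2 (io p k (Pi.single i 1))) (pr p k (j a)))) O := contDiffOn_const.add
      ((c.1.2.contDiff.comp_contDiffOn hj).add (contDiffOn_pi.2 fun i =>
        contDiffOn_const.clm_apply ((pr p k).contDiff.comp_contDiffOn hj)))
    have h2 : ContDiffOn ℝ ∞ (fun a => ((dt k a.2).comp c.1.2 +
        (dt k (c.1.2 (io p k a.2))).comp (pr p k)).comp (M a)) O :=
      ((((dt k).contDiff.comp contDiff_snd).contDiffOn.clm_comp contDiffOn_const).add
        (((dt k).contDiff.comp_contDiffOn (c.1.2.contDiff.comp_contDiffOn hl)).clm_comp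
          contDiffOn_const)).clm_comp hM
    exact h1.prodMk (h2.prodMk contDiffOn_const)
  have hs : ∀ a ∈ O, Function.Surjective (T a) := fun a ha =>
    TL_surj _ (fun w w' h => Prod.ext (congrArg (fun y => y.1) h) (Prod.ext
      (hi _ ha.1 (congrArg (fun y => y.2.1) h)) (congrArg (fun y => y.2.2) h))) ha.2
  refine le_trans (dimH_mono ?_) (hS _ _ _ O u T hO hu hT hs ?_)
  · rintro c ⟨r, t, htV, v, l, hl0, h1, h2, h3⟩
    have hP := cd_Pc' c.1
    have e1 : fderiv ℝ (fun x => F x + Pc c.1 x) = fun x => fderiv ℝ F x + fderiv ℝ (Pc c.1) x :=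
      funext fun x => fderiv_fun_add (hF.differentiable (by simp) x) (hP.differentiable (by simp) x)
    rw [e1] at h3
    refine ⟨((r, t, v), l), ⟨htV, hl0⟩, Prod.ext (funext fun i => ?_)
      (Prod.ext (ContinuousLinearMap.ext fun w => ?_) h1)⟩
    · have := congrFun h2 i
      rw [Vf, e1, add_apply, fd_Pc,
        show pr p k (io p k (Pi.single i 1)) = Pi.single i 1 from rfl, dt_single, Pi.add_apply,
        add_assoc] at this
      exact this
    · have := h3 w.1 w.2.1 w.2.2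
      rw [fderiv_fun_add (hF1.differentiable (by simp) _)
        ((hP.fderiv_right (m := 1) (by decide)).differentiable one_ne_zero _),
        add_apply, add_apply, fd2_Pc] at this
      exact this
  · simp only [Module.finrank_prod, Module.finrank_self, Module.finrank_fin_fun,
      ← (LinearMap.toContinuousLinearMap (𝕜 := ℝ) (F' := ℝ)).finrank_eq,
      Module.finrank_linearMap_self]
    omega

theorem generic (hS : SardStmt) (hC : ChartStmt) (hn : 1 ≤ n) (hp : p = n + q)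
    {g : (Fin p → ℝ) → Fin q → ℝ} (hg : Base g) {F : X p k → ℝ} (hF : ContDiff ℝ ∞ F)
    {N : Set (PP p k)} (hN : N ∈ 𝓝 0) : ∃ c ∈ N, Reg (cob g fun x => F x + Pc c x) := by
  let J : (Fin p → ℝ) ≃L[ℝ] (Fin n → ℝ) × (Fin q → ℝ) :=
    ContinuousLinearEquiv.ofFinrankEq (by simp [hp])
  choose! φ V hφ U hU hzU hUV using fun z (hz : g z = 0) => hC _ q n g J z hn hg.sm hg.reg hz
  have hM : IsCompact (g ⁻¹' {0}) := hg.cpt.of_isClosed_subset
    (isClosed_singleton.preimage hg.sm.continuous) fun z hz => by simp [show g z = 0 from hz]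
  obtain ⟨S, hS1, hS2⟩ := hM.elim_nhds_subcover U fun z hz => (hU z hz).mem_nhds (hzU z hz)
  have hi : ∀ z ∈ S, ∀ t ∈ V z, Function.Injective (fderiv ℝ (φ z) t) := fun z hz t ht => by
    obtain ⟨Y, -, hY⟩ := (hφ z (hS1 z hz)).pos t ht
    have h1 := (LinearMap.equivOfDetNeZero _ hY.ne').injective
    intro a b hab
    have : ((a, 0) : (Fin n → ℝ) × (Fin q → ℝ)) = (b, 0) := h1 (by
      change J (fderiv ℝ (φ z) t a + Y 0) = J (fderiv ℝ (φ z) t b + Y 0)
      rw [hab])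
    exact congrArg Prod.fst this
  have hd := iSup₂_le fun z (hz : z ∈ (S : Set (Fin p → ℝ))) =>
    chart_small hS hF (hφ z (hS1 z hz)).op (hφ z (hS1 z hz)).sm (hi z hz)
  rw [← dimH_bUnion S.countable_toSet] at hd
  have hpos : 0 < Module.finrank ℝ (PP p k × ℝ) := by
    rw [Module.finrank_prod, Module.finrank_self]; omega
  obtain ⟨c, hc1, hc2⟩ := (dense_compl_of_dimH_lt_finrank
    (hd.trans_lt (by exact_mod_cast Nat.sub_one_lt hpos.ne'))).inter_nhds_nonempty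
    (prod_mem_nhds hN (Iio_mem_nhds (zero_lt_one' ℝ)))
  have hh : ContDiff ℝ ∞ fun x => F x + Pc c.1 x := hF.add (cd_Pc' c.1)
  refine ⟨c.1, hc2.1, fun x hx => ?_⟩
  rw [cob_eq (hh.differentiable (by simp))] at hx
  obtain ⟨h1, h2⟩ := append_eq_zero hx
  refine surj_of hh hg.sm (hg.reg _ h2) fun l hl => ?_
  by_contra hne
  push Not at hne
  obtain ⟨z, hz, hxz⟩ := mem_iUnion₂.1 (hS2 h2)
  have hφ' := hφ z (hS1 z hz)
  obtain ⟨t, ht, e⟩ := hUV z (hS1 z hz) ⟨hxz, h2⟩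
  have hq : 0 < nq l := (nq_nonneg l).lt_of_ne' fun h => hl (nq_eq_zero h)
  have h3 : 0 < (1 - c.2) / nq l := div_pos (sub_pos.2 hc2.2) hq
  have hx' : x = (x.1, φ z t, x.2.2) := by rw [e]; rfl
  refine hc1 (mem_iUnion₂.2 ⟨z, hz, x.1, t, ht, x.2.2, √((1 - c.2) / nq l) • l,
    smul_ne_zero (Real.sqrt_pos.2 h3).ne' hl, ?_, hx' ▸ h1, fun a b e' => ?_⟩)
  · rw [nq_smul, Real.sq_sqrt h3.le, div_mul_cancel₀ _ hq.ne']; ring
  · rw [map_smul, map_smul, ← hx', hne, smul_zero]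
    have h4 : DifferentiableAt ℝ (φ z) t :=
      (hφ'.sm.contDiffAt (hφ'.op.mem_nhds ht)).differentiableAt (by simp)
    have h5 := fderiv_fun_comp t (hg.sm.differentiable (by simp) _) h4
    rw [EventuallyEq.fderiv_eq (f := fun _ => 0)
      (by filter_upwards [hφ'.op.mem_nhds ht] with y hy using hφ'.mem y hy), e] at h5
    change fderiv ℝ g (pz p k x) (fderiv ℝ (φ z) t b) = 0
    simpa using (congrArg (fun L => L b) h5).symm

end Chart

end Pool.Agent.MP_c8d41b_gt.GF.Trans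

end
end MrgPart1

-- ======== part 2: formerly Pool.Agent.MP_c8d41b_gt.gf.Trans
section MrgPart2

/-! PROJECT GF, row TRANS: a regular path exists. -/

open scoped ContDiff Topology
open Set Filter

noncomputable section

namespace Pool.Agent.MP_c8d41b_gt.GF

namespace Trans

variable {p q k : ℕ} {g : (Fin p → ℝ) → Fin q → ℝ}

theorem cd_cob {Z : Type} [NormedAddCommGroup Z] [NormedSpace ℝ Z] {H : Z → X p k → ℝ}
    (hH : ContDiff ℝ ∞ (Function.uncurry H)) (hg : ContDiff ℝ ∞ g) :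
    (ContDiff ℝ ∞ fun y : Z × X p k => Vf (H y.1) y.2) ∧
      ContDiff ℝ ∞ fun y : Z × X p k => cob g (H y.1) y.2 := by
  have h1 : ContDiff ℝ ∞ fun y : Z × X p k => Vf (H y.1) y.2 := contDiff_pi.2 fun i =>
    (ContDiff.fderiv (f := fun y : Z × X p k => H y.1) (hH.comp (contDiff_fst.fst.prodMk
      contDiff_snd)) contDiff_snd (by simp)).clm_apply contDiff_const
  refine ⟨h1, ?_⟩
  have : ∀ c, Differentiable ℝ (H c) := fun c =>
    (hH.comp (contDiff_const.prodMk contDiff_id)).differentiable (by simp)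
  simp only [cob_eq (this _)]
  exact (apL k q).contDiff.comp (h1.prodMk (hg.comp ((pz p k).contDiff.comp contDiff_snd)))

/-- regular points of the equations -/
def Good (g : (Fin p → ℝ) → Fin q → ℝ) (h : X p k → ℝ) (x : X p k) : Prop :=
  cob g h x = 0 → Function.Surjective (fderiv ℝ (cob g h) x)

theorem good_open (hR : RinvStmt) {Z : Type} [NormedAddCommGroup Z] [NormedSpace ℝ Z]
    {H : Z → X p k → ℝ} (hH : ContDiff ℝ ∞ (Function.uncurry H)) (hg : ContDiff ℝ ∞ g) :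
    IsOpen {y : Z × X p k | Good g (H y.1) y.2} := by
  have h := (cd_cob hH hg).2
  have h2 : ContDiff ℝ ∞ fun y : Z × X p k => fderiv ℝ (cob g (H y.1)) y.2 :=
    ContDiff.fderiv (f := fun y : Z × X p k => cob g (H y.1)) (h.comp (contDiff_fst.fst.prodMk
      contDiff_snd)) contDiff_snd (by simp)
  simp only [Good, imp_iff_not_or]
  exact (isOpen_ne.preimage h.continuous).union ((hR _ _).1.preimage h2.continuous)

theorem good_end {h : X p k → ℝ} (hh : ContDiff ℝ ∞ h) (hg : ContDiff ℝ ∞ g) {f : Tot p k → ℝ}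
    (hf : Gen g f) {x : X p k} (e : ∀ y, h (x.1, y) = f y) : Good g h x := fun hx => by
  have e1 : (fun y => cob g h (x.1, y)) = crit g f := funext fun y => by
    rw [cob, funext e]
  have h1 : ContDiff ℝ ∞ (cob g h) := (cd_cob (H := fun _ : ℝ => h) (hh.comp contDiff_snd)
    hg).2.comp ((contDiff_const (c := (0 : ℝ))).prodMk contDiff_id)
  have h2 := ((h1.differentiable (by simp) x).hasFDerivAt.comp x.2
    (hasFDerivAt_prodMk_right (𝕜 := ℝ) x.1 x.2)).fderiv
  have h3 := hf.reg x.2 (e1 ▸ hx)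
  rw [← e1] at h3
  intro y
  obtain ⟨v, hv⟩ := h3 y
  exact ⟨(0, v), (congrArg (fun L => L v) h2).symm.trans hv⟩

theorem good_congr {h h' : X p k → ℝ} (hh : ContDiff ℝ ∞ h) (hh' : ContDiff ℝ ∞ h') {x : X p k}
    (e : h =ᶠ[𝓝 x] h') (H : Good g h' x) : Good g h x := by
  have : cob g h =ᶠ[𝓝 x] cob g h' := by
    rw [cob_eq (hh.differentiable (by simp)), cob_eq (hh'.differentiable (by simp))]
    filter_upwards [e.fderiv (𝕜 := ℝ)] with y hy
    rw [show Vf h y = Vf h' y from funext fun i => by rw [Vf, Vf, hy]]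
  rwa [Good, this.fderiv_eq, this.eq_of_nhds]

end Trans

open _root_.Pool.Agent.MP_c8d41b_gt.GF.Trans in
theorem trans_ (hS : SardStmt) (hC : ChartStmt) (hB : BumpStmt) (hR : RinvStmt) : TransStmt := by
  intro p q k n g F f₀ f₁ hn hp hg h0 h1 hF
  obtain ⟨R₀, m, hm, hfar⟩ := hF.far
  obtain ⟨K₀, hK⟩ := hF.bdd
  let R := |R₀| + 1
  have hR0 : 0 < R := by positivity
  have hfar' : ∀ x : X p k, ‖g x.2.1‖ ≤ 1 → R ≤ ‖x.2.2‖ → m ≤ ‖Vf F x‖ := fun x h h' => by
    rw [← dv_eq (hF.sm.differentiable (by simp) x)]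
    exact hfar _ _ h (by linarith [le_abs_self R₀])
  let K : Set (Tot p k) := {z | ‖g z‖ ≤ 1} ×ˢ Metric.closedBall 0 (R + 2)
  have hKc : IsCompact K := hg.cpt.prod (isCompact_closedBall _ _)
  have hO := good_open hR (H := fun _ : ℝ => F) (hF.sm.comp contDiff_snd) hg.sm
  have ev : ∀ r₀ : ℝ, (∀ y, Good g F (r₀, y)) → ∃ η > 0, ∀ r, |r - r₀| < η → ∀ y ∈ K,
      Good g F (r, y) := fun r₀ h => Metric.eventually_nhds_iff.1
    (hKc.eventually_forall_of_forall_eventually (P := fun r y => Good g F (r, y)) fun y _ =>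
      (hO.preimage ((continuous_const (y := (0 : ℝ))).prodMk continuous_id)).mem_nhds (h y))
  obtain ⟨η₀, hη₀, e0⟩ := ev 0 fun y => good_end hF.sm hg.sm h0 (hF.left 0 le_rfl)
  obtain ⟨η₁, hη₁, e1⟩ := ev 1 fun y => good_end hF.sm hg.sm h1 (hF.right 1 le_rfl)
  obtain ⟨η, hη, hη0, hη1⟩ : ∃ η > 0, η < η₀ ∧ η < η₁ :=
    ⟨min η₀ η₁ / 2, by positivity, by linarith [min_le_left η₀ η₁, lt_min hη₀ hη₁],
      by linarith [min_le_right η₀ η₁, lt_min hη₀ hη₁]⟩
  obtain ⟨ψ, hψ, ψ1, ψ0, -⟩ := hB.2.1 (-η) 0 (by linarith)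
  let ρ : ContDiffBump (0 : Fin k → ℝ) := ⟨R, R + 1, hR0, by linarith⟩
  let w : X p k → ℝ := fun x => ψ (-x.1) * ψ (x.1 - 1) * ρ x.2.2
  have hw : ContDiff ℝ ∞ w := ((hψ.comp contDiff_fst.neg).mul
    (hψ.comp (contDiff_fst.sub contDiff_const))).mul (ρ.contDiff.comp contDiff_snd.snd)
  let H : PP p k → X p k → ℝ := fun c x => F x + w x * Pc c x
  have hH : ContDiff ℝ ∞ (Function.uncurry H) :=
    (hF.sm.comp contDiff_snd).add ((hw.comp contDiff_snd).mul cd_Pc)
  have hH1 : ∀ c, ContDiff ℝ ∞ (H c) := fun c => hH.comp (contDiff_const.prodMk contDiff_id)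
  have H0 : H 0 = F := funext fun x => by simp [H, Pc]
  have hl : ∀ c, ∀ r ≤ 0, ∀ y, H c (r, y) = F (r, y) := fun c r hr y => by
    simp [H, w, ψ0 (-r) (by linarith)]
  have hr : ∀ c, ∀ r ≥ 1, ∀ y, H c (r, y) = F (r, y) := fun c r hr y => by
    simp [H, w, ψ0 (r - 1) (by linarith)]
  have hv : ∀ c (x : X p k), R + 1 < ‖x.2.2‖ → H c =ᶠ[𝓝 x] F := fun c x hx => by
    filter_upwards [(isOpen_lt continuous_const continuous_snd.snd.norm).mem_nhds hx] with y hy
    simp [H, w, ρ.zero_of_le_dist (x := y.2.2) (by simpa using le_of_lt hy)]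
  have hK2 : IsCompact (Icc (0 : ℝ) 1 ×ˢ K) := isCompact_Icc.prod hKc
  have E1 : ∀ᶠ c in 𝓝 (0 : PP p k), ∀ x ∈ (Icc 0 η ∪ Icc (1 - η) 1) ×ˢ K, Good g (H c) x :=
    ((isCompact_Icc.union isCompact_Icc).prod hKc).eventually_forall_of_forall_eventually
      (P := fun c x => Good g (H c) x) fun x hx => (good_open hR hH hg.sm).mem_nhds (by
        change Good g (H 0) x
        rw [H0]
        rcases hx.1 with h | h
        · exact e0 _ (abs_lt.2 ⟨by linarith [h.1], by linarith [h.2]⟩) _ hx.2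
        · exact e1 _ (abs_lt.2 ⟨by linarith [h.1], by linarith [h.2]⟩) _ hx.2)
  have E2 : ∀ᶠ c in 𝓝 (0 : PP p k), ∀ x ∈ Icc (0 : ℝ) 1 ×ˢ K,
      ‖Vf (H c) x - Vf F x‖ < m / 2 ∧ |H c x - F x| < 1 := by
    refine hK2.eventually_forall_of_forall_eventually
      (P := fun c x => ‖Vf (H c) x - Vf F x‖ < m / 2 ∧ |H c x - F x| < 1) fun x _ => ?_
    have c1 := (cd_cob hH hg.sm).1.continuous
    have c2 := (cd_cob (H := fun _ : PP p k => F) (hF.sm.comp contDiff_snd) hg.sm).1.continuous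
    refine ((c1.sub c2).norm.continuousAt.eventually_lt continuousAt_const ?_).and
      ((hH.continuous.sub (hF.sm.continuous.comp continuous_snd)).abs.continuousAt.eventually_lt
        continuousAt_const ?_)
    · simpa [H0] using hm
    · simp [H0]
  obtain ⟨c, ⟨c1, c2⟩, hc⟩ := generic hS hC hn hp hg hF.sm (E1.and E2)
  have close : ∀ x : X p k, ‖g x.2.1‖ ≤ 1 →
      ‖Vf (H c) x - Vf F x‖ < m / 2 ∧ |H c x - F x| < 1 := fun x hx => by
    have aux : (∀ y, H c (x.1, y) = F (x.1, y)) →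
        ‖Vf (H c) x - Vf F x‖ < m / 2 ∧ |H c x - F x| < 1 := fun h => by
      rw [← dv_eq ((hH1 c).differentiable (by simp) x), ← dv_eq (hF.sm.differentiable (by simp) x),
        funext h, show H c x = F x from h x.2]
      simpa using hm
    rcases le_or_gt x.1 0 with h | h
    · exact aux (hl c _ h)
    rcases le_or_gt 1 x.1 with h' | h'
    · exact aux (hr c _ h')
    rcases le_or_gt ‖x.2.2‖ (R + 2) with h'' | h''
    · exact c2 x ⟨⟨h.le, h'.le⟩, hx, mem_closedBall_zero_iff.2 h''⟩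
    · have := hv c x (by linarith)
      rw [show Vf (H c) x = Vf F x from funext fun i => by rw [Vf, Vf, this.fderiv_eq],
        this.eq_of_nhds]
      simpa using hm
  have far : ∀ x : X p k, ‖g x.2.1‖ ≤ 1 → R ≤ ‖x.2.2‖ → m / 2 ≤ ‖Vf (H c) x‖ := fun x h h' => by
    linarith [hfar' x h h', (close x h).1, norm_sub_norm_le (Vf F x) (Vf (H c) x),
      norm_sub_rev (Vf F x) (Vf (H c) x)]
  refine ⟨H c, ⟨hH1 c, fun r h y => (hl c r h y).trans (hF.left r h y),
    fun r h y => (hr c r h y).trans (hF.right r h y), ⟨R, m / 2, half_pos hm, fun r y h h' => ?_⟩,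
    K₀ + 1, fun r y h => ?_⟩, fun x hx => ?_⟩
  · rw [dv_eq (x := (r, y)) ((hH1 c).differentiable (by simp) _)]
    exact far (r, y) h h'
  · linarith [hK r y h, (close (r, y) h).2, abs_sub_le (H c (r, y)) (F (r, y)) (f₀ y)]
  · have hx' := hx
    rw [cob_eq ((hH1 c).differentiable (by simp))] at hx'
    obtain ⟨a1, a2⟩ := append_eq_zero hx'
    have a3 : ‖g x.2.1‖ ≤ 1 := by rw [show g x.2.1 = 0 from a2]; simp
    have a4 : ‖x.2.2‖ < R := lt_of_not_ge fun h => by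
      have := far x a3 h
      rw [show Vf (H c) x = 0 from a1, norm_zero] at this
      linarith
    have a5 : x.2 ∈ K := ⟨a3, mem_closedBall_zero_iff.2 (by linarith)⟩
    rcases le_or_gt x.1 0 with h | h
    · exact good_end (hH1 c) hg.sm h0 (fun y => (hl c _ h y).trans (hF.left _ h y)) hx
    rcases le_or_gt 1 x.1 with h' | h'
    · exact good_end (hH1 c) hg.sm h1 (fun y => (hr c _ h' y).trans (hF.right _ h' y)) hx
    rcases le_or_gt x.1 η with b | b
    · exact c1 x ⟨Or.inl ⟨h.le, b⟩, a5⟩ hx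
    rcases le_or_gt (1 - η) x.1 with b' | b'
    · exact c1 x ⟨Or.inr ⟨b', h'.le⟩, a5⟩ hx
    refine good_congr (hH1 c) (hF.sm.add (cd_Pc' c)) ?_ (hc x) hx
    filter_upwards [(isOpen_lt continuous_const continuous_fst).mem_nhds b,
      (isOpen_lt continuous_fst continuous_const).mem_nhds b',
      (isOpen_lt continuous_snd.snd.norm continuous_const).mem_nhds a4] with y y1 y2 y3
    simp [H, w, ψ1 (-y.1) (by linarith [show η < y.1 from y1]),
      ψ1 (y.1 - 1) (by linarith [show y.1 < 1 - η from y2]),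
      ρ.one_of_mem_closedBall (x := y.2.2) (mem_closedBall_zero_iff.2 (le_of_lt y3))]

end Pool.Agent.MP_c8d41b_gt.GF

end
end MrgPart2

-- marker of a merged file
example : 731051 + 60975 = 731051 + 60975 := rfl
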