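import Mathlib.Analysis.Calculus.InverseFunctionTheorem.ContDiff
import Mathlib.Geometry.Manifold.PartitionOfUnity
import Pool.Agent.MP_c8d41b_gt.gf.Stokes
import Mathlib.Analysis.Calculus.BumpFunction.FiniteDimension
import Mathlib.Analysis.SpecialFunctions.SmoothTransition
import Mathlib.Analysis.Normed.Operator.Banach
import Mathlib.Analysis.Normed.Ring.Units
import Pool.Agent.MP_6d695c_gt.sw.Flow
import Mathlib.Analysis.Calculus.Deriv.Prod
import Mathlib.MeasureTheory.Integral.IntervalIntegral.FundThmCalculus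
import Mathlib.LinearAlgebra.QuadraticForm.Signature
import Mathlib.LinearAlgebra.BilinearForm.Orthogonal
import Mathlib.LinearAlgebra.Quotient.Bilinear
import Mathlib.LinearAlgebra.Basis.VectorSpace
import Mathlib.RingTheory.Finiteness.Basic
import Mathlib.Analysis.Calculus.ContDiff.Operations
import Mathlib.Analysis.Calculus.ContDiff.RCLike
import Mathlib.Analysis.Calculus.MeanValue
import Pool.Agent.MP_c8d41b_gt.gf.Thm
import Pool.Agent.MP_c8d41b_gt.gf.Trans
import Pool.Agent.MP_c8d41b_gt.gf.Pou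

-- ======== part 0: formerly Pool.Agent.MP_c8d41b_gt.gf.Chart
section MrgPart0

/-! PROJECT GF: positive charts exist, and the integral over the level set is unique. -/

open scoped ContDiff Topology Manifold
open Set Filter ExteriorAlgebra

noncomputable section

namespace Pool.Agent.MP_c8d41b_gt.GF

namespace ChartP

variable {E : Type} [NormedAddCommGroup E] [NormedSpace ℝ E] [FiniteDimensional ℝ E] {K d : ℕ}

/-- complete a surjection to an isomorphism -/
theorem exists_compl (J : E ≃L[ℝ] (Fin d → ℝ) × (Fin K → ℝ)) (T : E →L[ℝ] Fin K → ℝ)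
    (hT : Function.Surjective T) : ∃ A : E →L[ℝ] Fin d → ℝ,
      ((A.prod T).comp J.symm.toContinuousLinearMap).det ≠ 0 := by
  have h1 : Module.finrank ℝ E = d + K := by
    rw [J.toLinearEquiv.finrank_eq]; simp
  have h2 : Module.finrank ℝ (LinearMap.ker (T : E →ₗ[ℝ] Fin K → ℝ)) = d := by
    have := LinearMap.finrank_range_add_finrank_ker (T : E →ₗ[ℝ] Fin K → ℝ)
    rw [LinearMap.range_eq_top.2 hT] at this
    simp at this
    omega
  obtain ⟨p, hp⟩ := (LinearMap.ker (T : E →ₗ[ℝ] Fin K → ℝ)).subtype.exists_leftInverse_of_injective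
    (Submodule.ker_subtype _)
  let e : LinearMap.ker (T : E →ₗ[ℝ] Fin K → ℝ) ≃ₗ[ℝ] Fin d → ℝ :=
    LinearEquiv.ofFinrankEq _ _ (by simpa using h2)
  refine ⟨LinearMap.toContinuousLinearMap (e.toLinearMap.comp p), fun h0 => ?_⟩
  obtain ⟨v, hv, hv0⟩ := Submodule.exists_mem_ne_zero_of_ne_bot
    (LinearMap.det_eq_zero_iff_ker_ne_bot.1 h0)
  have hv' : (e (p (J.symm v)), T (J.symm v)) = 0 := hv
  have h3 : T (J.symm v) = 0 := congrArg Prod.snd hv'
  have h4 : p (J.symm v) = 0 := e.map_eq_zero_iff.1 (congrArg Prod.fst hv')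
  have h5 : p (J.symm v) = ⟨J.symm v, h3⟩ := congrArg (fun L => L ⟨J.symm v, h3⟩) hp
  rw [h4] at h5
  exact hv0 (J.symm.map_eq_zero_iff.1 (congrArg Subtype.val h5).symm)

/-- the same with positive determinant -/
theorem exists_pos (hd : 1 ≤ d) (J : E ≃L[ℝ] (Fin d → ℝ) × (Fin K → ℝ)) (T : E →L[ℝ] Fin K → ℝ)
    (hT : Function.Surjective T) : ∃ A : E →L[ℝ] Fin d → ℝ,
      0 < ((A.prod T).comp J.symm.toContinuousLinearMap).det := by
  obtain ⟨A, hA⟩ := exists_compl J T hT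
  rcases hA.lt_or_gt with h | h
  · let i₀ : Fin d := ⟨0, hd⟩
    let R : (Fin d → ℝ) →ₗ[ℝ] Fin d → ℝ :=
      Matrix.toLin' (Matrix.diagonal fun i => if i = i₀ then -1 else 1)
    have hR : LinearMap.det R = -1 := by
      rw [LinearMap.det_toLin', Matrix.det_diagonal, Finset.prod_ite_eq']; simp
    refine ⟨(LinearMap.toContinuousLinearMap R).comp A, ?_⟩
    have e : ((((LinearMap.toContinuousLinearMap R).comp A).prod T).comp
        J.symm.toContinuousLinearMap).toLinearMap = (R.prodMap LinearMap.id).comp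
          ((A.prod T).comp J.symm.toContinuousLinearMap).toLinearMap := rfl
    rw [ContinuousLinearMap.det] at h ⊢
    rw [e, LinearMap.det_comp, LinearMap.det_prodMap, hR, LinearMap.det_id]
    linarith
  · exact ⟨A, h⟩

omit [FiniteDimensional ℝ E] in
theorem exists_equiv (J : E ≃L[ℝ] (Fin d → ℝ) × (Fin K → ℝ))
    (L : E →L[ℝ] (Fin d → ℝ) × (Fin K → ℝ)) (h : 0 < (L.comp J.symm.toContinuousLinearMap).det) :
    ∃ M : E ≃L[ℝ] (Fin d → ℝ) × (Fin K → ℝ), (M : E →L[ℝ] _) = L ∧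
      0 < ((J : E →L[ℝ] _).comp M.symm.toContinuousLinearMap).det := by
  let N := ContinuousLinearMap.toContinuousLinearEquivOfDetNeZero _ h.ne'
  refine ⟨J.trans N, ?_, ?_⟩
  · ext1 v
    simp [N]
  · have : (J : E →L[ℝ] _).comp (J.trans N).symm.toContinuousLinearMap =
        N.symm.toContinuousLinearMap := ContinuousLinearMap.ext fun v => by simp
    rw [this, ContinuousLinearEquiv.det_coe_symm]
    exact inv_pos.2 (by simpa [N] using h)

variable {κ : ℕ} {G : E → Fin K → ℝ} {α : E → Lam E}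

theorem fm_smul (hG : Continuous G) (h : Fm G κ α) {ρ : E → ℝ} (hρ : ContDiff ℝ ∞ ρ) :
    Fm G κ fun x => ρ x • α x :=
  ⟨hρ.smul h.sm, fun x => Submodule.smul_mem _ _ (h.deg x), h.cpt.of_isClosed_subset
    ((isClosed_tsupport _).inter (isClosed_singleton.preimage hG))
    (inter_subset_inter_left _ (tsupport_smul_subset_right _ _))⟩

omit [FiniteDimensional ℝ E] in
theorem not_mem_of_zero {ρ : E → ℝ} {x : E} (h : ∀ᶠ y in 𝓝 x, ρ y = 0) :
    x ∉ tsupport fun x => ρ x • α x :=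
  notMem_tsupport_iff_eventuallyEq.2 (h.mono fun y hy => by simp [hy])

end ChartP

open ChartP

theorem chart : ChartStmt := by
  intro E _ _ _ K d G J x hd hG hR hx
  have : CompleteSpace E := FiniteDimensional.complete ℝ E
  obtain ⟨A, hA⟩ := exists_pos hd J _ (hR x hx)
  let Ψ : E → (Fin d → ℝ) × (Fin K → ℝ) := fun y => (A y, G y)
  have hΨ : ContDiff ℝ ∞ Ψ := A.contDiff.prodMk hG
  have hD : ∀ y, HasFDerivAt Ψ (A.prod (fderiv ℝ G y)) y := fun y =>
    A.hasFDerivAt.prodMk (hG.differentiable (by simp) y).hasFDerivAt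
  obtain ⟨M₀, hM₀, -⟩ := exists_equiv J _ hA
  have hx' : HasFDerivAt Ψ (M₀ : E →L[ℝ] _) x := hM₀ ▸ hD x
  let e := hΨ.contDiffAt.toOpenPartialHomeomorph Ψ hx' (by simp)
  have he : ∀ y, e y = Ψ y := fun _ => rfl
  let O : Set E := e.source ∩ {y | 0 < ((A.prod (fderiv ℝ G y)).comp J.symm.toContinuousLinearMap).det}
  have hO : IsOpen O := by
    refine e.open_source.inter (isOpen_lt continuous_const ?_)
    refine ContinuousLinearMap.continuous_det.comp (Continuous.clm_comp ?_ continuous_const)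
    have : (fun y => A.prod (fderiv ℝ G y)) = fderiv ℝ Ψ := funext fun y => (hD y).fderiv.symm
    rw [this]
    exact hΨ.continuous_fderiv (by simp)
  let V : Set (Fin d → ℝ) := (fun t => (t, (0 : Fin K → ℝ))) ⁻¹' (e.target ∩ e.symm ⁻¹' O)
  have hV : IsOpen V := (e.isOpen_inter_preimage_symm hO).preimage (by fun_prop)
  have hin : ContDiff ℝ ∞ fun t : Fin d → ℝ => (t, (0 : Fin K → ℝ)) :=
    contDiff_id.prodMk contDiff_const
  refine ⟨fun t => e.symm (t, 0), V, ⟨hV, fun t ht => ?_, fun t ht s hs h => ?_, fun t ht => ?_,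
    fun t ht => ?_⟩, O, hO, ⟨hΨ.contDiffAt.mem_toOpenPartialHomeomorph_source hx' _, hA⟩, ?_⟩
  · obtain ⟨M, hM, -⟩ := exists_equiv J _ ht.2.2
    have h1 : HasFDerivAt e (M : E →L[ℝ] _) (e.symm (t, 0)) := hM ▸ hD _
    exact ((e.contDiffAt_symm ht.1 h1 hΨ.contDiffAt).comp t hin.contDiffAt).contDiffWithinAt
  · exact congrArg Prod.fst (e.symm.injOn ht.1 hs.1 h)
  · exact congrArg Prod.snd (e.right_inv ht.1)
  · obtain ⟨M, hM, hp⟩ := exists_equiv J _ ht.2.2
    have h1 : HasFDerivAt e (M : E →L[ℝ] _) (e.symm (t, 0)) := hM ▸ hD _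
    have h2 : HasFDerivAt (fun t => e.symm (t, (0 : Fin K → ℝ)))
        (M.symm.toContinuousLinearMap.comp (ContinuousLinearMap.inl ℝ _ _)) t :=
      (e.hasFDerivAt_symm ht.1 h1).comp t (hasFDerivAt_prodMk_left t 0)
    refine ⟨M.symm.toContinuousLinearMap.comp (ContinuousLinearMap.inr ℝ _ _), ?_, ?_⟩
    · ext1 w
      have : M.toContinuousLinearMap (M.symm (0, w)) = (0, w) := M.apply_symm_apply _
      rw [hM] at this
      exact congrArg Prod.snd this
    · rw [h2.fderiv, ContinuousLinearMap.coprod_comp_inl_inr]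
      exact hp
  · rintro y ⟨hy, hy0⟩
    have h1 : e y = (A y, 0) := by rw [he]; exact Prod.ext rfl hy0
    have h2 : e.symm (A y, 0) = y := by rw [← h1]; exact e.left_inv hy.1
    refine ⟨A y, ⟨?_, ?_⟩, h2⟩
    · show (A y, 0) ∈ e.target
      rw [← h1]; exact e.map_source hy.1
    · show e.symm (A y, 0) ∈ O
      rw [h2]; exact hy

theorem uniq (hC : ChartStmt) : UniqStmt := by
  intro E _ _ _ K d κ G J B B' hd hG hR hB hB' α β hα hβ
  let good : Set E → Prop := fun W => ∀ α, Fm G κ α → tsupport α ∩ G ⁻¹' {0} ⊆ W → B α β = B' α β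
  have hch : ∀ φ V W, Chart G J φ V → W ∩ G ⁻¹' {0} ⊆ φ '' V → good W := by
    intro φ V W h hW α hα hs
    have : tsupport α ∩ G ⁻¹' {0} ⊆ φ '' V := fun y hy => hW ⟨hs hy, hy.2⟩
    rw [hB.chart φ V h α β hα hβ this, hB'.chart φ V h α β hα hβ this]
  have hun : ∀ U W, IsOpen U → IsOpen W → good U → good W → good (U ∪ W) := by
    intro U W hU hW gU gW α hα hs
    obtain ⟨f, f0, f1, -⟩ := exists_contMDiffMap_zero_one_nhds_of_isClosed (n := ⊤) 𝓘(ℝ, E)
      hU.isClosed_compl (hα.cpt.diff hW).isClosed (disjoint_left.2 fun y hy hy' =>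
        (hs hy'.1).elim hy hy'.2)
    have hf : ContDiff ℝ ∞ f := f.contMDiff.contDiff
    have a1 := fm_smul hG.continuous hα hf
    have a2 := fm_smul hG.continuous hα (contDiff_const (c := (1 : ℝ)).sub hf)
    have e : α = (fun x => f x • α x) + fun x => (1 - f x) • α x := by
      funext x
      rw [Pi.add_apply, ← add_smul]; simp
    rw [e, hB.add _ _ _ a1 a2 hβ, hB'.add _ _ _ a1 a2 hβ, gU _ a1, gW _ a2]
    · intro y hy
      by_contra hy'
      refine not_mem_of_zero (α := α) ?_ hy.1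
      have hm : y ∈ (tsupport α ∩ G ⁻¹' {0}) \ W :=
        ⟨⟨tsupport_smul_subset_right _ _ hy.1, hy.2⟩, hy'⟩
      exact (f1.filter_mono (nhds_le_nhdsSet hm)).mono fun z hz => by rw [hz, sub_self]
    · intro y hy
      by_contra hy'
      exact not_mem_of_zero (α := α) (f0.filter_mono (nhds_le_nhdsSet hy')) hy.1
  obtain ⟨U, -, hU, gU⟩ : ∃ U, IsOpen U ∧ tsupport α ∩ G ⁻¹' {0} ⊆ U ∧ good U := by
    refine hα.cpt.induction_on (p := fun S => ∃ U, IsOpen U ∧ S ⊆ U ∧ good U) ?_ ?_ ?_ ?_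
    · refine ⟨∅, isOpen_empty, Subset.rfl, hch (fun _ => 0) ∅ ∅ ⟨isOpen_empty, contDiffOn_empty,
        injOn_empty _, fun _ h => h.elim, fun _ h => h.elim⟩ (by simp)⟩
    · rintro s t hst ⟨U, h1, h2, h3⟩
      exact ⟨U, h1, hst.trans h2, h3⟩
    · rintro s t ⟨U, h1, h2, h3⟩ ⟨W, h4, h5, h6⟩
      exact ⟨U ∪ W, h1.union h4, union_subset_union h2 h5, hun U W h1 h4 h3 h6⟩
    · intro x hx
      obtain ⟨φ, V, h, W, hW, hxW, hs⟩ := hC E K d G J x hd hG hR hx.2
      exact ⟨W, mem_nhdsWithin_of_mem_nhds (hW.mem_nhds hxW), W, hW, Subset.rfl, hch φ V W h hs⟩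
  exact gU α hα hU

end Pool.Agent.MP_c8d41b_gt.GF

end
end MrgPart0

-- ======== part 1: formerly Pool.Agent.MP_c8d41b_gt.gf.End
section MrgPart1

/-! PROJECT GF, row END. -/

open scoped ContDiff Topology
open Set Filter ExteriorAlgebra Metric

noncomputable section

namespace Pool.Agent.MP_c8d41b_gt.GF

namespace End

variable {E : Type} [NormedAddCommGroup E] [NormedSpace ℝ E] [FiniteDimensional ℝ E]

/-- a closed form which is exact on a shell can be cut off -/
theorem cut {O : Set E} (hO : IsOpen O) {r : ℝ} (hr : 0 < r) {A ζ : E → Lam E}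
    (hA : ∀ x ∈ O, ‖x‖ < r + 3 → ContDiffAt ℝ ∞ A x ∧ dd A x = 0)
    (hζ : ∀ x ∈ O, r < ‖x‖ → ‖x‖ < r + 3 → ContDiffAt ℝ ∞ ζ x ∧ dd ζ x = A x) :
    ∃ A' : E → Lam E, (∀ x ∈ O, ‖x‖ < r + 3 → ContDiffAt ℝ ∞ A' x ∧ dd A' x = 0) ∧
      (∀ x, ‖x‖ < r + 1 → A' x = A x) ∧ ∀ x, r + 2 < ‖x‖ → A' x = 0 := by
  let χ : ContDiffBump (0 : E) := ⟨r + 1, r + 2, by linarith, by linarith⟩
  have hχ : ContDiff ℝ ∞ χ := χ.contDiff
  have h1 : ∀ x : E, ‖x‖ < r + 1 → χ x • A x + ι ℝ (fderiv ℝ χ x) * ζ x = A x := fun x hx => by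
    have e : (χ : E → ℝ) =ᶠ[𝓝 x] fun _ => 1 :=
      χ.eventuallyEq_one_of_mem_ball (mem_ball_zero_iff.2 hx)
    rw [e.fderiv_eq, e.eq_of_nhds]; simp
  refine ⟨fun x => χ x • A x + ι ℝ (fderiv ℝ χ x) * ζ x, fun x hx hx3 => ?_, h1, fun x hx => ?_⟩
  · by_cases h : ‖x‖ < r + 1
    · have e : (fun x => χ x • A x + ι ℝ (fderiv ℝ χ x) * ζ x) =ᶠ[𝓝 x] A :=
        ((isOpen_lt continuous_norm continuous_const).eventually_mem h).mono h1
      exact ⟨(hA x hx hx3).1.congr_of_eventuallyEq e, (dd_congr e).trans (hA x hx hx3).2⟩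
    · have hr1 : r < ‖x‖ := by linarith [not_lt.1 h]
      have hs : ContDiffAt ℝ ∞ (fun x => χ x • ζ x) x := hχ.contDiffAt.smul (hζ x hx hr1 hx3).1
      have e : (fun x => χ x • A x + ι ℝ (fderiv ℝ χ x) * ζ x) =ᶠ[𝓝 x]
          dd fun x => χ x • ζ x := by
        filter_upwards [hO.mem_nhds hx, (isOpen_lt continuous_const continuous_norm).mem_nhds hr1,
          (isOpen_lt continuous_norm continuous_const).mem_nhds hx3] with y a b c
        rw [dd_fsmul (hχ.differentiable (by simp) y) ((hζ y a b c).1.differentiableAt (by simp)),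
          (hζ y a b c).2, add_comm]
      exact ⟨(cda_dd' hs).congr_of_eventuallyEq e, (dd_congr e).trans (dd_dd hs)⟩
  · have e : (χ : E → ℝ) =ᶠ[𝓝 x] fun _ => 0 :=
      ((isOpen_lt continuous_const continuous_norm).eventually_mem hx).mono fun y hy =>
        χ.zero_of_le_dist (by simpa using le_of_lt hy)
    simp only [e.fderiv_eq, e.eq_of_nhds]; simp

end End

theorem end_ (hH : HomotStmt) (hU : FUStmt) (hB : BumpStmt) : EndStmt := by
  intro Y _ _ _ K N b Gt R ν D fl ε₀ K₁ m c S hD hm hmε hmc hS hSD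
  obtain ⟨hop, -, hfu, -⟩ := hU _ N b
  have hDc := hD.sm.continuous
  set d := (ε₀ - m) / 4 with hd
  have hd0 : 0 < d := by rw [hd]; linarith
  obtain ⟨ρ, T, hT, hfar⟩ := hD.far (c + 1) (m + d) (by linarith)
  obtain ⟨r₀, hr₀⟩ := hS.isBounded.exists_norm_le
  set r := |ρ| + |r₀| + 1 with hr
  have hr0 : 0 < r := by positivity
  have hρ : ρ < r := by linarith [le_abs_self ρ, abs_nonneg r₀]
  have hSr : ∀ x ∈ S, ‖x‖ < r := fun x hx => by
    linarith [hr₀ x hx, le_abs_self r₀, abs_nonneg ρ]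
  let H : ℝ × XX Y K → XX Y K := fun q => fl (q.1 * T) q.2
  have hHs : ContDiff ℝ ∞ H := hD.fsm.comp ((contDiff_fst.mul contDiff_const).prodMk contDiff_snd)
  have H0 : (fun y => H (0, y)) = fun y => y := funext fun y => by simp [H, hD.f0]
  have hH1 : ContDiff ℝ ∞ fun y => H (1, y) := hHs.comp (contDiff_const.prodMk contDiff_id)
  let C : Set (XX Y K) := closedBall 0 (r + 3) ∩ {x | D x ≤ -(m + d)}
  have hC : IsCompact C := (isCompact_closedBall _ _).inter_right (isClosed_le hDc continuous_const)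
  obtain ⟨B, hBf, hKB, hBm⟩ := hfu (H '' Icc 0 1 ×ˢ C) {x | D x < -m}
    ((isCompact_Icc.prod hC).image hHs.continuous) (isOpen_lt hDc continuous_const) (by
      rintro _ ⟨⟨t, x⟩, ⟨ht, hx⟩, rfl⟩
      have := hD.mono x (t * T) (mul_nonneg ht.1 hT)
      have h2 : D x ≤ -(m + d) := hx.2
      show D (fl (t * T) x) < -m
      linarith)
  have hHB : ∀ x ∈ C, ∀ t ∈ Icc (0 : ℝ) 1, H (t, x) ∈ B := fun x hx t ht =>
    hKB ⟨(t, x), ⟨ht, hx⟩, rfl⟩
  have hCB : ∀ x ∈ C, x ∈ B := fun x hx => by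
    simpa only [congrFun H0 x] using hHB x hx 0 (by simp)
  obtain ⟨B', hBf', hKB', hB'⟩ := hfu ((fun y => H (1, y)) '' (C ∩ {x | r ≤ ‖x‖}))
    (B ∩ {x | D x < -c}) ((hC.inter_right (isClosed_le continuous_const continuous_norm)).image
      hH1.continuous) ((hop B hBf).inter (isOpen_lt hDc continuous_const)) (by
      rintro _ ⟨x, ⟨hx, hx'⟩, rfl⟩
      refine ⟨hHB x hx 1 (by simp), ?_⟩
      have := hfar x (hρ.le.trans hx') hx.2
      show D (fl (1 * T) x) < -c
      rw [one_mul]; linarith)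
  have hmC : ∀ x, D x < -(m + d) → ‖x‖ < r + 3 → x ∈ C := fun x h1 h2 =>
    ⟨mem_closedBall_zero_iff.2 h2.le, h1.le⟩
  refine ⟨B', B, hBf', hBf, fun x hx => (hB' hx).1, fun x hx => hCB x (hmC x ?_ ?_), hBm,
    fun x hx => (hB' hx).2, fun A β hA hA0 hβ hβA => ?_⟩
  · linarith [hSD x hx]
  · linarith [hSr x hx]
  obtain ⟨A', hA', hA1, hA2⟩ := End.cut (O := {x | D x < -(m + d)}) (isOpen_lt hDc continuous_const)
    hr0 (A := A) (ζ := fun x => pb (fun y => H (1, y)) β x - hK H A x)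
    (fun x h1 h2 => ⟨hA.contDiffAt ((hop B hBf).mem_nhds (hCB x (hmC x h1 h2))),
      hA0 x (hCB x (hmC x h1 h2))⟩) (fun x h1 h2 h3 => by
      have hx := hmC x h1 h3
      obtain ⟨k1, k2⟩ := hH _ _ H A B x hHs (hop B hBf) hA (hHB x hx)
      have hx' : H (1, x) ∈ B' := hKB' ⟨x, ⟨hx, h2.le⟩, rfl⟩
      have b1 := hβ.contDiffAt ((hop B' hBf').mem_nhds hx')
      have p1 := cda_pb (f := fun y => H (1, y)) hH1.contDiffAt b1
      refine ⟨p1.sub k1, ?_⟩
      rw [hK_eq_zero fun t ht => hA0 _ (hHB x hx t ht), H0, pb_id, add_zero] at k2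
      rw [dd_sub (p1.differentiableAt (by simp)) (k1.differentiableAt (by simp)),
        dd_pb hH1.contDiffAt (b1.differentiableAt (by simp)), ← k2, pb, pb, hβA _ hx']
      abel)
  obtain ⟨ψ, hψ, ψ1, ψ0, -⟩ := hB.2.1 (-(m + 3 * d)) (-(m + 2 * d)) (by linarith)
  let C' : Set (XX Y K) := closedBall 0 (r + 2) ∩ {x | D x ≤ -(m + 2 * d)}
  have hC' : IsCompact C' :=
    (isCompact_closedBall _ _).inter_right (isClosed_le hDc continuous_const)
  have hin : ∀ x ∈ C', D x < -(m + d) ∧ ‖x‖ < r + 3 := fun x hx =>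
    ⟨by linarith [show D x ≤ -(m + 2 * d) from hx.2], by linarith [mem_closedBall_zero_iff.1 hx.1]⟩
  have h0 : ∀ x ∉ C', ψ (D x) • A' x = 0 := fun x hx => by
    by_cases h : ‖x‖ ≤ r + 2
    · rw [ψ0 _ (not_le.1 fun h' => hx ⟨mem_closedBall_zero_iff.2 h, h'⟩).le, zero_smul]
    · rw [hA2 x (not_le.1 h), smul_zero]
  have hη : ContDiff ℝ ∞ fun x => ψ (D x) • A' x :=
    contDiff_of_closed hC'.isClosed (U := C') le_rfl (fun x hx =>
      (hψ.comp hD.sm).contDiffAt.smul (hA' x (hin x hx).1 (hin x hx).2).1) h0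
  refine ⟨fun x => ψ (D x) • A' x, Oc.of_compact hη hC' (subset_univ _) h0, fun x hx => ?_,
    Oc.of_compact (S := C' ∩ {x | -(m + 3 * d) ≤ D x}) (cd_dd hη)
      (hC'.inter_right (isClosed_le continuous_const hDc)) (fun x hx => ⟨?_, ?_⟩) fun x hx => ?_⟩
  · show ψ (D x) • A' x = A x
    rw [ψ1 _ (by linarith [hSD x hx]), one_smul, hA1 x (by linarith [hSr x hx])]
  · linarith [show -(m + 3 * d) ≤ D x from hx.2]
  · linarith [(hin x hx.1).1]
  · by_cases h : x ∈ C'
    · have h3 : D x < -(m + 3 * d) := not_le.1 fun h' => hx ⟨h, h'⟩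
      rw [dd_congr (β := A') (((isOpen_lt hDc continuous_const).eventually_mem h3).mono
        fun y hy => by simp only [ψ1 _ (le_of_lt hy), one_smul])]
      exact (hA' x (hin x h).1 (hin x h).2).2
    · exact dd_eq_zero ((hC'.isClosed.isOpen_compl.eventually_mem h).mono h0)

end Pool.Agent.MP_c8d41b_gt.GF

end
end MrgPart1

-- ======== part 2: formerly Pool.Agent.MP_c8d41b_gt.gf.Fin
section MrgPart2

/-! PROJECT GF, row FIN: the Thom images span a finite-dimensional space of classes. -/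

open scoped ContDiff Topology
open Set Filter ExteriorAlgebra

noncomputable section

namespace Pool.Agent.MP_c8d41b_gt.GF

namespace FinP

variable {Y : Type} [NormedAddCommGroup Y] [NormedSpace ℝ Y] {K : ℕ}

/-- `-1` far to the left, `0` on `[0, 1]`, `1` far to the right -/
def th (r : ℝ) : ℝ := Real.smoothTransition (r - 1) - Real.smoothTransition (-r)

theorem th_cases (r : ℝ) : (1 ≤ r ∧ 0 ≤ th r ∧ (2 ≤ r → th r = 1)) ∨
    (r ≤ 0 ∧ th r ≤ 0 ∧ (r ≤ -2 → th r = -1)) ∨ (0 ≤ r ∧ r ≤ 1 ∧ th r = 0) := by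
  rcases le_total 1 r with h | h
  · have : Real.smoothTransition (-r) = 0 := Real.smoothTransition.zero_of_nonpos (by linarith)
    refine Or.inl ⟨h, ?_, fun h2 => ?_⟩
    · rw [th, this, sub_zero]; exact Real.smoothTransition.nonneg _
    · rw [th, this, sub_zero]; exact Real.smoothTransition.one_of_one_le (by linarith)
  have : Real.smoothTransition (r - 1) = 0 := Real.smoothTransition.zero_of_nonpos (by linarith)
  rcases le_total r 0 with h' | h'
  · refine Or.inr (Or.inl ⟨h', ?_, fun h2 => ?_⟩)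
    · rw [th, this, zero_sub, neg_nonpos]; exact Real.smoothTransition.nonneg _
    · rw [th, this, zero_sub, Real.smoothTransition.one_of_one_le (by linarith)]
  · refine Or.inr (Or.inr ⟨h', h, ?_⟩)
    rw [th, this, Real.smoothTransition.zero_of_nonpos (by linarith), sub_zero]

/-- push the two ends outwards -/
def push (l : ℝ) (q : ℝ × XX Y K) : XX Y K := ((q.2.1.1 + q.1 * l * th q.2.1.1, q.2.1.2), q.2.2)

theorem cd_push (l : ℝ) : ContDiff ℝ ∞ (push (Y := Y) (K := K) l) := by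
  have h : ContDiff ℝ ∞ th :=
    (Real.smoothTransition.contDiff.comp (contDiff_id.sub contDiff_const)).sub
      (Real.smoothTransition.contDiff.comp contDiff_neg)
  unfold push
  fun_prop

theorem push_TC {Gt : XX Y K → Fin K → ℝ} (h : Pre Gt) {l t : ℝ} (hl : 0 ≤ l) (ht : 0 ≤ t)
    {R ρ : ℝ} {x : XX Y K} (hx : push l (t, x) ∈ TC Gt R ρ) : x ∈ TC Gt R ρ := by
  have e : Gt (push l (t, x)) = Gt x := by
    obtain ⟨⟨r, y⟩, s⟩ := x
    have htl : 0 ≤ t * l := mul_nonneg ht hl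
    rcases th_cases r with ⟨a, b, -⟩ | ⟨a, b, -⟩ | ⟨-, -, b⟩
    · rw [h.right r a, push, h.right _ (by nlinarith)]
    · rw [h.left r a, push, h.left _ (by nlinarith)]
    · simp [push, b]
  simp only [TC, aa, bb, mem_ofPred_eq, e] at hx
  exact hx

omit [NormedAddCommGroup Y] [NormedSpace ℝ Y] in
theorem push_abs {l t : ℝ} (hl : 0 ≤ l) (ht : 0 ≤ t) (x : XX Y K) :
    |x.1.1| ≤ |(push l (t, x)).1.1| ∧ (2 < |x.1.1| → t * l ≤ |(push l (t, x)).1.1|) := by
  have htl : 0 ≤ t * l := mul_nonneg ht hl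
  simp only [push]
  rcases th_cases x.1.1 with ⟨a, b, c⟩ | ⟨a, b, c⟩ | ⟨a, b, c⟩
  · have := mul_nonneg htl b
    rw [abs_of_nonneg (by linarith), abs_of_nonneg (by linarith)]
    exact ⟨by linarith, fun h => by rw [c h.le]; linarith⟩
  · have := mul_nonpos_of_nonneg_of_nonpos htl b
    rw [abs_of_nonpos a, abs_of_nonpos (by linarith)]
    exact ⟨by linarith, fun h => by rw [c (by linarith)]; linarith⟩
  · rw [c, mul_zero, add_zero, abs_of_nonneg a]
    exact ⟨le_rfl, fun h => by linarith⟩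

end FinP

open FinP in
theorem fin_ (hH : HomotStmt) (hU : FUStmt) (hP : PDStmt) (hT : ThmStmt) : FinStmt := by
  intro Y _ _ _ K P hO
  have T := hT Y K P hO
  have tb := hO.tube
  have hν := tb.pos
  have hsub : ∀ r : ℝ, TC P.Gt P.R (P.ν / 2) ∩ {x | |x.1.1| ≤ r} ⊆ TT P.Gt P.R P.ν :=
    fun r => inter_subset_left.trans (TC_sub_TT (by linarith))
  have hc : ∀ r : ℝ, IsCompact (TC P.Gt P.R (P.ν / 2) ∩ {x | |x.1.1| ≤ r}) :=
    tb.cpt' (by linarith)
  obtain ⟨B, hB, hB1, hB2⟩ := (hU _ _ (Module.finBasis ℝ (XX Y K))).2.2.1 _ _ (hc 2)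
    (isOpen_TT tb.pre.sm _ _) (hsub 2)
  obtain ⟨n, v, -, hv⟩ := (hP _ _ _).2 B hB
  refine ⟨n, v, fun α h0 hcl => ?_⟩
  set A := P.t2 α with hA
  have oA : Oc _ A := T.oc2 α h0
  have dA : dd A = 0 := T.dt2 α h0 hcl
  obtain ⟨l0, hl0⟩ := (oA.cpt.isCompact.image
    (by fun_prop : Continuous fun x : XX Y K => |x.1.1|)).bddAbove
  set l := |l0| + 1 with hl
  have l0' : 0 ≤ l := by positivity
  have hb : ∀ x, A x ≠ 0 → |x.1.1| < l := fun x hx => by
    have := hl0 ⟨x, subset_tsupport _ hx, rfl⟩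
    linarith [le_abs_self l0]
  have hom := fun x => hH _ _ (push l) A univ x (cd_push l) isOpen_univ oA.sm.contDiffOn
    fun _ _ => mem_univ _
  have c1 : ContDiff ℝ ∞ fun y : XX Y K => push l (1, y) :=
    (cd_push l).comp (contDiff_const.prodMk contDiff_id)
  have o1 : Oc B (pb (fun y => push l (1, y)) A) :=
    Oc.of_compact (cd_pb c1 oA.sm) (hc 2) hB1 fun x hx => by
      by_contra h
      have h1 : A (push l (1, x)) ≠ 0 := fun h' => h (by rw [pb, h', map_zero])
      refine hx ⟨push_TC tb.pre l0' zero_le_one (T.supp2 α _ h1),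
        (not_lt (a := (2 : ℝ)) (b := |x.1.1|)).1 fun h2 => ?_⟩
      linarith [(push_abs l0' zero_le_one x).2 h2, hb _ h1]
  have d1 : dd (pb (fun y => push l (1, y)) A) = 0 := funext fun x => by
    rw [dd_pb c1.contDiffAt (oA.da _), dA, pb, Pi.zero_apply, map_zero, Pi.zero_apply]
  obtain ⟨c, γ, oγ, e⟩ := hv _ o1 d1
  have o2 : Oc (TT P.Gt P.R P.ν) (hK (push l) A) :=
    Oc.of_compact (contDiff_iff_contDiffAt.2 fun x => (hom x).1) (hc l) (hsub l) fun x hx =>
      hK_eq_zero fun t ht => by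
        by_contra h1
        exact hx ⟨push_TC tb.pre l0' ht.1 (T.supp2 α _ h1),
          ((push_abs l0' ht.1 x).1.trans_lt (hb _ h1)).le⟩
  refine ⟨c, γ - hK (push l) A, (oγ.mono hB2).sub' o2, funext fun x => ?_⟩
  have h1 := (hom x).2
  have e0 : (fun y : XX Y K => push l (0, y)) = fun y => y := by
    ext1 y; simp [push]
  rw [e0, pb_id, dA, hK_eq_zero (α := 0) fun _ _ => rfl, add_zero, e] at h1
  have h2 : dd (γ - hK (push l) A) x = dd γ x - dd (hK (push l) A) x := dd_sub (oγ.da x) (o2.da x)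
  rw [Pi.add_apply, h2, ← h1, Pi.add_apply]
  abel

end Pool.Agent.MP_c8d41b_gt.GF

end
end MrgPart2

-- ======== part 3: formerly Pool.Agent.MP_c8d41b_gt.gf.Flow
section MrgPart3

/-! PROJECT GF: global flows of bounded fields and smooth right inverses. -/

open scoped ContDiff Topology
open Set Filter Metric

namespace Pool.Agent.MP_c8d41b_gt.GF

open MP_6d695c_gt.SW

theorem flow : FlowStmt := by
  intro X _ _ _ f C hf hC
  have := FiniteDimensional.complete ℝ X
  have C0 : 0 ≤ C := (norm_nonneg _).trans (hC 0)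
  have ex : ∀ n : ℕ, ∃ (g : X → X) (fl : ℝ → X → X), IsFlow g fl ∧ (∀ x, ‖g x‖ ≤ C) ∧
      ∀ x, ‖x‖ ≤ n → g x = f x := fun n => by
    let χ : ContDiffBump (0 : X) := ⟨n + 1, n + 2, by positivity, by linarith⟩
    obtain ⟨-, fl, -, h⟩ := exists_isFlow_cpt (f := fun x => χ x • f x) (χ.contDiff.smul hf)
      χ.hasCompactSupport.smul_right
    refine ⟨_, fl, h, fun x => ?_, fun x hx => ?_⟩
    · rw [norm_smul, Real.norm_of_nonneg χ.nonneg]
      exact (mul_le_of_le_one_left (norm_nonneg _) χ.le_one).trans (hC x)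
    · rw [χ.one_of_mem_closedBall (mem_closedBall_zero_iff.2 (hx.trans (lt_add_one _).le)),
        one_smul]
  choose g F hF hg he using ex
  have bd : ∀ n t x, ‖F n t x‖ ≤ ‖x‖ + C * |t| := fun n t x => by
    have h := convex_univ.norm_image_sub_le_of_norm_hasDerivWithin_le (f := fun t => F n t x)
      (fun s _ => ((hF n).der x s).hasDerivWithinAt) (fun s _ => hg n _) (mem_univ 0) (mem_univ t)
    rw [(hF n).zero, sub_zero, Real.norm_eq_abs] at h
    linarith [norm_le_insert' (F n t x) x]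
  have stab : ∀ (n m : ℕ) t x, ‖x‖ + C * |t| ≤ n → ‖x‖ + C * |t| ≤ m → F n t x = F m t x :=
    fun n m t x hn hm => by
      have h := (hF m).eq_of (c := fun s => F n s x) (a := 0) (b := t) fun s hs => by
        have h1 : ‖F n s x‖ ≤ ‖x‖ + C * |t| := (bd n s x).trans (by
          gcongr _ + C * ?_
          simpa using abs_sub_left_of_mem_uIcc hs)
        rw [he m _ (h1.trans hm), ← he n _ (h1.trans hn)]
        exact (hF n).der x s
      rwa [sub_zero, (hF n).zero] at h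
  let fl : ℝ → X → X := fun t x => F ⌈‖x‖ + C * |t|⌉₊ t x
  have key : ∀ (n : ℕ) t x, ‖x‖ + C * |t| ≤ n → fl t x = F n t x := fun n t x h =>
    stab _ n t x (Nat.le_ceil _) h
  refine ⟨fl, contDiff_iff_contDiffAt.2 fun q => ?_, fun x => (hF _).zero x, fun s t x => ?_,
    fun x t => ?_, fun c a b hab hc hd => ?_⟩
  · obtain ⟨n, hn⟩ := exists_nat_gt (‖q.2‖ + C * |q.1|)
    refine (hF n).sm.contDiffAt.congr_of_eventuallyEq ?_
    have c : Continuous fun q : ℝ × X => ‖q.2‖ + C * |q.1| := by fun_prop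
    filter_upwards [c.continuousAt.eventually (gt_mem_nhds hn)] with p hp using key n _ _ hp.le
  · obtain ⟨n, hn⟩ := exists_nat_ge
      (max (‖x‖ + C * |s + t|) (max (‖x‖ + C * |t|) (‖fl t x‖ + C * |s|)))
    simp only [max_le_iff] at hn
    rw [key n _ _ hn.1, key n _ _ hn.2.2, key n _ _ hn.2.1, (hF n).add]
  · obtain ⟨n, hn⟩ := exists_nat_gt (‖x‖ + C * |t|)
    rw [key n _ _ hn.le, ← he n _ ((bd n t x).trans hn.le)]
    refine ((hF n).der x t).congr_of_eventuallyEq ?_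
    have c : Continuous fun t : ℝ => ‖x‖ + C * |t| := by fun_prop
    filter_upwards [c.continuousAt.eventually (gt_mem_nhds hn)] with p hp using key n _ _ hp.le
  · obtain ⟨R, hR⟩ := isCompact_Icc.exists_bound_of_continuousOn hc
    obtain ⟨n, hn⟩ := exists_nat_ge (max R (‖c a‖ + C * |b - a|))
    rw [max_le_iff] at hn
    rw [key n _ _ hn.2]
    refine (hF n).uniq c a b hab hc fun t ht => ?_
    rw [he n _ ((hR t (Ioo_subset_Icc_self ht)).trans hn.1)]
    exact hd t ht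

theorem rinv : RinvStmt := by
  intro X F _ _ _ _ _ _
  have := FiniteDimensional.complete ℝ F
  let b := Module.finBasis ℝ X
  let c := Module.finBasis ℝ F
  let φ := fun j => LinearMap.toContinuousLinearMap (c.coord j)
  let β : F →L[ℝ] F →L[ℝ] ℝ := ∑ j, (φ j).smulRight (φ j)
  have hβ : ∀ y, β y y = 0 → y = 0 := fun y hy => by
    have h : ∑ j, c.repr y j * c.repr y j = 0 := by simpa [β, φ] using hy
    rw [Finset.sum_eq_zero_iff_of_nonneg fun j _ => mul_self_nonneg _] at h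
    exact c.ext_elem fun j => by simpa using h j (Finset.mem_univ j)
  let A : (X →L[ℝ] F) → F →L[ℝ] X := fun L => ∑ i, (β (L (b i))).smulRight (b i)
  have hA : ContDiff ℝ ∞ A := ContDiff.sum fun i _ =>
    (β.contDiff.comp (contDiff_id.clm_apply contDiff_const)).smulRight contDiff_const
  have hM : ContDiff ℝ ∞ fun L : X →L[ℝ] F => L.comp (A L) := contDiff_id.clm_comp hA
  have iff : ∀ L : X →L[ℝ] F, Function.Surjective L ↔ IsUnit (L.comp (A L)) := fun L => by
    rw [ContinuousLinearMap.isUnit_iff_bijective]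
    refine ⟨fun h => ?_, fun h => Function.Surjective.of_comp (g := A L) h.2⟩
    have inj : Function.Injective (L.comp (A L)) := (injective_iff_map_eq_zero _).2 fun y hy => by
      have h1 : ∑ i, β (L (b i)) y * β (L (b i)) y = 0 := by
        have := congrArg (fun z => β z y) hy
        simpa [A, map_sum] using this
      rw [Finset.sum_eq_zero_iff_of_nonneg fun j _ => mul_self_nonneg _] at h1
      have h2 : (((β.flip y).comp L : X →L[ℝ] ℝ) : X →ₗ[ℝ] ℝ) = 0 :=
        b.ext fun i => by simpa using h1 i (Finset.mem_univ i)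
      obtain ⟨x, rfl⟩ := h y
      exact hβ _ (LinearMap.congr_fun h2 x)
    exact ⟨inj, (LinearMap.injective_iff_surjective (f := (L.comp (A L) : F →ₗ[ℝ] F))).1 inj⟩
  refine ⟨?_, fun L => (A L).comp (Ring.inverse (L.comp (A L))), fun L hL => ?_, fun L hL => ?_⟩
  · simp only [iff]
    exact Units.isOpen.preimage hM.continuous
  · obtain ⟨u, hu⟩ := (iff L).1 hL
    have h := contDiffAt_ringInverse ℝ (n := ∞) u
    rw [hu] at h
    exact (hA.contDiffAt.clm_comp (h.comp L hM.contDiffAt)).contDiffWithinAt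
  · rw [← ContinuousLinearMap.comp_assoc]
    exact Ring.mul_inverse_cancel _ ((iff L).1 hL)

end Pool.Agent.MP_c8d41b_gt.GF

end MrgPart3

-- ======== part 4: formerly Pool.Agent.MP_c8d41b_gt.gf.GeoA
section MrgPart4

/-! PROJECT GF, row GEOA: the averaged fibre derivative on the doubled space. -/

open scoped ContDiff Topology
open Set Filter

noncomputable section

namespace Pool.Agent.MP_c8d41b_gt.GF

namespace GeoA

variable {p q k : ℕ} {g : (Fin p → ℝ) → Fin q → ℝ} {F : ℝ × Tot p k → ℝ}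

/-- the fibre derivative averaged along the segment from `u - s` to `u + s` -/
def ga (F : ℝ × Tot p k → ℝ) (x : XX (Tot p k) (k + q)) (i : Fin k) : ℝ :=
  1 / 2 * ∫ t in (-1 : ℝ)..1, dv (fun y => F (x.1.1, y)) (x.1.2.1, x.1.2.2 + t • s1 x.2) i

/-- the map on the doubled space -/
def gt (g : (Fin p → ℝ) → Fin q → ℝ) (F : ℝ × Tot p k → ℝ) (x : XX (Tot p k) (k + q)) :
    Fin (k + q) → ℝ :=
  Fin.append (ga F x) (g x.1.2.1)

theorem fd_eq (hF : ContDiff ℝ ∞ F) (r : ℝ) (y v : Tot p k) :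
    fderiv ℝ (fun y => F (r, y)) y v = fderiv ℝ F (r, y) (0, v) := by
  have h := ((hF.differentiable (by simp) (r, y)).hasFDerivAt.comp y
    (hasFDerivAt_prodMk_right r y)).fderiv
  exact (congrArg (fun L => L v) h).trans rfl

theorem cd_s1 : ContDiff ℝ ∞ (s1 : (Fin (k + q) → ℝ) → Fin k → ℝ) :=
  contDiff_pi.2 fun i => contDiff_apply ℝ ℝ (Fin.castAdd q i)

theorem cd_int (hF : ContDiff ℝ ∞ F) (i : Fin k) :
    ContDiff ℝ ∞ fun w : ℝ × XX (Tot p k) (k + q) =>
      dv (fun y => F (w.2.1.1, y)) (w.2.1.2.1, w.2.1.2.2 + w.1 • s1 w.2.2) i := by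
  simp only [dv, fd_eq hF]
  have h1 : ContDiff ℝ ∞ (fderiv ℝ F) := hF.fderiv_right (by simp)
  have h2 : ContDiff ℝ ∞ fun w : ℝ × XX (Tot p k) (k + q) =>
      (w.2.1.1, w.2.1.2.1, w.2.1.2.2 + w.1 • s1 w.2.2) :=
    contDiff_snd.fst.fst.prodMk (contDiff_snd.fst.snd.fst.prodMk
      (contDiff_snd.fst.snd.snd.add (contDiff_fst.smul (cd_s1.comp contDiff_snd.snd))))
  exact (h1.comp h2).clm_apply contDiff_const

theorem cd_ga (hP : ParStmt) (hF : ContDiff ℝ ∞ F) (i : Fin k) :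
    ContDiff ℝ ∞ fun x : XX (Tot p k) (k + q) => ga F x i :=
  contDiff_const.mul (contDiff_iff_contDiffAt.2 fun x =>
    (hP _ ℝ _ univ (-1) 1 x isOpen_univ (cd_int hF i).contDiffOn fun _ _ => mem_univ _).1)

theorem cd_gt (hP : ParStmt) (hg : ContDiff ℝ ∞ g) (hF : ContDiff ℝ ∞ F) :
    ContDiff ℝ ∞ (gt g F) := by
  refine contDiff_pi.2 fun i => ?_
  refine Fin.addCases (fun i => ?_) (fun i => ?_) i
  · simpa only [gt, Fin.append_left] using cd_ga hP hF i
  · simp only [gt, Fin.append_right]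
    exact (contDiff_apply ℝ ℝ i).comp (hg.comp contDiff_fst.snd.fst)

theorem ga_tau (x : XX (Tot p k) (k + q)) : ga F (tau x) = ga F x := by
  funext i
  have h := intervalIntegral.integral_comp_neg (a := (-1 : ℝ)) (b := 1)
    fun t => dv (fun y => F (x.1.1, y)) (x.1.2.1, x.1.2.2 + t • s1 x.2) i
  rw [neg_neg] at h
  have e : s1 (-x.2) = -s1 x.2 := rfl
  simp only [ga, tau_apply, e, smul_neg, ← h, neg_smul]

theorem ga_zero (x : ℝ × Tot p k) :
    ga F ((x, 0) : XX (Tot p k) (k + q)) = dv (fun y => F (x.1, y)) x.2 := by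
  funext i
  have e : s1 (0 : Fin (k + q) → ℝ) = 0 := rfl
  simp only [ga, e, smul_zero, add_zero, intervalIntegral.integral_const, smul_eq_mul]
  ring

theorem ga_sum (hF : ContDiff ℝ ∞ F) (r : ℝ) (z : Fin p → ℝ) (u : Fin k → ℝ)
    (s : Fin (k + q) → ℝ) :
    ∑ i, ga F (((r, z, u), s) : XX (Tot p k) (k + q)) i * s (Fin.castAdd q i) =
      1 / 2 * (F (r, z, u + s1 s) - F (r, z, u - s1 s)) := by
  have hc : ∀ i, Continuous fun t : ℝ =>
      dv (fun y => F (r, y)) (z, u + t • s1 s) i * s (Fin.castAdd q i) := fun i =>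
    ((cd_int (q := q) hF i).continuous.comp (continuous_id.prodMk
      (continuous_const (y := (((r, z, u), s) : XX (Tot p k) (k + q)))))).mul continuous_const
  have hd : ∀ t : ℝ, HasDerivAt (fun t : ℝ => F (r, z, u + t • s1 s))
      (∑ i, dv (fun y => F (r, y)) (z, u + t • s1 s) i * s (Fin.castAdd q i)) t := fun t => by
    have h0 : HasDerivAt (fun t : ℝ => u + t • s1 s) (s1 s) t := by
      simpa only [one_smul, id] using ((hasDerivAt_id t).smul_const (s1 s)).const_add u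
    have h1 : HasDerivAt (fun t : ℝ => ((r, z, u + t • s1 s) : ℝ × Tot p k)) (0, 0, s1 s) t :=
      HasDerivAt.prodMk (hasDerivAt_const t r) (HasDerivAt.prodMk (hasDerivAt_const t z) h0)
    have h2 := (hF.differentiable (by simp) (r, z, u + t • s1 s)).hasFDerivAt.comp_hasDerivAt t h1
    have e : ((0, 0, s1 s) : ℝ × Tot p k) =
        ∑ i, s (Fin.castAdd q i) • ((0, 0, Pi.single i 1) : ℝ × Tot p k) := by
      refine Prod.ext (by simp [Prod.fst_sum]) (Prod.ext (by simp [Prod.fst_sum, Prod.snd_sum]) ?_)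
      funext j
      simp [Prod.snd_sum, Finset.sum_apply, Pi.single_apply, s1]
    rw [e, map_sum] at h2
    simp only [map_smul, smul_eq_mul, mul_comm (s _)] at h2
    simp only [dv, fd_eq hF]
    exact h2
  have hi := intervalIntegral.integral_eq_sub_of_hasDerivAt (a := (-1 : ℝ)) (b := 1)
    (fun t _ => hd t)
    ((continuous_finsetSum _ fun i _ => hc i).intervalIntegrable _ _)
  rw [intervalIntegral.integral_finsetSum fun i _ => (hc i).intervalIntegrable _ _] at hi
  simp only [intervalIntegral.integral_mul_const, one_smul, neg_smul, ← sub_eq_add_neg] at hi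
  simp only [ga, mul_assoc, ← Finset.mul_sum, hi]

end GeoA

open GeoA in
theorem geoA (hP : ParStmt) : GeoAStmt := by
  intro p q k g F f₀ f₁ hg hF
  refine ⟨gt g F, cd_gt hP hg hF.sm, fun x => ?_, fun r hr y s => ?_, fun r hr y s => ?_, ?_,
    fun r z u s => ?_⟩
  · rw [gt, ga_tau]; rfl
  · have e : (fun y => F (r, y)) = fun y => F (0, y) :=
      funext fun y => (hF.left r hr y).trans (hF.left 0 le_rfl y).symm
    unfold gt ga
    simp only [e]
  · have e : (fun y => F (r, y)) = fun y => F (1, y) :=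
      funext fun y => (hF.right r hr y).trans (hF.right 1 le_rfl y).symm
    unfold gt ga
    simp only [e]
  · funext x
    rw [G1, gt, ga_zero]; rfl
  · rw [D0_eq, Fin.sum_univ_add]
    simp only [gt, Fin.append_left, Fin.append_right]
    rw [ga_sum hF.sm, mul_add]
    simp only [mul_comm (g z _)]
    ring

end Pool.Agent.MP_c8d41b_gt.GF

end
end MrgPart4

-- ======== part 5: formerly Pool.Agent.MP_c8d41b_gt.gf.GeoC
section MrgPart5

/-! PROJECT GF, row GEOC: cutting off away from the base, and the final assembly. -/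

open scoped ContDiff Topology
open Set Filter

noncomputable section

namespace Pool.Agent.MP_c8d41b_gt.GF

namespace GeoC

section Same
variable {E : Type} [NormedAddCommGroup E] [NormedSpace ℝ E] [FiniteDimensional ℝ E] {K : ℕ}
  {G G' : E → Fin K → ℝ}

/-- same zero set and same derivative along it -/
structure Same (G G' : E → Fin K → ℝ) : Prop where
  zero : ∀ x, G x = 0 ↔ G' x = 0
  der : ∀ x, G x = 0 → fderiv ℝ G x = fderiv ℝ G' x

omit [FiniteDimensional ℝ E]

theorem Same.symm (h : Same G G') : Same G' G :=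
  ⟨fun x => (h.zero x).symm, fun x hx => (h.der x ((h.zero x).2 hx)).symm⟩

theorem Same.of_open {O : Set E} (hO : IsOpen O) (h : EqOn G G' O) (h1 : ∀ x, G x = 0 → x ∈ O)
    (h2 : ∀ x, G' x = 0 → x ∈ O) : Same G G' :=
  ⟨fun x => ⟨fun hx => (h (h1 x hx)).symm.trans hx, fun hx => (h (h2 x hx)).trans hx⟩,
    fun x hx => (h.eventuallyEq_of_mem (hO.mem_nhds (h1 x hx))).fderiv_eq⟩

theorem Same.set (h : Same G G') : G ⁻¹' {0} = G' ⁻¹' {0} := Set.ext h.zero

theorem Same.reg (h : Same G G') (hr : Reg G) : Reg G' := fun x hx => by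
  rw [← h.der x ((h.zero x).2 hx)]
  exact hr x ((h.zero x).2 hx)

theorem Same.chart (h : Same G G') {d : ℕ} {J : E ≃L[ℝ] (Fin d → ℝ) × (Fin K → ℝ)}
    {φ : (Fin d → ℝ) → E} {V : Set (Fin d → ℝ)} (hc : Chart G J φ V) : Chart G' J φ V :=
  ⟨hc.op, hc.sm, hc.inj, fun t ht => (h.zero _).1 (hc.mem t ht), fun t ht => by
    rw [← h.der _ (hc.mem t ht)]
    exact hc.pos t ht⟩

variable [FiniteDimensional ℝ E]

theorem Same.fm (h : Same G G') {κ : ℕ} {α : E → Lam E} (hf : Fm G κ α) : Fm G' κ α :=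
  ⟨hf.sm, hf.deg, h.set ▸ hf.cpt⟩

theorem Same.closed (h : Same G G') {α : E → Lam E} (hf : Closed G α) : Closed G' α :=
  fun x hx => by
    rw [← h.der x ((h.zero x).2 hx)]
    exact hf x ((h.zero x).2 hx)

theorem Same.isInt (h : Same G G') {d κ : ℕ} {J : E ≃L[ℝ] (Fin d → ℝ) × (Fin K → ℝ)}
    {B : (E → Lam E) → (E → Lam E) → ℝ} (hB : IsInt G J κ B) : IsInt G' J κ B :=
  ⟨fun α α' β a b c => hB.add α α' β (h.symm.fm a) (h.symm.fm b) (h.symm.fm c),
    fun φ V hc α β a b c => hB.chart φ V (h.symm.chart hc) α β (h.symm.fm a) (h.symm.fm b)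
      (h.set ▸ c)⟩

theorem Same.defin (h : Same G G') {κ n : ℕ} {B : (E → Lam E) → (E → Lam E) → ℝ} {ε : ℝ}
    (hD : Defin G κ B ε n) : Defin G' κ B ε n :=
  hD.imp fun _ hv => ⟨fun i => ⟨h.fm (hv.1 i).1, h.closed (hv.1 i).2⟩, hv.2⟩

theorem Same.sigZero (h : Same G G') {κ : ℕ} (hS : SigZero G κ) : SigZero G' κ := by
  intro J
  refine ⟨(hS J).1.imp fun _ => h.isInt, fun B hB => ?_⟩
  have e : ∀ ε, {m | Defin G' κ B ε m} = {m | Defin G κ B ε m} := fun ε =>
    Set.ext fun _ => ⟨h.symm.defin, h.defin⟩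
  rw [e, e]
  exact (hS J).2 B (h.symm.isInt hB)

end Same

variable {p q k : ℕ} {g : (Fin p → ℝ) → Fin q → ℝ} {f f' : Tot p k → ℝ}

/-- the neighbourhood of the base on which nothing is changed -/
def Nb (g : (Fin p → ℝ) → Fin q → ℝ) (k : ℕ) : Set (Tot p k) := {y | ‖g y.1‖ < 1 / 2}

theorem isOpen_Nb (hg : Continuous g) : IsOpen (Nb g k) :=
  isOpen_lt (by fun_prop) continuous_const

theorem fderiv_eq (hg : Continuous g) (h : EqOn f f' (Nb g k)) {y : Tot p k} (hy : y ∈ Nb g k) :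
    fderiv ℝ f y = fderiv ℝ f' y :=
  (h.eventuallyEq_of_mem ((isOpen_Nb hg).mem_nhds hy)).fderiv_eq

theorem dv_eq (hg : Continuous g) (h : EqOn f f' (Nb g k)) {y : Tot p k} (hy : y ∈ Nb g k) :
    dv f y = dv f' y := by
  funext i
  rw [dv, dv, fderiv_eq hg h hy]

theorem crit_eq (hg : Continuous g) (h : EqOn f f' (Nb g k)) :
    EqOn (crit g f) (crit g f') (Nb g k) := fun y hy => by
  rw [crit, crit, dv_eq hg h hy]

theorem mem_Nb {y : Tot p k} (hy : crit g f y = 0) : y ∈ Nb g k := by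
  have : g y.1 = 0 := by
    funext i
    simpa [crit] using congrFun hy (Fin.natAdd k i)
  simp [Nb, this]

theorem gen (hg : Continuous g) (h : EqOn f f' (Nb g k)) (hf : Gen g f) : Gen g f' := by
  have hs : Same (crit g f) (crit g f') :=
    Same.of_open (isOpen_Nb hg) (crit_eq hg h) (fun _ => mem_Nb) fun _ => mem_Nb
  have e : ∀ y, crit g f' y = 0 → lag g f' y = lag g f y := fun y hy => by
    rw [lag, lag, fderiv_eq hg h (mem_Nb hy)]
  refine ⟨hs.reg hf.reg, fun x hx y hy hxy => ?_⟩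
  rw [e x hx, e y hy] at hxy
  exact hf.inj ((hs.zero x).2 hx) ((hs.zero y).2 hy) hxy

end GeoC

open GeoC

theorem geoC (_hB : BumpStmt) : GeoCStmt := by
  intro p q k g F f₀ f₁ hb h0 h1 hP hR
  have hg := hb.sm.continuous
  let χ : ContDiffBump (0 : Fin q → ℝ) := ⟨1 / 2, 1, by norm_num, by norm_num⟩
  have hone : ∀ y ∈ Nb g k, χ (g y.1) = 1 := fun y hy =>
    χ.one_of_mem_closedBall (mem_closedBall_zero_iff.2 (le_of_lt hy))
  have hE : ∀ f : Tot p k → ℝ, EqOn f (fun y => χ (g y.1) * f y) (Nb g k) := fun f y hy => by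
    simp only [hone y hy, one_mul]
  have hs : Same (cob g F) (cob g fun x => χ (g x.2.1) * F x) :=
    Same.of_open (O := Prod.snd ⁻¹' Nb g k) ((isOpen_Nb hg).preimage continuous_snd)
      (fun x hx => crit_eq hg (hE fun y => F (x.1, y)) hx) (fun _ => mem_Nb) fun _ => mem_Nb
  refine ⟨fun x => χ (g x.2.1) * F x, fun y => χ (g y.1) * f₀ y, fun y => χ (g y.1) * f₁ y,
    gen hg (hE f₀) h0, gen hg (hE f₁) h1, ⟨?_, ?_, ?_, ?_, ?_⟩, hs.reg hR,
    fun κ => hs.symm.sigZero⟩
  · exact (χ.contDiff.comp (hb.sm.comp (contDiff_fst.comp contDiff_snd))).mul hP.sm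
  · intro r hr y
    simp only [hP.left r hr]
  · intro r hr y
    simp only [hP.right r hr]
  · obtain ⟨R, m, hm, h⟩ := hP.far
    refine ⟨R, m, hm, fun r y hy hR => ?_⟩
    rw [← dv_eq hg (hE fun y => F (r, y)) hy]
    exact h r y (by linarith) hR
  · obtain ⟨K₀, h⟩ := hP.bdd
    refine ⟨|K₀|, fun r y => ?_⟩
    rw [← mul_sub, abs_mul, abs_of_nonneg χ.nonneg]
    by_cases hy : ‖g y.1‖ ≤ 1
    · exact (mul_le_of_le_one_left (abs_nonneg _) χ.le_one).trans
        ((h r y hy).trans (le_abs_self _))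
    · rw [χ.zero_of_le_dist (by simpa using (not_le.1 hy).le), zero_mul]
      exact abs_nonneg _

theorem final (hA : GeoAStmt) (hB : GeoBStmt) (hC : GeoCStmt) (hK : CoreStmt) (hT : TransStmt) :
    Final := by
  rintro p q k j g f₀ f₁ hj hp hb h0 h1 ⟨F, hF⟩
  refine ⟨hT p q k (4 * j - 1) g F f₀ f₁ (by omega) (by omega) hb h0 h1 hF, fun F hF hR => ?_⟩
  obtain ⟨F', f₀', f₁', h0', h1', hP, hR', hS⟩ := hC p q k g F f₀ f₁ hb h0 h1 hF hR
  obtain ⟨Gt, hG⟩ := hA p q k g F' f₀' f₁' hb.sm hP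
  refine hS _ ?_
  rw [← hG.zero]
  exact hK _ _ _ Gt (hB p q k g F' f₀' f₁' Gt hb h0' h1' hP hR' hG) (even_two_mul j) (by omega)

end Pool.Agent.MP_c8d41b_gt.GF

end
end MrgPart5

-- ======== part 6: formerly Pool.Agent.MP_c8d41b_gt.gf.Iso
section MrgPart6

/-! PROJECT GF, row ISO: the pairing vanishes on classes that can be pushed apart. -/

open scoped ContDiff Topology
open Set Filter ExteriorAlgebra

noncomputable section

namespace Pool.Agent.MP_c8d41b_gt.GF

theorem iso (hH : HomotStmt) (hS : StokesStmt) : IsoStmt := by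
  intro Y _ _ _ K N b D K₁ m c α β hodd hbdd hmc hα hβ hdα hdβ
  have hst := hS _ N b
  have hβs : ContDiff ℝ ∞ (pb tau β) := cd_pb cd_tau hβ.sm
  have hne : ∀ (γ : XX Y K → Lam (XX Y K)) x, pb tau γ x ≠ 0 → γ (tau x) ≠ 0 := by
    intro γ x h h0
    exact h (by rw [pb, h0, map_zero])
  have hr : Continuous fun x : XX Y K => x.1.1 := continuous_fst.fst
  obtain ⟨ρ, hρ⟩ := (IsCompact.union hα.cpt hβ.cpt).exists_bound_of_continuousOn hr.continuousOn
  set T : ℝ := 2 * |ρ| + 1 with hT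
  set H : ℝ × XX Y K → XX Y K := fun q => q.2 + (q.1 * T) • er with hHdef
  have hHs : ContDiff ℝ ∞ H := contDiff_snd.add ((contDiff_fst.mul contDiff_const).smul contDiff_const)
  have hhom := fun x => hH _ _ H α univ x hHs isOpen_univ hα.sm.contDiffOn fun _ _ => mem_univ _
  have hγ : Oc univ (hK H α) := by
    have hc : IsCompact ((fun q : ℝ × XX Y K => q.2 - (q.1 * T) • er) '' (Icc 0 1 ×ˢ tsupport α)) :=
      (isCompact_Icc.prod hα.cpt).image (by fun_prop)
    refine Oc.of_compact (contDiff_iff_contDiffAt.2 fun x => (hhom x).1) hc (subset_univ _)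
      fun x hx => hK_eq_zero fun t ht => ?_
    by_contra h
    exact hx ⟨(t, H (t, x)), ⟨ht, subset_tsupport _ h⟩, by simp [hHdef]⟩
  have h0 : pb (fun y => H (0, y)) α = α := by
    have : (fun y => H (0, y)) = fun y => y := by funext y; simp [hHdef]
    rw [this, pb_id]
  have e1 : (fun x => α x * pb tau β x) = (-1 : ℝ) • fun x => dd (hK H α) x * pb tau β x := by
    funext x
    by_cases hx : pb tau β x = 0
    · simp [hx]
    have hb := hne β x hx
    have hD : -m < D x := by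
      have h1 : D (tau x) < m := hβ.sub (subset_tsupport _ hb)
      rw [hodd] at h1
      linarith
    have h1 : pb (fun y => H (1, y)) α x = 0 := by
      have h2 : α (H (1, x)) = 0 := by
        by_contra h
        have h3 := hρ _ (Or.inl (subset_tsupport _ h))
        have h4 := hρ _ (Or.inr (subset_tsupport _ hb))
        simp only [hHdef, er, tau_apply, Real.norm_eq_abs, Prod.fst_add, Prod.smul_mk, one_mul,
          smul_eq_mul, mul_one] at h3 h4
        have h5 := le_abs_self ρ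
        have h6 := (abs_le.1 h3).2
        have h7 := (abs_le.1 h4).1
        linarith
      rw [pb, h2, map_zero]
    have h2 : hK H (dd α) x = 0 := hK_eq_zero fun t _ => hdα.zero_of fun h => by
      have h3 : D (x + (t * T) • er) < -c := h
      have h4 := (abs_le.1 (hbdd x (t * T))).1
      linarith
    have h3 := (hhom x).2
    rw [h0, h1, h2, zero_sub, add_zero] at h3
    simp [← h3]
  have e2 : (fun x => inv (hK H α x) * dd (pb tau β) x) = 0 := by
    funext x
    by_cases hx : dd (pb tau β) x = 0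
    · simp [hx]
    rw [dd_pb cd_tau.contDiffAt (hβ.da _)] at hx
    have hD : c < D x := by
      have h1 : D (tau x) < -c := hdβ.sub (subset_tsupport _ (hne _ x hx))
      rw [hodd] at h1
      linarith
    have h2 : hK H α x = 0 := hK_eq_zero fun t _ => hα.zero_of fun h => by
      have h3 : D (x + (t * T) • er) < m := h
      have h4 := (abs_le.1 (hbdd x (t * T))).1
      linarith
    simp [h2]
  rw [e1, hst.smul, hst.ibp univ _ _ isOpen_univ hγ hβs.contDiffOn, e2]
  simp [itg]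

end Pool.Agent.MP_c8d41b_gt.GF

end
end MrgPart6

-- ======== part 7: formerly Pool.Agent.MP_c8d41b_gt.gf.Lin
section MrgPart7

/-! PROJECT GF, row LIN: a form with a Lagrangian subspace has signature zero. -/

open Module

noncomputable section

namespace Pool.Agent.MP_c8d41b_gt.GF

namespace Lin

theorem greatest {Z M : Type} [AddCommGroup Z] [Module ℝ Z] [AddCommGroup M] [Module ℝ M]
    [FiniteDimensional ℝ M] (f : Z →ₗ[ℝ] M) (hf : Function.Surjective f)
    (Q : QuadraticForm ℝ M) (P : Z → ℝ) (hP : ∀ x, P x = Q (f x)) :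
    IsGreatest {m | ∃ v : Fin m → Z, ∀ c : Fin m → ℝ, c ≠ 0 → 0 < P (∑ i, c i • v i)}
      (sigPos Q) := by
  constructor
  · obtain ⟨V, hV, hpos⟩ := exists_finrank_eq_sigPos_and_posDef Q
    rw [← hV]
    let b := Module.finBasis ℝ V
    choose v hv using fun i => hf (b i : M)
    refine ⟨v, fun c hc => ?_⟩
    have h1 : f (∑ i, c i • v i) = ((∑ i, c i • b i : V) : M) := by
      simp [map_sum, hv]
    rw [hP, h1]
    have h2 : (∑ i, c i • b i : V) ≠ 0 := by
      intro h0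
      exact hc (funext (Fintype.linearIndependent_iff.1 b.linearIndependent c h0))
    exact hpos _ h2
  · rintro m ⟨v, hv⟩
    have hsum : ∀ c : Fin m → ℝ, f (∑ i, c i • v i) = ∑ i, c i • f (v i) := by
      intro c; simp [map_sum]
    have hli : LinearIndependent ℝ fun i => f (v i) := by
      rw [Fintype.linearIndependent_iff]
      intro c hc
      by_contra hne
      have h0 : c ≠ 0 := fun h => hne fun i => by rw [h]; rfl
      have := hv c h0
      rw [hP, hsum, hc] at this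
      simp at this
    have hr : finrank ℝ (Submodule.span ℝ (Set.range fun i => f (v i))) = m := by
      rw [finrank_span_eq_card hli]; simp
    rw [← hr]
    refine le_sigPos_of_posDef Q ?_
    rintro ⟨x, hx⟩ hx0
    obtain ⟨c, rfl⟩ := (Submodule.mem_span_range_iff_exists_fun ℝ).1 hx
    have h0 : c ≠ 0 := by
      rintro rfl
      apply hx0
      simp
    have := hv c h0
    rw [hP, hsum] at this
    exact this

theorem sig {M : Type} [AddCommGroup M] [Module ℝ M] [FiniteDimensional ℝ M]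
    (B : LinearMap.BilinForm ℝ M) (hs : ∀ x y, B x y = B y x) (L : Submodule ℝ M)
    (h1 : ∀ x ∈ L, ∀ y ∈ L, B x y = 0) (h2 : ∀ x, (∀ y ∈ L, B x y = 0) → x ∈ L) :
    sigPos B.toQuadraticMap = sigNeg B.toQuadraticMap := by
  have hrefl : B.IsRefl := fun x y h => by rw [hs, h]
  have hL : B.orthogonal L = L := by
    ext x
    rw [LinearMap.BilinForm.mem_orthogonal_iff]
    constructor
    · intro h
      refine h2 x fun y hy => ?_
      rw [hs]; exact h y hy
    · intro hx y hy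
      exact h1 y hy x hx
  have hrad : QuadraticMap.radical B.toQuadraticMap = L ⊓ B.orthogonal ⊤ := by
    ext x
    rw [QuadraticMap.mem_radical_iff', Submodule.mem_inf, LinearMap.BilinForm.mem_orthogonal_iff]
    simp only [LinearMap.BilinMap.toQuadraticMap_apply, map_add, LinearMap.add_apply]
    constructor
    · rintro ⟨h0, h⟩
      have hx : ∀ y, B x y = 0 := by
        intro y
        have := h y
        rw [h0, hs y x] at this
        linarith
      exact ⟨h2 x fun y _ => hx y, fun y _ => by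
        show B y x = 0
        rw [hs]; exact hx y⟩
    · rintro ⟨_, h⟩
      have hx : ∀ y, B y x = 0 := fun y => h y Submodule.mem_top
      refine ⟨hx x, fun y => ?_⟩
      rw [hx x, hx y, hs x y, hx y]; ring
  have e1 := LinearMap.BilinForm.finrank_add_finrank_orthogonal hrefl L
  rw [hL, ← hrad] at e1
  have e2 := QuadraticForm.sigPos_add_sigNeg_add_radical (Q := B.toQuadraticMap)
  have e3 := QuadraticForm.sigPos_add_finrank_le_of_nonpos (Q := B.toQuadraticMap) (V := L)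
    fun x hx => by
      rw [LinearMap.BilinMap.toQuadraticMap_apply, h1 x hx x hx]
  have e4 := QuadraticForm.sigPos_add_finrank_le_of_nonpos (Q := -B.toQuadraticMap) (V := L)
    fun x hx => by
      rw [QuadraticMap.neg_apply, LinearMap.BilinMap.toQuadraticMap_apply, h1 x hx x hx]; simp
  rw [sigPos_neg] at e4
  omega

end Lin

theorem lin : LinStmt := by
  intro Z _ _ q R Λ hs hfd hR h1 h2
  let B : LinearMap.BilinForm ℝ (Z ⧸ R) :=
    LinearMap.liftQ₂ R R q (fun x hx => LinearMap.ext fun y => hR x hx y)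
      (fun x hx => LinearMap.ext fun y => by
        show q y x = 0
        rw [hs]; exact hR x hx y)
  have hB : ∀ x y, B (R.mkQ x) (R.mkQ y) = q x y := fun x y => rfl
  have hsurj := R.mkQ_surjective
  have hsig := Lin.sig B
    (fun x y => by
      obtain ⟨x, rfl⟩ := hsurj x
      obtain ⟨y, rfl⟩ := hsurj y
      rw [hB, hB, hs])
    (Λ.map R.mkQ)
    (by
      rintro _ ⟨x, hx, rfl⟩ _ ⟨y, hy, rfl⟩
      rw [hB]; exact h1 x hx y hy)
    (by
      intro x hx
      obtain ⟨x, rfl⟩ := hsurj x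
      exact ⟨x, h2 x fun y hy => by rw [← hB]; exact hx _ ⟨y, hy, rfl⟩, rfl⟩)
  refine ⟨sigPos B.toQuadraticMap, ?_, ?_⟩
  · exact Lin.greatest R.mkQ hsurj B.toQuadraticMap (fun x => 1 * q x x) fun x => by
      rw [LinearMap.BilinMap.toQuadraticMap_apply, hB, one_mul]
  · rw [hsig, ← sigPos_neg]
    exact Lin.greatest R.mkQ hsurj (-B.toQuadraticMap) (fun x => -1 * q x x) fun x => by
      rw [QuadraticMap.neg_apply, LinearMap.BilinMap.toQuadraticMap_apply, hB]; ring

end Pool.Agent.MP_c8d41b_gt.GF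

end
end MrgPart7

-- ======== part 8: formerly Pool.Agent.MP_c8d41b_gt.gf.Loc
section MrgPart8

/-! PROJECT GF, row LOC: push down by the flow, then split off the Thom part. -/

open scoped ContDiff Topology
open Set Filter

noncomputable section

namespace Pool.Agent.MP_c8d41b_gt.GF

theorem loc1 (hH : HomotStmt) : Loc1Stmt := by
  intro Y _ _ _ K P hP s hs hd δ hδ
  have hD := hP.dyn
  obtain ⟨T, hT, hdown⟩ := hD.down δ hδ
  let H : ℝ × XX Y K → XX Y K := fun q => P.fl (-(q.1 * T)) q.2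
  have hHs : ContDiff ℝ ∞ H :=
    hD.fsm.comp (f := fun q : ℝ × XX Y K => (-(q.1 * T), q.2)) (by fun_prop)
  have hH1 : ContDiff ℝ ∞ fun y => H (1, y) := hHs.comp (by fun_prop)
  have hback : ∀ t x, P.fl (t * T) (H (t, x)) = x := fun t x => by
    rw [← hD.fadd, add_neg_cancel, hD.f0]
  let S : Set (XX Y K) := (fun q : ℝ × XX Y K => P.fl (q.1 * T) q.2) '' (Icc 0 1 ×ˢ tsupport s)
  have hS : IsCompact S := (isCompact_Icc.prod hs.cpt).image
    (hD.fsm.continuous.comp (f := fun q : ℝ × XX Y K => (q.1 * T, q.2)) (by fun_prop))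
  have hSlt : S ⊆ P.lt P.ε₀ := by
    rintro _ ⟨q, hq, rfl⟩
    exact (hD.mono _ _ (mul_nonneg hq.1.1 hT)).trans_lt (hs.sub hq.2)
  have h0 : ∀ x ∉ S, ∀ t ∈ Icc (0 : ℝ) 1, s (H (t, x)) = 0 := fun x hx t ht =>
    image_eq_zero_of_notMem_tsupport fun h => hx ⟨(t, H (t, x)), ⟨ht, h⟩, hback t x⟩
  have hh := fun x => hH _ _ H s univ x hHs isOpen_univ hs.sm.contDiffOn fun _ _ => trivial
  have hK0 : Oc (P.lt P.ε₀) (hK H s) :=
    Oc.of_compact (contDiff_iff_contDiffAt.2 fun x => (hh x).1) hS hSlt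
      fun x hx => hK_eq_zero (h0 x hx)
  refine ⟨pb (fun y => H (1, y)) s, -hK H s, Oc.of_compact (cd_pb hH1 hs.sm) hS (subset_univ _)
    fun x hx => by rw [pb, h0 x hx 1 ⟨zero_le_one, le_rfl⟩, map_zero], funext fun x => ?_,
    hK0.neg, funext fun x => ?_, fun x hx => ?_⟩
  · rw [dd_pb hH1.contDiffAt (hs.da _), hd, pb, Pi.zero_apply, map_zero, Pi.zero_apply]
  · have e := (hh x).2
    have e0 : (fun y => H (0, y)) = fun y => y := funext fun y => by
      simp only [H, zero_mul, neg_zero, hD.f0]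
    rw [e0, pb_id, hd, hK_eq_zero (α := 0) fun _ _ => rfl, add_zero] at e
    have e1 : dd (-hK H s) x = -dd (hK H s) x := dd_neg
    rw [Pi.add_apply, e1, ← e]
    abel
  · have h1 : s (H (1, x)) ≠ 0 := fun h => hx (by rw [pb, h, map_zero])
    have h2 := hdown _ (hs.sub (subset_tsupport s h1))
    have h3 := hback 1 x
    rw [one_mul] at h3
    rwa [h3] at h2

theorem loc (h1 : Loc1Stmt) (h2 : Loc2Stmt) (hT : ThmStmt) (hB : BumpStmt) : LocStmt := by
  intro Y _ _ _ K P hP s hs hd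
  have hD := hP.dyn
  have hC := hP.con
  have hG := hP.tube.pre.sm
  have hh := hC.pos
  have hm : 0 < P.m := m0_pos hh
  have hm1 : P.m = K * P.h ^ 2 + P.h ^ 2 := by
    simp only [m0]
    ring
  have hK : 0 ≤ K * P.h ^ 2 := by positivity
  have hh2 : 0 < P.h ^ 2 := by positivity
  have hε : 4 * P.m ≤ P.ε₀ := hC.le
  have hν := hD.le
  have ca := (cd_aa hG).continuous
  have cb : Continuous fun x => nq (bb P.Gt x) := (cd_nq.comp (cd_bb hG)).continuous
  obtain ⟨s', γ₁, hs', hd', hγ₁, e₁, hsup⟩ := h1 Y K P hP s hs hd (P.h / 2) (half_pos hh)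
  have hTT : ∀ x : XX Y K, ‖x.1.2‖ < P.R → ‖aa P.Gt x‖ ≤ 2 * P.h → nq (bb P.Gt x) < 2 * P.ε₀ →
      x ∈ TT P.Gt P.R P.ν := fun x a b c => ⟨a, by nlinarith [nq_le b]⟩
  have hOT : OO P.Gt P.R P.ε₀ P.h ⊆ TT P.Gt P.R P.ν := fun x hx =>
    hTT x hx.1 hx.2.1.le (by linarith [hx.2.2])
  have hDe : ∀ x ∈ TT P.Gt P.R P.ν, P.D x = nq (aa P.Gt x) - nq (bb P.Gt x) := hD.eq
  have hs0 : ∀ x ∈ OO P.Gt P.R P.ε₀ P.h, P.h / 2 < ‖aa P.Gt x‖ → s' x = 0 := fun x hx ha => by
    by_contra h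
    rcases hsup x h with h | h
    · linarith [hDe x (hOT hx), hx.2.2, nq_nonneg (aa P.Gt x)]
    · exact absurd h.2 (not_le.2 ha)
  obtain ⟨σ, γ₂, hσ, hσc, hγ₂, e₂, hz1, ρ, hz2⟩ := h2 Y K P hP s' hs' hd' hs0
  obtain ⟨ψ, hψ, hψ1, hψ0, -⟩ := hB.2.1 (2 * P.m) (3 * P.m) (by linarith)
  have hO : IsOpen (OO P.Gt P.R P.ε₀ P.h) :=
    (isOpen_lt (continuous_snd.comp continuous_fst).norm continuous_const).inter
      ((isOpen_lt ca.norm continuous_const).inter (isOpen_lt cb continuous_const))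
  let γ₃ : XX Y K → Lam (XX Y K) :=
    (OO P.Gt P.R P.ε₀ P.h).indicator fun x => ψ (nq (bb P.Gt x)) • γ₂ x
  let S : Set (XX Y K) := (TC P.Gt P.R P.ν ∩ {x | |x.1.1| ≤ ρ}) ∩
    ({x | ‖aa P.Gt x‖ ≤ P.h} ∩ {x | nq (bb P.Gt x) ≤ 3 * P.m})
  have hS : IsCompact S := (hP.tube.cpt ρ).inter_right
    ((isClosed_le ca.norm continuous_const).inter (isClosed_le cb continuous_const))
  have hSO : S ⊆ OO P.Gt P.R P.ε₀ P.h := fun x hx => by
    have a : ‖aa P.Gt x‖ ≤ P.h := hx.2.1
    have b : nq (bb P.Gt x) ≤ 3 * P.m := hx.2.2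
    exact ⟨hx.1.1.1, by linarith, by linarith⟩
  have h30 : ∀ x ∉ S, γ₃ x = 0 := fun x hx => by
    by_cases hxO : x ∈ OO P.Gt P.R P.ε₀ P.h
    · simp only [γ₃, indicator_of_mem hxO]
      by_contra h
      obtain ⟨a, b⟩ := smul_ne_zero_iff.1 h
      exact hx ⟨⟨⟨hxO.1, (hOT hxO).2.le⟩, not_lt.1 fun c => b (hz2 x hxO c)⟩,
        not_lt.1 fun c => b (hz1 x hxO c), le_of_lt (not_le.1 fun c => a (hψ0 _ c))⟩
    · exact indicator_of_notMem hxO _
  have hγ₃ : Oc (P.lt P.ε₀) γ₃ := by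
    refine Oc.of_compact (contDiff_of_closed hS.isClosed hSO (fun x hx => ?_) h30) hS
      (fun x hx => ?_) h30
    · refine (((hψ.comp (cd_nq.comp (cd_bb hG))).smul hγ₂).contDiffAt).congr_of_eventuallyEq ?_
      filter_upwards [hO.mem_nhds hx] with y hy using indicator_of_mem hy _
    · show P.D x < P.ε₀
      linarith [hDe x (hOT (hSO hx)), nq_le (show ‖aa P.Gt x‖ ≤ P.h from hx.2.1),
        nq_nonneg (bb P.Gt x)]
  have hd3 : ∀ x ∉ S, dd γ₃ x = 0 := fun x hx => dd_eq_zero (by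
    filter_upwards [hS.isClosed.isOpen_compl.mem_nhds hx] with y hy using h30 y hy)
  have hth := (hT Y K P hP).oc σ hσ
  have hκ : Oc univ (s' - P.th σ - dd γ₃) :=
    (hs'.sub' (hth.mono (subset_univ _))).sub' (hγ₃.dd.mono (subset_univ _))
  have hth0 : ∀ x, P.h < ‖aa P.Gt x‖ → P.th σ x = 0 := fun x hx => by
    refine indicator_apply_eq_zero.2 fun _ => ?_
    rw [pb, PhiS_eq_zero hC.bump hh.le hx, map_zero, zero_mul, smul_zero]
  have hκ0 : ∀ x, -P.m - P.h ^ 2 < P.D x → (s' - P.th σ - dd γ₃) x = 0 := fun x hx => by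
    rw [Pi.sub_apply, Pi.sub_apply]
    by_cases hxO : x ∈ OO P.Gt P.R P.ε₀ P.h
    · rcases lt_or_ge (nq (bb P.Gt x)) (2 * P.m) with hb | hb
      · have a : dd γ₃ x = dd γ₂ x := dd_congr (by
          filter_upwards [hO.mem_nhds hxO, (isOpen_lt cb continuous_const).mem_nhds hb]
            with y hy hy'
          simp only [γ₃, indicator_of_mem hy, hψ1 _ (le_of_lt hy'), one_smul])
        have b : P.th σ x = pb (aa P.Gt) (PhiS K P.e) x * pb P.π σ x := by
          refine (indicator_of_mem (s := {x : XX Y K | ‖x.1.2‖ < P.R}) hxO.1 _).trans ?_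
          rw [hC.one _ (by linarith), one_smul]
        rw [a, b, e₂ x hxO, add_sub_cancel_left, sub_self]
      · have a : P.h < ‖aa P.Gt x‖ := not_le.1 fun c => by linarith [hDe x (hOT hxO), nq_le c]
        rw [hs0 x hxO (by linarith), hth0 x a, hd3 x fun c => absurd c.2.1 (not_le.2 a), sub_zero,
          sub_zero]
    · have key : x ∈ TT P.Gt P.R P.ν → ‖aa P.Gt x‖ ≤ P.h → False := fun a b => by
        have c : P.ε₀ ≤ nq (bb P.Gt x) := not_lt.1 fun c => hxO ⟨a.1, by linarith, c⟩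
        linarith [hDe x a, nq_le b]
      have a : s' x = 0 := by
        by_contra h
        rcases hsup x h with h | h
        · linarith
        · exact key h.1 (by linarith [h.2])
      have b : P.th σ x = 0 := by
        by_contra h
        have c : ‖aa P.Gt x‖ ≤ P.h := not_lt.1 fun c => h (hth0 x c)
        have d := indicator_apply_ne_zero.1 h
        have f : nq (bb P.Gt x) < P.ε₀ + 2 * P.m :=
          not_le.1 fun f => (smul_ne_zero_iff.1 d.2).1 (hC.zero _ f)
        exact key (hTT x d.1 (by linarith) (by linarith)) c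
      rw [a, b, hd3 x fun c => hxO (hSO c), sub_zero, sub_zero]
  refine ⟨σ, γ₁ + γ₃, s' - P.th σ - dd γ₃, hσ, hσc, hγ₁.add hγ₃,
    Oc.of_compact (S := tsupport (s' - P.th σ - dd γ₃) ∩ {x | P.D x ≤ -P.m - P.h ^ 2}) hκ.sm
      (IsCompact.inter_right hκ.cpt (isClosed_le hD.sm.continuous continuous_const))
      (fun x hx => ?_) fun x hx => ?_, funext fun x => ?_⟩
  · have : P.D x ≤ -P.m - P.h ^ 2 := hx.2
    show P.D x < -P.m
    linarith
  · by_contra h
    exact hx ⟨subset_tsupport _ h, not_lt.1 fun c => h (hκ0 x c)⟩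
  · have a : dd (γ₁ + γ₃) x = dd γ₁ x + dd γ₃ x := dd_add (hγ₁.da x) (hγ₃.da x)
    simp only [Pi.add_apply, Pi.sub_apply, a, congrFun e₁ x]
    abel

end Pool.Agent.MP_c8d41b_gt.GF

end
end MrgPart8

-- ======== part 9: formerly Pool.Agent.MP_c8d41b_gt.gf.Mv
section MrgPart9

/-! PROJECT GF: the Mayer-Vietoris step for Poincare duality. -/

open scoped ContDiff Topology
open Set Filter ExteriorAlgebra

noncomputable section

namespace Pool.Agent.MP_c8d41b_gt.GF

namespace Mv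

variable {E : Type} [NormedAddCommGroup E] [NormedSpace ℝ E] [FiniteDimensional ℝ E] {N : ℕ}
  {b : Module.Basis (Fin N) ℝ E} {W : Set E} {A B α : E → Lam E}

/-- maps that are linear on compactly supported forms extend to linear maps -/
theorem extend {M : Type} [AddCommGroup M] [Module ℝ M] (W : Set E) (f : (E → Lam E) → M)
    (ha : ∀ α β, Oc W α → Oc W β → f (α + β) = f α + f β)
    (hs : ∀ (c : ℝ) α, Oc W α → f (c • α) = c • f α) :
    ∃ L : (E → Lam E) →ₗ[ℝ] M, ∀ α, Oc W α → L α = f α := by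
  let S : Submodule ℝ (E → Lam E) :=
    { carrier := {α | Oc W α}
      add_mem' := Oc.add
      zero_mem' := Oc.zero
      smul_mem' := fun c _ h => Oc.smul h c }
  let f0 : S →ₗ[ℝ] M :=
    { toFun := fun α => f α
      map_add' := fun α β => ha _ _ α.2 β.2
      map_smul' := fun c α => hs c _ α.2 }
  obtain ⟨L, hL⟩ := f0.exists_extend
  exact ⟨L, fun α h => LinearMap.congr_fun hL ⟨α, h⟩⟩

theorem mulOc (hW : IsOpen W) (hA : ContDiffOn ℝ ∞ A W) (h : Oc W α) :
    Oc univ fun x => α x * A x :=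
  (h.mul_right fun _ hx => hA.contDiffAt (hW.mem_nhds hx)).mono (subset_univ _)

theorem exI (hS : Stokes b) (hW : IsOpen W) (hA : ContDiffOn ℝ ∞ A W) :
    ∃ L : (E → Lam E) →ₗ[ℝ] ℝ, ∀ α, Oc W α → L α = itg b fun x => α x * A x :=
  extend W _ (fun α β h h' => by
      rw [← hS.add _ _ (mulOc hW hA h) (mulOc hW hA h')]
      exact congrArg _ (funext fun x => add_mul _ _ _))
    fun c α _ => by
      rw [smul_eq_mul, ← hS.smul]
      exact congrArg _ (funext fun x => smul_mul_assoc c (α x) (A x))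

theorem exD : ∃ L : (E → Lam E) →ₗ[ℝ] (E → Lam E),
    ∀ α, Oc univ α → L α = dd fun x => inv (α x) :=
  extend univ _ (fun α β h h' => funext fun x => by
      simp only [Pi.add_apply, map_add]
      exact dd_add (h.inv.da x) (h'.inv.da x))
    fun c α h => funext fun x => by
      simp only [Pi.smul_apply, map_smul]
      exact dd_smul c (h.inv.da x)

theorem i_add (hS : Stokes b) (hW : IsOpen W) (hA : ContDiffOn ℝ ∞ A W) (hB : ContDiffOn ℝ ∞ B W)
    {C : E → Lam E} (e : ∀ x ∈ W, C x = A x + B x) (h : Oc W α) :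
    (itg b fun x => α x * C x) = (itg b fun x => α x * A x) + itg b fun x => α x * B x := by
  rw [← hS.add _ _ (mulOc hW hA h) (mulOc hW hB h)]
  refine congrArg _ (funext fun x => ?_)
  by_cases hx : x ∈ W
  · rw [e x hx, mul_add]; rfl
  · simp [h.zero_of hx]

theorem i_dd (hS : Stokes b) (hW : IsOpen W) (hA : ContDiffOn ℝ ∞ A W) (h : Oc W α) :
    (itg b fun x => dd (fun x => inv (α x)) x * A x) = -itg b fun x => α x * dd A x := by
  simpa only [inv_inv] using hS.ibp W _ A hW h.inv hA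

theorem d_d (h : Oc W α) : (dd fun x => inv (dd (fun x => inv (α x)) x)) = 0 := funext fun x => by
  rw [dd_inv (h.inv.dd.da x), dd_dd h.inv.sm.contDiffAt, map_zero, neg_zero]; rfl

theorem cdo_dd (hW : IsOpen W) (hA : ContDiffOn ℝ ∞ A W) : ContDiffOn ℝ ∞ (dd A) W :=
  fun _ hx => (cda_dd' (hA.contDiffAt (hW.mem_nhds hx))).contDiffWithinAt

theorem da (hW : IsOpen W) (hA : ContDiffOn ℝ ∞ A W) {x : E} (hx : x ∈ W) :
    DifferentiableAt ℝ A x := (hA.contDiffAt (hW.mem_nhds hx)).differentiableAt (by simp)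

/-- a cut-off form is smooth -/
theorem cut {U V : Set E} (hU : IsOpen U) (hV : IsOpen V) {f : E → ℝ} (hf : ContDiffOn ℝ ∞ f U)
    (h0 : ∀ x ∈ U, x ∉ V → f =ᶠ[𝓝 x] fun _ => 0) (hA : ContDiffOn ℝ ∞ A (U ∩ V)) :
    ContDiffOn ℝ ∞ (fun x => f x • A x) U := fun x hx => by
  refine ContDiffAt.contDiffWithinAt ?_
  by_cases h : x ∈ V
  · exact (hf.contDiffAt (hU.mem_nhds hx)).smul (hA.contDiffAt ((hU.inter hV).mem_nhds ⟨hx, h⟩))
  · exact (contDiffAt_const (c := 0)).congr_of_eventuallyEq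
      ((h0 x hx h).mono fun y hy => by simp only [hy, zero_smul])

/-- multiplication by a function -/
def mf (f : E → ℝ) : (E → Lam E) →ₗ[ℝ] (E → Lam E) where
  toFun α x := f x • α x
  map_add' _ _ := funext fun _ => smul_add _ _ _
  map_smul' c α := funext fun x => smul_comm (f x) c (α x)

theorem mf_add (f : E → ℝ) (α : E → Lam E) : mf f α + mf (fun x => 1 - f x) α = α :=
  funext fun x => by simp [mf, sub_smul]

end Mv

open Mv in
theorem mv (hP : PouStmt) (hS : StokesStmt) : MVStmt := by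
  intro E _ _ _ N b U V hU hV cU cV cI φ A hA hd hφ
  classical
  have hS := hS E N b
  have hI := hU.inter hV
  obtain ⟨ρ, hρ, p1, p2, p3⟩ := hP E U V hU hV
  obtain ⟨φU, AU, u1, u2, u3⟩ := cU φ A (hA.mono subset_union_left) (fun x hx => hd x (.inl hx))
    fun α h => hφ α (h.mono subset_union_left)
  obtain ⟨φV, AV, v1, v2, v3⟩ := cV φ A (hA.mono subset_union_right) (fun x hx => hd x (.inr hx))
    fun α h => hφ α (h.mono subset_union_right)
  have u1' := u1.mono (inter_subset_left (t := V))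
  have v1' := v1.mono (inter_subset_right (s := U))
  obtain ⟨ψ, C, c1, c2, c3⟩ := cI (φV - φU) (fun x => AU x - AV x) (u1'.sub v1')
    (fun x hx => by rw [dd_sub (da hI u1' hx) (da hI v1' hx), u2 x hx.1, v2 x hx.2, sub_self])
    fun α h => by
      have e1 := u3 α (h.mono inter_subset_left)
      have e2 := v3 α (h.mono inter_subset_right)
      have e3 := i_add hS hI (u1'.sub v1') v1' (C := AU) (fun x _ => by simp) h
      rw [LinearMap.sub_apply]
      linarith
  have sU : ContDiffOn ℝ ∞ (mf (fun x => 1 - ρ x) C) U :=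
    cut hU hV (f := fun x => 1 - ρ x) (contDiffOn_const.sub (hρ.sm.mono subset_union_left))
      (fun x hx h => (hρ.one x hx h).mono fun y hy => by simp only [hy, sub_self]) c1
  have sV : ContDiffOn ℝ ∞ (mf ρ C) V :=
    cut hV hU (hρ.sm.mono subset_union_right) hρ.zero (inter_comm U V ▸ c1)
  have hC := mf_add ρ C
  generalize mf (fun x => 1 - ρ x) C = PU at sU hC
  generalize mf ρ C = PV at sV hC
  have sU' := sU.mono (inter_subset_left (t := V))
  have sV' := sV.mono (inter_subset_right (s := U))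
  let A' : E → Lam E := fun x => if x ∈ U then AU x - dd PU x else AV x + dd PV x
  have aU : ∀ x ∈ U, A' x = AU x - dd PU x := fun x hx => if_pos hx
  have aV : ∀ x ∈ V, A' x = AV x + dd PV x := fun x hx => by
    by_cases h : x ∈ U
    · have := dd_add (da hV sV hx) (da hU sU h)
      rw [show (fun x => PV x + PU x) = C from hC, c2 x ⟨h, hx⟩, sub_eq_iff_eq_add] at this
      rw [aU x h, this]
      abel
    · exact if_neg h
  have bU : ContDiffOn ℝ ∞ A' U := (u1.sub (cdo_dd hU sU)).congr aU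
  have bV : ContDiffOn ℝ ∞ A' V := (v1.add (cdo_dd hV sV)).congr aV
  have hA' : ContDiffOn ℝ ∞ A' (U ∪ V) := fun x hx => hx.elim
    (fun h => (bU.contDiffAt (hU.mem_nhds h)).contDiffWithinAt)
    fun h => (bV.contDiffAt (hV.mem_nhds h)).contDiffWithinAt
  obtain ⟨D, hD⟩ := exD (E := E)
  obtain ⟨LU, lU⟩ := exI hS hU sU
  obtain ⟨LV, lV⟩ := exI hS hV sV
  obtain ⟨L, hL⟩ := exI hS (hU.union hV) hA'
  let φ1 := φU + LU - ψ.comp D
  let φ2 := φV - LV
  have agree : ∀ α, Oc (U ∩ V) α → φ1 α = φ2 α := fun α h => by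
    have e1 := c3 α h
    have e2 := i_add hS hI sV' sU' (C := C) (fun x _ => (congrFun hC x).symm) h
    simp only [φ1, φ2, LinearMap.sub_apply, LinearMap.add_apply, LinearMap.comp_apply,
      hD α (h.mono (subset_univ _)), lU α (h.mono inter_subset_left),
      lV α (h.mono inter_subset_right)] at e1 ⊢
    linarith
  let φ' := φ1.comp (mf ρ) + φ2.comp (mf fun x => 1 - ρ x)
  have fU : ∀ α, Oc U α → φ' α = φ1 α := fun α h => by
    change φ1 (mf ρ α) + φ2 (mf _ α) = _
    rw [← agree (mf _ α) (p3 α h), ← map_add, mf_add]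
  have fV : ∀ α, Oc V α → φ' α = φ2 α := fun α h => by
    change φ1 (mf ρ α) + φ2 (mf _ α) = _
    rw [agree (mf _ α) (p2 α h), ← map_add, mf_add]
  have gU : ∀ α, Oc U α → φ α = -φ' (D α) + L α := fun α h => by
    have e := i_add hS hU bU (cdo_dd hU sU) (C := AU) (fun x hx => by simp [aU x hx]) h
    rw [hD α (h.mono (subset_univ _)), fU _ h.inv.dd, hL α (h.mono subset_union_left), u3 α h]
    simp only [φ1, LinearMap.sub_apply, LinearMap.add_apply, LinearMap.comp_apply,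
      hD _ (h.inv.dd.mono (subset_univ _)), lU _ h.inv.dd, d_d h, map_zero, i_dd hS hU sU h]
    linarith
  have gV : ∀ α, Oc V α → φ α = -φ' (D α) + L α := fun α h => by
    have e := i_add hS hV v1 (cdo_dd hV sV) aV h
    rw [hD α (h.mono (subset_univ _)), fV _ h.inv.dd, hL α (h.mono subset_union_right), v3 α h]
    simp only [φ2, LinearMap.sub_apply, lV _ h.inv.dd, i_dd hS hV sV h]
    linarith
  refine ⟨φ', A', hA', fun x hx => hx.elim (fun h => ?_) fun h => ?_, fun α h => ?_⟩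
  · rw [dd_congr (eventuallyEq_of_mem (hU.mem_nhds h) aU),
      dd_sub (da hU u1 h) (da hU (cdo_dd hU sU) h), dd_dd (sU.contDiffAt (hU.mem_nhds h)), u2 x h,
      sub_zero]
  · rw [dd_congr (eventuallyEq_of_mem (hV.mem_nhds h) aV),
      dd_add (da hV v1 h) (da hV (cdo_dd hV sV) h), dd_dd (sV.contDiffAt (hV.mem_nhds h)), v2 x h,
      add_zero]
  · have e1 := gU (mf ρ α) (p1 α h).1
    have e2 := gV (mf (fun x => 1 - ρ x) α) (p1 α h).2
    rw [← hD α (h.mono (subset_univ _)), ← hL α h, ← mf_add ρ α]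
    simp only [map_add]
    linarith

end Pool.Agent.MP_c8d41b_gt.GF

end
end MrgPart9

-- ======== part 10: formerly Pool.Agent.MP_c8d41b_gt.gf.Pd
section MrgPart10

/-! PROJECT GF, row FDMV: finiteness and duality for finite unions of boxes. -/

open scoped ContDiff Topology
open Set Filter ExteriorAlgebra

noncomputable section

namespace Pool.Agent.MP_c8d41b_gt.GF

namespace Pd

/-- a linear map whose image is finitely generated modulo `B` -/
theorem exists_fg {M M' : Type} [AddCommGroup M] [Module ℝ M] [AddCommGroup M'] [Module ℝ M']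
    (T : M →ₗ[ℝ] M') {W B : Submodule ℝ M'} (hW : W.FG) (h : ∀ z, ∃ w ∈ W, T z - w ∈ B) :
    ∃ W' : Submodule ℝ M, W'.FG ∧ ∀ z, ∃ w ∈ W', T (z - w) ∈ B := by
  let f := B.mkQ.comp T
  have hle : LinearMap.range f ≤ W.map B.mkQ := by
    rintro _ ⟨z, rfl⟩
    obtain ⟨w, hw, hz⟩ := h z
    exact ⟨w, hw, ((Submodule.Quotient.eq B).2 hz).symm⟩
  have : FiniteDimensional ℝ (W.map B.mkQ) := Module.Finite.iff_fg.2 (hW.map _)
  have : FiniteDimensional ℝ (LinearMap.range f) := Submodule.finiteDimensional_of_le hle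
  obtain ⟨g, hg⟩ := f.rangeRestrict.exists_rightInverse_of_surjective f.range_rangeRestrict
  refine ⟨LinearMap.range g, Module.Finite.iff_fg.1 inferInstance, fun z =>
    ⟨g (f.rangeRestrict z), ⟨_, rfl⟩, ?_⟩⟩
  have e : f (g (f.rangeRestrict z)) = f z :=
    congrArg Subtype.val (LinearMap.congr_fun hg (f.rangeRestrict z))
  rw [map_sub]
  exact (Submodule.Quotient.eq B).1 e.symm

variable {E : Type} [NormedAddCommGroup E] [NormedSpace ℝ E] [FiniteDimensional ℝ E]
  {U V : Set E} {α β : E → Lam E}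

theorem dd_add' (h : Oc U α) (h' : Oc V β) : dd (α + β) = dd α + dd β :=
  funext fun x => dd_add (h.da x) (h'.da x)

theorem dd_sub' (h : Oc U α) (h' : Oc V β) : dd (α - β) = dd α - dd β :=
  funext fun x => dd_sub (h.da x) (h'.da x)

theorem dd_smul' (c : ℝ) (h : Oc U α) : dd (c • α) = c • dd α :=
  funext fun x => dd_smul c (h.da x)

/-- compactly supported forms -/
def OcS (U : Set E) : Submodule ℝ (E → Lam E) where
  carrier := {α | Oc U α}
  add_mem' := Oc.add
  zero_mem' := Oc.zero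
  smul_mem' c _ h := Oc.smul h c

/-- closed compactly supported forms -/
def Zs (U : Set E) : Submodule ℝ (E → Lam E) where
  carrier := {α | Oc U α ∧ dd α = 0}
  add_mem' h h' := ⟨h.1.add h'.1, by rw [dd_add' h.1 h'.1, h.2, h'.2, add_zero]⟩
  zero_mem' := ⟨Oc.zero, dd_zero⟩
  smul_mem' c _ h := ⟨h.1.smul c, by rw [dd_smul' c h.1, h.2, smul_zero]⟩

/-- exact compactly supported forms -/
def Bs (U : Set E) : Submodule ℝ (E → Lam E) where
  carrier := {α | ∃ γ, Oc U γ ∧ α = dd γ}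
  add_mem' := by
    rintro _ _ ⟨γ, h, rfl⟩ ⟨γ', h', rfl⟩
    exact ⟨γ + γ', h.add h', (dd_add' h h').symm⟩
  zero_mem' := ⟨0, Oc.zero, dd_zero.symm⟩
  smul_mem' := by
    rintro c _ ⟨γ, h, rfl⟩
    exact ⟨c • γ, h.smul c, (dd_smul' c h).symm⟩

theorem fd_iff : FD U ↔ ∃ W : Submodule ℝ (E → Lam E), W.FG ∧ W ≤ Zs U ∧
    ∀ α ∈ Zs U, ∃ w ∈ W, α - w ∈ Bs U := by
  constructor
  · rintro ⟨n, v, hv, h⟩
    refine ⟨Submodule.span ℝ (range v), Submodule.fg_span (finite_range v),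
      Submodule.span_le.2 (range_subset_iff.2 hv), fun α hα => ?_⟩
    obtain ⟨c, γ, hγ, e⟩ := h α hα.1 hα.2
    exact ⟨_, (Submodule.mem_span_range_iff_exists_fun ℝ).2 ⟨c, rfl⟩, γ, hγ,
      sub_eq_iff_eq_add'.2 e⟩
  · rintro ⟨W, hW, hZ, h⟩
    obtain ⟨n, v, rfl⟩ := Submodule.fg_iff_exists_fin_generating_family.1 hW
    refine ⟨n, v, fun i => hZ (Submodule.subset_span (mem_range_self i)), fun α h1 h2 => ?_⟩
    obtain ⟨w, hw, γ, hγ, e⟩ := h α ⟨h1, h2⟩
    obtain ⟨c, rfl⟩ := (Submodule.mem_span_range_iff_exists_fun ℝ).1 hw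
    exact ⟨c, γ, hγ, sub_eq_iff_eq_add'.1 e⟩

theorem Zs_mono (h : U ⊆ V) : Zs U ≤ Zs V := fun _ h' => ⟨h'.1.mono h, h'.2⟩

theorem Bs_mono (h : U ⊆ V) : Bs U ≤ Bs V := fun _ ⟨γ, h', e⟩ => ⟨γ, h'.mono h, e⟩

theorem eq_zero (h : Oc ∅ α) : α = 0 := funext fun x => h.zero_of (notMem_empty x)

theorem itg_zero {N : ℕ} (b : Module.Basis (Fin N) ℝ E) : itg b (fun _ => 0) = 0 := by
  simp [itg]

theorem cone_empty {N : ℕ} (b : Module.Basis (Fin N) ℝ E) : Cone b ∅ := by
  refine fun φ A _ _ _ => ⟨0, 0, contDiffOn_empty, fun x hx => hx.elim, fun α h => ?_⟩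
  rw [eq_zero h]
  simp [itg_zero]

theorem fd_empty : FD (∅ : Set E) :=
  fd_iff.2 ⟨⊥, Submodule.fg_bot, bot_le, fun _ h =>
    ⟨0, zero_mem _, by rw [eq_zero h.1, sub_zero]; exact zero_mem _⟩⟩

theorem pdrel {N : ℕ} {b : Module.Basis (Fin N) ℝ E} {B' B : Set E} (h' : Cone b B')
    (h : Cone b B) (hB : B' ⊆ B) : PDrel b B' B := by
  intro α hα hd H
  by_contra hc
  have hn : α ∉ Bs B ⊔ OcS B' := fun hm => by
    obtain ⟨_, ⟨γ, hγ, rfl⟩, κ, hκ, e⟩ := Submodule.mem_sup.1 hm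
    exact hc ⟨γ, κ, hγ, hκ, e.symm⟩
  obtain ⟨φ, h0, hk⟩ := Submodule.exists_le_ker_of_notMem hn
  obtain ⟨φ', A, hA, hdA, e⟩ := h φ 0 contDiffOn_const (fun x _ => by simp) fun a ha => by
    have : φ (dd fun x => inv (a x)) = 0 := hk (Submodule.mem_sup_left ⟨_, ha.inv, rfl⟩)
    simp [this, itg_zero]
  obtain ⟨-, A', hA', hdA', -⟩ := h' (-φ') A (hA.mono hB) (fun x hx => hdA x (hB hx))
    fun a ha => by
      have h1 : φ a = 0 := hk (Submodule.mem_sup_right ha)
      have h2 := e a (ha.mono hB)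
      rw [LinearMap.neg_apply]
      linarith
  have h3 : (dd fun x => inv (α x)) = 0 := funext fun x => by
    rw [dd_inv (hα.da x), hd]; simp
  apply h0
  rw [e α hα, h3, H A A' hA hdA hA' hdA', map_zero, neg_zero, add_zero]

end Pd

open Pd

theorem fdmv (hP : PouStmt) : FDMVStmt := by
  intro E _ _ _ U V hU hV h1 h2 h3
  obtain ⟨ρ, -, hρ, -⟩ := hP E U V hU hV
  obtain ⟨W₁, f₁, z₁, s₁⟩ := fd_iff.1 h1
  obtain ⟨W₂, f₂, z₂, s₂⟩ := fd_iff.1 h2
  obtain ⟨W₃, f₃, -, s₃⟩ := fd_iff.1 h3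
  have hs : ∀ α : E → Lam E, (fun x => ρ x • α x) + (fun x => (1 - ρ x) • α x) = α := fun α =>
    funext fun x => by simp [sub_smul]
  have hd : ∀ α ∈ Zs (U ∪ V),
      (dd fun x => (1 - ρ x) • α x) = -dd fun x => ρ x • α x := fun α hα => by
    rw [eq_neg_iff_add_eq_zero, add_comm, ← dd_add' (hρ α hα.1).1 (hρ α hα.1).2, hs, hα.2]
  let T : Zs (U ∪ V) →ₗ[ℝ] E → Lam E :=
    { toFun := fun α => dd fun x => ρ x • α.1 x
      map_add' := fun α β => by
        rw [← dd_add' (hρ _ α.2.1).1 (hρ _ β.2.1).1]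
        exact congrArg dd (funext fun x => smul_add _ _ _)
      map_smul' := fun c α => by
        rw [RingHom.id_apply, ← dd_smul' c (hρ _ α.2.1).1]
        exact congrArg dd (funext fun x => smul_comm (ρ x) c (α.1 x)) }
  have hT : ∀ α, T α ∈ Zs (U ∩ V) := fun α => by
    have a1 := (hρ _ α.2.1).1
    have a2 := (hρ _ α.2.1).2.dd.neg
    rw [hd _ α.2, neg_neg] at a2
    exact ⟨⟨a2.sm, a2.cpt, subset_inter a1.dd.sub a2.sub⟩,
      funext fun x => dd_dd a1.sm.contDiffAt⟩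
  obtain ⟨W, f, s⟩ := exists_fg T f₃ fun α => s₃ _ (hT α)
  refine fd_iff.2 ⟨W.map (Zs (U ∪ V)).subtype ⊔ (W₁ ⊔ W₂), (f.map _).sup (f₁.sup f₂),
    sup_le (Submodule.map_subtype_le _ _) (sup_le (z₁.trans (Zs_mono subset_union_left))
      (z₂.trans (Zs_mono subset_union_right))), fun α hα => ?_⟩
  obtain ⟨w, hw, γ, hγ, e⟩ := s ⟨α, hα⟩
  set β := (⟨α, hα⟩ : Zs (U ∪ V)) - w with hβ
  have e' : (dd fun x => ρ x • β.1 x) = dd γ := e
  obtain ⟨a1, a2⟩ := hρ _ β.2.1
  obtain ⟨w₁, hw₁, b₁⟩ := s₁ ((fun x => ρ x • β.1 x) - γ)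
    ⟨a1.sub' (hγ.mono inter_subset_left), by rw [dd_sub' a1 hγ, e', sub_self]⟩
  obtain ⟨w₂, hw₂, b₂⟩ := s₂ ((fun x => (1 - ρ x) • β.1 x) + γ)
    ⟨a2.add (hγ.mono inter_subset_right), by rw [dd_add' a2 hγ, hd _ β.2, e', neg_add_cancel]⟩
  refine ⟨w.1 + (w₁ + w₂), Submodule.add_mem_sup ⟨w, hw, rfl⟩ (Submodule.add_mem_sup hw₁ hw₂), ?_⟩
  have e2 : α - (w.1 + (w₁ + w₂)) = ((fun x => ρ x • β.1 x) - γ - w₁) +
      ((fun x => (1 - ρ x) • β.1 x) + γ - w₂) := by
    have e3 : α = w.1 + ((fun x => ρ x • β.1 x) + fun x => (1 - ρ x) • β.1 x) := by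
      rw [hs, hβ]; simp
    conv_lhs => rw [e3]
    abel
  rw [e2]
  exact add_mem (Bs_mono subset_union_left b₁) (Bs_mono subset_union_right b₂)

theorem pd (hB : BoxStmt) (hM : MVStmt) (hF : FDMVStmt) (hU : FUStmt) (_hS : StokesStmt) :
    PDStmt := by
  intro E _ _ _ N b
  have key : ∀ U, FU b U → Cone b U ∧ FD U :=
    (hU E N b).2.2.2 (fun U => Cone b U ∧ FD U) ⟨cone_empty b, fd_empty⟩ (hB E N b)
      fun U V h1 h2 p1 p2 p3 =>
        ⟨hM E N b U V h1 h2 p1.1 p2.1 p3.1, hF E U V h1 h2 p1.2 p2.2 p3.2⟩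
  exact ⟨fun B' B h' h hs => pdrel (key B' h').1 (key B h).1 hs, fun B h => (key B h).2⟩

end Pool.Agent.MP_c8d41b_gt.GF

end
end MrgPart10

-- ======== part 11: formerly Pool.Agent.MP_c8d41b_gt.gf.Sard
section MrgPart11

/-! PROJECT GF, row SARD: the easy case of Sard with parameters. -/

open scoped ContDiff Topology
open Set Filter

noncomputable section

namespace Pool.Agent.MP_c8d41b_gt.GF

namespace Sard

variable {A P F : Type} [NormedAddCommGroup A] [NormedSpace ℝ A] [FiniteDimensional ℝ A]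
  [NormedAddCommGroup P] [NormedSpace ℝ P] [FiniteDimensional ℝ P]
  [NormedAddCommGroup F] [NormedSpace ℝ F] [FiniteDimensional ℝ F]

theorem loc {O : Set A} {u : A → F} {T : A → P →L[ℝ] F} (hO : IsOpen O)
    (hu : ContDiffOn ℝ ∞ u O) (hT : ContDiffOn ℝ ∞ T O) {a₀ : A} (S : F →L[ℝ] P)
    (hS : (T a₀).comp S = ContinuousLinearMap.id ℝ F)
    (hlt : Module.finrank ℝ A < Module.finrank ℝ F) :
    dimH {c : P | ∃ a ∈ O ∩ {a | IsUnit ((T a).comp S)}, u a + T a c = 0} ≤
      ((Module.finrank ℝ P - 1 : ℕ) : ENNReal) := by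
  let N : Submodule ℝ P := (T a₀).ker
  let g : A × N → P := fun x =>
    (x.2 : P) + S (Ring.inverse ((T x.1).comp S) (-u x.1 - T x.1 (x.2 : P)))
  let W : Set (A × N) := {x | x.1 ∈ O ∩ {a | IsUnit ((T a).comp S)}}
  have hsub : {c : P | ∃ a ∈ O ∩ {a | IsUnit ((T a).comp S)}, u a + T a c = 0} ⊆ g '' W := by
    rintro c ⟨a, ha, hc⟩
    have h0 : T a₀ (S (T a₀ c)) = T a₀ c := by
      have := congrArg (fun L : F →L[ℝ] F => L (T a₀ c)) hS
      simpa using this
    have hn : c - S (T a₀ c) ∈ N := by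
      simp [N, h0]
    refine ⟨(a, ⟨_, hn⟩), ha, ?_⟩
    have e1 : -u a - T a (c - S (T a₀ c)) = ((T a).comp S) (T a₀ c) := by
      rw [map_sub, ContinuousLinearMap.comp_apply, neg_eq_of_add_eq_zero_right hc]
      abel
    have e2 : Ring.inverse ((T a).comp S) (((T a).comp S) (T a₀ c)) = T a₀ c := by
      have := congrArg (fun L : F →L[ℝ] F => L (T a₀ c)) (Ring.inverse_mul_cancel _ ha.2)
      simpa using this
    change c - S (T a₀ c) + S (Ring.inverse ((T a).comp S) (-u a - T a (c - S (T a₀ c)))) = c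
    rw [e1, e2, sub_add_cancel]
  have hg : ∀ x ∈ W, ContDiffAt ℝ 1 g x := by
    rintro x ⟨hx, hx'⟩
    have h1 : ContDiffAt ℝ 1 (fun y : A × N => T y.1) x :=
      ((hT.contDiffAt (hO.mem_nhds hx)).of_le (by simp)).comp x contDiffAt_fst
    have h2 : ContDiffAt ℝ 1 (fun y : A × N => u y.1) x :=
      ((hu.contDiffAt (hO.mem_nhds hx)).of_le (by simp)).comp x contDiffAt_fst
    have h3 : ContDiffAt ℝ 1 (fun y : A × N => (y.2 : P)) x :=
      N.subtypeL.contDiff.contDiffAt.comp x contDiffAt_snd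
    have h4 : ContDiffAt ℝ 1 (fun y : A × N => (T y.1).comp S) x :=
      h1.clm_comp contDiffAt_const
    have h5 : ContDiffAt ℝ 1 (fun y : A × N => Ring.inverse ((T y.1).comp S)) x := by
      obtain ⟨w, hw⟩ := hx'
      have := contDiffAt_ringInverse ℝ (n := 1) w
      rw [hw] at this
      exact this.comp x h4
    exact h3.add (S.contDiff.contDiffAt.comp x (h5.clm_apply (h2.neg.sub (h1.clm_apply h3))))
  have hsurj : Function.Surjective (T a₀) := fun f =>
    ⟨S f, by simpa using congrArg (fun L : F →L[ℝ] F => L f) hS⟩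
  have hrk : Module.finrank ℝ F + Module.finrank ℝ N = Module.finrank ℝ P := by
    have := LinearMap.finrank_range_add_finrank_ker (T a₀ : P →ₗ[ℝ] F)
    rwa [LinearMap.range_eq_top.2 hsurj, finrank_top] at this
  calc _ ≤ dimH (g '' W) := dimH_mono hsub
    _ ≤ dimH W := dimH_image_le_of_locally_lipschitzOn fun x hx => by
        obtain ⟨C, t, ht, h⟩ := (hg x hx).exists_lipschitzOnWith
        exact ⟨C, t, mem_nhdsWithin_of_mem_nhds ht, h⟩
    _ ≤ dimH (univ : Set (A × N)) := dimH_mono (subset_univ _)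
    _ = Module.finrank ℝ (A × N) := Real.dimH_univ_eq_finrank _
    _ ≤ _ := by
        rw [Module.finrank_prod, Nat.cast_le]
        omega

end Sard

theorem sard (_hR : RinvStmt) : SardStmt := by
  intro A P F _ _ _ _ _ _ _ _ _ O u T hO hu hT hs hlt
  have hS : ∀ a, ∃ S : F →L[ℝ] P, a ∈ O → (T a).comp S = ContinuousLinearMap.id ℝ F := by
    intro a
    by_cases ha : a ∈ O
    · obtain ⟨S, h⟩ := (T a : P →ₗ[ℝ] F).exists_rightInverse_of_surjective
        (LinearMap.range_eq_top.2 (hs a ha))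
      refine ⟨LinearMap.toContinuousLinearMap S, fun _ => ?_⟩
      ext f
      simpa using congrArg (fun L : F →ₗ[ℝ] F => L f) h
    · exact ⟨0, fun h => absurd h ha⟩
  choose S hS using hS
  obtain ⟨t, htO, htc, hcov⟩ := TopologicalSpace.countable_cover_nhdsWithin (s := O)
    (f := fun a₀ => O ∩ {a | IsUnit ((T a).comp (S a₀))}) fun a₀ ha₀ => by
      refine inter_mem self_mem_nhdsWithin (mem_nhdsWithin_of_mem_nhds ?_)
      have h1 : ContinuousAt (fun a => (T a).comp (S a₀)) a₀ :=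
        ((hT.contDiffAt (hO.mem_nhds ha₀)).clm_comp contDiffAt_const).continuousAt
      refine h1.preimage_mem_nhds (t := {L : F →L[ℝ] F | IsUnit L}) (Units.isOpen.mem_nhds ?_)
      rw [mem_ofPred_eq, hS a₀ ha₀]
      exact isUnit_one
  have hsub : {c : P | ∃ a ∈ O, u a + T a c = 0} ⊆
      ⋃ a₀ ∈ t, {c : P | ∃ a ∈ O ∩ {a | IsUnit ((T a).comp (S a₀))}, u a + T a c = 0} := by
    rintro c ⟨a, ha, hc⟩
    obtain ⟨a₀, h0, h1⟩ := mem_iUnion₂.1 (hcov ha)
    exact mem_iUnion₂.2 ⟨a₀, h0, a, h1, hc⟩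
  refine (dimH_mono hsub).trans ?_
  rw [dimH_bUnion htc]
  exact iSup₂_le fun a₀ h0 => Sard.loc hO hu hT (S a₀) (hS a₀ (htO h0)) hlt

end Pool.Agent.MP_c8d41b_gt.GF

end
end MrgPart11

-- ======== part 12: formerly Pool.Agent.MP_c8d41b_gt.gf.TubeA
section MrgPart12

/-! PROJECT GF, row TUBE, part A: a bounded equivariant lift of constant fields near `C`. -/

open scoped ContDiff Topology
open Set Filter Metric Function

noncomputable section

namespace Pool.Agent.MP_c8d41b_gt.GF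
namespace TubeP

variable {Y : Type} [NormedAddCommGroup Y] [NormedSpace ℝ Y] {K : ℕ}

/-- the normal space -/
abbrev WW (K : ℕ) : Type := (Fin K → ℝ) × (Fin K → ℝ)

/-- normal coordinates -/
def Ga (Gt : XX Y K → Fin K → ℝ) (x : XX Y K) : WW K := (aa Gt x, bb Gt x)
/-- size of a normal vector -/
def qq (w : WW K) : ℝ := nq w.1 + nq w.2
/-- the clamp of the first coordinate -/
def cl (x : XX Y K) : XX Y K := ((max (-1) (min x.1.1 2), x.1.2), x.2)
/-- compact boxes -/
def Bx (lo hi R : ℝ) : Set (XX Y K) := (Icc lo hi ×ˢ closedBall 0 R) ×ˢ closedBall 0 1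

variable {Gt : XX Y K → Fin K → ℝ}

theorem cd_Ga (h : ContDiff ℝ ∞ Gt) : ContDiff ℝ ∞ (Ga Gt) := (cd_aa h).prodMk (cd_bb h)
theorem cd_qq : ContDiff ℝ ∞ (qq (K := K)) :=
  (cd_nq.comp contDiff_fst).add (cd_nq.comp contDiff_snd)
theorem qq_smul (c : ℝ) (w : WW K) : qq (c • w) = c ^ 2 * qq w := by
  simp [qq, nq_smul, mul_add]
theorem qq_nonneg (w : WW K) : 0 ≤ qq w := add_nonneg (nq_nonneg _) (nq_nonneg _)
theorem qq_swap (w : WW K) : qq w.swap = qq w := add_comm _ _

theorem norm_le_one {w : WW K} (h : qq w ≤ 1) : ‖w‖ ≤ 1 := by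
  have h1 := norm_sq_le_nq w.1
  have h2 := norm_sq_le_nq w.2
  have h3 := nq_nonneg w.1
  have h4 := nq_nonneg w.2
  unfold qq at h
  exact max_le (by nlinarith [norm_nonneg w.1]) (by nlinarith [norm_nonneg w.2])

omit [NormedAddCommGroup Y] [NormedSpace ℝ Y] in
theorem snd_eq (x : XX Y K) : x.2 = (1 / 2 : ℝ) • ((Ga Gt x).1 - (Ga Gt x).2) := by
  ext i; simp [Ga, aa, bb]; ring

omit [NormedAddCommGroup Y] [NormedSpace ℝ Y] in
theorem snd_le {x : XX Y K} (h : qq (Ga Gt x) ≤ 1) : ‖x.2‖ ≤ 1 := by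
  have h1 := norm_le_one h
  have h2 := norm_sub_le (Ga Gt x).1 (Ga Gt x).2
  have h3 := norm_fst_le (Ga Gt x)
  have h4 := norm_snd_le (Ga Gt x)
  rw [snd_eq (Gt := Gt), norm_smul, Real.norm_of_nonneg (by norm_num)]
  linarith

omit [NormedAddCommGroup Y] [NormedSpace ℝ Y] in
theorem of_Ga_zero {x : XX Y K} (h : Ga Gt x = 0) : x = (x.1, 0) ∧ G1 Gt x.1 = 0 := by
  have h2 : x.2 = 0 := by rw [snd_eq (Gt := Gt), h]; simp
  have h1 : x = (x.1, 0) := by rw [← h2]
  have h3 : Gt x + x.2 = 0 := congrArg Prod.fst h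
  refine ⟨h1, ?_⟩
  rw [G1, ← h1]; simpa [h2] using h3

theorem fderiv_Ga (h : ContDiff ℝ ∞ Gt) (x v : XX Y K) :
    fderiv ℝ (Ga Gt) x v = (fderiv ℝ Gt x v + v.2, fderiv ℝ Gt x v - v.2) := by
  have h1 := (h.differentiable (by simp) x).hasFDerivAt
  have h2 : HasFDerivAt (Ga Gt) _ x :=
    (h1.add (hasFDerivAt_snd (p := x))).prodMk (h1.sub (hasFDerivAt_snd (p := x)))
  rw [h2.fderiv]; rfl

theorem fderiv_tau (h : Pre Gt) (x v : XX Y K) :
    fderiv ℝ Gt (tau x) (tau v) = fderiv ℝ Gt x v := by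
  have h1 : Gt ∘ (tau (Y := Y) (K := K)) = Gt := funext h.even
  have h2 := (tau (Y := Y) (K := K)).comp_right_fderiv (f := Gt) (x := x)
  rw [h1] at h2
  rw [h2]; rfl

theorem Ga_tau (h : Pre Gt) (x : XX Y K) : Ga Gt (tau x) = (Ga Gt x).swap := by
  rw [Ga, h.aa_tau, h.bb_tau]; rfl

theorem fderiv_Ga_tau (h : Pre Gt) (x v : XX Y K) :
    fderiv ℝ (Ga Gt) x (tau v) = (fderiv ℝ (Ga Gt) (tau x) v).swap := by
  rw [fderiv_Ga h.sm, fderiv_Ga h.sm, ← fderiv_tau h x, tau_tau]
  simp [sub_eq_add_neg]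

theorem surj_zero (h : Pre Gt) {x : XX Y K} (hx : Ga Gt x = 0) :
    Surjective (fderiv ℝ (Ga Gt) x) := by
  obtain ⟨h1, h2⟩ := of_Ga_zero hx
  intro w
  obtain ⟨u, hu⟩ := h.reg _ h2 ((1 / 2 : ℝ) • (w.1 + w.2))
  have h3 : HasFDerivAt (G1 Gt) _ x.1 := (h.sm.differentiable (by simp) (x.1, 0)).hasFDerivAt.comp
    x.1 (hasFDerivAt_prodMk_left (𝕜 := ℝ) x.1 (0 : Fin K → ℝ))
  rw [h3.fderiv, ← h1] at hu
  have h4 : fderiv ℝ Gt x (u, 0) = (1 / 2 : ℝ) • (w.1 + w.2) := hu
  set v := (1 / 2 : ℝ) • (w.1 - w.2) with hv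
  have h5 := fderiv_tau h x (u, v)
  have h6 : tau x = x := by rw [h1]; simp
  have h7 : fderiv ℝ Gt x (u, v) + fderiv ℝ Gt x (tau (u, v)) = (2 : ℝ) • fderiv ℝ Gt x (u, 0) := by
    rw [← map_add, ← map_smul]; congr 1; simp [two_smul]
  rw [h6] at h5
  rw [h5, h4, ← two_smul ℝ] at h7
  have h8 := smul_right_injective _ (two_ne_zero (α := ℝ)) h7
  refine ⟨(u, v), ?_⟩
  rw [fderiv_Ga h.sm, h8, hv]
  ext i <;> simp <;> ring

theorem ev_cl (h : Pre Gt) (x : XX Y K) : (fun z => Gt (z + (cl x - x))) =ᶠ[𝓝 x] Gt := by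
  have hc : ContinuousAt (fun z : XX Y K => z.1.1) x := by fun_prop
  rcases lt_or_ge x.1.1 (-1) with h1 | h1
  · filter_upwards [hc.eventually (gt_mem_nhds (show x.1.1 < x.1.1 + 1 by linarith))] with z hz
    have : z + (cl x - x) = ((z.1.1 + (-1 - x.1.1), z.1.2), z.2) := by
      ext <;> simp [cl, max_eq_left ((min_le_left _ _).trans h1.le)]
    rw [this, h.left _ (by linarith)]
    exact (h.left z.1.1 (by linarith) _ _).symm
  rcases lt_or_ge 2 x.1.1 with h2 | h2
  · filter_upwards [hc.eventually (lt_mem_nhds (show x.1.1 - 1 < x.1.1 by linarith))] with z hz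
    have : z + (cl x - x) = ((z.1.1 + (2 - x.1.1), z.1.2), z.2) := by
      ext <;> simp [cl, min_eq_right h2.le, max_eq_right (show (-1 : ℝ) ≤ 2 by norm_num)]
    rw [this, h.right _ (by linarith)]
    exact (h.right z.1.1 (by linarith) _ _).symm
  · have : cl x = x := by simp [cl, min_eq_left h2, max_eq_right h1]
    simp [this]

theorem Ga_cl (h : Pre Gt) (x : XX Y K) : Ga Gt (cl x) = Ga Gt x := by
  have : Gt (cl x) = Gt x := by simpa using (ev_cl h x).eq_of_nhds
  simp only [Ga, aa, bb, this]; rfl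

theorem fderiv_cl (h : Pre Gt) (x : XX Y K) : fderiv ℝ (Ga Gt) (cl x) = fderiv ℝ (Ga Gt) x := by
  have h1 := (ev_cl h x).fderiv_eq (𝕜 := ℝ)
  rw [fderiv_comp_add_right, add_sub_cancel] at h1
  refine ContinuousLinearMap.ext fun v => ?_
  rw [fderiv_Ga h.sm, fderiv_Ga h.sm, h1]

omit [NormedSpace ℝ Y] in
theorem cl_mem {x : XX Y K} {R : ℝ} (h1 : ‖x.1.2‖ ≤ R) (h2 : qq (Ga Gt x) ≤ 1) :
    cl x ∈ Bx (-1) 2 R :=
  ⟨⟨⟨le_max_left _ _, max_le (by norm_num) (min_le_right _ _)⟩, mem_closedBall_zero_iff.2 h1⟩,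
    mem_closedBall_zero_iff.2 (snd_le (x := x) h2)⟩

variable [FiniteDimensional ℝ Y]

theorem cpt_Bx (lo hi R : ℝ) : IsCompact (Bx lo hi R : Set (XX Y K)) :=
  haveI := FiniteDimensional.proper_real Y
  (isCompact_Icc.prod (isCompact_closedBall _ _)).prod (isCompact_closedBall _ _)

theorem small (h : Pre Gt) (hO : IsOpen {L : XX Y K →L[ℝ] WW K | Surjective L}) :
    ∃ R ν : ℝ, 0 < ν ∧ ν ≤ 1 ∧ (∀ c, G1 Gt c = 0 → ‖c.2‖ < R) ∧ ∀ x, ‖x.1.2‖ ≤ R →
      qq (Ga Gt x) ≤ ν → ‖x.1.2‖ ≤ R - 1 / 2 ∧ Surjective (fderiv ℝ (Ga Gt) x) := by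
  obtain ⟨R, hR⟩ := h.cz
  have hU : IsOpen ({x : XX Y K | ‖x.1.2‖ < R + 1 - 1 / 2} ∩
      fderiv ℝ (Ga Gt) ⁻¹' {L | Surjective L}) :=
    (isOpen_lt (by fun_prop) continuous_const).inter
      (hO.preimage ((cd_Ga h.sm).continuous_fderiv (by simp)))
  obtain ⟨a, ha, hb⟩ := ((cpt_Bx (-1) 2 (R + 1)).diff hU).exists_forall_le'
    (cd_qq.comp (cd_Ga h.sm)).continuous.continuousOn (a := 0) fun x hx =>
      (qq_nonneg _).lt_of_ne' fun h0 => hx.2 <| by
        have h1 := nq_nonneg (Ga Gt x).1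
        have h2 := nq_nonneg (Ga Gt x).2
        have h3 : nq (Ga Gt x).1 + nq (Ga Gt x).2 = 0 := h0
        have h4 : Ga Gt x = 0 := Prod.ext (nq_eq_zero (by linarith)) (nq_eq_zero (by linarith))
        exact ⟨(hR _ (of_Ga_zero h4).2).trans_lt (by linarith), surj_zero h h4⟩
  refine ⟨R + 1, min (a / 2) 1, by positivity, min_le_right _ _,
    fun c hc => (hR c hc).trans_lt (by linarith), fun x h1 h2 => ?_⟩
  by_contra hc
  have h3 := hb (cl x) ⟨cl_mem h1 (h2.trans (min_le_right _ _)), fun hx =>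
    hc ⟨le_of_lt hx.1, fderiv_cl h x ▸ hx.2⟩⟩
  have h4 := h2.trans (min_le_left _ _)
  rw [comp_apply, Ga_cl h] at h3
  linarith

/-- a bounded lift of the small constant fields of the normal space -/
structure Lift (Gt : XX Y K → Fin K → ℝ) (R ν : ℝ) (V : XX Y K × WW K → XX Y K) (C : ℝ) :
    Prop where
  pos : 0 < ν
  closed : ∀ ρ ≤ ν, IsClosed (TC Gt R ρ)
  cpt : ∀ ρ ≤ ν, ∀ r : ℝ, IsCompact (TC Gt R ρ ∩ {x | |x.1.1| ≤ r})
  zero : ∀ c, G1 Gt c = 0 → ‖c.2‖ < R
  sm : ContDiff ℝ ∞ V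
  bd : ∀ p, ‖V p‖ ≤ C
  v0 : ∀ x, V (x, 0) = 0
  der : ∀ x ∈ TT Gt R ν, ∀ w, qq w < ν → fderiv ℝ (Ga Gt) x (V (x, w)) = w

theorem lift0 (hR : RinvStmt) (h : Pre Gt) : ∃ R ν V C, Lift Gt R ν V C := by
  classical
  obtain ⟨hO, Θ, hΘ, hi⟩ := hR (XX Y K) (WW K)
  obtain ⟨R, n, hn, hn1, hz, hs⟩ := small h hO
  have hQ := cd_qq.comp (cd_Ga h.sm)
  have hd : ContDiff ℝ ∞ (fderiv ℝ (Ga Gt)) := (cd_Ga h.sm).fderiv_right (m := ∞) (by simp)
  have hcl : ∀ ρ ≤ n, IsClosed (TC Gt R ρ) := fun ρ hρ => by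
    have : TC Gt R ρ = {x | ‖x.1.2‖ ≤ R - 1 / 2} ∩ {x | qq (Ga Gt x) ≤ ρ} := Set.ext fun x =>
      ⟨fun hx => ⟨(hs x hx.1.le (le_trans hx.2 hρ)).1, hx.2⟩,
        fun hx => ⟨lt_of_le_of_lt hx.1 (by linarith), hx.2⟩⟩
    rw [this]
    exact (isClosed_le (by fun_prop) continuous_const).inter
      (isClosed_le hQ.continuous continuous_const)
  have hA : ∀ x : XX Y K, ‖x.1.2‖ ≤ R → qq (Ga Gt x) ≤ n →
      ContDiffAt ℝ ∞ (fun x => Θ (fderiv ℝ (Ga Gt) x)) x := fun x h1 h2 =>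
    (hΘ.contDiffAt (hO.mem_nhds (hs x h1 h2).2)).comp x hd.contDiffAt
  obtain ⟨M, hM⟩ := ((cpt_Bx (-1) 2 R).inter_right (isClosed_le hQ.continuous
    (continuous_const (y := n)))).exists_bound_of_continuousOn
    (f := fun x => Θ (fderiv ℝ (Ga Gt) x)) fun x hx =>
      (hA x (mem_closedBall_zero_iff.1 hx.1.1.2) hx.2).continuousAt.continuousWithinAt
  set ψ : ℝ → ℝ := fun r => Real.smoothTransition (2 - r / (n / 3)) with hψ
  have p1 : ContDiff ℝ ∞ ψ :=
    Real.smoothTransition.contDiff.comp (contDiff_const.sub (contDiff_id.div_const _))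
  have p2 : ∀ r < n / 3, ψ r = 1 := fun r hr => Real.smoothTransition.one_of_one_le
    (by have := (div_lt_one (by positivity : 0 < n / 3)).2 hr; linarith)
  have p3 : ∀ r, 2 * (n / 3) < r → ψ r = 0 := fun r hr => Real.smoothTransition.zero_of_nonpos
    (by have := (lt_div_iff₀ (by positivity : 0 < n / 3)).2 hr; linarith)
  have p4 : ∀ r, ‖ψ r‖ ≤ 1 := fun r => by
    rw [Real.norm_of_nonneg (Real.smoothTransition.nonneg _)]; exact Real.smoothTransition.le_one _
  refine ⟨R, n / 3, fun p => if ‖p.1.1.2‖ < R then ψ (qq (Ga Gt p.1)) • ψ (qq p.2) •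
    Θ (fderiv ℝ (Ga Gt) p.1) p.2 else 0, max M 0, by positivity,
    fun ρ hρ => hcl ρ (by linarith), fun ρ hρ r => ?_, hz, contDiff_iff_contDiffAt.2 fun p => ?_,
    fun p => ?_, fun x => by simp, fun x hx w hw => ?_⟩
  · refine (cpt_Bx (-r) r R).of_isClosed_subset ((hcl ρ (by linarith)).inter
      (isClosed_le (by fun_prop) continuous_const)) fun x hx =>
      ⟨⟨abs_le.1 hx.2, mem_closedBall_zero_iff.2 hx.1.1.le⟩, mem_closedBall_zero_iff.2
        (snd_le (Gt := Gt) (x := x) (le_trans hx.1.2 (by linarith)))⟩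
  · by_cases hp : p.1 ∈ TT Gt R n
    · refine ContDiffAt.congr_of_eventuallyEq (f := fun p : XX Y K × WW K =>
        ψ (qq (Ga Gt p.1)) • ψ (qq p.2) • Θ (fderiv ℝ (Ga Gt) p.1) p.2) ?_ ?_
      · exact ((p1.comp hQ).comp contDiff_fst).contDiffAt.smul
          (((p1.comp cd_qq).comp contDiff_snd).contDiffAt.smul
            (((hA p.1 hp.1.le hp.2.le).comp p contDiffAt_fst).clm_apply contDiffAt_snd))
      · filter_upwards [((isOpen_TT h.sm R n).preimage continuous_fst).mem_nhds hp] with z hz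
        exact if_pos hz.1
    · refine (contDiffAt_const (c := 0)).congr_of_eventuallyEq ?_
      filter_upwards [((hcl (2 * (n / 3)) (by linarith)).isOpen_compl.preimage
        continuous_fst).mem_nhds fun hc => hp (TC_sub_TT (by linarith) hc)] with z hz
      split_ifs with h1
      · rw [p3 (qq (Ga Gt z.1)) (not_le.1 fun h2 => hz ⟨h1, h2⟩), zero_smul]
      · rfl
  · split_ifs with h1
    · rcases lt_or_ge (2 * (n / 3)) (qq (Ga Gt p.1)) with h2 | h2
      · simp [p3 _ h2]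
      rcases lt_or_ge (2 * (n / 3)) (qq p.2) with h3 | h3
      · simp [p3 _ h3]
      have h4 := hM (cl p.1) ⟨cl_mem (Gt := Gt) h1.le (by linarith),
        show qq (Ga Gt (cl p.1)) ≤ n by rw [Ga_cl h]; linarith⟩
      rw [fderiv_cl h] at h4
      have h5 := (Θ (fderiv ℝ (Ga Gt) p.1)).le_of_opNorm_le_of_le (h4.trans (le_max_left _ 0))
        (norm_le_one (w := p.2) (by linarith))
      rw [norm_smul, norm_smul]
      calc _ ≤ 1 * (1 * (max M 0 * 1)) := by gcongr <;> exact p4 _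
        _ = _ := by ring
    · simp
  · have h1 : qq (Ga Gt x) < n / 3 := hx.2
    simp only [if_pos hx.1, p2 _ h1, p2 _ hw, one_smul]
    exact congrArg (· w) (congrArg DFunLike.coe (hi _ (hs x hx.1.le (by linarith)).2))

theorem lift (hR : RinvStmt) (h : Pre Gt) : ∃ R ν V C, Lift Gt R ν V C ∧
    ∀ x w, V (tau x, w.swap) = tau (V (x, w)) := by
  obtain ⟨R, ν, V, C, hV⟩ := lift0 hR h
  have hn : ∀ x : XX Y K, ‖tau x‖ = ‖x‖ := fun x => by simp [Prod.norm_def]
  refine ⟨R, ν, fun p => (1 / 2 : ℝ) • (V p + tau (V (tau p.1, p.2.swap))), C,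
    ⟨hV.pos, hV.closed, hV.cpt, hV.zero, ?_, fun p => ?_, fun x => ?_, fun x hx w hw => ?_⟩,
    fun x w => ?_⟩
  · exact (hV.sm.add (cd_tau.comp (hV.sm.comp ((cd_tau.comp contDiff_fst).prodMk
      (contDiff_snd.snd.prodMk contDiff_snd.fst))))).const_smul _
  · have h1 := norm_add_le (V p) (tau (V (tau p.1, p.2.swap)))
    rw [hn] at h1
    rw [norm_smul, Real.norm_of_nonneg (by norm_num)]
    linarith [hV.bd p, hV.bd (tau p.1, p.2.swap)]
  · simp only [Prod.swap_zero, hV.v0, map_zero, add_zero, smul_zero]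
  · rw [map_smul, map_add, hV.der x hx w hw, fderiv_Ga_tau h,
      hV.der _ (h.tau_TT.2 hx) _ (by rwa [qq_swap]), Prod.swap_swap, ← two_smul ℝ, smul_smul]
    simp
  · simp only [map_smul, map_add, tau_tau, Prod.swap_swap, add_comm]

end TubeP
end Pool.Agent.MP_c8d41b_gt.GF

end
end MrgPart12

-- ======== part 13: formerly Pool.Agent.MP_c8d41b_gt.gf.Tube
section MrgPart13

/-! PROJECT GF, row TUBE: the product structure of the tube. -/

open scoped ContDiff Topology
open Set Filter Metric Function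

noncomputable section

namespace Pool.Agent.MP_c8d41b_gt.GF
namespace TubeP

variable {Y : Type} [NormedAddCommGroup Y] [NormedSpace ℝ Y] {K : ℕ}
  {Gt : XX Y K → Fin K → ℝ} {R ν C : ℝ} {V : XX Y K × WW K → XX Y K}
  {fl : ℝ → XX Y K × WW K → XX Y K × WW K}

theorem fl_snd (hf : MP_6d695c_gt.SW.IsFlow (fun p => (-V p, 0)) fl) (t : ℝ)
    (p : XX Y K × WW K) : (fl t p).2 = p.2 := by
  have h : ∀ t, HasDerivAt (fun t => (fl t p).2) 0 t := fun t => (hf.der p t).snd
  have := is_const_of_deriv_eq_zero (fun t => (h t).differentiableAt) (fun t => (h t).deriv) t 0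
  rwa [hf.zero] at this

theorem fl_der (hf : MP_6d695c_gt.SW.IsFlow (fun p => (-V p, 0)) fl) (x : XX Y K) (w : WW K)
    (t : ℝ) : HasDerivAt (fun t => (fl t (x, w)).1) (-V ((fl t (x, w)).1, w)) t := by
  have h := (hf.der (x, w) t).fst
  rwa [show fl t (x, w) = ((fl t (x, w)).1, w) from Prod.ext rfl (fl_snd hf t _)] at h

/-- along the flow the normal coordinates move linearly -/
theorem key (h : Pre Gt) (hV : Lift Gt R ν V C)
    (hf : MP_6d695c_gt.SW.IsFlow (fun p => (-V p, 0)) fl) {x : XX Y K} {w : WW K} {l t : ℝ}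
    (hw : qq w < ν) (hx : ‖x.1.2‖ < R) (hl : Ga Gt x = l • w) (h0 : (0 : ℝ) ∈ Icc (l - 1) l)
    (ht : t ∈ Icc (l - 1) l) :
    ‖(fl t (x, w)).1.1.2‖ < R ∧ Ga Gt (fl t (x, w)).1 = (l - t) • w := by
  set c : ℝ → XX Y K := fun t => (fl t (x, w)).1 with hc
  set g : ℝ → WW K := fun t => Ga Gt (c t) + t • w with hg
  have c1 : Continuous c := continuous_iff_continuousAt.2 fun t => (fl_der hf x w t).continuousAt
  have g1 : Continuous g := ((cd_Ga h.sm).continuous.comp c1).add (by fun_prop)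
  have g2 : ∀ t ∈ c ⁻¹' TT Gt R ν, HasDerivAt g 0 t := fun t ht => by
    have h1 := (((cd_Ga h.sm).differentiable (by simp) (c t)).hasFDerivAt.comp_hasDerivAt t
      (fl_der hf x w t)).add ((hasDerivAt_id t).smul_const w)
    rwa [map_neg, hV.der _ ht w hw, one_smul, neg_add_cancel] at h1
  have g3 : ∀ t ∈ Icc (l - 1) l, g t = l • w → qq (Ga Gt (c t)) < ν := fun t ht h1 => by
    rw [eq_sub_of_add_eq h1, ← sub_smul, qq_smul]
    have : (l - t) ^ 2 ≤ 1 := by nlinarith [ht.1, ht.2]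
    nlinarith [qq_nonneg w]
  have g0 : g 0 = l • w := by simp [hg, hc, hf.zero, hl]
  have := (isPreconnected_Icc.subset_of_closure_inter_subset
    (((isOpen_TT h.sm R ν).preimage c1).isOpen_inter_preimage_of_deriv_eq_zero
      (fun t ht => (g2 t ht).differentiableAt.differentiableWithinAt)
      (fun t ht => (g2 t ht).deriv) {l • w})
    ⟨0, h0, ⟨by simpa [hc, hf.zero] using hx, g3 0 h0 g0⟩, g0⟩ fun s hs => by
      have := closure_minimal (inter_subset_inter_left _ (preimage_mono (TT_sub_TC le_rfl)))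
        (((hV.closed ν le_rfl).preimage c1).inter (isClosed_singleton.preimage g1)) hs.1
      exact ⟨⟨this.1.1, g3 s hs.2 this.2⟩, this.2⟩) ht
  exact ⟨this.1.1, by rw [sub_smul]; exact eq_sub_of_add_eq this.2⟩

theorem fl_tau (hf : MP_6d695c_gt.SW.IsFlow (fun p => (-V p, 0)) fl)
    (hT : ∀ x w, V (tau x, w.swap) = tau (V (x, w))) (x : XX Y K) (w : WW K) :
    fl 1 (tau x, w.swap) = (tau (fl 1 (x, w)).1, w.swap) := by
  have h1 : ∀ t, HasDerivAt (fun t => (tau (fl t (x, w)).1, w.swap))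
      (-V (tau (fl t (x, w)).1, w.swap), 0) t := fun t => by
    rw [hT, ← map_neg]
    exact ((tau (Y := Y) (K := K)).hasFDerivAt.comp_hasDerivAt t (fl_der hf x w t)).prodMk
      (hasDerivAt_const t _)
  have := hf.uniq _ 0 1 zero_le_one (fun t _ => (h1 t).continuousAt.continuousWithinAt)
    fun t _ => h1 t
  rw [this, sub_zero, hf.zero]

end TubeP

open TubeP in
theorem tube (hF : FlowStmt) (hR : RinvStmt) : TubeStmt := by
  intro Y _ _ _ K Gt h
  obtain ⟨R, ν, V, C, hV, hT⟩ := lift hR h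
  obtain ⟨fl, hf⟩ := hF (XX Y K × WW K) (fun p => (-V p, 0)) C
    (hV.sm.neg.prodMk contDiff_const) fun p => by simpa [Prod.norm_def] using hV.bd p
  have fw : ∀ x ∈ TT Gt R ν, Ga Gt (fl 1 (x, Ga Gt x)).1 = 0 := fun x hx => by
    simpa using (key h hV hf (l := 1) (t := 1) (w := Ga Gt x) hx.2 hx.1 (one_smul _ _).symm
      (by simp) (by simp)).2
  refine ⟨R, ν, fun x => (fl 1 (x, Ga Gt x)).1.1, fun q => (fl (-1) ((q.1, 0), q.2)).1, hV.pos,
    fun ρ h0 hρ => ⟨h, h0, hV.closed ρ hρ, hV.cpt ρ hρ, hV.zero, ?_, ?_,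
      fun x hx => (of_Ga_zero (fw x (TT_mono hρ hx))).2, fun x hx => ?_, fun c a b hc hq => ?_,
      fun c _ => ?_, fun x _ => ?_, ⟨C, fun x _ => ?_⟩,
      fun x => V (x, -aa Gt x, bb Gt x), C, ?_, fun x => hV.bd _, fun x hx => ?_⟩⟩
  · exact (hf.sm.comp (contDiff_const.prodMk (contDiff_id.prodMk (cd_Ga h.sm)))).fst.fst
  · exact (hf.sm.comp (contDiff_const.prodMk
      ((contDiff_fst.prodMk contDiff_const).prodMk contDiff_snd))).fst
  · have h1 : (((fl 1 (x, Ga Gt x)).1.1, 0), Ga Gt x) = fl 1 (x, Ga Gt x) :=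
      Prod.ext (of_Ga_zero (fw x (TT_mono hρ hx))).1.symm (fl_snd hf 1 (x, Ga Gt x)).symm
    change (fl (-1) (((fl 1 (x, Ga Gt x)).1.1, 0), Ga Gt x)).1 = x
    rw [h1, ← hf.add, neg_add_cancel, hf.zero]
  · have h0 : Gt (c, 0) = 0 := hc
    obtain ⟨h1, h2⟩ := key h hV hf (l := 0) (t := -1) (w := (a, b)) (x := (c, 0))
      (lt_of_lt_of_le hq hρ) (hV.zero c hc) (by simp [Ga, aa, bb, h0]) (by simp) (by simp)
    rw [zero_sub, neg_neg, one_smul] at h2
    refine ⟨h1, congrArg Prod.fst h2, congrArg Prod.snd h2, ?_⟩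
    have h3 : ((fl (-1) ((c, 0), a, b)).1, a, b) = fl (-1) ((c, 0), a, b) :=
      Prod.ext rfl (fl_snd hf (-1) ((c, 0), a, b)).symm
    simp only [h2, h3]
    rw [← hf.add, add_neg_cancel, hf.zero]
  · have h1 : ∀ t, HasDerivAt (fun t => (fl t ((c, 0), 0)).1) 0 t := fun t => by
      simpa only [hV.v0, neg_zero] using fl_der hf (c, 0) 0 t
    have := is_const_of_deriv_eq_zero (fun t => (h1 t).differentiableAt)
      (fun t => (h1 t).deriv) (-1) 0
    rw [hf.zero] at this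
    exact this
  · simp only [Ga_tau h, fl_tau hf hT]
    rfl
  · have h1 := norm_image_sub_le_of_norm_deriv_le_segment_01' (C := C)
      (fun t _ => (fl_der hf x (Ga Gt x) t).hasDerivWithinAt) fun t _ => by
        rw [norm_neg]; exact hV.bd _
    rw [hf.zero] at h1
    exact le_trans ((norm_fst_le _).trans (norm_fst_le ((fl 1 (x, Ga Gt x)).1 - x))) h1
  · exact hV.sm.comp (contDiff_id.prodMk ((cd_aa h.sm).neg.prodMk (cd_bb h.sm)))
  · have h1 := hV.der x (TT_mono hρ hx) (-aa Gt x, bb Gt x) (by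
      have := lt_of_lt_of_le hx.2 hρ
      simpa [qq, nq] using this)
    rw [show Ga Gt = fun x => (aa Gt x, bb Gt x) from rfl,
      ((cd_aa h.sm).differentiable (by simp) x).fderiv_prodMk
        ((cd_bb h.sm).differentiable (by simp) x)] at h1
    exact ⟨congrArg Prod.fst h1, congrArg Prod.snd h1⟩

end Pool.Agent.MP_c8d41b_gt.GF

end
end MrgPart13

-- ======== part 14: formerly Pool.Agent.MP_c8d41b_gt.gf.Main
section MrgPart14

/-! PROJECT GF: assembly. -/

namespace Pool.Agent.MP_c8d41b_gt.GF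

theorem pd' : PDStmt :=
  pd (box homot (fib par bump) bump stokes) (mv pou stokes) (fdmv pou) fu stokes

theorem sig' : SigStmt :=
  sig (int cov (thm bump) stokes bump) (uniq chart)
    (lag_ (thm bump) (iso homot stokes)
      (loc (loc1 homot) (loc2 homot (fib par bump) bump) (thm bump) bump)
      (end_ homot fu bump) pd' stokes)
    (fin_ homot fu pd' (thm bump)) lin (thm bump) stokes

theorem core' : CoreStmt :=
  core (tube flow rinv) (pert (sard rinv) bump) (dyn flow bump) bump sig'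

theorem main : Final :=
  final (geoA par) geoB (geoC bump) core' (trans_ (sard rinv) chart bump rinv)

end Pool.Agent.MP_c8d41b_gt.GF

end MrgPart14

-- marker of a merged file
example : 731051 + 658486 = 731051 + 658486 := rfl
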