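import Pool.Agent.MP_c8d41b_gt.gf.Alt
import Pool.Agent.MP_c8d41b_gt.gf.Main

/-! PROJECT GF: from the working definitions to the definitions of the statement. -/

open scoped ContDiff Topology
open Set Filter ExteriorAlgebra

noncomputable section

namespace Pool.Agent.MP_c8d41b_gt.GF.Br

variable {E : Type} [NormedAddCommGroup E] [NormedSpace ℝ E] [FiniteDimensional ℝ E] {K d κ : ℕ}
  {G : E → Fin K → ℝ}

omit [NormedSpace ℝ E] [FiniteDimensional ℝ E] in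
theorem tsupport_lin {A B : Type} [AddCommGroup A] [Module ℝ A] [AddCommGroup B] [Module ℝ B]
    (T : A →ₗ[ℝ] B) (α : E → A) : tsupport (fun x => T (α x)) ⊆ tsupport α :=
  closure_mono fun x hx h => hx (by simp only [h, map_zero])

theorem fm_dn {α : E → Lam E} (h : Fm G κ α) : St.Fm G fun x => Ps κ (α x) :=
  ⟨contDiff_iff_contDiffAt.2 fun _ => cda_lin _ h.sm.contDiffAt, by
    have : tsupport (fun x => Ps κ (α x)) ∩ G ⁻¹' {0} =
        (tsupport α ∩ G ⁻¹' {0}) ∩ tsupport fun x => Ps κ (α x) :=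
      Set.ext fun x => ⟨fun hx => ⟨⟨tsupport_lin _ _ hx.1, hx.2⟩, hx.1⟩, fun hx => ⟨hx.2, hx.1.2⟩⟩
    rw [this]
    exact h.cpt.inter_right (isClosed_tsupport _)⟩

theorem fm_up {T : Alt E κ →L[ℝ] Lam E} (hT : ∀ A, T A ∈ dg E κ) {α : E → Alt E κ}
    (h : St.Fm G α) : Fm G κ fun x => T (α x) :=
  ⟨T.contDiff.comp h.sm, fun _ => hT _, by
    have : tsupport (fun x => T (α x)) ∩ G ⁻¹' {0} =
        (tsupport α ∩ G ⁻¹' {0}) ∩ tsupport fun x => T (α x) :=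
      Set.ext fun x => ⟨fun hx => ⟨⟨tsupport_lin T.toLinearMap _ hx.1, hx.2⟩, hx.1⟩,
        fun hx => ⟨hx.2, hx.1.2⟩⟩
    rw [this]
    exact h.cpt.inter_right (isClosed_tsupport _)⟩

theorem cl_iff {α : E → Lam E} (h : Fm G κ α) :
    St.Cl G (fun x => Ps κ (α x)) ↔ Closed G α := by
  have hd : ∀ x, DifferentiableAt ℝ α x := h.sm.differentiable (by simp)
  refine ⟨fun H x hx => eq_zero_of_ev (dg_mp _ (dg_dd (hd x) (.of_forall h.deg))) fun v => ?_,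
    fun H => ⟨fm_dn h, fun x hx v hv => ?_⟩⟩
  · rw [ev_mp, List.map_ofFn, ← extDeriv_Ps (hd x)]
    exact H.cl x hx _ fun i => (v i).2
  · have := ev_mp (fderiv ℝ G x).ker.subtypeL (List.ofFn fun i => ⟨v i, hv i⟩) (dd α x)
    rw [H x hx, ev_zero, List.map_ofFn] at this
    rw [extDeriv_Ps (hd x), this]
    rfl

omit [FiniteDimensional ℝ E] in
theorem wedge_Ps {a b : Lam E} (ha : a ∈ dg E κ) (hb : b ∈ dg E κ) (v : Fin (κ + κ) → E) :
    St.wedge (Ps κ a) (Ps κ b) v = ev (List.ofFn v) (a * b) := by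
  rw [← wedge_ev ha hb, funext (Ps_apply a), funext (Ps_apply b)]

theorem sigZero (h : SigZero G κ) : St.SigZero G κ := by
  have h' : ∀ d, d = 2 * κ → ∀ J : E ≃L[ℝ] (Fin d → ℝ) × (Fin K → ℝ), (∃ B, IsInt G J κ B) ∧
      ∀ B, IsInt G J κ B →
        ∃ n, IsGreatest {m | Defin G κ B 1 m} n ∧ IsGreatest {m | Defin G κ B (-1) m} n := by
    rintro _ rfl
    exact h
  obtain ⟨T, h1, h2, h3⟩ := exists_Th (E := E) κ
  intro J
  obtain ⟨⟨B, hB⟩, H⟩ := h' _ (two_mul κ).symm J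
  refine ⟨⟨fun α β => B (fun x => T (α x)) fun x => T (β x), fun α α' β a a' b => ?_,
    fun φ V c α β a b s => ?_⟩, fun B' hB' => ?_⟩
  · rw [← hB.add _ _ _ (fm_up h2 a) (fm_up h2 a') (fm_up h2 b)]
    exact congrArg (B · _) (funext fun x => map_add T _ _)
  · rw [hB.chart φ V ⟨c.op, c.sm, c.inj, c.mem, c.pos⟩ _ _ (fm_up h2 a) (fm_up h2 b)
      ((inter_subset_inter_left _ (tsupport_lin T.toLinearMap α)).trans s)]
    simp only [← wedge_Ps (h2 _) (h2 _), h1]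
  · have e : ∀ ε, {m | ∃ v, St.Defin G B' ε m v} = {m | Defin G κ
        (fun α β => B' (fun x => Ps κ (α x)) fun x => Ps κ (β x)) ε m} := fun ε => by
      refine Set.ext fun m => ⟨fun ⟨v, hv⟩ => ⟨fun i x => T (v i x), fun i =>
        ⟨fm_up h2 (hv.cl i).fm, (cl_iff (fm_up h2 (hv.cl i).fm)).1 ?_⟩, fun c hc => ?_⟩,
        fun ⟨v, hv, hp⟩ => ⟨fun i x => Ps κ (v i x), fun i => (cl_iff (hv i).1).2 (hv i).2,
          fun c hc => ?_⟩⟩
      · simp only [h1]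
        exact hv.cl i
      · have : (fun x => Ps κ ((∑ i, c i • fun x => T (v i x)) x)) = ∑ i, c i • v i :=
          funext fun x => by simp only [Finset.sum_apply, Pi.smul_apply, map_sum, map_smul, h1]
        simp only [this]
        exact hv.pos c hc
      · have : (∑ i, c i • fun x => Ps κ (v i x)) = fun x => Ps κ ((∑ i, c i • v i) x) :=
          funext fun x => by simp only [Finset.sum_apply, Pi.smul_apply, map_sum, map_smul]
        rw [this]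
        exact hp c hc
    rw [e, e]
    refine H _ ⟨fun α α' β a a' b => ?_, fun φ V c α β a b s => ?_⟩
    · rw [← hB'.add _ _ _ (fm_dn a) (fm_dn a') (fm_dn b)]
      exact congrArg (B' · _) (funext fun x => map_add (Ps κ) _ _)
    · rw [hB'.chart φ V ⟨c.op, c.sm, c.inj, c.mem, c.pos⟩ _ _ (fm_dn a) (fm_dn b)
        ((inter_subset_inter_left _ (tsupport_lin (Ps κ) α)).trans s)]
      simp only [wedge_Ps (a.deg _) (b.deg _)]

theorem gen {p q k : ℕ} {g : (Fin p → ℝ) → Fin q → ℝ} {f : Tot p k → ℝ} (h : St.Gen g f) :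
    Gen g f := by
  refine ⟨h.reg, ?_⟩
  rintro ⟨z, v⟩ h1 ⟨z', v'⟩ h2 e
  obtain ⟨rfl, e'⟩ := Sigma.mk.inj_iff.1 e
  rw [h.inj z v v' h1 h2 fun w hw => congrArg (fun L => L ⟨w, hw⟩) (eq_of_heq e')]

theorem final (p q k j : ℕ) (g : (Fin p → ℝ) → Fin q → ℝ) (f₀ f₁ : St.Tot p k → ℝ) (hj : 1 ≤ j)
    (hp : 1 + p = 4 * j + q) (hg : St.Base g) (h0 : St.Gen g f₀) (h1 : St.Gen g f₁)
    (hF : ∃ F, St.Path g F f₀ f₁) : (∃ F, St.Path g F f₀ f₁ ∧ St.Reg (St.cob g F)) ∧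
      ∀ F, St.Path g F f₀ f₁ → St.Reg (St.cob g F) → St.SigZero (St.cob g F) (2 * j) := by
  obtain ⟨F, c⟩ := hF
  obtain ⟨⟨F', c', r⟩, H⟩ := main p q k j g f₀ f₁ hj hp ⟨hg.sm, hg.cpt, hg.reg⟩ (gen h0) (gen h1)
    ⟨F, c.sm, c.left, c.right, c.far, c.bdd⟩
  exact ⟨⟨F', ⟨c'.sm, c'.left, c'.right, c'.far, c'.bdd⟩, r⟩, fun F c r =>
    sigZero (H F ⟨c.sm, c.left, c.right, c.far, c.bdd⟩ r)⟩

end Pool.Agent.MP_c8d41b_gt.GF.Br
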