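import Mathlib.Analysis.Calculus.BumpFunction.FiniteDimension
import Mathlib.Analysis.SpecialFunctions.SmoothTransition
import Pool.Agent.MP_c8d41b_gt.gf.Stokes

/-! PROJECT GF, row POU: partitions of unity for two open sets, finite unions of boxes. -/

open scoped ContDiff Topology
open Set Filter

noncomputable section

namespace Pool.Agent.MP_c8d41b_gt.GF

namespace PouP

variable {E : Type} [NormedAddCommGroup E] [NormedSpace ℝ E] [FiniteDimensional ℝ E]

theorem cut {W A : Set E} {α : E → Lam E} {f : E → ℝ} (h : Oc W α)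
    (hf : ∀ x ∈ W, ContDiffAt ℝ ∞ f x) (h0 : ∀ x ∈ W, x ∉ A → f =ᶠ[𝓝 x] fun _ => 0) :
    Oc (A ∩ W) fun x => f x • α x := by
  have h1 := h.fsmul hf
  refine ⟨h1.sm, h1.cpt, fun x hx => ⟨by_contra fun hA => ?_, h1.sub hx⟩⟩
  refine notMem_tsupport_iff_eventuallyEq.2 ?_ hx
  filter_upwards [h0 x (h1.sub hx) hA] with y hy
  simp [hy]

theorem exists_pou {U V : Set E} (hU : IsOpen U) (hV : IsOpen V) : ∃ ρ, Pou U V ρ := by
  obtain ⟨f, hf, hf1, hf2⟩ := hU.exists_contDiff_support_eq (n := ⊤)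
  obtain ⟨g, hg, hg1, hg2⟩ := hV.exists_contDiff_support_eq (n := ⊤)
  have f0 : ∀ x, 0 ≤ f x := fun x => (hf2 (mem_range_self x)).1
  have g0 : ∀ x, 0 ≤ g x := fun x => (hg2 (mem_range_self x)).1
  have fU : ∀ x, f x ≠ 0 ↔ x ∈ U := fun x => by rw [← hf]; rfl
  have gV : ∀ x, g x ≠ 0 ↔ x ∈ V := fun x => by rw [← hg]; rfl
  have ne : ∀ x ∈ U ∪ V, f x + g x ≠ 0 := by
    rintro x (hx | hx)
    · exact (add_pos_of_pos_of_nonneg ((f0 x).lt_of_ne' ((fU x).2 hx)) (g0 x)).ne'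
    · exact (add_pos_of_nonneg_of_pos (f0 x) ((g0 x).lt_of_ne' ((gV x).2 hx))).ne'
  have sm : ∀ x ∈ U ∪ V, ContDiffAt ℝ ∞ (fun x => 3 * (f x / (f x + g x)) - 1) x := fun x hx =>
    (contDiffAt_const.mul (hf1.contDiffAt.div (hf1.add hg1).contDiffAt (ne x hx))).sub
      contDiffAt_const
  refine ⟨fun x => Real.smoothTransition (3 * (f x / (f x + g x)) - 1), fun x hx =>
    (Real.smoothTransition.contDiffAt.comp x (sm x hx)).contDiffWithinAt, fun x hx hx' => ?_,
    fun x hx hx' => ?_⟩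
  · have h1 : f x = 0 := by_contra fun h => hx' ((fU x).1 h)
    have h2 : 3 * (f x / (f x + g x)) - 1 < 0 := by rw [h1]; norm_num
    filter_upwards [(sm x (Or.inr hx)).continuousAt.eventually_lt continuousAt_const h2] with y hy
    exact Real.smoothTransition.zero_of_nonpos hy.le
  · have h1 : g x = 0 := by_contra fun h => hx' ((gV x).1 h)
    have h2 : 1 < 3 * (f x / (f x + g x)) - 1 := by
      rw [h1, add_zero, div_self ((fU x).2 hx)]; norm_num
    filter_upwards [continuousAt_const.eventually_lt (sm x (Or.inl hx)).continuousAt h2] with y hy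
    exact Real.smoothTransition.one_of_one_le hy.le

variable {N : ℕ} {b : Module.Basis (Fin N) ℝ E}

theorem box_open {U : Set E} (h : Box b U) : IsOpen U := by
  obtain ⟨lo, hi, rfl⟩ := h
  rw [Set.ofPred_forall]
  refine isOpen_iInter_of_finite fun i => ?_
  have hc : Continuous fun x => b.repr x i := (b.coord i).continuous_of_finiteDimensional
  exact (isOpen_lt continuous_const hc).inter (isOpen_lt hc continuous_const)

omit [FiniteDimensional ℝ E] in
theorem box_inter {U V : Set E} (h : Box b U) (h' : Box b V) : Box b (U ∩ V) := by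
  obtain ⟨lo, hi, rfl⟩ := h
  obtain ⟨lo', hi', rfl⟩ := h'
  refine ⟨fun i => max (lo i) (lo' i), fun i => min (hi i) (hi' i), ?_⟩
  ext x
  simp only [mem_inter_iff, mem_ofPred_eq, max_lt_iff, lt_min_iff]
  exact ⟨fun h i => ⟨⟨(h.1 i).1, (h.2 i).1⟩, (h.1 i).2, (h.2 i).2⟩,
    fun h => ⟨fun i => ⟨(h i).1.1, (h i).2.1⟩, fun i => ⟨(h i).1.2, (h i).2.2⟩⟩⟩

theorem fu_open {U : Set E} (h : FU b U) : IsOpen U := by
  obtain ⟨l, hl, rfl⟩ := h
  rw [isOpen_iff_mem_nhds]
  rintro x ⟨V, hV, hx⟩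
  exact mem_of_superset ((box_open (hl V hV)).mem_nhds hx) fun y hy => ⟨V, hV, hy⟩

omit [FiniteDimensional ℝ E] in
theorem box_nhds {A : Set E} {x : E} (h : A ∈ 𝓝 x) : ∃ B, Box b B ∧ x ∈ B ∧ B ⊆ A := by
  have hc : Continuous b.equivFun.symm := b.equivFun.symm.toLinearMap.continuous_of_finiteDimensional
  have h1 : b.equivFun.symm ⁻¹' A ∈ 𝓝 (b.equivFun x) :=
    hc.continuousAt.preimage_mem_nhds (by simpa using h)
  obtain ⟨ε, hε, h2⟩ := Metric.mem_nhds_iff.1 h1
  refine ⟨_, ⟨fun i => b.repr x i - ε, fun i => b.repr x i + ε, rfl⟩,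
    fun i => ⟨by linarith, by linarith⟩, fun y hy => ?_⟩
  have h3 : b.equivFun y ∈ Metric.ball (b.equivFun x) ε := by
    rw [Metric.mem_ball, dist_pi_lt_iff hε]
    intro i
    rw [Real.dist_eq, abs_lt, b.equivFun_apply, b.equivFun_apply]
    constructor <;> linarith [(hy i).1, (hy i).2]
  simpa using h2 h3

end PouP

open PouP

theorem pou : PouStmt := by
  intro E _ _ _ U V hU hV
  obtain ⟨ρ, h⟩ := exists_pou hU hV
  have s1 : ∀ x ∈ U ∪ V, ContDiffAt ℝ ∞ ρ x := fun x hx =>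
    h.sm.contDiffAt ((hU.union hV).mem_nhds hx)
  have s2 : ∀ x ∈ U ∪ V, ContDiffAt ℝ ∞ (fun x => 1 - ρ x) x := fun x hx =>
    contDiffAt_const.sub (s1 x hx)
  have z2 : ∀ x ∈ U, x ∉ V → (fun x => 1 - ρ x) =ᶠ[𝓝 x] fun _ => 0 := fun x hx hx' => by
    filter_upwards [h.one x hx hx'] with y hy
    simp [hy]
  refine ⟨ρ, h, fun α hα => ⟨?_, ?_⟩, fun α hα => ?_, fun α hα => ?_⟩
  · exact (cut hα s1 fun x hx hx' => h.zero x (hx.resolve_left hx') hx').mono inter_subset_left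
  · exact (cut hα s2 fun x hx hx' => z2 x (hx.resolve_right hx') hx').mono inter_subset_left
  · exact cut hα (fun x hx => s1 x (Or.inr hx)) h.zero
  · exact (cut hα (fun x hx => s2 x (Or.inl hx)) z2).mono (inter_comm V U).subset

theorem fu : FUStmt := by
  intro E _ _ _ N b
  have un : ∀ U V, FU b U → FU b V → FU b (U ∪ V) := by
    rintro _ _ ⟨l, hl, rfl⟩ ⟨l', hl', rfl⟩
    refine ⟨l ++ l', fun V hV => (List.mem_append.1 hV).elim (hl V) (hl' V), ?_⟩
    ext x
    simp only [mem_union, mem_ofPred_eq, List.mem_append, or_and_right, exists_or]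
  refine ⟨fun U => fu_open, un, fun K A hK hA hKA => ?_, fun P h0 h1 h2 => ?_⟩
  · refine hK.induction_on (p := fun K => ∃ B, FU b B ∧ K ⊆ B ∧ B ⊆ A) ?_ ?_ ?_ ?_
    · exact ⟨_, ⟨[], by simp, rfl⟩, empty_subset _, by simp⟩
    · rintro s t hst ⟨B, h1, h2, h3⟩
      exact ⟨B, h1, hst.trans h2, h3⟩
    · rintro s t ⟨B, h1, h2, h3⟩ ⟨B', h1', h2', h3'⟩
      exact ⟨B ∪ B', un _ _ h1 h1', union_subset_union h2 h2', union_subset h3 h3'⟩
    · intro x hx
      obtain ⟨B, h1, h2, h3⟩ := box_nhds (b := b) (hA.mem_nhds (hKA hx))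
      exact ⟨B, mem_nhdsWithin_of_mem_nhds ((box_open h1).mem_nhds h2), B,
        ⟨[B], by simpa using h1, by simp⟩, Subset.rfl, h3⟩
  have key : ∀ (n : ℕ) (l : List (Set E)), l.length = n → (∀ V ∈ l, Box b V) →
      P {x | ∃ V ∈ l, x ∈ V} := by
    intro n
    induction n with
    | zero =>
      intro l hl _
      rw [List.length_eq_zero_iff.1 hl]
      simpa using h0
    | succ n ih =>
      intro l hl hb
      obtain ⟨V, l', rfl⟩ := List.exists_cons_of_length_eq_add_one hl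
      have hl' : l'.length = n := by simpa using hl
      have hV := hb V (by simp)
      have hb' : ∀ W ∈ l', Box b W := fun W hW => hb W (by simp [hW])
      have e1 : {x | ∃ W ∈ V :: l', x ∈ W} = V ∪ {x | ∃ W ∈ l', x ∈ W} := by
        ext x; simp
      have e2 : V ∩ {x | ∃ W ∈ l', x ∈ W} = {x | ∃ W ∈ l'.map (V ∩ ·), x ∈ W} := by
        ext x
        simp only [mem_inter_iff, mem_ofPred_eq, List.mem_map]
        exact ⟨fun ⟨h, W, hW, hx⟩ => ⟨_, ⟨W, hW, rfl⟩, h, hx⟩,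
          fun ⟨_, ⟨W, hW, e⟩, hx⟩ => by subst e; exact ⟨hx.1, W, hW, hx.2⟩⟩
      rw [e1]
      refine h2 _ _ (box_open hV) (fu_open ⟨l', hb', rfl⟩) (h1 V hV) (ih l' hl' hb') ?_
      rw [e2]
      refine ih _ (by simpa using hl') fun W hW => ?_
      obtain ⟨W', hW', rfl⟩ := List.mem_map.1 hW
      exact box_inter hV (hb' W' hW')
  rintro _ ⟨l, hl, rfl⟩
  exact key _ l rfl hl

end Pool.Agent.MP_c8d41b_gt.GF
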