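import Mathlib.Topology.MetricSpace.HausdorffDimension
import Mathlib.MeasureTheory.Integral.IntervalIntegral.Basic
import Pool.Agent.MP_6d695c_gt.sw.Defs
import Pool.Agent.MP_c8d41b_gt.gf.Calc

/-! PROJECT GF: internal definitions and the statements of the rows. -/

open scoped ContDiff Topology
open Set Filter ExteriorAlgebra

noncomputable section

namespace Pool.Agent.MP_c8d41b_gt.GF

section General
variable {E E' : Type} [NormedAddCommGroup E] [NormedSpace ℝ E] [FiniteDimensional ℝ E]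
  [NormedAddCommGroup E'] [NormedSpace ℝ E'] [FiniteDimensional ℝ E'] {N : ℕ}

/-- homotopy operator of `H : ℝ × E' → E` on the time interval `[0, 1]` -/
def hK (H : ℝ × E' → E) (α : E → Lam E) (x : E') : Lam E' :=
  ∫ t in (0 : ℝ)..1, mp (fderiv ℝ (fun y => H (t, y)) x)
    (ctr (fderiv ℝ H (t, x) (1, 0)) (α (H (t, x))))

omit [FiniteDimensional ℝ E] in
theorem hK_eq_zero {H : ℝ × E' → E} {α : E → Lam E} {x : E'}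
    (h : ∀ t ∈ Icc (0 : ℝ) 1, α (H (t, x)) = 0) : hK H α x = 0 := by
  rw [hK, intervalIntegral.integral_congr (g := fun _ => 0) fun t ht => by
    rw [uIcc_of_le zero_le_one] at ht
    simp only [h t ht, map_zero]]
  simp

/-- smooth function of integral one vanishing outside `[lo, hi]` -/
structure Bump (e : ℝ → ℝ) (lo hi : ℝ) : Prop where
  sm : ContDiff ℝ ∞ e
  zero : ∀ t ∉ Icc lo hi, e t = 0
  int : ∫ t, e t = 1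

/-- bump form in the coordinates `l i` -/
def Phi {n : ℕ} (l : Fin n → E →L[ℝ] ℝ) (e : Fin n → ℝ → ℝ) (x : E) : Lam E :=
  (∏ i, e i (l i x)) • (List.ofFn fun i => ι ℝ (l i)).prod

/-- open coordinate box (possibly empty) -/
def Box (b : Module.Basis (Fin N) ℝ E) (U : Set E) : Prop :=
  ∃ lo hi : Fin N → ℝ, U = {x | ∀ i, lo i < b.repr x i ∧ b.repr x i < hi i}

/-- finite union of boxes -/
def FU (b : Module.Basis (Fin N) ℝ E) (U : Set E) : Prop :=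
  ∃ l : List (Set E), (∀ V ∈ l, Box b V) ∧ U = {x | ∃ V ∈ l, x ∈ V}

/-- Poincare duality on `U`: the cone of `Ω(U) → Ω_c(U)^*` is acyclic -/
def Cone (b : Module.Basis (Fin N) ℝ E) (U : Set E) : Prop :=
  ∀ (φ : (E → Lam E) →ₗ[ℝ] ℝ) (A : E → Lam E), ContDiffOn ℝ ∞ A U → (∀ x ∈ U, dd A x = 0) →
    (∀ α, Oc U α → -φ (dd fun x => inv (α x)) = itg b fun x => α x * A x) →
    ∃ (φ' : (E → Lam E) →ₗ[ℝ] ℝ) (A' : E → Lam E), ContDiffOn ℝ ∞ A' U ∧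
      (∀ x ∈ U, dd A' x = A x) ∧
      ∀ α, Oc U α → φ α = -φ' (dd fun x => inv (α x)) + itg b fun x => α x * A' x

/-- compactly supported cohomology of `U` is finite-dimensional -/
def FD (U : Set E) : Prop :=
  ∃ (n : ℕ) (v : Fin n → E → Lam E), (∀ i, Oc U (v i) ∧ dd (v i) = 0) ∧
    ∀ α, Oc U α → dd α = 0 → ∃ (c : Fin n → ℝ) (γ : E → Lam E), Oc U γ ∧
      α = ∑ i, c i • v i + dd γ

/-- relative form of duality -/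
def PDrel (b : Module.Basis (Fin N) ℝ E) (B' B : Set E) : Prop :=
  ∀ α, Oc B α → dd α = 0 →
    (∀ A β : E → Lam E, ContDiffOn ℝ ∞ A B → (∀ x ∈ B, dd A x = 0) → ContDiffOn ℝ ∞ β B' →
      (∀ x ∈ B', dd β x = A x) → (itg b fun x => α x * A x) = 0) →
    ∃ γ κ, Oc B γ ∧ Oc B' κ ∧ α = dd γ + κ

/-- partition of unity `ρ, 1 - ρ` on `U ∪ V` -/
structure Pou (U V : Set E) (ρ : E → ℝ) : Prop where
  sm : ContDiffOn ℝ ∞ ρ (U ∪ V)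
  zero : ∀ x ∈ V, x ∉ U → ρ =ᶠ[𝓝 x] fun _ => 0
  one : ∀ x ∈ U, x ∉ V → ρ =ᶠ[𝓝 x] fun _ => 1

/-- smooth forms of mixed degree whose support meets `C` in a compact set -/
structure F0 {K : ℕ} (G : E → Fin K → ℝ) (α : E → Lam E) : Prop where
  sm : ContDiff ℝ ∞ α
  cpt : IsCompact (tsupport α ∩ G ⁻¹' {0})

/-- properties of the integral -/
structure Stokes (b : Module.Basis (Fin N) ℝ E) : Prop where
  add : ∀ α β, Oc univ α → Oc univ β → itg b (α + β) = itg b α + itg b β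
  smul : ∀ (c : ℝ) α, itg b (c • α) = c * itg b α
  stokes : ∀ α, Oc univ α → itg b (dd α) = 0
  ibp : ∀ (U : Set E) α β, IsOpen U → Oc U α → ContDiffOn ℝ ∞ β U →
    (itg b fun x => dd α x * β x) = -itg b fun x => inv (α x) * dd β x
  lin : ∀ L : E ≃L[ℝ] E, ∃ s : ℝ, s ≠ 0 ∧ ∀ α, itg b (pb L α) = s * itg b α

end General

/-! ### General rows -/

/-- row HOMOT, part 1: integrals with parameters -/
def ParStmt : Prop :=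
  ∀ (X F : Type) [NormedAddCommGroup X] [NormedSpace ℝ X] [FiniteDimensional ℝ X]
    [NormedAddCommGroup F] [NormedSpace ℝ F] [CompleteSpace F] (f : ℝ × X → F) (U : Set (ℝ × X)) (a b : ℝ) (x₀ : X),
    IsOpen U → ContDiffOn ℝ ∞ f U → (∀ t ∈ uIcc a b, (t, x₀) ∈ U) →
    ContDiffAt ℝ ∞ (fun x => ∫ t in a..b, f (t, x)) x₀ ∧
      ∀ v, fderiv ℝ (fun x => ∫ t in a..b, f (t, x)) x₀ v =
        ∫ t in a..b, fderiv ℝ f (t, x₀) (0, v)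

/-- row HOMOT, part 2: the homotopy formula -/
def HomotStmt : Prop :=
  ∀ (E E' : Type) [NormedAddCommGroup E] [NormedSpace ℝ E] [FiniteDimensional ℝ E]
    [NormedAddCommGroup E'] [NormedSpace ℝ E'] [FiniteDimensional ℝ E'] (H : ℝ × E' → E)
    (α : E → Lam E) (U : Set E) (x : E'), ContDiff ℝ ∞ H → IsOpen U → ContDiffOn ℝ ∞ α U →
    (∀ t ∈ Icc (0 : ℝ) 1, H (t, x) ∈ U) →
    ContDiffAt ℝ ∞ (hK H α) x ∧
      pb (fun y => H (1, y)) α x - pb (fun y => H (0, y)) α x = dd (hK H α) x + hK H (dd α) x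

/-- row STOKES, part 1 -/
def StokesStmt : Prop :=
  ∀ (E : Type) [NormedAddCommGroup E] [NormedSpace ℝ E] [FiniteDimensional ℝ E] (N : ℕ)
    (b : Module.Basis (Fin N) ℝ E), Stokes b

/-- row STOKES, part 2: change of variables -/
def CovStmt : Prop :=
  ∀ (E E' : Type) [NormedAddCommGroup E] [NormedSpace ℝ E] [FiniteDimensional ℝ E]
    [NormedAddCommGroup E'] [NormedSpace ℝ E'] [FiniteDimensional ℝ E'] (N : ℕ)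
    (b : Module.Basis (Fin N) ℝ E) (b' : Module.Basis (Fin N) ℝ E') (Ξ : E' → E) (V : Set E')
    (α : E → Lam E), IsOpen V → ContDiffOn ℝ ∞ Ξ V → InjOn Ξ V →
    (∀ y ∈ V, 0 < b.det fun i => fderiv ℝ Ξ y (b' i)) → (∀ x ∉ Ξ '' V, α x = 0) →
    itg b α = itg b' (V.indicator (pb Ξ α))

/-- row FIB, part 1 -/
def BumpStmt : Prop :=
  (∀ lo hi : ℝ, lo < hi → ∃ e, Bump e lo hi) ∧
  (∀ s t : ℝ, s < t → ∃ ψ : ℝ → ℝ, ContDiff ℝ ∞ ψ ∧ (∀ r ≤ s, ψ r = 1) ∧ (∀ r ≥ t, ψ r = 0) ∧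
    ∀ r, 0 ≤ ψ r ∧ ψ r ≤ 1) ∧
  ∀ (E : Type) [NormedAddCommGroup E] [NormedSpace ℝ E] [FiniteDimensional ℝ E] (n : ℕ)
    (l : Fin n → E →L[ℝ] ℝ) (e : Fin n → ℝ → ℝ), (∀ i, ContDiff ℝ ∞ (e i)) →
    ContDiff ℝ ∞ (Phi l e) ∧ dd (Phi l e) = 0 ∧ ∀ x, Phi l e x ∈ dg E n

/-- row FIB, part 2: integration along the fibre directions `w i` -/
def FibStmt : Prop :=
  ∀ (E : Type) [NormedAddCommGroup E] [NormedSpace ℝ E] [FiniteDimensional ℝ E] (n : ℕ)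
    (l : Fin n → E →L[ℝ] ℝ) (w : Fin n → E) (lo hi : Fin n → ℝ) (e : Fin n → ℝ → ℝ)
    (α : E → Lam E) (O : Set E), (∀ i j, l i (w j) = if i = j then 1 else 0) →
    (∀ i, Bump (e i) (lo i) (hi i)) → ContDiff ℝ ∞ α →
    (∀ x i, l i x ∉ Icc (lo i) (hi i) → α x = 0) →
    (∀ x ∈ O, ∀ i (t : ℝ), x + t • w i ∈ O) → (∀ x ∈ O, dd α x = 0) →
    ∃ σ γ : E → Lam E, ContDiff ℝ ∞ σ ∧ ContDiff ℝ ∞ γ ∧
      (∀ x ∈ O, α x = Phi l e x * σ x + dd γ x ∧ dd σ x = 0) ∧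
      (∀ x i (t : ℝ), σ (x + t • w i) = σ x) ∧ (∀ x i, ctr (w i) (σ x) = 0) ∧
      (∀ x i, l i x ∉ Icc (lo i) (hi i) → γ x = 0) ∧
      ∀ x, (∀ c : Fin n → ℝ, α (x + ∑ i, c i • w i) = 0) → σ x = 0 ∧ γ x = 0

/-- row BOX -/
def BoxStmt : Prop :=
  ∀ (E : Type) [NormedAddCommGroup E] [NormedSpace ℝ E] [FiniteDimensional ℝ E] (N : ℕ)
    (b : Module.Basis (Fin N) ℝ E) (U : Set E), Box b U → Cone b U ∧ FD U

/-- row POU, part 1 -/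
def PouStmt : Prop :=
  ∀ (E : Type) [NormedAddCommGroup E] [NormedSpace ℝ E] [FiniteDimensional ℝ E] (U V : Set E),
    IsOpen U → IsOpen V → ∃ ρ, Pou U V ρ ∧
      (∀ α, Oc (U ∪ V) α → Oc U (fun x => ρ x • α x) ∧ Oc V fun x => (1 - ρ x) • α x) ∧
      (∀ α, Oc V α → Oc (U ∩ V) fun x => ρ x • α x) ∧
      ∀ α, Oc U α → Oc (U ∩ V) fun x => (1 - ρ x) • α x

/-- row POU, part 2: finite unions of boxes -/
def FUStmt : Prop :=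
  ∀ (E : Type) [NormedAddCommGroup E] [NormedSpace ℝ E] [FiniteDimensional ℝ E] (N : ℕ)
    (b : Module.Basis (Fin N) ℝ E),
    (∀ U, FU b U → IsOpen U) ∧ (∀ U V, FU b U → FU b V → FU b (U ∪ V)) ∧
    (∀ K A : Set E, IsCompact K → IsOpen A → K ⊆ A → ∃ B, FU b B ∧ K ⊆ B ∧ B ⊆ A) ∧
    ∀ P : Set E → Prop, P ∅ → (∀ U, Box b U → P U) →
      (∀ U V, IsOpen U → IsOpen V → P U → P V → P (U ∩ V) → P (U ∪ V)) → ∀ U, FU b U → P U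

/-- row MV -/
def MVStmt : Prop :=
  ∀ (E : Type) [NormedAddCommGroup E] [NormedSpace ℝ E] [FiniteDimensional ℝ E] (N : ℕ)
    (b : Module.Basis (Fin N) ℝ E) (U V : Set E), IsOpen U → IsOpen V →
    Cone b U → Cone b V → Cone b (U ∩ V) → Cone b (U ∪ V)

/-- row FDMV, part 1 -/
def FDMVStmt : Prop :=
  ∀ (E : Type) [NormedAddCommGroup E] [NormedSpace ℝ E] [FiniteDimensional ℝ E] (U V : Set E),
    IsOpen U → IsOpen V → FD U → FD V → FD (U ∩ V) → FD (U ∪ V)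

/-- row FDMV, part 2: duality and finiteness for finite unions of boxes -/
def PDStmt : Prop :=
  ∀ (E : Type) [NormedAddCommGroup E] [NormedSpace ℝ E] [FiniteDimensional ℝ E] (N : ℕ)
    (b : Module.Basis (Fin N) ℝ E),
    (∀ B' B, FU b B' → FU b B → B' ⊆ B → PDrel b B' B) ∧ ∀ B, FU b B → FD B

/-- row FLOW, part 1: bounded smooth fields have smooth global flows -/
def FlowStmt : Prop :=
  ∀ (X : Type) [NormedAddCommGroup X] [NormedSpace ℝ X] [FiniteDimensional ℝ X] (f : X → X)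
    (C : ℝ), ContDiff ℝ ∞ f → (∀ x, ‖f x‖ ≤ C) → ∃ fl, MP_6d695c_gt.SW.IsFlow f fl

/-- row FLOW, part 2: smooth right inverses -/
def RinvStmt : Prop :=
  ∀ (X F : Type) [NormedAddCommGroup X] [NormedSpace ℝ X] [FiniteDimensional ℝ X]
    [NormedAddCommGroup F] [NormedSpace ℝ F] [FiniteDimensional ℝ F],
    IsOpen {L : X →L[ℝ] F | Function.Surjective L} ∧
    ∃ Θ : (X →L[ℝ] F) → F →L[ℝ] X, ContDiffOn ℝ ∞ Θ {L | Function.Surjective L} ∧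
      ∀ L : X →L[ℝ] F, Function.Surjective L → L.comp (Θ L) = ContinuousLinearMap.id ℝ F

/-- row SARD: the easy case of Sard with parameters -/
def SardStmt : Prop :=
  ∀ (A P F : Type) [NormedAddCommGroup A] [NormedSpace ℝ A] [FiniteDimensional ℝ A]
    [NormedAddCommGroup P] [NormedSpace ℝ P] [FiniteDimensional ℝ P]
    [NormedAddCommGroup F] [NormedSpace ℝ F] [FiniteDimensional ℝ F] (O : Set A) (u : A → F)
    (T : A → P →L[ℝ] F), IsOpen O → ContDiffOn ℝ ∞ u O → ContDiffOn ℝ ∞ T O →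
    (∀ a ∈ O, Function.Surjective (T a)) → Module.finrank ℝ A < Module.finrank ℝ F →
    dimH {c : P | ∃ a ∈ O, u a + T a c = 0} ≤ ((Module.finrank ℝ P - 1 : ℕ) : ENNReal)

/-- row CHART, part 1: positive charts exist -/
def ChartStmt : Prop :=
  ∀ (E : Type) [NormedAddCommGroup E] [NormedSpace ℝ E] [FiniteDimensional ℝ E] (K d : ℕ)
    (G : E → Fin K → ℝ) (J : E ≃L[ℝ] (Fin d → ℝ) × (Fin K → ℝ)) (x : E), 1 ≤ d →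
    ContDiff ℝ ∞ G → Reg G → G x = 0 →
    ∃ φ V, Chart G J φ V ∧ ∃ W : Set E, IsOpen W ∧ x ∈ W ∧ W ∩ G ⁻¹' {0} ⊆ φ '' V

/-- row CHART, part 2: the integral is unique -/
def UniqStmt : Prop :=
  ∀ (E : Type) [NormedAddCommGroup E] [NormedSpace ℝ E] [FiniteDimensional ℝ E] (K d κ : ℕ)
    (G : E → Fin K → ℝ) (J : E ≃L[ℝ] (Fin d → ℝ) × (Fin K → ℝ))
    (B B' : (E → Lam E) → (E → Lam E) → ℝ), 1 ≤ d → ContDiff ℝ ∞ G → Reg G →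
    IsInt G J κ B → IsInt G J κ B' → ∀ α β, Fm G κ α → Fm G κ β → B α β = B' α β

/-- row LIN: linear algebra -/
def LinStmt : Prop :=
  ∀ (Z : Type) [AddCommGroup Z] [Module ℝ Z] (q : Z →ₗ[ℝ] Z →ₗ[ℝ] ℝ) (R Λ : Submodule ℝ Z),
    (∀ x y, q x y = q y x) → FiniteDimensional ℝ (Z ⧸ R) → (∀ x ∈ R, ∀ y, q x y = 0) →
    (∀ x ∈ Λ, ∀ y ∈ Λ, q x y = 0) → (∀ x, (∀ y ∈ Λ, q x y = 0) → x ∈ Λ) →
    ∃ n, IsGreatest {m | ∃ v : Fin m → Z, ∀ c : Fin m → ℝ, c ≠ 0 →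
        0 < 1 * q (∑ i, c i • v i) (∑ i, c i • v i)} n ∧
      IsGreatest {m | ∃ v : Fin m → Z, ∀ c : Fin m → ℝ, c ≠ 0 →
        0 < -1 * q (∑ i, c i • v i) (∑ i, c i • v i)} n

/-! ### The doubled space -/

/-- points `((r, y), s)` -/
abbrev XX (Y : Type) (K : ℕ) : Type := (ℝ × Y) × (Fin K → ℝ)

section Core
variable {Y : Type} [NormedAddCommGroup Y] [NormedSpace ℝ Y] [FiniteDimensional ℝ Y] {K : ℕ}

/-- square of the Euclidean norm -/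
def nq (y : Fin K → ℝ) : ℝ := ∑ i, y i ^ 2

/-- the involution -/
def tau : XX Y K ≃L[ℝ] XX Y K :=
  (ContinuousLinearEquiv.refl ℝ _).prodCongr (ContinuousLinearEquiv.neg ℝ)

/-- the direction of `r` -/
def er : XX Y K := ((1, 0), 0)

def aa (Gt : XX Y K → Fin K → ℝ) (x : XX Y K) : Fin K → ℝ := Gt x + x.2
def bb (Gt : XX Y K → Fin K → ℝ) (x : XX Y K) : Fin K → ℝ := Gt x - x.2
def D0 (Gt : XX Y K → Fin K → ℝ) (x : XX Y K) : ℝ := nq (aa Gt x) - nq (bb Gt x)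
/-- equations of `C` -/
def G1 (Gt : XX Y K → Fin K → ℝ) (x : ℝ × Y) : Fin K → ℝ := Gt (x, 0)
/-- open tube -/
def TT (Gt : XX Y K → Fin K → ℝ) (R ρ : ℝ) : Set (XX Y K) :=
  {x | ‖x.1.2‖ < R ∧ nq (aa Gt x) + nq (bb Gt x) < ρ}
/-- closed tube -/
def TC (Gt : XX Y K → Fin K → ℝ) (R ρ : ℝ) : Set (XX Y K) :=
  {x | ‖x.1.2‖ < R ∧ nq (aa Gt x) + nq (bb Gt x) ≤ ρ}

/-- what the generating functions give -/
structure Pre (Gt : XX Y K → Fin K → ℝ) : Prop where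
  sm : ContDiff ℝ ∞ Gt
  even : ∀ x, Gt (tau x) = Gt x
  left : ∀ r ≤ 0, ∀ y s, Gt ((r, y), s) = Gt ((0, y), s)
  right : ∀ r ≥ 1, ∀ y s, Gt ((r, y), s) = Gt ((1, y), s)
  reg : Reg (G1 Gt)
  cz : ∃ R, ∀ x, G1 Gt x = 0 → ‖x.2‖ ≤ R
  bdd : ∃ K₁, ∀ x (t : ℝ), |D0 Gt (x + t • er) - D0 Gt x| ≤ K₁
  ends : ∀ x, x.1.1 ≤ 0 ∨ 1 ≤ x.1.1 → fderiv ℝ (D0 Gt) x = 0 → Gt x = 0 ∧ x.2 = 0
  far : ∃ R m : ℝ, 0 < m ∧ ∀ x, R ≤ ‖(x.1.2, x.2)‖ → m ≤ ‖fderiv ℝ (D0 Gt) x‖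

/-- product structure of the tube -/
structure Tube (Gt : XX Y K → Fin K → ℝ) (R ν : ℝ) (π : XX Y K → ℝ × Y)
    (Ex : (ℝ × Y) × (Fin K → ℝ) × (Fin K → ℝ) → XX Y K) : Prop where
  pre : Pre Gt
  pos : 0 < ν
  closed : IsClosed (TC Gt R ν)
  cpt : ∀ ρ : ℝ, IsCompact (TC Gt R ν ∩ {x | |x.1.1| ≤ ρ})
  zero : ∀ c, G1 Gt c = 0 → ‖c.2‖ < R
  spi : ContDiff ℝ ∞ π
  sex : ContDiff ℝ ∞ Ex
  mem : ∀ x ∈ TT Gt R ν, G1 Gt (π x) = 0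
  expi : ∀ x ∈ TT Gt R ν, Ex (π x, aa Gt x, bb Gt x) = x
  ex : ∀ c a b, G1 Gt c = 0 → nq a + nq b < ν → ‖(Ex (c, a, b)).1.2‖ < R ∧
    aa Gt (Ex (c, a, b)) = a ∧ bb Gt (Ex (c, a, b)) = b ∧ π (Ex (c, a, b)) = c
  ex0 : ∀ c, G1 Gt c = 0 → Ex (c, 0, 0) = (c, 0)
  pitau : ∀ x ∈ TT Gt R ν, π (tau x) = π x
  near : ∃ L, ∀ x ∈ TT Gt R ν, |(π x).1 - x.1.1| ≤ L
  model : ∃ (ξ : XX Y K → XX Y K) (C : ℝ), ContDiff ℝ ∞ ξ ∧ (∀ x, ‖ξ x‖ ≤ C) ∧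
    ∀ x ∈ TT Gt R ν, fderiv ℝ (aa Gt) x (ξ x) = -aa Gt x ∧ fderiv ℝ (bb Gt) x (ξ x) = bb Gt x

/-- the perturbed difference function -/
structure Pert (Gt : XX Y K → Fin K → ℝ) (R ν : ℝ) (D : XX Y K → ℝ) : Prop where
  sm : ContDiff ℝ ∞ D
  odd : ∀ x, D (tau x) = -D x
  eq : ∀ x ∈ TT Gt R (ν / 2), D x = D0 Gt x
  bdd : ∃ K₁, ∀ x (t : ℝ), |D (x + t • er) - D x| ≤ K₁
  low : ∃ (ε m : ℝ) (Kc : Set (XX Y K)), 0 < ε ∧ 0 < m ∧ IsCompact Kc ∧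
    ∀ x ∉ TT Gt R (ν / 4), |D x| ≤ ε ∨ x ∉ Kc → m ≤ ‖fderiv ℝ D x‖

/-- the descending flow -/
structure Dyn (Gt : XX Y K → Fin K → ℝ) (R ν : ℝ) (D : XX Y K → ℝ) (fl : ℝ → XX Y K → XX Y K)
    (ε₀ K₁ : ℝ) : Prop where
  sm : ContDiff ℝ ∞ D
  odd : ∀ x, D (tau x) = -D x
  eq : ∀ x ∈ TT Gt R ν, D x = D0 Gt x
  bdd : ∀ x (t : ℝ), |D (x + t • er) - D x| ≤ K₁
  pos : 0 < ε₀
  le : 4 * ε₀ ≤ ν
  fsm : ContDiff ℝ ∞ fun q : ℝ × XX Y K => fl q.1 q.2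
  f0 : ∀ x, fl 0 x = x
  fadd : ∀ s t x, fl (s + t) x = fl s (fl t x)
  mono : ∀ x, ∀ t ≥ 0, D (fl t x) ≤ D x
  down : ∀ δ > 0, ∃ T ≥ 0, ∀ x, D x < ε₀ →
    D (fl T x) ≤ -ε₀ ∨ (fl T x ∈ TT Gt R ν ∧ ‖aa Gt (fl T x)‖ ≤ δ)
  far : ∀ c, ∀ ε > 0, ∃ ρ, ∃ T ≥ 0, ∀ x, ρ ≤ ‖x‖ → D x ≤ -ε → D (fl T x) ≤ -c

/-- bound for `nq` on the cube of size `h` -/
def m0 (K : ℕ) (h : ℝ) : ℝ := (K + 1) * h ^ 2

/-- cut-off functions -/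
structure Con (K : ℕ) (ε₀ h : ℝ) (e ψ : ℝ → ℝ) : Prop where
  pos : 0 < h
  le : 4 * m0 K h ≤ ε₀
  bump : Bump e (-h) h
  sm : ContDiff ℝ ∞ ψ
  one : ∀ t ≤ ε₀ + m0 K h, ψ t = 1
  zero : ∀ t ≥ ε₀ + 2 * m0 K h, ψ t = 0

/-- the bump form on the normal space -/
def PhiS (K : ℕ) (e : ℝ → ℝ) : (Fin K → ℝ) → Lam (Fin K → ℝ) :=
  Phi (fun i => ContinuousLinearMap.proj i) fun _ => e

/-- the Thom map along the descending directions -/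
def Th (Gt : XX Y K → Fin K → ℝ) (R : ℝ) (π : XX Y K → ℝ × Y) (e ψ : ℝ → ℝ)
    (α : ℝ × Y → Lam (ℝ × Y)) : XX Y K → Lam (XX Y K) :=
  {x : XX Y K | ‖x.1.2‖ < R}.indicator fun x =>
    ψ (nq (bb Gt x)) • (pb (aa Gt) (PhiS K e) x * pb π α x)

/-- the Thom map along all normal directions -/
def T2 (Gt : XX Y K → Fin K → ℝ) (R : ℝ) (π : XX Y K → ℝ × Y) (e : ℝ → ℝ)
    (α : ℝ × Y → Lam (ℝ × Y)) : XX Y K → Lam (XX Y K) :=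
  {x : XX Y K | ‖x.1.2‖ < R}.indicator fun x =>
    pb (aa Gt) (PhiS K e) x * pb (bb Gt) (PhiS K e) x * pb π α x

/-- the region of the local analysis -/
def OO (Gt : XX Y K → Fin K → ℝ) (R ε₀ h : ℝ) : Set (XX Y K) :=
  {x | ‖x.1.2‖ < R ∧ ‖aa Gt x‖ < 2 * h ∧ nq (bb Gt x) < ε₀}

/-- all data of the core argument -/
structure Dat (Y : Type) (K : ℕ) where
  Gt : XX Y K → Fin K → ℝ
  R : ℝ
  ν : ℝ
  π : XX Y K → ℝ × Y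
  Ex : (ℝ × Y) × (Fin K → ℝ) × (Fin K → ℝ) → XX Y K
  D : XX Y K → ℝ
  fl : ℝ → XX Y K → XX Y K
  ε₀ : ℝ
  K₁ : ℝ
  h : ℝ
  e : ℝ → ℝ
  ψ : ℝ → ℝ

structure Dat.Ok (P : Dat Y K) : Prop where
  tube : Tube P.Gt P.R P.ν P.π P.Ex
  dyn : Dyn P.Gt P.R P.ν P.D P.fl P.ε₀ P.K₁
  con : Con K P.ε₀ P.h P.e P.ψ

abbrev Dat.G (P : Dat Y K) : ℝ × Y → Fin K → ℝ := G1 P.Gt
abbrev Dat.th (P : Dat Y K) := Th P.Gt P.R P.π P.e P.ψ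
abbrev Dat.t2 (P : Dat Y K) := T2 P.Gt P.R P.π P.e
abbrev Dat.m (P : Dat Y K) : ℝ := m0 K P.h
abbrev Dat.lt (P : Dat Y K) (c : ℝ) : Set (XX Y K) := {x | P.D x < c}

/-- properties of the Thom maps -/
structure Thm (P : Dat Y K) : Prop where
  oc : ∀ α, F0 P.G α → Oc (P.lt P.m) (P.th α)
  dth : ∀ α, F0 P.G α → Closed P.G α → ∀ x, -P.ε₀ < P.D x → dd (P.th α) x = 0
  prj_th : ∀ κ α x, P.th (fun c => prj κ (α c)) x = prj (K + κ) (P.th α x)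
  prj_fm : ∀ κ α, F0 P.G α → Closed P.G α →
    Fm P.G κ (fun c => prj κ (α c)) ∧ Closed P.G fun c => prj κ (α c)
  add : ∀ α β, P.th (α + β) = P.th α + P.th β ∧ P.t2 (α + β) = P.t2 α + P.t2 β
  smul : ∀ (c : ℝ) α, P.th (c • α) = c • P.th α ∧ P.t2 (c • α) = c • P.t2 α
  pair : ∀ κ α β, Even κ → (∀ c, α c ∈ dg (ℝ × Y) κ) → ∀ x,
    P.th α x * pb tau (P.th β) x = P.t2 (fun c => α c * β c) x
  oc2 : ∀ α, F0 P.G α → Oc (TT P.Gt P.R P.ν) (P.t2 α)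
  supp2 : ∀ α x, P.t2 α x ≠ 0 → x ∈ TC P.Gt P.R (P.ν / 2)
  dt2 : ∀ α, F0 P.G α → Closed P.G α → dd (P.t2 α) = 0
  dpi : ∀ β, ContDiff ℝ ∞ β → Closed P.G β → ∀ x ∈ TT P.Gt P.R P.ν, dd (pb P.π β) x = 0
  mul2 : ∀ α β x, P.t2 (fun c => α c * β c) x = P.t2 α x * pb P.π β x

end Core

/-! ### Rows of the core argument -/

/-- row TUBE -/
def TubeStmt : Prop :=
  ∀ (Y : Type) [NormedAddCommGroup Y] [NormedSpace ℝ Y] [FiniteDimensional ℝ Y] (K : ℕ)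
    (Gt : XX Y K → Fin K → ℝ), Pre Gt →
    ∃ R ν π Ex, 0 < ν ∧ ∀ ν', 0 < ν' → ν' ≤ ν → Tube Gt R ν' π Ex

/-- row PERT -/
def PertStmt : Prop :=
  ∀ (Y : Type) [NormedAddCommGroup Y] [NormedSpace ℝ Y] [FiniteDimensional ℝ Y] (K : ℕ)
    (Gt : XX Y K → Fin K → ℝ) R ν π Ex, Tube Gt R ν π Ex → ∃ D, Pert Gt R ν D

/-- row DYN -/
def DynStmt : Prop :=
  ∀ (Y : Type) [NormedAddCommGroup Y] [NormedSpace ℝ Y] [FiniteDimensional ℝ Y] (K : ℕ)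
    (Gt : XX Y K → Fin K → ℝ) R ν π Ex D, Tube Gt R ν π Ex → Pert Gt R ν D →
    ∃ fl ε₀ K₁, Dyn Gt R (ν / 4) D fl ε₀ K₁

/-- row THM -/
def ThmStmt : Prop :=
  ∀ (Y : Type) [NormedAddCommGroup Y] [NormedSpace ℝ Y] [FiniteDimensional ℝ Y] (K : ℕ)
    (P : Dat Y K), P.Ok → Thm P

/-- row ISO -/
def IsoStmt : Prop :=
  ∀ (Y : Type) [NormedAddCommGroup Y] [NormedSpace ℝ Y] [FiniteDimensional ℝ Y] (K N : ℕ)
    (b : Module.Basis (Fin N) ℝ (XX Y K)) (D : XX Y K → ℝ) (K₁ m c : ℝ)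
    (α β : XX Y K → Lam (XX Y K)), (∀ x, D (tau x) = -D x) →
    (∀ x (t : ℝ), |D (x + t • er) - D x| ≤ K₁) → m + K₁ ≤ c →
    Oc {x | D x < m} α → Oc {x | D x < m} β → Oc {x | D x < -c} (dd α) →
    Oc {x | D x < -c} (dd β) → (itg b fun x => α x * pb tau β x) = 0

/-- row LOC, part 1: push down by the flow -/
def Loc1Stmt : Prop :=
  ∀ (Y : Type) [NormedAddCommGroup Y] [NormedSpace ℝ Y] [FiniteDimensional ℝ Y] (K : ℕ)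
    (P : Dat Y K), P.Ok → ∀ s, Oc (P.lt P.ε₀) s → dd s = 0 → ∀ δ > 0,
    ∃ s' γ, Oc univ s' ∧ dd s' = 0 ∧ Oc (P.lt P.ε₀) γ ∧ s = s' + dd γ ∧
      ∀ x, s' x ≠ 0 → P.D x ≤ -P.ε₀ ∨ (x ∈ TT P.Gt P.R P.ν ∧ ‖aa P.Gt x‖ ≤ δ)

/-- row LOC2: the local analysis -/
def Loc2Stmt : Prop :=
  ∀ (Y : Type) [NormedAddCommGroup Y] [NormedSpace ℝ Y] [FiniteDimensional ℝ Y] (K : ℕ)
    (P : Dat Y K), P.Ok → ∀ s, Oc univ s → dd s = 0 →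
    (∀ x ∈ OO P.Gt P.R P.ε₀ P.h, P.h / 2 < ‖aa P.Gt x‖ → s x = 0) →
    ∃ σ γ, F0 P.G σ ∧ Closed P.G σ ∧ ContDiff ℝ ∞ γ ∧
      (∀ x ∈ OO P.Gt P.R P.ε₀ P.h,
        s x = pb (aa P.Gt) (PhiS K P.e) x * pb P.π σ x + dd γ x) ∧
      (∀ x ∈ OO P.Gt P.R P.ε₀ P.h, P.h < ‖aa P.Gt x‖ → γ x = 0) ∧
      ∃ ρ : ℝ, ∀ x ∈ OO P.Gt P.R P.ε₀ P.h, ρ < |x.1.1| → γ x = 0

/-- row LOC, part 2 -/
def LocStmt : Prop :=
  ∀ (Y : Type) [NormedAddCommGroup Y] [NormedSpace ℝ Y] [FiniteDimensional ℝ Y] (K : ℕ)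
    (P : Dat Y K), P.Ok → ∀ s, Oc (P.lt P.ε₀) s → dd s = 0 →
    ∃ σ γ κ, F0 P.G σ ∧ Closed P.G σ ∧ Oc (P.lt P.ε₀) γ ∧ Oc (P.lt (-P.m)) κ ∧
      s = P.th σ + dd γ + κ

/-- row END -/
def EndStmt : Prop :=
  ∀ (Y : Type) [NormedAddCommGroup Y] [NormedSpace ℝ Y] [FiniteDimensional ℝ Y] (K N : ℕ)
    (b : Module.Basis (Fin N) ℝ (XX Y K)) (Gt : XX Y K → Fin K → ℝ) R ν D fl ε₀ K₁ (m c : ℝ)
    (S : Set (XX Y K)), Dyn Gt R ν D fl ε₀ K₁ → 0 < m → m < ε₀ → m ≤ c → IsCompact S →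
    (∀ x ∈ S, D x ≤ -ε₀) →
    ∃ B' B, FU b B' ∧ FU b B ∧ B' ⊆ B ∧ S ⊆ B ∧ B ⊆ {x | D x < -m} ∧ B' ⊆ {x | D x < -c} ∧
      ∀ A β : XX Y K → Lam (XX Y K), ContDiffOn ℝ ∞ A B → (∀ x ∈ B, dd A x = 0) →
        ContDiffOn ℝ ∞ β B' → (∀ x ∈ B', dd β x = A x) →
        ∃ η, Oc univ η ∧ (∀ x ∈ S, η x = A x) ∧ Oc {x | -ε₀ < D x ∧ D x < -m} (dd η)

/-- row INT -/
def IntStmt : Prop :=
  ∀ (Y : Type) [NormedAddCommGroup Y] [NormedSpace ℝ Y] [FiniteDimensional ℝ Y] (K d κ : ℕ)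
    (P : Dat Y K), P.Ok → ∀ J : (ℝ × Y) ≃L[ℝ] (Fin d → ℝ) × (Fin K → ℝ),
    ∃ b : Module.Basis (Fin (K + K + d)) ℝ (XX Y K),
      IsInt P.G J κ fun α β => itg b (P.t2 fun c => α c * β c)

/-- row FIN -/
def FinStmt : Prop :=
  ∀ (Y : Type) [NormedAddCommGroup Y] [NormedSpace ℝ Y] [FiniteDimensional ℝ Y] (K : ℕ)
    (P : Dat Y K), P.Ok → ∃ (n : ℕ) (v : Fin n → XX Y K → Lam (XX Y K)),
    ∀ α, F0 P.G α → Closed P.G α → ∃ (c : Fin n → ℝ) (γ : XX Y K → Lam (XX Y K)),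
      Oc (TT P.Gt P.R P.ν) γ ∧ P.t2 α = ∑ i, c i • v i + dd γ

/-- the Lagrangian -/
def InLam {Y : Type} [NormedAddCommGroup Y] [NormedSpace ℝ Y] [FiniteDimensional ℝ Y] {K : ℕ}
    (P : Dat Y K) (α : ℝ × Y → Lam (ℝ × Y)) : Prop :=
  ∃ κ, Oc (P.lt (-P.m)) κ ∧ Oc (P.lt (-(P.m + P.K₁))) (dd (P.th α - κ))

/-- row LAG: the subspace `InLam` is its own orthogonal complement -/
def LagStmt : Prop :=
  ∀ (Y : Type) [NormedAddCommGroup Y] [NormedSpace ℝ Y] [FiniteDimensional ℝ Y] (K κ : ℕ)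
    (P : Dat Y K), P.Ok → Even κ → ∀ b : Module.Basis (Fin (K + K + 2 * κ)) ℝ (XX Y K),
    (∀ α β, Fm P.G κ α → Fm P.G κ β → InLam P α → InLam P β →
      itg b (P.t2 fun c => α c * β c) = 0) ∧
    ∀ α, Fm P.G κ α → Closed P.G α →
      (∀ β, Fm P.G κ β → Closed P.G β → InLam P β → itg b (P.t2 fun c => α c * β c) = 0) →
      InLam P α

/-- row CORE, part 1 -/
def SigStmt : Prop :=
  ∀ (Y : Type) [NormedAddCommGroup Y] [NormedSpace ℝ Y] [FiniteDimensional ℝ Y] (K κ : ℕ)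
    (P : Dat Y K), P.Ok → Even κ → 1 ≤ κ → SigZero P.G κ

/-- row CORE, part 2 -/
def CoreStmt : Prop :=
  ∀ (Y : Type) [NormedAddCommGroup Y] [NormedSpace ℝ Y] [FiniteDimensional ℝ Y] (K κ : ℕ)
    (Gt : XX Y K → Fin K → ℝ), Pre Gt → Even κ → 1 ≤ κ → SigZero (G1 Gt) κ

/-! ### From generating functions to the core -/

section Geo
variable {p q k : ℕ}

/-- the fibre part of `s` -/
def s1 (s : Fin (k + q) → ℝ) : Fin k → ℝ := fun i => s (Fin.castAdd q i)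

/-- `Gt` is the Hadamard quotient of the difference function -/
structure GtOf (g : (Fin p → ℝ) → Fin q → ℝ) (F : ℝ × Tot p k → ℝ)
    (Gt : XX (Tot p k) (k + q) → Fin (k + q) → ℝ) : Prop where
  sm : ContDiff ℝ ∞ Gt
  even : ∀ x, Gt (tau x) = Gt x
  left : ∀ r ≤ 0, ∀ y s, Gt ((r, y), s) = Gt ((0, y), s)
  right : ∀ r ≥ 1, ∀ y s, Gt ((r, y), s) = Gt ((1, y), s)
  zero : G1 Gt = cob g F
  diff : ∀ r z u s, D0 Gt ((r, z, u), s) =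
    2 * (F (r, z, u + s1 s) - F (r, z, u - s1 s)) + 4 * ∑ i, s (Fin.natAdd k i) * g z i

/-- a path whose variation is bounded everywhere -/
structure Path2 (g : (Fin p → ℝ) → Fin q → ℝ) (F : ℝ × Tot p k → ℝ) (f₀ f₁ : Tot p k → ℝ) :
    Prop where
  sm : ContDiff ℝ ∞ F
  left : ∀ r ≤ 0, ∀ y, F (r, y) = f₀ y
  right : ∀ r ≥ 1, ∀ y, F (r, y) = f₁ y
  far : ∃ R m : ℝ, 0 < m ∧
    ∀ r y, ‖g y.1‖ < 1 / 2 → R ≤ ‖y.2‖ → m ≤ ‖dv (fun y => F (r, y)) y‖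
  bdd : ∃ K₀ : ℝ, ∀ r y, |F (r, y) - f₀ y| ≤ K₀

end Geo

/-- row GEOA -/
def GeoAStmt : Prop :=
  ∀ (p q k : ℕ) (g : (Fin p → ℝ) → Fin q → ℝ) (F : ℝ × Tot p k → ℝ) f₀ f₁,
    ContDiff ℝ ∞ g → Path2 g F f₀ f₁ → ∃ Gt, GtOf g F Gt

/-- row GEOB -/
def GeoBStmt : Prop :=
  ∀ (p q k : ℕ) (g : (Fin p → ℝ) → Fin q → ℝ) (F : ℝ × Tot p k → ℝ) f₀ f₁ Gt,
    Base g → Gen g f₀ → Gen g f₁ → Path2 g F f₀ f₁ → Reg (cob g F) → GtOf g F Gt → Pre Gt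

/-- row GEOC, part 1: cut off away from `M` -/
def GeoCStmt : Prop :=
  ∀ (p q k : ℕ) (g : (Fin p → ℝ) → Fin q → ℝ) (F : ℝ × Tot p k → ℝ) f₀ f₁,
    Base g → Gen g f₀ → Gen g f₁ → Path g F f₀ f₁ → Reg (cob g F) →
    ∃ (F' : ℝ × Tot p k → ℝ) (f₀' f₁' : Tot p k → ℝ), Gen g f₀' ∧ Gen g f₁' ∧ Path2 g F' f₀' f₁' ∧
      Reg (cob g F') ∧ ∀ κ, SigZero (cob g F') κ → SigZero (cob g F) κ

/-- row TRANS -/
def TransStmt : Prop :=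
  ∀ (p q k n : ℕ) (g : (Fin p → ℝ) → Fin q → ℝ) (F : ℝ × Tot p k → ℝ) f₀ f₁, 1 ≤ n → p = n + q →
    Base g → Gen g f₀ → Gen g f₁ → Path g F f₀ f₁ → ∃ F', Path g F' f₀ f₁ ∧ Reg (cob g F')

end Pool.Agent.MP_c8d41b_gt.GF
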